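import Mathlib
import Pool.Agent.Lib.H19C.GT1

/-! # SSN: the converse for Selmer groups at an inert prime: definitions of the global half (no sorry) -/

open NumberField IsDedekindDomain WeierstrassCurve

namespace SSN

open H55P (IQ Pt ac Dec Inert decS Nm Ram)
open H35P (WAB Ker tt)
open H55K (Tor CMA Dta GV ak cj xc yc Lft TFld)
open H55K.S
open H55R (Pl ord)
open H19C (SUs mem_SUs SUs_act)
open H13Y (guN)

/-- The additive maps from the integers of F to the units of L. -/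
structure HM (F : Type) [Field F] (L : Type) [Field L] where
  fn : 𝓞 F → Lˣ
  add' : ∀ a b, fn (a + b) = fn a * fn b

section

variable {F : Type} [Field F] {L : Type} [Field L]

/-- The value, as a unit. -/
def ev (f : HM F L) (a : 𝓞 F) : Lˣ := f.fn a

@[ext] theorem HM.ext {f g : HM F L} (h : ∀ a, ev f a = ev g a) : f = g := by
  cases f
  cases g
  congr
  exact funext h

/-- An element of HM from a map which is multiplicative. -/
def mkHM (v : 𝓞 F → Lˣ) (h : ∀ a b, v (a + b) = v a * v b) : HM F L := ⟨v, h⟩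

@[simp] theorem ev_mk (v : 𝓞 F → Lˣ) (h : ∀ a b, v (a + b) = v a * v b) (a : 𝓞 F) : ev (mkHM v h) a = v a := rfl

theorem ev_add (f : HM F L) (a b : 𝓞 F) : ev f (a + b) = ev f a * ev f b := f.add' a b

theorem ev_zero (f : HM F L) : ev f 0 = 1 := by
  have h := ev_add f 0 0
  rw [add_zero] at h
  exact left_eq_mul.1 h

theorem ev_neg (f : HM F L) (a : 𝓞 F) : ev f (-a) = (ev f a)⁻¹ := by
  have h := ev_add f (-a) a
  rw [neg_add_cancel, ev_zero] at h
  exact eq_inv_of_mul_eq_one_left h.symm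

theorem ev_sub (f : HM F L) (a b : 𝓞 F) : ev f (a - b) = ev f a / ev f b := by
  rw [sub_eq_add_neg, ev_add, ev_neg, div_eq_mul_inv]

theorem ev_natmul (f : HM F L) (n : ℕ) (a : 𝓞 F) : ev f ((n : 𝓞 F) * a) = ev f a ^ n := by
  induction n with
  | zero => rw [Nat.cast_zero, zero_mul, ev_zero, pow_zero]
  | succ n ih => rw [Nat.cast_succ, add_mul, one_mul, ev_add, ih, pow_succ]

theorem ev_intmul (f : HM F L) (n : ℤ) (a : 𝓞 F) : ev f ((n : 𝓞 F) * a) = ev f a ^ n := by
  obtain ⟨m, rfl | rfl⟩ := n.eq_nat_or_neg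
  · rw [Int.cast_natCast, ev_natmul, zpow_natCast]
  · rw [Int.cast_neg, Int.cast_natCast, neg_mul, ev_neg, ev_natmul, zpow_neg, zpow_natCast]

instance : Zero (HM F L) := ⟨⟨fun _ => 1, fun _ _ => (one_mul 1).symm⟩⟩

instance : Add (HM F L) := ⟨fun f g => ⟨fun a => ev f a * ev g a, fun a b => by
  rw [ev_add, ev_add]
  exact mul_mul_mul_comm _ _ _ _⟩⟩

instance : Neg (HM F L) := ⟨fun f => ⟨fun a => (ev f a)⁻¹, fun a b => by rw [ev_add, mul_inv]⟩⟩

instance : Sub (HM F L) := ⟨fun f g => f + -g⟩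

theorem add_ev (f g : HM F L) (a : 𝓞 F) : ev (f + g) a = ev f a * ev g a := rfl

theorem zero_ev (a : 𝓞 F) : ev (0 : HM F L) a = 1 := rfl

theorem neg_ev (f : HM F L) (a : 𝓞 F) : ev (-f) a = (ev f a)⁻¹ := rfl

theorem sub_ev (f g : HM F L) (a : 𝓞 F) : ev (f - g) a = ev f a * (ev g a)⁻¹ := rfl

instance : AddCommGroup (HM F L) where
  add_assoc f g h := HM.ext fun a => by rw [add_ev, add_ev, add_ev, add_ev, mul_assoc]
  zero_add f := HM.ext fun a => by rw [add_ev, zero_ev, one_mul]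
  add_zero f := HM.ext fun a => by rw [add_ev, zero_ev, mul_one]
  add_comm f g := HM.ext fun a => by rw [add_ev, add_ev, mul_comm]
  neg_add_cancel f := HM.ext fun a => by rw [add_ev, neg_ev, inv_mul_cancel, zero_ev]
  sub_eq_add_neg f g := rfl
  nsmul := nsmulRec
  zsmul := zsmulRec

theorem nsmul_ev (f : HM F L) (n : ℕ) (a : 𝓞 F) : ev (n • f) a = ev f a ^ n := by
  induction n with
  | zero => rw [zero_nsmul, zero_ev, pow_zero]
  | succ n ih => rw [succ_nsmul, add_ev, ih, pow_succ]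

theorem sum_ev {ι : Type} (s : Finset ι) (f : ι → HM F L) (a : 𝓞 F) : ev (∑ i ∈ s, f i) a = ∏ i ∈ s, ev (f i) a := by
  classical
  induction s using Finset.induction_on with
  | empty => rw [Finset.sum_empty, Finset.prod_empty, zero_ev]
  | insert i s hi ih => rw [Finset.sum_insert hi, Finset.prod_insert hi, add_ev, ih]

instance : SMul (𝓞 F) (HM F L) := ⟨fun a f => ⟨fun b => ev f (a * b), fun b c => by rw [mul_add, ev_add]⟩⟩

theorem smul_ev (a : 𝓞 F) (f : HM F L) (b : 𝓞 F) : ev (a • f) b = ev f (a * b) := rfl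

/-- The module structure: (a f)(b) = f (a b). -/
instance : Module (𝓞 F) (HM F L) where
  one_smul f := HM.ext fun b => by rw [smul_ev, one_mul]
  mul_smul a a' f := HM.ext fun b => by
    rw [smul_ev, smul_ev, smul_ev, mul_comm a a', mul_assoc]
  smul_zero a := HM.ext fun b => by rw [smul_ev, zero_ev, zero_ev]
  smul_add a f g := HM.ext fun b => by rw [smul_ev, add_ev, add_ev, smul_ev, smul_ev]
  add_smul a a' f := HM.ext fun b => by
    rw [smul_ev, add_ev, smul_ev, smul_ev, add_mul, ev_add]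
  zero_smul f := HM.ext fun b => by rw [smul_ev, zero_mul, ev_zero, zero_ev]

/-- The scalar n acts as the n-th power. -/
theorem nat_ev (n : ℕ) (f : HM F L) (b : 𝓞 F) : ev ((n : 𝓞 F) • f) b = ev f b ^ n := by
  rw [smul_ev, ev_natmul]

variable {N : Type} [Field N] [Algebra N L]

/-- The action of the Galois group on the values. -/
noncomputable def gf (g : Gal(L/N)) (f : HM F L) : HM F L := ⟨fun b => guN g (ev f b), fun b c => by rw [ev_add, map_mul]⟩

theorem gf_ev (g : Gal(L/N)) (f : HM F L) (b : 𝓞 F) : ev (gf g f) b = guN g (ev f b) := rfl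

theorem gf_add (g : Gal(L/N)) (f f' : HM F L) : gf g (f + f') = gf g f + gf g f' :=
  HM.ext fun b => by rw [gf_ev, add_ev, add_ev, map_mul, gf_ev, gf_ev]

theorem gf_smul (g : Gal(L/N)) (a : 𝓞 F) (f : HM F L) : gf g (a • f) = a • gf g f :=
  HM.ext fun b => by rw [gf_ev, smul_ev, smul_ev, gf_ev]

/-- The projection: the sum of r(g) g f. -/
noncomputable def PG [Fintype Gal(L/N)] (r : Gal(L/N) → 𝓞 F) (f : HM F L) : HM F L := ∑ g : Gal(L/N), r g • gf g f

theorem PG_ev [Fintype Gal(L/N)] (r : Gal(L/N) → 𝓞 F) (f : HM F L) (b : 𝓞 F) :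
    ev (PG r f) b = ∏ g : Gal(L/N), guN g (ev f (r g * b)) := by
  rw [PG, sum_ev]
  exact Finset.prod_congr rfl fun g _ => by rw [smul_ev, gf_ev]

end

section

variable {F : Type} [Field F] {L : Type} [Field L] {N : Type} [Field N] [Algebra N L] [NumberField L] [NumberField N]

/-- The maps with values in the units outside S. -/
def HS (F : Type) [Field F] (L : Type) [Field L] [NumberField L] [Algebra N L] (S : Finset (Pl N)) :
    Submodule (𝓞 F) (HM F L) where
  carrier := {f | ∀ a, ev f a ∈ SUs L S}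
  add_mem' := fun {f g} hf hg a => by
    rw [add_ev]
    exact (SUs L S).mul_mem (hf a) (hg a)
  zero_mem' := fun a => by
    rw [zero_ev]
    exact (SUs L S).one_mem
  smul_mem' := fun a f hf b => by
    rw [smul_ev]
    exact hf (a * b)

theorem mem_HS {S : Finset (Pl N)} {f : HM F L} : f ∈ HS F L S ↔ ∀ a, ev f a ∈ SUs L S := Iff.rfl

theorem gf_mem {S : Finset (Pl N)} (g : Gal(L/N)) {f : HM F L} (hf : f ∈ HS F L S) : gf g f ∈ HS F L S := by
  rw [mem_HS] at hf ⊢
  intro a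
  rw [gf_ev]
  exact SUs_act g (hf a)

theorem PG_mem [Fintype Gal(L/N)] (r : Gal(L/N) → 𝓞 F) {S : Finset (Pl N)} {f : HM F L} (hf : f ∈ HS F L S) :
    PG r f ∈ HS F L S :=
  Submodule.sum_mem _ fun g _ => Submodule.smul_mem _ _ (gf_mem g hf)

end

variable {F : Type} [Field F] [NumberField F] {A B : F} {Ω : Type} [Field Ω] [DecidableEq Ω]
  [Algebra F Ω]

/-- The class c has Kummer generators for the points a T₀ whose l-th powers are the values f(a) times l-th powers. -/
def KRI (act : 𝓞 F →+* AddMonoid.End (Pt (WAB A B) Ω)) (L : IntermediateField F Ω)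
    (e : Pt (WAB A B) Ω → Pt (WAB A B) Ω → Ω) (l : ℕ) (T₀ : Pt (WAB A B) Ω)
    (c : (Ω ≃ₐ[F] Ω) → Pt (WAB A B) Ω) (f : HM F L) : Prop :=
  ∀ a : 𝓞 F, H19C.KR L e l (act a T₀) (MonoidHom.id (L)ˣ) c (ev f a)

/-- χ describes the action of Gal(L/N) on the points killed by π. -/
structure Chi (act : 𝓞 F →+* AddMonoid.End (Pt (WAB A B) Ω)) (π : 𝓞 F) {N L : Type} [Field N] [Field L] [Algebra N L]
    [Algebra N Ω] [Algebra L Ω] (χ : Gal(L/N) → 𝓞 F) : Prop where
  act : ∀ (σ : Gal(L/N)) (s : Ω ≃ₐ[F] Ω), Lft σ s → ∀ R ∈ Tor act π, ac (WAB A B) s R = act (χ σ) R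
  mul : ∀ σ τ, π ∣ χ (σ * τ) - χ σ * χ τ
  one : π ∣ χ 1 - 1
  ne : ∀ σ, ¬ π ∣ χ σ
  inj : ∀ σ, π ∣ χ σ - 1 → σ = 1

end SSN
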