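import Mathlib
import Pool.Agent.Lib.SSN.D
import Pool.Agent.Lib.H55K.SPA2

/-! # SSN, chunk A0: the pairing, with the adjunction -/

open NumberField IsDedekindDomain WeierstrassCurve

namespace SSN

open H55P (IQ Pt ac Dec Inert decS Nm Ram)
open H35P (WAB Ker tt)
open H55K (Tor CMA Dta GV ak cj xc yc Lft TFld Abw exists_abw)
open H55K.S
open H55R (Pl ord smulP)
open H19B (DN mem_DN Cc CS mem_CS)
open H19C (SUs mem_SUs SUs_act CL mem_CL KR dl)
open H13S (Abv)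
open H13X (Dat IsTB DecN algNL JV)
open H13Y (guN)

variable {F : Type} [Field F] [NumberField F] [IQ F] {A B : F} {Om : ℂ} {Ω : Type} [Field Ω] [DecidableEq Ω]
  [Algebra F Ω] [IsAlgClosure F Ω] {j : Ω →+* ℂ} {act : 𝓞 F →+* AddMonoid.End (Pt (WAB A B) Ω)} {mo : Ideal (𝓞 F)}
  {ψ : Ideal (𝓞 F) →*₀ 𝓞 F}

variable {π : 𝓞 F} {l : ℕ} {e : Pt (WAB A B) Ω → Pt (WAB A B) Ω → Ω} {N N' L : IntermediateField F Ω}
  {c c' : (Ω ≃ₐ[F] Ω) → Pt (WAB A B) Ω} {V V₀ : ValuationSubring Ω} {T₀ : Pt (WAB A B) Ω}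

/-- Chunk A0 (S). PROOF. Copy the proof of H55K.S.exists_pairing (H55K/SPA2.lean, PA2_rho is available) word for word; the pairing constructed there is
e (act a T₀') (act b T₀) = Z (ρ (mk (cj a * b))) (he in that proof), T₀' a generator of Tor act (cj π), T₀ a generator of Tor act π (hgen, hgen').
Last clause: X = act a' T₀', T = act b T₀; act a X = act (a * a') T₀' (act_mul), act (cj a) T = act (cj a * b) T₀, and
cj (a * a') * b = cj a' * (cj a * b). -/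
theorem exists_pairing2 (π : 𝓞 F) (l : ℕ) (dta : Dta A B Om j act mo ψ l) (hπ : Prime π)
    (hd : π ∣ (l : 𝓞 F)) : ∃ e : Pt (WAB A B) Ω → Pt (WAB A B) Ω → Ω, Pairing A B act π l e ∧
      ∀ (a : 𝓞 F), ∀ X ∈ Tor act (cj π), ∀ T ∈ Tor act π, e (act a X) T = e X (act (cj a) T) := by
  classical
  have hA := dta.cma
  have hl := dta.prime
  have := Fact.mk hl
  have : NeZero l := ⟨hl.ne_zero⟩
  have hΩ : IsAlgClosed Ω := IsAlgClosure.isAlgClosed F
  have hc0 : CharZero Ω := charZero_of_injective_algebraMap (algebraMap F Ω).injective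
  obtain ⟨ζ, hζ⟩ := HasEnoughRootsOfUnity.exists_primitiveRoot Ω l
  obtain ⟨_, T₀, hT₀, hgen, hz⟩ := gi_gen hA π hπ
  obtain ⟨_, T₀', hT₀', hgen', hz'⟩ := gi_gen hA (cj π) (H55K.cj_prime hπ)
  obtain ⟨ρ, hρ⟩ := PA2_rho π l hl hπ hd
  -- the character
  set Z : ZMod l → Ω := fun z => ζ ^ z.val with hZ
  have Z_nat : ∀ n : ℕ, Z (n : ZMod l) = ζ ^ n := by
    intro n
    show ζ ^ (n : ZMod l).val = ζ ^ n
    rw [ZMod.val_natCast]
    conv_rhs => rw [← Nat.mod_add_div n l, pow_add, pow_mul, hζ.pow_eq_one, one_pow, mul_one]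
  have Z_add : ∀ x y : ZMod l, Z (x + y) = Z x * Z y := by
    intro x y
    have h1 : x + y = ((x.val + y.val : ℕ) : ZMod l) := by
      rw [Nat.cast_add, ZMod.natCast_zmod_val, ZMod.natCast_zmod_val]
    rw [h1, Z_nat, pow_add]
  have Z_root : ∀ x : ZMod l, Z x ^ l = 1 := by
    intro x
    show (ζ ^ x.val) ^ l = 1
    rw [← pow_mul, mul_comm, pow_mul, hζ.pow_eq_one, one_pow]
  have Z_one : ∀ x : ZMod l, Z x = 1 → x = 0 := by
    intro x hx
    have h1 : l ∣ x.val := (hζ.pow_eq_one_iff_dvd _).1 hx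
    have h2 : x.val < l := ZMod.val_lt x
    have h4 : x.val = 0 := Nat.eq_zero_of_dvd_of_lt h1 h2
    exact (ZMod.val_eq_zero x).1 h4
  have Z_cmul : ∀ (c : ℕ) (x : ZMod l), Z ((c : ZMod l) * x) = Z x ^ c := by
    intro c x
    have h1 : (c : ZMod l) * x = ((c * x.val : ℕ) : ZMod l) := by
      rw [Nat.cast_mul, ZMod.natCast_zmod_val]
    rw [h1, Z_nat]
    show _ = (ζ ^ x.val) ^ c
    rw [← pow_mul, mul_comm]
  have hmk : ∀ x y : 𝓞 F, π ∣ x - y → Ideal.Quotient.mk (Ideal.span {π}) x =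
      Ideal.Quotient.mk (Ideal.span {π}) y := by
    intro x y h
    rw [Ideal.Quotient.mk_eq_mk_iff_sub_mem, Ideal.mem_span_singleton]
    exact h
  have hact : ∀ a b : 𝓞 F, act a T₀ = act b T₀ → π ∣ a - b := by
    intro a b h
    rw [← hz, act_sub, h, sub_self]
  have hact' : ∀ a b : 𝓞 F, act a T₀' = act b T₀' → π ∣ cj a - cj b := by
    intro a b h
    rw [← map_sub, ← H55K.cj_dvd, ← hz', act_sub, h, sub_self]
  let e : Pt (WAB A B) Ω → Pt (WAB A B) Ω → Ω := fun X T =>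
    if h : ∃ a b : 𝓞 F, X = act a T₀' ∧ T = act b T₀ then
      Z (ρ (Ideal.Quotient.mk (Ideal.span {π}) (cj h.choose * h.choose_spec.choose))) else 1
  have he : ∀ a b : 𝓞 F, e (act a T₀') (act b T₀) =
      Z (ρ (Ideal.Quotient.mk (Ideal.span {π}) (cj a * b))) := by
    intro a b
    have h : ∃ a₁ b₁ : 𝓞 F, act a T₀' = act a₁ T₀' ∧ act b T₀ = act b₁ T₀ := ⟨a, b, rfl, rfl⟩
    show (if h : ∃ a₁ b₁ : 𝓞 F, act a T₀' = act a₁ T₀' ∧ act b T₀ = act b₁ T₀ then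
      Z (ρ (Ideal.Quotient.mk (Ideal.span {π}) (cj h.choose * h.choose_spec.choose))) else 1) = _
    rw [dif_pos h]
    obtain ⟨h1, h2⟩ := h.choose_spec.choose_spec
    have h4 := hact' _ _ h1
    have h6 := hact _ _ h2
    rw [map_mul (Ideal.Quotient.mk (Ideal.span {π})), map_mul (Ideal.Quotient.mk (Ideal.span {π})),
      ← hmk _ _ h4, ← hmk _ _ h6]
  have hT1 : T₀ ≠ 0 := by
    intro h
    have h1 := (hz 1).1 (by rw [act_one, h])
    exact hπ.not_isUnit (isUnit_of_dvd_one h1)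
  have hT1' : T₀' ≠ 0 := by
    intro h
    have h1 := (hz' 1).1 (by rw [act_one, h])
    exact (H55K.cj_prime hπ).not_isUnit (isUnit_of_dvd_one h1)
  refine ⟨e, ⟨?_, ?_, ?_, ?_, ?_⟩, ?_⟩
  · intro X hX X' hX' T hT
    obtain ⟨a, rfl⟩ := hgen' X hX
    obtain ⟨a', rfl⟩ := hgen' X' hX'
    obtain ⟨b, rfl⟩ := hgen T hT
    rw [← act_add, he, he, he, ← Z_add, ← map_add, ← map_add, map_add cj, add_mul]
  · intro X hX T hT T' hT'
    obtain ⟨a, rfl⟩ := hgen' X hX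
    obtain ⟨b, rfl⟩ := hgen T hT
    obtain ⟨b', rfl⟩ := hgen T' hT'
    rw [← act_add, he, he, he, ← Z_add, ← map_add, ← map_add, mul_add]
  · intro X hX T hT
    obtain ⟨a, rfl⟩ := hgen' X hX
    obtain ⟨b, rfl⟩ := hgen T hT
    rw [he]
    exact Z_root _
  · intro s X hX T hT
    obtain ⟨a', rfl⟩ := hgen' X hX
    obtain ⟨b, rfl⟩ := hgen T hT
    obtain ⟨a, ha⟩ := hgen _ (ac_mem hA s hT₀)
    obtain ⟨b₁, hb₁⟩ := hgen' _ (ac_mem hA s hT₀')
    have hs : (s ζ) ^ l = 1 := by rw [← map_pow, hζ.pow_eq_one, map_one]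
    obtain ⟨c, _, hc⟩ := hζ.eq_pow_of_pow_eq_one hs
    have h1 := char_id π l dta hπ hd ζ hζ s a b₁ c T₀ T₀' hT₀ hT1 hT₀' hT1' ha hb₁ hc.symm
    rw [ac_act hA, ac_act hA, ha, hb₁, ← act_mul, ← act_mul, he, he]
    have h2 : Ideal.Quotient.mk (Ideal.span {π}) (cj (a' * b₁) * (b * a)) =
        ((c : ℕ) : 𝓞 F ⧸ Ideal.span {π}) * Ideal.Quotient.mk (Ideal.span {π}) (cj a' * b) := by
      have h4 : cj (a' * b₁) * (b * a) = (cj b₁ * a) * (cj a' * b) := by
        rw [map_mul]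
        ring
      rw [h4, map_mul, hmk _ _ h1, map_natCast]
    rw [h2, ← nsmul_eq_mul, map_nsmul, nsmul_eq_mul, Z_cmul]
    show s (ζ ^ _) = _
    rw [map_pow, ← hc, ← pow_mul, mul_comm, pow_mul]
  · intro X hX h
    obtain ⟨a', rfl⟩ := hgen' X hX
    rw [hz', H55K.cj_dvd]
    by_contra hcon
    have hmax : (Ideal.span {π}).IsMaximal :=
      PrincipalIdealRing.isMaximal_of_irreducible hπ.irreducible
    let : Field (𝓞 F ⧸ Ideal.span {π}) := Ideal.Quotient.field _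
    have h1 : Ideal.Quotient.mk (Ideal.span {π}) (cj a') ≠ 0 := by
      rw [Ne, Ideal.Quotient.eq_zero_iff_mem, Ideal.mem_span_singleton]
      exact hcon
    obtain ⟨b, hb⟩ := Ideal.Quotient.mk_surjective (Ideal.Quotient.mk (Ideal.span {π}) (cj a'))⁻¹
    have h2 := h (act b T₀) (by
      rw [mem_Tor, ← act_mul, mul_comm, act_mul, mem_Tor.1 hT₀, map_zero])
    rw [he] at h2
    have h4 := Z_one _ h2
    rw [map_mul, hb, mul_inv_cancel₀ h1] at h4
    exact hρ h4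
  · intro a X hX T hT
    obtain ⟨a', rfl⟩ := hgen' X hX
    obtain ⟨b, rfl⟩ := hgen T hT
    rw [← act_mul, ← act_mul, he, he, map_mul cj]
    congr 3
    ring

end SSN
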