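import Mathlib
import Pool.Agent.Lib.H55K.RF

/-! # SSN, chunk L2: the ring of integers modulo an inert prime -/

open NumberField IsDedekindDomain

namespace SSN

open H55P (IQ Nm)
open H55K (ak cj)

section spl

/-- The two components of an additive map on a quadratic ring to a field. -/
theorem spl {R k : Type} [CommRing R] [Field k] (c : R ≃+* R) (ι : R →+* k) (g : R) (p : ℕ) (hp : (p : k) = 0)
    (hcc : c (c g) = g) (tr : ∃ t : ℤ, g + c g = t) (nm : ∃ n : ℤ, g * c g = n)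
    (bas : ∀ a : R, ∃ m n : ℤ, (p : R) ∣ a - (m + n * g)) (lam : R →+ k) (a : R) :
    lam (a * g) - ι (c g) * lam a = ι a * (lam g - ι (c g) * lam 1) ∧
      lam (a * g) - ι g * lam a = ι (c a) * (lam g - ι g * lam 1) := by
  obtain ⟨m, n, x, hx⟩ := bas a
  obtain ⟨t, ht⟩ := tr
  obtain ⟨N, hN⟩ := nm
  have hpx : ∀ y : R, lam ((p : R) * y) = 0 := fun y => by
    rw [← nsmul_eq_mul, map_nsmul, nsmul_eq_mul, hp, zero_mul]
  have hz : ∀ (z : ℤ) (y : R), lam ((z : R) * y) = (z : k) * lam y := fun z y => by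
    rw [← zsmul_eq_mul, map_zsmul, zsmul_eq_mul]
  have ha : a = m + n * g + (p : R) * x := by rw [← hx]; ring
  have e1 : lam a = m * lam 1 + n * lam g := by
    have h1 : a = (m : R) * 1 + n * g + (p : R) * x := by rw [mul_one]; exact ha
    rw [h1, map_add, map_add, hz, hz, hpx, add_zero]
  have e2 : lam (a * g) = m * lam g + n * (t * lam g - N * lam 1) := by
    have h1 : a * g = (m : R) * g + n * ((t : R) * g - (N : R) * 1) + (p : R) * (x * g) := by
      rw [ha, ← ht, ← hN]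
      ring
    rw [h1, map_add, map_add, hz, hz, hpx, add_zero, map_sub, hz, hz]
  have i1 : ι a = m + n * ι g := by
    rw [ha]
    simp [hp]
  have i2 : ι (c a) = m + n * ι (c g) := by
    rw [ha]
    simp [hp]
  have i3 : ι g + ι (c g) = t := by
    have h1 := congrArg ι ht
    simpa using h1
  have i4 : ι g * ι (c g) = N := by
    have h1 := congrArg ι hN
    simpa using h1
  rw [e1, e2, i1, i2]
  constructor
  · linear_combination (-(n : k) * lam g) * i3 + (n : k) * lam 1 * i4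
  · linear_combination (-(n : k) * lam g) * i3 + (n : k) * lam 1 * i4

end spl

variable {F : Type} [Field F] [NumberField F] [IQ F]

/-- A generator of the ring of integers modulo an inert prime. -/
theorem exists_gen {p : ℕ} (hp : p.Prime) (h2 : p ≠ 2) (hP : Prime (p : 𝓞 F)) :
    ∃ g : 𝓞 F, ¬ (p : 𝓞 F) ∣ g - cj g ∧ ∀ a : 𝓞 F, ∃ m n : ℤ, (p : 𝓞 F) ∣ a - (m + n * g) := by
  obtain ⟨g, hg⟩ : ∃ g : 𝓞 F, ¬ (p : 𝓞 F) ∣ g - cj g := by
    by_contra h
    push Not at h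
    exact H55K.TQ.rf_card hp h2 h
  refine ⟨g, hg, fun a => ?_⟩
  obtain ⟨d, hd⟩ : ∃ d : 𝓞 F, d = g - cj g := ⟨_, rfl⟩
  have hcd : cj d = -d := by
    rw [hd, map_sub, H55K.cj_cj]
    ring
  have hN : d * (-d) = (Nm d : 𝓞 F) := by
    rw [← hcd]
    exact H55K.mul_cj d
  have hpN : ¬ p ∣ 2 * Nm d := by
    intro h
    have h1 : (p : 𝓞 F) ∣ ((2 * Nm d : ℕ) : 𝓞 F) := by
      obtain ⟨c, hc⟩ := h
      exact ⟨c, by rw [hc]; push_cast; ring⟩
    push_cast at h1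
    rw [← hN] at h1
    rcases hP.dvd_or_dvd h1 with h3 | h3
    · have h4 : (p : 𝓞 F) ∣ ((2 : ℕ) : 𝓞 F) := by exact_mod_cast h3
      have h5 : Nat.Coprime p 2 := (Nat.coprime_primes hp Nat.prime_two).2 h2
      obtain ⟨u, v, huv⟩ := (Nat.isCoprime_iff_coprime.2 h5)
      apply hP.not_isUnit
      refine isUnit_of_dvd_one ?_
      have h6 : ((u * p + v * (2 : ℕ) : ℤ) : 𝓞 F) = ((1 : ℤ) : 𝓞 F) := congrArg _ huv
      push_cast at h6
      rw [← h6]
      exact dvd_add (dvd_mul_left _ _) (Dvd.dvd.mul_left (by exact_mod_cast h4) _)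
    · rcases hP.dvd_or_dvd h3 with h4 | h4
      · exact hg (hd ▸ h4)
      · exact hg (hd ▸ (dvd_neg.1 h4))
  obtain ⟨u, v, huv⟩ := (Nat.isCoprime_iff_coprime.2 ((Nat.Prime.coprime_iff_not_dvd hp).2 hpN))
  have huv' : (u : 𝓞 F) * p + v * (2 * (d * (-d))) = 1 := by
    have h6 : ((u * p + v * ((2 * Nm d : ℕ) : ℤ) : ℤ) : 𝓞 F) = ((1 : ℤ) : 𝓞 F) := congrArg _ huv
    push_cast at h6
    rw [hN]
    exact h6
  -- the coefficient n
  obtain ⟨t, ht⟩ := H55K.TQ.rf_tr ((a - cj a) * d)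
  have ht' : 2 * ((a - cj a) * d) = (t : 𝓞 F) := by
    rw [← ht, map_mul, map_sub, H55K.cj_cj, hcd]
    ring
  obtain ⟨n, hn⟩ : ∃ n : ℤ, n = -(v * t) := ⟨_, rfl⟩
  have h7 : (p : 𝓞 F) ∣ (a - cj a) - n * d := by
    refine ⟨(a - cj a) * u, ?_⟩
    rw [hn]
    push_cast
    rw [← ht']
    linear_combination (-(a - cj a)) * huv'
  obtain ⟨t', ht''⟩ := H55K.TQ.rf_tr (a - (n : 𝓞 F) * g)
  have h8 : (p : 𝓞 F) ∣ 2 * (a - n * g) - t' := by
    have e1 : 2 * (a - n * g) - t' = (a - cj a) - n * d := by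
      rw [← ht'', map_sub, map_mul, H55K.cj_int, hd]
      ring
    rw [e1]
    exact h7
  -- divide by 2
  obtain ⟨u', v', huv2⟩ := (Nat.isCoprime_iff_coprime.2 ((Nat.coprime_primes hp Nat.prime_two).2 h2))
  have huv3 : (u' : 𝓞 F) * p + v' * 2 = 1 := by
    have h6 : ((u' * p + v' * (2 : ℕ) : ℤ) : 𝓞 F) = ((1 : ℤ) : 𝓞 F) := congrArg _ huv2
    push_cast at h6
    exact h6
  refine ⟨v' * t', n, ?_⟩
  obtain ⟨x, hx⟩ := h8
  refine ⟨(u' : 𝓞 F) * (a - n * g) + (v' : 𝓞 F) * x, ?_⟩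
  push_cast
  linear_combination (-(a - n * g)) * huv3 + (v' : 𝓞 F) * hx

end SSN
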