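import Mathlib
import Pool.Agent.Lib.H19C.D
import Pool.Agent.Lib.H19C.FS
import Pool.Agent.Lib.H55K.D1

/-! # SSN: local classes with coefficients in E[p] at an inert prime p: definitions (no sorry)

X is the frame (H19C.Frm) of the field fixed by C = X.C, the subgroup of the decomposition group D (of a number field N) which fixes the points of order p
(X.D = X.E = X.C, the characters om and et are 1 on C). -/

open NumberField IsDedekindDomain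

namespace SSN

open H55P (Dec Inert IQ)
open H55K (ak cj)
open H19B (zt)
open H19C (Frm)

variable {F : Type} [Field F] [NumberField F] [IQ F] {Ω : Type} [Field Ω] [Algebra F Ω]

/-- The group D, the Frobenius element φ, the cyclotomic character om, the action al of D on the points of order p, an element g of 𝓞 F which generates 𝓞 F modulo p. -/
structure Fri (X : Frm F Ω) (D : Subgroup (Ω ≃ₐ[F] Ω)) (om : (Ω ≃ₐ[F] Ω) → ZMod X.p) (al : (Ω ≃ₐ[F] Ω) → 𝓞 F) (φ : Ω ≃ₐ[F] Ω) (q : ℕ)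
    (g : 𝓞 F) : Prop where
  ok : X.Ok
  eD : X.D = X.C
  eE : X.E = X.C
  le : X.C ≤ D
  nrm : ∀ s ∈ D, ∀ t ∈ X.C, s⁻¹ * t * s ∈ X.C
  inv : ∀ s ∈ D, ∀ x : Ω, X.V.valuation (s x) = X.V.valuation x
  zD : ∀ s ∈ D, s X.ζ = zt X.ζ (om s)
  phi : φ ∈ D
  q0 : 1 < q
  fro : ∀ x : Ω, X.V.valuation x ≤ 1 → X.V.valuation (φ x - x ^ q) < 1
  alC : ∀ s ∈ D, (s ∈ X.C ↔ (X.p : 𝓞 F) ∣ al s - 1)
  ine : Prime (X.p : 𝓞 F)
  gen : ¬ (X.p : 𝓞 F) ∣ g - cj g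
  bas : ∀ a : 𝓞 F, ∃ m n : ℤ, (X.p : 𝓞 F) ∣ a - (m + n * g)

/-- b z, z in 𝓞 F: a family of characters of C, additive in z, with the action of D. -/
structure Tf (X : Frm F Ω) (D : Subgroup (Ω ≃ₐ[F] Ω)) (om : (Ω ≃ₐ[F] Ω) → ZMod X.p) (al : (Ω ≃ₐ[F] Ω) → 𝓞 F)
    (b : 𝓞 F → (Ω ≃ₐ[F] Ω) → ZMod X.p) : Prop where
  tw : ∀ z, X.Tw (b z)
  ad : ∀ z z', ∀ t ∈ X.C, b (z + z') t = b z t + b z' t
  eq : ∀ s ∈ D, ∀ t ∈ X.C, ∀ z, om s * b z (s⁻¹ * t * s) = b (al s * z) t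

/-- The group of these families. -/
def BW (X : Frm F Ω) (D : Subgroup (Ω ≃ₐ[F] Ω)) (om : (Ω ≃ₐ[F] Ω) → ZMod X.p) (al : (Ω ≃ₐ[F] Ω) → 𝓞 F) :
    AddSubgroup (𝓞 F → (Ω ≃ₐ[F] Ω) → ZMod X.p) where
  carrier := {b | Tf X D om al b}
  zero_mem' := ⟨fun _ => X.TS.zero_mem, fun _ _ _ _ => by simp, fun _ _ _ _ _ => by simp⟩
  add_mem' := by
    rintro b b' ⟨h1, h2, h3⟩ ⟨h1', h2', h3'⟩
    refine ⟨fun z => X.TS.add_mem (h1 z) (h1' z), fun z z' t ht => ?_, fun s hs t ht z => ?_⟩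
    · simp only [Pi.add_apply]
      rw [h2 z z' t ht, h2' z z' t ht]
      ring
    · simp only [Pi.add_apply]
      rw [mul_add, h3 s hs t ht z, h3' s hs t ht z]
  neg_mem' := by
    rintro b ⟨h1, h2, h3⟩
    refine ⟨fun z => X.TS.neg_mem (h1 z), fun z z' t ht => ?_, fun s hs t ht z => ?_⟩
    · simp only [Pi.neg_apply]
      rw [h2 z z' t ht]
      ring
    · simp only [Pi.neg_apply]
      rw [mul_neg, h3 s hs t ht z]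

theorem mem_BW (X : Frm F Ω) (D : Subgroup (Ω ≃ₐ[F] Ω)) (om : (Ω ≃ₐ[F] Ω) → ZMod X.p) (al : (Ω ≃ₐ[F] Ω) → 𝓞 F)
    (b : 𝓞 F → (Ω ≃ₐ[F] Ω) → ZMod X.p) : b ∈ BW X D om al ↔ Tf X D om al b := Iff.rfl

/-- The families of level i. -/
def BF (X : Frm F Ω) (h : X.Ok) (D : Subgroup (Ω ≃ₐ[F] Ω)) (om : (Ω ≃ₐ[F] Ω) → ZMod X.p) (al : (Ω ≃ₐ[F] Ω) → 𝓞 F) (i : ℕ) :
    AddSubgroup (𝓞 F → (Ω ≃ₐ[F] Ω) → ZMod X.p) where
  carrier := {b | Tf X D om al b ∧ ∀ z, X.Fl i (b z)}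
  zero_mem' := ⟨(BW X D om al).zero_mem, fun _ => (H19C.TF X h i).zero_mem⟩
  add_mem' := fun h1 h2 => ⟨(BW X D om al).add_mem h1.1 h2.1, fun z => (H19C.TF X h i).add_mem (h1.2 z) (h2.2 z)⟩
  neg_mem' := fun h1 => ⟨(BW X D om al).neg_mem h1.1, fun z => (H19C.TF X h i).neg_mem (h1.2 z)⟩

theorem mem_BF (X : Frm F Ω) (h : X.Ok) (D : Subgroup (Ω ≃ₐ[F] Ω)) (om : (Ω ≃ₐ[F] Ω) → ZMod X.p) (al : (Ω ≃ₐ[F] Ω) → 𝓞 F) (i : ℕ)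
    (b : 𝓞 F → (Ω ≃ₐ[F] Ω) → ZMod X.p) : b ∈ BF X h D om al i ↔ Tf X D om al b ∧ ∀ z, X.Fl i (b z) := Iff.rfl

/-- The families which are trivial on the inertia group. -/
def BI (X : Frm F Ω) (D : Subgroup (Ω ≃ₐ[F] Ω)) (om : (Ω ≃ₐ[F] Ω) → ZMod X.p) (al : (Ω ≃ₐ[F] Ω) → 𝓞 F) :
    AddSubgroup (𝓞 F → (Ω ≃ₐ[F] Ω) → ZMod X.p) where
  carrier := {b | Tf X D om al b ∧ ∀ z, ∀ t ∈ X.C, Inert X.V t → b z t = 0}
  zero_mem' := ⟨(BW X D om al).zero_mem, fun _ _ _ _ => rfl⟩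
  add_mem' := fun h1 h2 => ⟨(BW X D om al).add_mem h1.1 h2.1, fun z t ht hi => by
    simp only [Pi.add_apply]
    rw [h1.2 z t ht hi, h2.2 z t ht hi, add_zero]⟩
  neg_mem' := fun h1 => ⟨(BW X D om al).neg_mem h1.1, fun z t ht hi => by
    simp only [Pi.neg_apply]
    rw [h1.2 z t ht hi, neg_zero]⟩

theorem mem_BI (X : Frm F Ω) (D : Subgroup (Ω ≃ₐ[F] Ω)) (om : (Ω ≃ₐ[F] Ω) → ZMod X.p) (al : (Ω ≃ₐ[F] Ω) → 𝓞 F)
    (b : 𝓞 F → (Ω ≃ₐ[F] Ω) → ZMod X.p) : b ∈ BI X D om al ↔ Tf X D om al b ∧ ∀ z, ∀ t ∈ X.C, Inert X.V t → b z t = 0 := Iff.rfl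

/-- The inertia group acts on w^i as on the points of order p. -/
def G1 (X : Frm F Ω) (D : Subgroup (Ω ≃ₐ[F] Ω)) (al : (Ω ≃ₐ[F] Ω) → 𝓞 F) (i : ℕ) : Prop :=
  ∀ s ∈ D, Inert X.V s → X.V.valuation ((s X.w / X.w) ^ i - ak Ω (al s)) < 1

/-- The inertia group acts on w^i through the conjugate of the action on the points of order p. -/
def G2 (X : Frm F Ω) (D : Subgroup (Ω ≃ₐ[F] Ω)) (al : (Ω ≃ₐ[F] Ω) → 𝓞 F) (i : ℕ) : Prop :=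
  ∀ s ∈ D, Inert X.V s → X.V.valuation ((s X.w / X.w) ^ i - ak Ω (cj (al s))) < 1

end SSN
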