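import Mathlib
import Pool.Agent.Lib.SSN.LD
import Pool.Agent.Lib.SSN.L2
import Pool.Agent.Lib.H19C.P1

/-! # SSN, chunk L1: leading coefficients and values of the Kummer generators of a family -/

open NumberField IsDedekindDomain

namespace SSN

open H55P (Dec Inert IQ)
open H55K (ak cj)
open H19B (zt zt_zero zt_add zt_neg zt_mul)
open H19C (Frm)

section one

variable {F : Type} [Field F] {Ω : Type} [Field Ω] [Algebra F Ω]

theorem kg_congr {X : Frm F Ω} {a a' : (Ω ≃ₐ[F] Ω) → ZMod X.p} {β : Ω} (hβ : X.Kg a β) (haa : ∀ t ∈ X.C, a t = a' t) : X.Kg a' β :=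
  ⟨hβ.ne, hβ.fx, fun t ht => by rw [hβ.ev t ht, haa t ht]⟩

/-- The quotient of two generators of the same character is fixed by E. -/
theorem kg_quot {X : Frm F Ω} (h : X.Ok) (hCE : X.E = X.C) {a a' : (Ω ≃ₐ[F] Ω) → ZMod X.p} (haa : ∀ t ∈ X.C, a t = a' t) {β β' : Ω}
    (hβ : X.Kg a β) (hβ' : X.Kg a' β') : ∀ s ∈ X.E, s (β * β'⁻¹) = β * β'⁻¹ := by
  intro s hs
  rw [hCE] at hs
  have h1 := (H19C.kg_mul X h hβ (H19C.kg_inv X h hβ')).ev s hs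
  rw [h1, Pi.add_apply, Pi.neg_apply, haa s hs, add_neg_cancel, zt_zero, one_mul]

/-- Uniqueness of the leading coefficient. -/
theorem lead_uniq {X : Frm F Ω} (h : X.Ok) (hCE : X.E = X.C) {a a' : (Ω ≃ₐ[F] Ω) → ZMod X.p} (haa : ∀ t ∈ X.C, a t = a' t) {β β' : Ω}
    (hβ : X.Kg a β) (hβ' : X.Kg a' β') {i : ℕ} (hi : ¬ X.p ∣ i) (hie : i * (X.p - 1) < X.e * X.p) {l l' : Ω}
    (hl : β ^ X.p - 1 = l * X.w ^ i) (hl' : β' ^ X.p - 1 = l' * X.w ^ i) (h1 : X.V.valuation l ≤ 1) (h1' : X.V.valuation l' ≤ 1) :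
    X.V.valuation (l - l') < 1 := by
  have hW0 : X.V.valuation X.w ≠ 0 := (Valuation.ne_zero_iff _).2 h.w0
  have hWip : 0 < X.V.valuation X.w ^ i := zero_lt_iff.2 (pow_ne_zero _ hW0)
  have hi0 : i ≠ 0 := by
    rintro rfl
    exact hi (dvd_zero _)
  have hWi1 : X.V.valuation X.w ^ i < 1 := pow_lt_one₀ zero_le h.w1 hi0
  have hb1 : X.V.valuation (β' ^ X.p) = 1 := by
    refine H19C.fs_one X ?_
    rw [hl', map_mul, map_pow]
    exact lt_of_le_of_lt (mul_le_of_le_one_left' h1') hWi1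
  have hb0 : β' ^ X.p ≠ 0 := pow_ne_zero _ hβ'.ne
  have e1 : (β * β'⁻¹) ^ X.p - 1 = ((l - l') * X.w ^ i) * (β' ^ X.p)⁻¹ := by
    have e2 : β ^ X.p - β' ^ X.p = (l - l') * X.w ^ i := by linear_combination hl - hl'
    rw [← e2, mul_pow, inv_pow]
    field_simp
  have e3 : X.V.valuation ((β * β'⁻¹) ^ X.p - 1) = X.V.valuation (l - l') * X.V.valuation X.w ^ i := by
    rw [e1, map_mul, map_inv₀, hb1, inv_one, mul_one, map_mul, map_pow]
  have h2 : X.V.valuation (l - l') ≤ 1 := (Valuation.map_sub _ _ _).trans (max_le h1 h1')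
  have h3 : X.V.valuation ((β * β'⁻¹) ^ X.p - 1) ≤ X.V.valuation X.w ^ i := by
    rw [e3]
    exact mul_le_of_le_one_left' h2
  have h4 := H19C.pow_claim X h (kg_quot h hCE haa hβ hβ') hi hie h3
  rw [e3] at h4
  exact lt_of_mul_lt_mul_right (h4.trans_le (by rw [one_mul])) hWip.le

/-- Uniqueness of the value modulo p. -/
theorem exp_uniq {X : Frm F Ω} (h : X.Ok) (hCE : X.E = X.C) {a a' : (Ω ≃ₐ[F] Ω) → ZMod X.p} (haa : ∀ t ∈ X.C, a t = a' t) {β β' : Ω}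
    (hβ : X.Kg a β) (hβ' : X.Kg a' β') {i i' : ℤ} (hi : X.V.valuation (β ^ X.p) = X.V.valuation X.w ^ i)
    (hi' : X.V.valuation (β' ^ X.p) = X.V.valuation X.w ^ i') : (i : ZMod X.p) = (i' : ZMod X.p) := by
  have hW0 : X.V.valuation X.w ≠ 0 := (Valuation.ne_zero_iff _).2 h.w0
  have hq0 : β * β'⁻¹ ≠ 0 := mul_ne_zero hβ.ne (inv_ne_zero hβ'.ne)
  obtain ⟨m, hm⟩ := h.val _ hq0 (kg_quot h hCE haa hβ hβ')
  have h1 : X.V.valuation X.w ^ (m * X.p) = X.V.valuation X.w ^ (i - i') := by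
    rw [zpow_mul, ← hm, zpow_natCast, ← map_pow, mul_pow, inv_pow, map_mul, map_inv₀, hi, hi', zpow_sub₀ hW0, div_eq_mul_inv]
  have h2 := H19C.k4_exp X h h1
  rw [← sub_eq_zero, ← Int.cast_sub, ← h2]
  push_cast
  rw [ZMod.natCast_self, mul_zero]

/-- Elements of the group D and the roots of unity. -/
theorem zt_map' {X : Frm F Ω} (h : X.Ok) {s : Ω ≃ₐ[F] Ω} {m : ZMod X.p} (hs : s X.ζ = zt X.ζ m) (a : ZMod X.p) :
    s (zt X.ζ a) = zt X.ζ (m * a) := by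
  have : NeZero X.p := ⟨h.pr.ne_zero⟩
  have h1 : s (zt X.ζ a) = (s X.ζ) ^ a.val := by rw [zt, map_pow]
  rw [h1, hs, ← zt_mul h.pr h.prim, ZMod.natCast_zmod_val, mul_comm]

end one

variable {F : Type} [Field F] [NumberField F] [IQ F] {Ω : Type} [Field Ω] [Algebra F Ω] {X : Frm F Ω} {D : Subgroup (Ω ≃ₐ[F] Ω)}
  {om : (Ω ≃ₐ[F] Ω) → ZMod X.p} {al : (Ω ≃ₐ[F] Ω) → 𝓞 F} {φ : Ω ≃ₐ[F] Ω} {q : ℕ} {g : 𝓞 F} {b : 𝓞 F → (Ω ≃ₐ[F] Ω) → ZMod X.p}

/-- The image of a Kummer generator under an element of D. -/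
theorem kg_shift (hX : Fri X D om al φ q g) (hb : Tf X D om al b) {z : 𝓞 F} {β : Ω} (hβ : X.Kg (b z) β) {s : Ω ≃ₐ[F] Ω} (hs : s ∈ D) :
    X.Kg (b (al s * z)) (s β) := by
  have hc : ∀ u : Ω ≃ₐ[F] Ω, ∀ x : Ω, u (s x) = s ((s⁻¹ * u * s) x) := by
    intro u x
    have h3 : s * (s⁻¹ * u * s) = u * s := by group
    have h4 : (s * (s⁻¹ * u * s)) x = (u * s) x := by rw [h3]
    exact h4.symm
  refine ⟨(map_ne_zero s).2 hβ.ne, fun u hu => ?_, fun t ht => ?_⟩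
  · rw [← map_pow s, hc u, hβ.fx _ (by rw [hX.eE]; exact hX.nrm s hs u (hX.eE ▸ hu))]
  · rw [hc t, hβ.ev _ (hX.nrm s hs t ht), map_mul, zt_map' hX.ok (hX.zD s hs), hb.eq s hs t ht z]

end SSN
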