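import Mathlib
import Pool.Agent.Lib.SSN.L1
import Pool.Agent.Lib.H55K.G1

/-! # SSN, chunk L3: the leading coefficients of a family -/

open NumberField IsDedekindDomain

namespace SSN

open H55P (Dec Inert IQ)
open H55K (ak cj)
open H19B (zt zt_zero zt_add zt_neg zt_mul)
open H19C (Frm)

section one

variable {Ω : Type} [Field Ω]

theorem res_iff {V : ValuationSubring Ω} (x : V) : IsLocalRing.residue V x = 0 ↔ V.valuation (x : Ω) < 1 :=
  (IsLocalRing.residue_eq_zero_iff x).trans (ValuationSubring.valuation_lt_one_iff _ x)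

theorem res_eq {V : ValuationSubring Ω} (x y : V) : IsLocalRing.residue V x = IsLocalRing.residue V y ↔ V.valuation ((x : Ω) - y) < 1 := by
  rw [← sub_eq_zero, ← map_sub, res_iff]
  rfl

end one

variable {F : Type} [Field F] [NumberField F] [IQ F] {Ω : Type} [Field Ω] [Algebra F Ω] {X : Frm F Ω} {D : Subgroup (Ω ≃ₐ[F] Ω)}
  {om : (Ω ≃ₐ[F] Ω) → ZMod X.p} {al : (Ω ≃ₐ[F] Ω) → 𝓞 F} {φ : Ω ≃ₐ[F] Ω} {q : ℕ} {g : 𝓞 F} {b : 𝓞 F → (Ω ≃ₐ[F] Ω) → ZMod X.p}

/-- The elements of 𝓞 F in V. -/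
noncomputable def akV (F : Type) [Field F] {Ω : Type} [Field Ω] [Algebra F Ω] (V : ValuationSubring Ω) : 𝓞 F →+* V :=
  ((algebraMap F Ω).comp (algebraMap (𝓞 F) F)).codRestrict V.toSubring
    (fun a => (V.valuation_le_one_iff _).1 (H55K.ak_le V a))

omit [NumberField F] [IQ F] in
theorem akV_val (V : ValuationSubring Ω) (a : 𝓞 F) : ((akV F V a : V) : Ω) = ak Ω a := rfl

theorem w_val (hX : Fri X D om al φ q g) {s : Ω ≃ₐ[F] Ω} (hs : s ∈ D) (i : ℕ) : X.V.valuation ((s X.w / X.w) ^ i) = 1 := by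
  rw [map_pow, map_div₀, hX.inv s hs, div_self ((Valuation.ne_zero_iff _).2 hX.ok.w0), one_pow]

/-- The leading coefficients of a family. -/
theorem lead_fam (hX : Fri X D om al φ q g) {i : ℕ} (hb : b ∈ BF X hX.ok D om al i) (hi : ¬ X.p ∣ i + 1)
    (hie : (i + 1) * (X.p - 1) < X.e * X.p) :
    ∃ (β : 𝓞 F → Ω) (L : 𝓞 F → X.V), (∀ z, X.Kg (b z) (β z) ∧ (β z) ^ X.p - 1 = (L z : Ω) * X.w ^ (i + 1)) ∧
      (∀ z z', IsLocalRing.residue X.V (L (z + z')) = IsLocalRing.residue X.V (L z) + IsLocalRing.residue X.V (L z')) ∧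
      ∀ s ∈ D, ∀ z, X.V.valuation ((L (al s * z) : Ω) - (s X.w / X.w) ^ (i + 1) * s (L z : Ω)) < 1 := by
  have h := hX.ok
  obtain ⟨hT, hF⟩ := hb
  have hw : X.w ^ (i + 1) ≠ 0 := pow_ne_zero _ h.w0
  have hW0 : X.V.valuation X.w ≠ 0 := (Valuation.ne_zero_iff _).2 h.w0
  have hWip : 0 < X.V.valuation X.w ^ (i + 1) := zero_lt_iff.2 (pow_ne_zero _ hW0)
  have hWi1 : X.V.valuation X.w ^ (i + 1) < 1 := H19C.fs_lt X h i
  have hex : ∀ z : 𝓞 F, ∃ (β : Ω) (l : X.V), X.Kg (b z) β ∧ β ^ X.p - 1 = (l : Ω) * X.w ^ (i + 1) := by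
    intro z
    obtain ⟨-, β, hβ, hβ'⟩ := hF z
    have hl : β ^ X.p - 1 = ((β ^ X.p - 1) / X.w ^ (i + 1)) * X.w ^ (i + 1) := (div_mul_cancel₀ _ hw).symm
    have h1 : X.V.valuation ((β ^ X.p - 1) / X.w ^ (i + 1)) ≤ 1 := by
      rw [map_div₀, map_pow]
      exact div_le_one_of_le₀ hβ' zero_le
    exact ⟨β, ⟨_, (ValuationSubring.valuation_le_one_iff _ _).1 h1⟩, hβ, hl⟩
  choose β L hβ hL using hex
  have hL1 : ∀ z, X.V.valuation (L z : Ω) ≤ 1 := fun z => (X.V.valuation_le_one_iff _).2 (L z).2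
  refine ⟨β, L, fun z => ⟨hβ z, hL z⟩, fun z z' => ?_, fun s hs z => ?_⟩
  · rw [← map_add, res_eq]
    push_cast
    have h1 := H19C.kg_mul X h (hβ z) (hβ z')
    have h2 : (β z * β z') ^ X.p - 1 = ((L z : Ω) + L z' + L z * L z' * X.w ^ (i + 1)) * X.w ^ (i + 1) := by
      rw [mul_pow]
      linear_combination (β z' ^ X.p) * hL z + (1 + (L z : Ω) * X.w ^ (i + 1)) * hL z' 
    have h4 : X.V.valuation ((L z : Ω) * L z' * X.w ^ (i + 1)) < 1 := by
      rw [map_mul, map_mul, map_pow]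
      exact lt_of_le_of_lt (mul_le_of_le_one_left' (mul_le_one' (hL1 z) (hL1 z'))) hWi1
    have h5 : X.V.valuation ((L z : Ω) + L z' + L z * L z' * X.w ^ (i + 1)) ≤ 1 :=
      Valuation.map_add_le _ (Valuation.map_add_le _ (hL1 z) (hL1 z')) h4.le
    have h3 := lead_uniq h hX.eE (fun t ht => hT.ad z z' t ht) (hβ (z + z')) h1 hi hie (hL (z + z')) h2 (hL1 _) h5
    have e1 : (L (z + z') : Ω) - (L z + L z') = ((L (z + z') : Ω) - ((L z : Ω) + L z' + L z * L z' * X.w ^ (i + 1))) +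
        (L z : Ω) * L z' * X.w ^ (i + 1) := by ring
    rw [e1]
    exact Valuation.map_add_lt _ h3 h4
  · have h1 := kg_shift hX hT (hβ z) hs
    have h2 : (s (β z)) ^ X.p - 1 = ((s X.w / X.w) ^ (i + 1) * s (L z : Ω)) * X.w ^ (i + 1) := by
      have e1 : s ((β z) ^ X.p - 1) = s ((L z : Ω) * X.w ^ (i + 1)) := by rw [hL z]
      rw [map_sub, map_pow, map_one, map_mul, map_pow] at e1
      rw [e1, div_pow]
      field_simp
    have h3 : X.V.valuation ((s X.w / X.w) ^ (i + 1) * s (L z : Ω)) ≤ 1 := by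
      rw [map_mul, w_val hX hs, one_mul, hX.inv s hs]
      exact hL1 z
    exact lead_uniq h hX.eE (fun t _ => rfl) (hβ (al s * z)) h1 hi hie (hL (al s * z)) h2 (hL1 _) h3

/-- The number p is zero in the residue field. -/
theorem res_p (hX : Fri X D om al φ q g) : ((X.p : ℕ) : IsLocalRing.ResidueField X.V) = 0 := by
  have h1 : X.V.valuation (((X.p : ℕ) : X.V) : Ω) < 1 := by
    have h2 := H19C.vp_lt X hX.ok
    push_cast
    exact h2
  have h3 := (res_iff ((X.p : ℕ) : X.V)).2 h1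
  rwa [map_natCast] at h3

/-- The components of the leading coefficients of a family. -/
theorem comp_fam (hX : Fri X D om al φ q g) {i : ℕ} (hb : b ∈ BF X hX.ok D om al i) (hi : ¬ X.p ∣ i + 1)
    (hie : (i + 1) * (X.p - 1) < X.e * X.p) :
    ∃ (β : 𝓞 F → Ω) (L : 𝓞 F → X.V) (lam : 𝓞 F →+ IsLocalRing.ResidueField X.V),
      (∀ z, X.Kg (b z) (β z) ∧ (β z) ^ X.p - 1 = (L z : Ω) * X.w ^ (i + 1) ∧ IsLocalRing.residue X.V (L z) = lam z) ∧
      ∀ s ∈ D, X.V.valuation (ak Ω (al s) * ((L g : Ω) - ak Ω (cj g) * L 1) -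
          (s X.w / X.w) ^ (i + 1) * s ((L g : Ω) - ak Ω (cj g) * L 1)) < 1 ∧
        X.V.valuation (ak Ω (cj (al s)) * ((L g : Ω) - ak Ω g * L 1) - (s X.w / X.w) ^ (i + 1) * s ((L g : Ω) - ak Ω g * L 1)) < 1 := by
  obtain ⟨β, L, h1, h2, h3⟩ := lead_fam hX hb hi hie
  obtain ⟨lam, hlam⟩ : ∃ lam : 𝓞 F →+ IsLocalRing.ResidueField X.V, ∀ z, lam z = IsLocalRing.residue X.V (L z) :=
    ⟨AddMonoidHom.mk' (fun z => IsLocalRing.residue X.V (L z)) h2, fun z => rfl⟩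
  refine ⟨β, L, lam, fun z => ⟨(h1 z).1, (h1 z).2, (hlam z).symm⟩, fun s hs => ?_⟩
  obtain ⟨m, n⟩ := spl (cj : 𝓞 F ≃+* 𝓞 F) ((IsLocalRing.residue X.V).comp (akV F X.V)) g X.p (res_p hX) (H55K.cj_cj g)
    (H55K.TQ.rf_tr g) ⟨(H55P.Nm g : ℤ), by rw [H55K.mul_cj]; push_cast; rfl⟩ hX.bas lam (al s)
  simp only [RingHom.comp_apply, hlam] at m n
  have a1 := h3 s hs 1
  have a2 := h3 s hs g
  rw [mul_one] at a1
  have hfix : ∀ a : 𝓞 F, s (ak Ω a) = ak Ω a := fun a => s.commutes _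
  have hle : ∀ a : 𝓞 F, X.V.valuation (ak Ω a) ≤ 1 := fun a => H55K.ak_le X.V a
  constructor
  · have m' : X.V.valuation ((L (al s * g) : Ω) - ak Ω (cj g) * L (al s) - ak Ω (al s) * ((L g : Ω) - ak Ω (cj g) * L 1)) < 1 := by
      have e1 := (res_eq (L (al s * g) - akV F X.V (cj g) * L (al s)) (akV F X.V (al s) * (L g - akV F X.V (cj g) * L 1))).1 (by
        simp only [map_sub, map_mul]
        exact m)
      push_cast at e1
      exact e1
    have e2 : ak Ω (al s) * ((L g : Ω) - ak Ω (cj g) * L 1) - (s X.w / X.w) ^ (i + 1) * s ((L g : Ω) - ak Ω (cj g) * L 1) =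
        -((L (al s * g) : Ω) - ak Ω (cj g) * L (al s) - ak Ω (al s) * ((L g : Ω) - ak Ω (cj g) * L 1)) +
          (((L (al s * g) : Ω) - (s X.w / X.w) ^ (i + 1) * s (L g : Ω)) -
            ak Ω (cj g) * ((L (al s) : Ω) - (s X.w / X.w) ^ (i + 1) * s (L 1 : Ω))) := by
      rw [map_sub, map_mul, hfix]
      ring
    rw [e2]
    refine Valuation.map_add_lt _ (by rw [Valuation.map_neg]; exact m') ?_
    refine lt_of_le_of_lt (Valuation.map_sub _ _ _) (max_lt a2 ?_)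
    rw [map_mul]
    exact lt_of_le_of_lt (mul_le_of_le_one_left' (hle _)) a1
  · have m' : X.V.valuation ((L (al s * g) : Ω) - ak Ω g * L (al s) - ak Ω (cj (al s)) * ((L g : Ω) - ak Ω g * L 1)) < 1 := by
      have e1 := (res_eq (L (al s * g) - akV F X.V g * L (al s)) (akV F X.V (cj (al s)) * (L g - akV F X.V g * L 1))).1 (by
        simp only [map_sub, map_mul]
        exact n)
      push_cast at e1
      exact e1
    have e2 : ak Ω (cj (al s)) * ((L g : Ω) - ak Ω g * L 1) - (s X.w / X.w) ^ (i + 1) * s ((L g : Ω) - ak Ω g * L 1) =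
        -((L (al s * g) : Ω) - ak Ω g * L (al s) - ak Ω (cj (al s)) * ((L g : Ω) - ak Ω g * L 1)) +
          (((L (al s * g) : Ω) - (s X.w / X.w) ^ (i + 1) * s (L g : Ω)) -
            ak Ω g * ((L (al s) : Ω) - (s X.w / X.w) ^ (i + 1) * s (L 1 : Ω))) := by
      rw [map_sub, map_mul, hfix]
      ring
    rw [e2]
    refine Valuation.map_add_lt _ (by rw [Valuation.map_neg]; exact m') ?_
    refine lt_of_le_of_lt (Valuation.map_sub _ _ _) (max_lt a2 ?_)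
    rw [map_mul]
    exact lt_of_le_of_lt (mul_le_of_le_one_left' (hle _)) a1

end SSN
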