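import Mathlib
import Pool.Agent.Lib.SSN.L3
import Pool.Agent.Lib.H55K.SD

/-! # SSN, chunk L4: the index of the unramified families -/

open NumberField IsDedekindDomain

namespace SSN

open H55P (Dec Inert IQ)
open H55K (ak cj)
open H19B (zt zt_zero zt_add zt_neg zt_mul rel_le rel_chain)
open H19C (Frm)

section one

/-- The solutions of c x^q = a x. -/
theorem roots_card {k : Type} [Field k] (c a : k) (hc : c ≠ 0) {q : ℕ} (hq : 1 < q) :
    ∃ R : Finset k, R.card ≤ q ∧ ∀ x, c * x ^ q = a * x → x ∈ R := by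
  classical
  obtain ⟨P, hP⟩ : ∃ P : Polynomial k, P = Polynomial.C c * Polynomial.X ^ q - Polynomial.C a * Polynomial.X := ⟨_, rfl⟩
  have hPd : P.natDegree = q := by
    rw [hP]
    apply Polynomial.natDegree_eq_of_degree_eq_some
    rw [Polynomial.degree_sub_eq_left_of_degree_lt]
    · exact Polynomial.degree_C_mul_X_pow _ hc
    · rw [Polynomial.degree_C_mul_X_pow _ hc]
      refine (Polynomial.degree_C_mul_X_le _).trans_lt ?_
      exact_mod_cast hq
  have hP0 : P ≠ 0 := by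
    intro h0
    rw [h0, Polynomial.natDegree_zero] at hPd
    omega
  refine ⟨P.roots.toFinset, ?_, fun x hx => ?_⟩
  · refine (Multiset.toFinset_card_le _).trans ?_
    rw [← hPd]
    exact Polynomial.card_roots' P
  · rw [Multiset.mem_toFinset, Polynomial.mem_roots hP0, Polynomial.IsRoot.def, hP]
    rw [Polynomial.eval_sub, Polynomial.eval_mul, Polynomial.eval_pow, Polynomial.eval_X, Polynomial.eval_mul, Polynomial.eval_C,
      Polynomial.eval_C, Polynomial.eval_X, hx, sub_self]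

end one

variable {F : Type} [Field F] [NumberField F] [IQ F] {Ω : Type} [Field Ω] [Algebra F Ω] {X : Frm F Ω} {D : Subgroup (Ω ≃ₐ[F] Ω)}
  {om : (Ω ≃ₐ[F] Ω) → ZMod X.p} {al : (Ω ≃ₐ[F] Ω) → 𝓞 F} {φ : Ω ≃ₐ[F] Ω} {q : ℕ} {g : 𝓞 F} {b : 𝓞 F → (Ω ≃ₐ[F] Ω) → ZMod X.p}

theorem bf_anti (hX : Fri X D om al φ q g) : Antitone (BF X hX.ok D om al) := fun _ _ hij _ hb =>
  ⟨hb.1, fun z => H19C.tf_anti X hX.ok hij (hb.2 z)⟩

/-- A component of the leading coefficients which satisfies the equations of the inertia group and of the Frobenius element. -/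
theorem comp_mem (hX : Fri X D om al φ q g) (a : (Ω ≃ₐ[F] Ω) → 𝓞 F) (i : ℕ) (G : Prop)
    (hG : ¬ G → ∃ s ∈ D, Inert X.V s ∧ ¬ X.V.valuation ((s X.w / X.w) ^ i - ak Ω (a s)) < 1) :
    ∃ R : Finset (IsLocalRing.ResidueField X.V), (G → R.card ≤ q) ∧ (¬ G → R.card ≤ 1) ∧
      ∀ x : X.V, (∀ s ∈ D, X.V.valuation (ak Ω (a s) * (x : Ω) - (s X.w / X.w) ^ i * s (x : Ω)) < 1) → IsLocalRing.residue X.V x ∈ R := by
  classical
  have hle : ∀ a : 𝓞 F, X.V.valuation (ak Ω a) ≤ 1 := fun a => H55K.ak_le X.V a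
  by_cases hg : G
  · obtain ⟨cV, hcV⟩ : ∃ cV : X.V, (cV : Ω) = (φ X.w / X.w) ^ i :=
      ⟨⟨_, (ValuationSubring.valuation_le_one_iff _ _).1 (w_val hX hX.phi i).le⟩, rfl⟩
    have hc0 : IsLocalRing.residue X.V cV ≠ 0 := by
      intro h0
      have h1 := (res_iff cV).1 h0
      rw [hcV, w_val hX hX.phi i] at h1
      exact lt_irrefl _ h1
    obtain ⟨R, hR1, hR2⟩ := roots_card (IsLocalRing.residue X.V cV) (IsLocalRing.residue X.V (akV F X.V (a φ))) hc0 hX.q0
    refine ⟨R, fun _ => hR1, fun h => absurd hg h, fun x hx => hR2 _ ?_⟩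
    have h1 := hx φ hX.phi
    have hx1 : X.V.valuation (x : Ω) ≤ 1 := (X.V.valuation_le_one_iff _).2 x.2
    have h2 := hX.fro (x : Ω) hx1
    rw [← map_pow, ← map_mul, ← map_mul, res_eq]
    push_cast
    rw [hcV, akV_val]
    have e1 : (φ X.w / X.w) ^ i * (x : Ω) ^ q - ak Ω (a φ) * (x : Ω) =
        -(ak Ω (a φ) * (x : Ω) - (φ X.w / X.w) ^ i * φ (x : Ω)) - (φ X.w / X.w) ^ i * (φ (x : Ω) - (x : Ω) ^ q) := by ring
    rw [e1]
    refine lt_of_le_of_lt (Valuation.map_sub _ _ _) (max_lt (by rw [Valuation.map_neg]; exact h1) ?_)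
    rw [map_mul, w_val hX hX.phi i, one_mul]
    exact h2
  · obtain ⟨s, hs, hi, hu⟩ := hG hg
    refine ⟨{0}, fun h => absurd h hg, fun _ => le_of_eq (Finset.card_singleton _), fun x hx => ?_⟩
    rw [Finset.mem_singleton, res_iff]
    have h1 := hx s hs
    have hx1 : X.V.valuation (x : Ω) ≤ 1 := (X.V.valuation_le_one_iff _).2 x.2
    have h2 : X.V.valuation (s (x : Ω) - x) < 1 := hi x x.2
    have h3 : X.V.valuation (((s X.w / X.w) ^ i - ak Ω (a s)) * (x : Ω)) < 1 := by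
      have e1 : ((s X.w / X.w) ^ i - ak Ω (a s)) * (x : Ω) =
          -(ak Ω (a s) * (x : Ω) - (s X.w / X.w) ^ i * s (x : Ω)) - (s X.w / X.w) ^ i * (s (x : Ω) - x) := by ring
      rw [e1]
      refine lt_of_le_of_lt (Valuation.map_sub _ _ _) (max_lt (by rw [Valuation.map_neg]; exact h1) ?_)
      rw [map_mul, w_val hX hs i, one_mul]
      exact h2
    have h4 : X.V.valuation ((s X.w / X.w) ^ i - ak Ω (a s)) = 1 := by
      refine le_antisymm ?_ (not_lt.1 hu)
      exact (Valuation.map_sub _ _ _).trans (max_le (w_val hX hs i).le (hle _))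
    rw [map_mul, h4, one_mul] at h3
    exact h3

/-- An element of 𝓞 F which is not divisible by p is a unit at V. -/
theorem ak_unit (hX : Fri X D om al φ q g) {a : 𝓞 F} (ha : ¬ (X.p : 𝓞 F) ∣ a) : X.V.valuation (ak Ω a) = 1 := by
  classical
  have h1 : IsCoprime (X.p : 𝓞 F) a := (hX.ine.irreducible.coprime_iff_not_dvd).2 ha
  have h2 := H19C.vp_lt X hX.ok
  have e1 : ak Ω (X.p : 𝓞 F) = (X.p : Ω) := by simp [ak]
  have h3 : X.V.valuation (ak Ω (X.p : 𝓞 F)) < 1 := by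
    rw [e1]
    exact h2
  exact H55K.S.vo_unit h1 h3

open Classical in
/-- One step of the filtration. -/
theorem bf_step (hX : Fri X D om al φ q g) (i : ℕ) (hie : (i + 1) * (X.p - 1) < X.e * X.p) :
    (BF X hX.ok D om al (i + 1)).relIndex (BF X hX.ok D om al i) ≠ 0 ∧
      (BF X hX.ok D om al (i + 1)).relIndex (BF X hX.ok D om al i) ≤
        q ^ ((if ¬ X.p ∣ i + 1 ∧ G1 X D al (i + 1) then 1 else 0) + if ¬ X.p ∣ i + 1 ∧ G2 X D al (i + 1) then 1 else 0) := by
  have h := hX.ok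
  by_cases hp : X.p ∣ i + 1
  · rw [if_neg (fun h' => h'.1 hp), if_neg (fun h' => h'.1 hp), pow_zero]
    have h1 : BF X hX.ok D om al i ≤ BF X hX.ok D om al (i + 1) := by
      intro b hb
      refine ⟨hb.1, fun z => ?_⟩
      obtain ⟨ta, β, hβ, hβ'⟩ := hb.2 z
      obtain ⟨γ, hγ, hγ'⟩ := H19C.improve X h hβ (Nat.succ_pos i) hp hie hβ'
      exact ⟨ta, γ, hγ, hγ'⟩
    rw [AddSubgroup.relIndex_eq_one.2 h1]
    exact ⟨one_ne_zero, le_rfl⟩
  · obtain ⟨R₁, a1, a2, a3⟩ := comp_mem hX al (i + 1) (G1 X D al (i + 1)) (fun hg => by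
      unfold G1 at hg
      push Not at hg
      obtain ⟨s, hs, hi, hu⟩ := hg
      exact ⟨s, hs, hi, not_lt.2 hu⟩)
    obtain ⟨R₂, b1, b2, b3⟩ := comp_mem hX (fun s => cj (al s)) (i + 1) (G2 X D al (i + 1)) (fun hg => by
      unfold G2 at hg
      push Not at hg
      obtain ⟨s, hs, hi, hu⟩ := hg
      exact ⟨s, hs, hi, not_lt.2 hu⟩)
    have hch : ∀ b : 𝓞 F → (Ω ≃ₐ[F] Ω) → ZMod X.p, ∃ (β : 𝓞 F → Ω) (L : 𝓞 F → X.V) (lam : 𝓞 F →+ IsLocalRing.ResidueField X.V),
        b ∈ BF X hX.ok D om al i → (∀ z, X.Kg (b z) (β z) ∧ (β z) ^ X.p - 1 = (L z : Ω) * X.w ^ (i + 1) ∧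
          IsLocalRing.residue X.V (L z) = lam z) ∧
        ∀ s ∈ D, X.V.valuation (ak Ω (al s) * ((L g : Ω) - ak Ω (cj g) * L 1) -
            (s X.w / X.w) ^ (i + 1) * s ((L g : Ω) - ak Ω (cj g) * L 1)) < 1 ∧
          X.V.valuation (ak Ω (cj (al s)) * ((L g : Ω) - ak Ω g * L 1) - (s X.w / X.w) ^ (i + 1) * s ((L g : Ω) - ak Ω g * L 1)) < 1 := by
      intro b
      by_cases hb : b ∈ BF X hX.ok D om al i
      · obtain ⟨β, L, lam, h1, h2⟩ := comp_fam hX hb hp hie
        exact ⟨β, L, lam, fun _ => ⟨h1, h2⟩⟩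
      · exact ⟨fun _ => 0, fun _ => 0, 0, fun h' => absurd h' hb⟩
    choose β L lam hβl using hch
    have h1 := rel_le (BF X hX.ok D om al (i + 1)) (BF X hX.ok D om al i)
      (fun b => (IsLocalRing.residue X.V (L b g - akV F X.V (cj g) * L b 1), IsLocalRing.residue X.V (L b g - akV F X.V g * L b 1)))
      (R₁ ×ˢ R₂) (fun b hb => by
        rw [Finset.mem_product]
        obtain ⟨-, h2⟩ := hβl b hb
        refine ⟨a3 _ fun s hs => ?_, b3 _ fun s hs => ?_⟩
        · have h3 := (h2 s hs).1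
          push_cast
          exact h3
        · have h3 := (h2 s hs).2
          push_cast
          exact h3)
      (fun b hb b' hb' hab => by
        obtain ⟨hk, -⟩ := hβl b hb
        obtain ⟨hk', -⟩ := hβl b' hb'
        obtain ⟨c1, c2⟩ := Prod.mk.inj hab
        simp only [map_sub, map_mul, (hk g).2.2, (hk 1).2.2, (hk' g).2.2, (hk' 1).2.2] at c1 c2
        have hg0 : IsLocalRing.residue X.V (akV F X.V g) - IsLocalRing.residue X.V (akV F X.V (cj g)) ≠ 0 := by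
          rw [← map_sub, ← map_sub]
          intro h0
          have h3 := (res_iff _).1 h0
          rw [akV_val, ak_unit hX hX.gen] at h3
          exact lt_irrefl _ h3
        have d1 : lam b 1 = lam b' 1 := by
          refine mul_left_cancel₀ hg0 ?_
          linear_combination c1 - c2
        have dg : lam b g = lam b' g := by
          rw [d1] at c1
          exact sub_left_injective c1
        have dz : ∀ z, lam b z = lam b' z := by
          have key : ∀ (b : 𝓞 F → (Ω ≃ₐ[F] Ω) → ZMod X.p) (z x : 𝓞 F) (m n : ℤ), z - (m + n * g) = (X.p : 𝓞 F) * x →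
              lam b z = m * lam b 1 + n * lam b g := by
            intro b z x m n hx
            have e1 : z = m • (1 : 𝓞 F) + n • g + X.p • x := by
              rw [zsmul_eq_mul, zsmul_eq_mul, nsmul_eq_mul, ← hx]
              ring
            rw [e1, map_add, map_add, map_zsmul, map_zsmul, map_nsmul, nsmul_eq_mul, res_p hX, zero_mul, add_zero, zsmul_eq_mul,
              zsmul_eq_mul]
          intro z
          obtain ⟨m, n, x, hx⟩ := hX.bas z
          rw [key b z x m n hx, key b' z x m n hx, d1, dg]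
        refine ⟨(BW X D om al).sub_mem hb.1 hb'.1, fun z => ?_⟩
        obtain ⟨ka, la, ra⟩ := hk z
        obtain ⟨kb, lb, rb⟩ := hk' z
        have h5 : X.V.valuation ((L b z : Ω) - L b' z) < 1 := (res_eq _ _).1 (by rw [ra, rb, dz z])
        have hL1 : X.V.valuation (L b' z : Ω) ≤ 1 := (X.V.valuation_le_one_iff _).2 (L b' z).2
        have h6 : X.V.valuation ((β b' z) ^ X.p) = 1 := H19C.fs_one X (by
          rw [lb, map_mul, map_pow]
          exact lt_of_le_of_lt (mul_le_of_le_one_left' hL1) (H19C.fs_lt X h i))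
        have h7 : (β b' z) ^ X.p ≠ 0 := pow_ne_zero _ kb.ne
        have hk := H19C.kg_mul X h ka (H19C.kg_inv X h kb)
        rw [← sub_eq_add_neg] at hk
        refine ⟨X.TS.sub_mem (hb.1.tw z) (hb'.1.tw z), _, hk, ?_⟩
        refine H19C.val_succ X h ?_ ?_
        · intro s hs
          rw [map_sub, map_one, hk.fx s hs]
        · have e1 : (β b z * (β b' z)⁻¹) ^ X.p - 1 = (((L b z : Ω) - L b' z) * X.w ^ (i + 1)) * ((β b' z) ^ X.p)⁻¹ := by
            have e2 : (β b z) ^ X.p - (β b' z) ^ X.p = ((L b z : Ω) - L b' z) * X.w ^ (i + 1) := by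
              linear_combination la - lb
            rw [← e2, mul_pow, inv_pow]
            field_simp
          rw [e1, map_mul, map_inv₀, h6, inv_one, mul_one, map_mul, map_pow]
          have h8 : X.V.valuation X.w ^ (i + 1) ≠ 0 := pow_ne_zero _ ((Valuation.ne_zero_iff _).2 h.w0)
          exact mul_lt_of_lt_one_left (zero_lt_iff.2 h8) h5)
    refine ⟨h1.1, h1.2.trans ?_⟩
    rw [Finset.card_product, pow_add]
    refine Nat.mul_le_mul ?_ ?_
    · by_cases hg : G1 X D al (i + 1)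
      · rw [if_pos ⟨hp, hg⟩, pow_one]
        exact a1 hg
      · rw [if_neg (fun h' => hg h'.2), pow_zero]
        exact a2 hg
    · by_cases hg : G2 X D al (i + 1)
      · rw [if_pos ⟨hp, hg⟩, pow_one]
        exact b1 hg
      · rw [if_neg (fun h' => hg h'.2), pow_zero]
        exact b2 hg

/-- The values of the Kummer generators modulo p. -/
theorem val_fam (hX : Fri X D om al φ q g) (hb : Tf X D om al b) :
    ∃ v : 𝓞 F →+ ZMod X.p, (∀ z, ∃ (β : Ω) (i : ℤ), X.Kg (b z) β ∧ X.V.valuation (β ^ X.p) = X.V.valuation X.w ^ i ∧ (i : ZMod X.p) = v z) ∧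
      ∀ s ∈ D, ∀ z, v (al s * z) = v z := by
  have h := hX.ok
  have hW0 : X.V.valuation X.w ≠ 0 := (Valuation.ne_zero_iff _).2 h.w0
  have hex : ∀ z : 𝓞 F, ∃ (β : Ω) (i : ℤ), X.Kg (b z) β ∧ X.V.valuation (β ^ X.p) = X.V.valuation X.w ^ i := fun z =>
    H19C.kg_ex X h (b z) (hb.tw z)
  choose β i hβ hi using hex
  refine ⟨AddMonoidHom.mk' (fun z => ((i z : ℤ) : ZMod X.p)) fun z z' => ?_, fun z => ⟨β z, i z, hβ z, hi z, rfl⟩, fun s hs z => ?_⟩
  · have h1 : X.V.valuation ((β z * β z') ^ X.p) = X.V.valuation X.w ^ (i z + i z') := by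
      rw [mul_pow, map_mul, hi z, hi z', zpow_add₀ hW0]
    have h2 := exp_uniq h hX.eE (fun t ht => hb.ad z z' t ht) (hβ (z + z')) (H19C.kg_mul X h (hβ z) (hβ z')) (hi (z + z')) h1
    rw [h2]
    push_cast
    rfl
  · have h1 := kg_shift hX hb (hβ z) hs
    have h2 : X.V.valuation ((s (β z)) ^ X.p) = X.V.valuation X.w ^ (i z) := by
      rw [← map_pow, hX.inv s hs, hi z]
    exact exp_uniq h hX.eE (fun t _ => rfl) (hβ (al s * z)) h1 (hi (al s * z)) h2

/-- The index of the families with generators close to 1. -/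
theorem bf_zero (hX : Fri X D om al φ q g) :
    (BF X hX.ok D om al 0).relIndex (BW X D om al) ≠ 0 ∧ (BF X hX.ok D om al 0).relIndex (BW X D om al) ≤ X.p ^ 2 ∧
      ((∃ s ∈ D, s ∉ X.C) → BW X D om al ≤ BF X hX.ok D om al 0) := by
  classical
  have h := hX.ok
  have hne : NeZero X.p := ⟨h.pr.ne_zero⟩
  have hW0 : X.V.valuation X.w ≠ 0 := (Valuation.ne_zero_iff _).2 h.w0
  have hpv : ∀ (v : 𝓞 F →+ ZMod X.p) (x : 𝓞 F), v ((X.p : 𝓞 F) * x) = 0 := fun v x => by
    rw [← nsmul_eq_mul, map_nsmul, nsmul_eq_mul, ZMod.natCast_self, zero_mul]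
  -- zero values
  have hz : ∀ b : 𝓞 F → (Ω ≃ₐ[F] Ω) → ZMod X.p, Tf X D om al b → ∀ v : 𝓞 F →+ ZMod X.p,
      (∀ z, ∃ (β : Ω) (i : ℤ), X.Kg (b z) β ∧ X.V.valuation (β ^ X.p) = X.V.valuation X.w ^ i ∧ (i : ZMod X.p) = v z) →
      (∀ z, v z = 0) → b ∈ BF X hX.ok D om al 0 := by
    intro b hb v hv h0
    refine ⟨hb, fun z => ?_⟩
    obtain ⟨β, i, h1, h2, h3⟩ := hv z
    refine H19C.kg_unit X h (hb.tw z) h1 h2 ?_
    rw [← ZMod.intCast_zmod_eq_zero_iff_dvd, h3, h0 z]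
  have hch : ∀ b : 𝓞 F → (Ω ≃ₐ[F] Ω) → ZMod X.p, ∃ v : 𝓞 F →+ ZMod X.p, b ∈ BW X D om al →
      (∀ z, ∃ (β : Ω) (i : ℤ), X.Kg (b z) β ∧ X.V.valuation (β ^ X.p) = X.V.valuation X.w ^ i ∧ (i : ZMod X.p) = v z) := by
    intro b
    by_cases hb : b ∈ BW X D om al
    · obtain ⟨v, hv, -⟩ := val_fam hX hb
      exact ⟨v, fun _ => hv⟩
    · exact ⟨0, fun h' => absurd h' hb⟩
  choose v hv using hch
  have h1 := rel_le (BF X hX.ok D om al 0) (BW X D om al) (fun b => (v b 1, v b g)) Finset.univ (fun b _ => Finset.mem_univ _)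
    (fun b hb b' hb' hab => by
      obtain ⟨c1, c2⟩ := Prod.mk.inj hab
      have hs : Tf X D om al (b - b') := (BW X D om al).sub_mem hb hb'
      refine hz (b - b') hs (v b - v b') (fun z => ?_) (fun z => ?_)
      · obtain ⟨β, i, k1, k2, k3⟩ := hv b hb z
        obtain ⟨β', i', k1', k2', k3'⟩ := hv b' hb' z
        have hk := H19C.kg_mul X h k1 (H19C.kg_inv X h k1')
        rw [← sub_eq_add_neg] at hk
        refine ⟨_, i - i', hk, ?_, ?_⟩
        · rw [mul_pow, inv_pow, map_mul, map_inv₀, k2, k2', zpow_sub₀ hW0, div_eq_mul_inv]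
        · push_cast
          rw [k3, k3', AddMonoidHom.sub_apply]
      · obtain ⟨m, n, x, hx⟩ := hX.bas z
        have e1 : z = m • (1 : 𝓞 F) + n • g + (X.p : 𝓞 F) * x := by
          rw [zsmul_eq_mul, zsmul_eq_mul, ← hx]
          ring
        have c1' : (v b - v b') 1 = 0 := by
          rw [AddMonoidHom.sub_apply]
          exact sub_eq_zero.2 c1
        have c2' : (v b - v b') g = 0 := by
          rw [AddMonoidHom.sub_apply]
          exact sub_eq_zero.2 c2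
        rw [e1, map_add, map_add, map_zsmul, map_zsmul, hpv, c1', c2', zsmul_zero, zsmul_zero, add_zero, add_zero])
  refine ⟨h1.1, h1.2.trans ?_, ?_⟩
  · rw [Finset.card_univ, Fintype.card_prod, ZMod.card, pow_two]
  · rintro ⟨s, hs, hsC⟩ b hb
    obtain ⟨v, hv, hs1⟩ := val_fam hX hb
    refine hz b hb v hv fun z => ?_
    have hnd : ¬ (X.p : 𝓞 F) ∣ al s - 1 := fun h' => hsC ((hX.alC s hs).2 h')
    obtain ⟨u, u', huu⟩ : IsCoprime (X.p : 𝓞 F) (al s - 1) := (hX.ine.irreducible.coprime_iff_not_dvd).2 hnd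
    have e1 : z = (X.p : 𝓞 F) * (u * z) + (al s * (u' * z) - u' * z) := by
      linear_combination (-z) * huu
    rw [e1, map_add, hpv, map_sub, hs1 s hs, sub_self, add_zero]

/-- THE INDEX OF THE UNRAMIFIED FAMILIES. -/
theorem bi_index (hX : Fri X D om al φ q g) {b₀ n : ℕ}
    (hcnt : ∀ (k : ℕ) (S₁ S₂ : Finset ℕ), k * (X.p - 1) < X.e * X.p → (∀ i ∈ S₁, i < k ∧ ¬ X.p ∣ i + 1 ∧ G1 X D al (i + 1)) →
      (∀ i ∈ S₂, i < k ∧ ¬ X.p ∣ i + 1 ∧ G2 X D al (i + 1)) → S₁.card + S₂.card ≤ 2 * b₀)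
    (hn : 1 ≤ n) (hn2 : D ≤ X.C → X.p ^ 2 ≤ n) :
    (BI X D om al).relIndex (BW X D om al) ≠ 0 ∧ (BI X D om al).relIndex (BW X D om al) ≤ q ^ (2 * b₀) * n := by
  classical
  have h := hX.ok
  have hp2 := h.odd
  have he := h.e0
  have hep : 0 < X.e * X.p := Nat.mul_pos he (by omega)
  obtain ⟨k, hk⟩ : ∃ k : ℕ, k = (X.e * X.p - 1) / (X.p - 1) := ⟨_, rfl⟩
  have hk1 : k * (X.p - 1) < X.e * X.p := by
    have h1 := Nat.div_mul_le_self (X.e * X.p - 1) (X.p - 1)
    rw [← hk] at h1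
    omega
  have hk2 : X.e * X.p ≤ (k + 1) * (X.p - 1) := by
    have h1 := Nat.lt_mul_div_succ (X.e * X.p - 1) (show 0 < X.p - 1 by omega)
    rw [← hk, mul_comm (X.p - 1)] at h1
    omega
  have h1 := rel_chain (BF X hX.ok D om al) (bf_anti hX) (fun i => q ^ ((if ¬ X.p ∣ i + 1 ∧ G1 X D al (i + 1) then 1 else 0) +
    if ¬ X.p ∣ i + 1 ∧ G2 X D al (i + 1) then 1 else 0)) k (fun i hi =>
    bf_step hX i ((Nat.mul_le_mul_right _ (Nat.succ_le_of_lt hi)).trans_lt hk1))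
  have hc : ∏ i ∈ Finset.range k, q ^ ((if ¬ X.p ∣ i + 1 ∧ G1 X D al (i + 1) then 1 else 0) +
      if ¬ X.p ∣ i + 1 ∧ G2 X D al (i + 1) then 1 else 0) ≤ q ^ (2 * b₀) := by
    rw [Finset.prod_pow_eq_pow_sum, Finset.sum_add_distrib, ← Finset.card_filter, ← Finset.card_filter]
    refine Nat.pow_le_pow_right (lt_trans zero_lt_one hX.q0) (hcnt k _ _ hk1 (fun i hi => ?_) fun i hi => ?_)
    · rw [Finset.mem_filter, Finset.mem_range] at hi
      exact ⟨hi.1, hi.2.1, hi.2.2⟩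
    · rw [Finset.mem_filter, Finset.mem_range] at hi
      exact ⟨hi.1, hi.2.1, hi.2.2⟩
  have h2 : BF X hX.ok D om al k ≤ BI X D om al := by
    intro b hb
    refine ⟨hb.1, fun z t ht hi => ?_⟩
    obtain ⟨ta, β, hβ, hβ'⟩ := hb.2 z
    exact H19C.kg_inert X h hβ hk2 hβ' t ht hi
  obtain ⟨z1, z2, z3⟩ := bf_zero hX
  have hle0 : BF X hX.ok D om al k ≤ BF X hX.ok D om al 0 := bf_anti hX (Nat.zero_le k)
  have hle2 : BF X hX.ok D om al 0 ≤ BW X D om al := fun b hb => hb.1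
  have h3 := AddSubgroup.relIndex_mul_relIndex (BF X hX.ok D om al k) (BF X hX.ok D om al 0) (BW X D om al) hle0 hle2
  have h4 : (BI X D om al).relIndex (BW X D om al) ∣ (BF X hX.ok D om al k).relIndex (BW X D om al) :=
    AddSubgroup.relIndex_dvd_of_le_left _ h2
  have h5 : (BF X hX.ok D om al k).relIndex (BW X D om al) ≠ 0 := by
    rw [← h3]
    exact Nat.mul_ne_zero h1.1 z1
  have h6 : (BF X hX.ok D om al 0).relIndex (BW X D om al) ≤ n := by
    by_cases hD : D ≤ X.C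
    · exact z2.trans (hn2 hD)
    · have h7 : ∃ s ∈ D, s ∉ X.C := by
        by_contra hcon
        push Not at hcon
        exact hD fun s hs => hcon s hs
      rw [AddSubgroup.relIndex_eq_one.2 (z3 h7)]
      exact hn
  refine ⟨fun h0 => h5 (Nat.eq_zero_of_zero_dvd (h0 ▸ h4)), (Nat.le_of_dvd (Nat.pos_of_ne_zero h5) h4).trans ?_⟩
  rw [← h3]
  exact Nat.mul_le_mul (h1.2.trans hc) h6

end SSN
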