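import Mathlib

/-! # SSN, chunk CN: the number of levels -/

namespace SSN

theorem cn_count {d : ℕ} (hd : 0 < d) (c n b : ℕ) : ((Finset.range (n + d * b)).filter (fun j => j ≡ c [MOD d])).card =
    ((Finset.range n).filter (fun j => j ≡ c [MOD d])).card + b := by
  rw [← Nat.count_eq_card_filter_range, ← Nat.count_eq_card_filter_range, Nat.count_modEq_card _ hd, Nat.count_modEq_card _ hd,
    Nat.add_mul_div_left _ _ hd, Nat.add_mul_mod_self_left]
  ring

theorem cn_one {p d r R c c' : ℕ} (hp : 2 < p) (hR : R = p * r) (hc : ∀ j, j ≡ c' [MOD d] → p * j ≡ c [MOD d]) (S : Finset ℕ)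
    (h : ∀ i ∈ S, i + 1 < R ∧ ¬ p ∣ i + 1 ∧ i + 1 ≡ c [MOD d]) :
    S.card + ((Finset.range r).filter (fun j => j ≡ c' [MOD d])).card ≤ ((Finset.range R).filter (fun j => j ≡ c [MOD d])).card := by
  classical
  have e1 : (S.image (fun i => i + 1)).card = S.card := Finset.card_image_of_injective _ (add_left_injective 1)
  have e2 : (((Finset.range r).filter (fun j => j ≡ c' [MOD d])).image (fun j => p * j)).card =
      ((Finset.range r).filter (fun j => j ≡ c' [MOD d])).card :=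
    Finset.card_image_of_injective _ (fun a b hab => Nat.eq_of_mul_eq_mul_left (by omega) hab)
  have hdj : Disjoint (S.image (fun i => i + 1)) (((Finset.range r).filter (fun j => j ≡ c' [MOD d])).image (fun j => p * j)) := by
    rw [Finset.disjoint_left]
    intro x hx hx'
    obtain ⟨i, hi, rfl⟩ := Finset.mem_image.1 hx
    obtain ⟨j, -, hj⟩ := Finset.mem_image.1 hx'
    exact (h i hi).2.1 ⟨j, hj.symm⟩
  rw [← e1, ← e2, ← Finset.card_union_of_disjoint hdj]
  refine Finset.card_le_card fun x hx => ?_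
  rw [Finset.mem_filter, Finset.mem_range]
  rcases Finset.mem_union.1 hx with h1 | h1
  · obtain ⟨i, hi, rfl⟩ := Finset.mem_image.1 h1
    exact ⟨(h i hi).1, (h i hi).2.2⟩
  · obtain ⟨j, hj, rfl⟩ := Finset.mem_image.1 h1
    rw [Finset.mem_filter, Finset.mem_range] at hj
    refine ⟨?_, hc j hj.2⟩
    rw [hR]
    exact Nat.mul_lt_mul_of_pos_left hj.1 (by omega)

/-- The number of levels. -/
theorem cnt2 {p d b r e k : ℕ} (hp : 2 < p) (hd0 : 0 < d) (hd : d ∣ p ^ 2 - 1) (he : e = d * b) (hr : r * (p ^ 2 - 1) = e) (S₁ S₂ : Finset ℕ)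
    (hk : k * (p - 1) < e * p) (h₁ : ∀ i ∈ S₁, i < k ∧ ¬ p ∣ i + 1 ∧ (i + 1) ≡ r [MOD d])
    (h₂ : ∀ i ∈ S₂, i < k ∧ ¬ p ∣ i + 1 ∧ (i + 1) ≡ r * p [MOD d]) : S₁.card + S₂.card ≤ 2 * b := by
  obtain ⟨m, rfl⟩ : ∃ m, p = m + 1 := ⟨p - 1, by omega⟩
  have hsq : (m + 1) ^ 2 - 1 = m * (m + 2) := by
    have : (m + 1) ^ 2 = m * (m + 2) + 1 := by ring
    omega
  rw [hsq] at hd hr
  rw [Nat.add_sub_cancel] at hk
  have hm : 0 < m := by omega
  have hR : ∀ i, i < k → i + 1 < (m + 1) * (r * (m + 2)) := by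
    intro i hi
    have h1 : (i + 1) * m ≤ k * m := Nat.mul_le_mul_right _ hi
    have h2 : (i + 1) * m < (m + 1) * (r * (m + 2)) * m := by
      refine lt_of_le_of_lt h1 (lt_of_lt_of_eq hk ?_)
      rw [← hr]
      ring
    exact Nat.lt_of_mul_lt_mul_right h2
  have hRb : (m + 1) * (r * (m + 2)) = r * (m + 2) + d * b := by
    rw [← he, ← hr]
    ring
  have hpp : (m + 1) * (m + 1) ≡ 1 [MOD d] := by
    have h1 : (m + 1) * (m + 1) = m * (m + 2) + 1 := by ring
    rw [h1]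
    have h2 : m * (m + 2) ≡ 0 [MOD d] := (Nat.modEq_zero_iff_dvd).2 hd
    exact Nat.ModEq.add_right 1 h2
  have a1 := cn_one (c := r) (c' := r * (m + 1)) (d := d) hp rfl (fun j hj => by
    have h1 : (m + 1) * j ≡ (m + 1) * (r * (m + 1)) [MOD d] := Nat.ModEq.mul_left _ hj
    refine h1.trans ?_
    have h2 : (m + 1) * (r * (m + 1)) = r * ((m + 1) * (m + 1)) := by ring
    rw [h2]
    have h3 : r * ((m + 1) * (m + 1)) ≡ r * 1 [MOD d] := Nat.ModEq.mul_left _ hpp
    rwa [mul_one] at h3) S₁ (fun i hi => ⟨hR i (h₁ i hi).1, (h₁ i hi).2.1, (h₁ i hi).2.2⟩)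
  have a2 := cn_one (c := r * (m + 1)) (c' := r) (d := d) hp rfl (fun j hj => by
    have h1 : (m + 1) * j ≡ (m + 1) * r [MOD d] := Nat.ModEq.mul_left _ hj
    rwa [mul_comm (m + 1) r] at h1) S₂ (fun i hi => ⟨hR i (h₂ i hi).1, (h₂ i hi).2.1, (h₂ i hi).2.2⟩)
  rw [hRb, cn_count hd0] at a1 a2
  omega

end SSN
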