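import Mathlib
import Pool.Agent.Lib.SSN.L2

/-! # SSN, chunk FR: the Frobenius map of the ring of integers modulo an inert prime is the conjugation -/

open NumberField IsDedekindDomain

namespace SSN

open H55P (IQ Nm)
open H55K (ak cj)

variable {F : Type} [Field F] [NumberField F] [IQ F]

theorem frob_cj {p : ℕ} (hp : p.Prime) (h2 : p ≠ 2) (hP : Prime (p : 𝓞 F)) (a : 𝓞 F) : (p : 𝓞 F) ∣ a ^ p - cj a := by
  have hpf : Fact p.Prime := ⟨hp⟩
  have hne : Ideal.span {(p : 𝓞 F)} ≠ ⊥ := by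
    rw [Ne, Ideal.span_singleton_eq_bot]
    exact hP.ne_zero
  have hm : (Ideal.span {(p : 𝓞 F)}).IsMaximal := ((Ideal.span_singleton_prime hP.ne_zero).2 hP).isMaximal hne
  let _ := Ideal.Quotient.field (Ideal.span {(p : 𝓞 F)})
  obtain ⟨mk, hmk⟩ : ∃ mk : 𝓞 F →+* (𝓞 F ⧸ Ideal.span {(p : 𝓞 F)}), ∀ x y : 𝓞 F, mk x = mk y ↔ (p : 𝓞 F) ∣ x - y :=
    ⟨Ideal.Quotient.mk _, fun x y => by rw [Ideal.Quotient.eq, Ideal.mem_span_singleton]⟩
  have hp0 : ((p : ℕ) : 𝓞 F ⧸ Ideal.span {(p : 𝓞 F)}) = 0 := by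
    rw [← map_natCast mk, ← map_zero mk, hmk, sub_zero]
  have hchar : CharP (𝓞 F ⧸ Ideal.span {(p : 𝓞 F)}) p := by
    obtain ⟨q, hq⟩ := CharP.exists (𝓞 F ⧸ Ideal.span {(p : 𝓞 F)})
    have h3 : q ∣ p := (CharP.cast_eq_zero_iff _ q p).1 hp0
    rcases (Nat.dvd_prime hp).1 h3 with h4 | h4
    · exfalso
      have h5 : ((q : ℕ) : 𝓞 F ⧸ Ideal.span {(p : 𝓞 F)}) = 0 := CharP.cast_eq_zero _ q
      rw [h4, Nat.cast_one] at h5
      exact one_ne_zero h5
    · exact h4 ▸ hq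
  have hint : ∀ n : ℤ, ((n : ℤ) : 𝓞 F ⧸ Ideal.span {(p : 𝓞 F)}) ^ p = (n : ℤ) := by
    intro n
    have h3 := congrArg (ZMod.castHom (dvd_refl p) (𝓞 F ⧸ Ideal.span {(p : 𝓞 F)})) (ZMod.pow_card (n : ZMod p))
    rw [map_pow, map_intCast] at h3
    exact h3
  obtain ⟨g, hg1, hg2⟩ := exists_gen hp h2 hP
  -- the generator
  have hg : mk g ^ p = mk (cj g) := by
    obtain ⟨t, ht⟩ := H55K.TQ.rf_tr g
    have hN := H55K.mul_cj g
    have e1 : mk g + mk (cj g) = (t : ℤ) := by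
      rw [← map_add, ht, map_intCast]
    have e2 : mk g * mk (cj g) = ((Nm g : ℤ) : ℤ) := by
      rw [← map_mul, hN, map_natCast]
      push_cast
      rfl
    have e3 : mk g ^ 2 = (t : ℤ) * mk g - ((Nm g : ℤ) : ℤ) := by
      rw [← e1, ← e2]
      ring
    have e4 : (mk g ^ p) ^ 2 = (t : ℤ) * mk g ^ p - ((Nm g : ℤ) : ℤ) := by
      have h3 := congrArg (fun x => x ^ p) e3
      beta_reduce at h3
      rw [sub_pow_char, mul_pow, hint, hint] at h3
      rw [← h3]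
      ring
    have e5 : (mk g ^ p - mk g) * (mk g ^ p - mk (cj g)) = 0 := by
      rw [← e1, ← e2] at e4
      linear_combination e4
    rcases mul_eq_zero.1 e5 with h3 | h3
    · exfalso
      have h4 : mk g ^ p = mk g := sub_eq_zero.1 h3
      have h5 := (Subfield.mem_bot_iff_pow_eq_self (𝓞 F ⧸ Ideal.span {(p : 𝓞 F)}) p).2 h4
      obtain ⟨n, hx⟩ := (mem_bot_iff_intCast p (𝓞 F ⧸ Ideal.span {(p : 𝓞 F)})).1 h5
      have h6 : (p : 𝓞 F) ∣ g - n := by
        rw [← hmk, map_intCast, hx]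
      have h7 : (p : 𝓞 F) ∣ cj g - n := by
        obtain ⟨c, hc⟩ := h6
        refine ⟨cj c, ?_⟩
        have h8 := congrArg cj hc
        rw [map_sub, H55K.cj_int, map_mul, H55K.cj_nat] at h8
        exact h8
      have h8 := dvd_sub h6 h7
      rw [sub_sub_sub_cancel_right] at h8
      exact hg1 h8
    · exact sub_eq_zero.1 h3
  obtain ⟨m, n, x, hx⟩ := hg2 a
  have ha : a = m + n * g + (p : 𝓞 F) * x := by rw [← hx]; ring
  rw [← hmk, ha]
  simp only [map_add, map_mul, map_pow, map_intCast, map_natCast, hp0, zero_mul, add_zero, H55K.cj_int, H55K.cj_nat]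
  rw [add_pow_char, mul_pow, hint, hint, hg]

end SSN
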