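import Mathlib
import Pool.Agent.Lib.SSN.LD
import Pool.Agent.Lib.SSN.L2
import Pool.Agent.Lib.SSN.CN
import Pool.Agent.Lib.SSN.FR
import Pool.Agent.Lib.H19C.FA
import Pool.Agent.Lib.H19C.FB
import Pool.Agent.Lib.H19C.LV
import Pool.Agent.Lib.H55K.G5D
import Pool.Agent.Lib.H55K.K2A
import Pool.Agent.Lib.H13X.XKB2
import Pool.Agent.Lib.H13X.XNB
import Pool.Agent.Lib.H13X.XG3

/-! # SSN, chunk L5: the frame of E[p] at an inert prime p -/

open NumberField IsDedekindDomain WeierstrassCurve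

namespace SSN

open H55P (IQ Pt ac Dec Inert decS Nm)
open H35P (WAB Ker tt)
open H55K (Tor CMA Dta GV ak cj)
open H19B (DN mem_DN f6Fix f6_nrm f6_pow Rep zt rep_exists)
open H19C (Frm)

section rep

/-- Representatives of the classes modulo the kernel of a homomorphism to a finite group. -/
theorem rep_hom {G H : Type} [Group G] [Group H] [Finite H] (f : G →* H) (C E : Subgroup G) (hCE : ∀ s ∈ E, f s = 1 ↔ s ∈ C) :
    ∃ S : Finset G, Rep C E S ∧ S.card ∣ Nat.card H := by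
  obtain ⟨f', hf'⟩ : ∃ f' : E →* H, f' = f.comp E.subtype := ⟨_, rfl⟩
  have h3 : f'.ker = C.subgroupOf E := by
    ext s
    rw [MonoidHom.mem_ker, Subgroup.mem_subgroupOf, ← hCE s.1 s.2, hf']
    rfl
  have h4 : C.relIndex E = Nat.card f'.range := by
    rw [Subgroup.relIndex, ← h3, Subgroup.index_ker]
  have h5 : Nat.card f'.range ∣ Nat.card H := Subgroup.card_subgroup_dvd_card _
  have h7 : C.relIndex E ∣ Nat.card H := by rw [h4]; exact h5
  have h8 : 0 < C.relIndex E := Nat.pos_of_dvd_of_pos h7 Nat.card_pos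
  obtain ⟨S, hS1, hS2⟩ := rep_exists C E h8.ne'
  exact ⟨S, hS1, hS2 ▸ h7⟩

end rep

variable {F : Type} [Field F] [NumberField F] [IQ F] {A B : F} {Om : ℂ} {Ω : Type} [Field Ω] [DecidableEq Ω]
  [Algebra F Ω] [IsAlgClosure F Ω] {j : Ω →+* ℂ} {act : 𝓞 F →+* AddMonoid.End (Pt (WAB A B) Ω)} {mo : Ideal (𝓞 F)}
  {ψ : Ideal (𝓞 F) →*₀ 𝓞 F} {p : ℕ} {V : ValuationSubring Ω}

/-- The action of the Galois group on the points of order p. -/
theorem exists_al (h : CMA F A B Om j act) (hπ : Prime (p : 𝓞 F)) : ∃ al : (Ω ≃ₐ[F] Ω) → 𝓞 F,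
    (∀ s, ∀ T : Pt (WAB A B) Ω, p • T = 0 → ac (WAB A B) s T = act (al s) T) ∧
      (∀ s t, (p : 𝓞 F) ∣ al (s * t) - al s * al t) ∧
      ∀ s, (p : 𝓞 F) ∣ al s - 1 ↔ ∀ T : Pt (WAB A B) Ω, p • T = 0 → ac (WAB A B) s T = T := by
  obtain ⟨-, T₀, hT₀, hgen, hz⟩ := H55K.S.gi_gen h _ hπ
  have hact : ∀ T : Pt (WAB A B) Ω, act (p : 𝓞 F) T = p • T := fun T => H55K.S.act_nat p T
  have hT₀p : p • T₀ = 0 := by
    rw [← hact]
    exact hT₀
  have hex : ∀ s : Ω ≃ₐ[F] Ω, ∃ a : 𝓞 F, ac (WAB A B) s T₀ = act a T₀ := by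
    intro s
    refine hgen _ ?_
    rw [H55K.S.mem_Tor, ← h.gal, show act (p : 𝓞 F) T₀ = 0 from hT₀, map_zero]
  choose al hal using hex
  have h1 : ∀ s, ∀ T : Pt (WAB A B) Ω, p • T = 0 → ac (WAB A B) s T = act (al s) T := by
    intro s T hT
    obtain ⟨a, rfl⟩ := hgen T (by rw [H55K.S.mem_Tor, hact]; exact hT)
    rw [h.gal, hal, ← H55K.S.act_mul, ← H55K.S.act_mul, mul_comm]
  refine ⟨al, h1, fun s t => ?_, fun s => ⟨fun h2 T hT => ?_, fun h2 => ?_⟩⟩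
  · rw [← hz, H55K.S.act_sub, ← hal, H55K.S.ac_mul, hal t, h.gal, hal s, ← H55K.S.act_mul, mul_comm, sub_self]
  · obtain ⟨c, hc⟩ := h2
    have h3 : al s = 1 + (p : 𝓞 F) * c := by rw [← hc]; ring
    rw [h1 s T hT, h3, H55K.S.act_add, H55K.S.act_one, mul_comm, H55K.S.act_mul, hact, hT, map_zero, add_zero]
  · rw [← hz, H55K.S.act_sub, ← hal, H55K.S.act_one, h2 T₀ hT₀p, sub_self]

/-- The homomorphism to the units of the residue field. -/
theorem exists_hom {G : Type} [Group G] (hp : p.Prime) (hπ : Prime (p : 𝓞 F)) (al : G → 𝓞 F)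
    (h1 : ∀ s t, (p : 𝓞 F) ∣ al (s * t) - al s * al t) (h2 : (p : 𝓞 F) ∣ al 1 - 1) :
    ∃ f : G →* (𝓞 F ⧸ Ideal.span {(p : 𝓞 F)})ˣ, (∀ s, f s = 1 ↔ (p : 𝓞 F) ∣ al s - 1) ∧
      Finite (𝓞 F ⧸ Ideal.span {(p : 𝓞 F)})ˣ ∧ Nat.card (𝓞 F ⧸ Ideal.span {(p : 𝓞 F)})ˣ = p ^ 2 - 1 := by
  have hne : Ideal.span {(p : 𝓞 F)} ≠ ⊥ := by
    rw [Ne, Ideal.span_singleton_eq_bot]
    exact hπ.ne_zero
  have hm : (Ideal.span {(p : 𝓞 F)}).IsMaximal := ((Ideal.span_singleton_prime hπ.ne_zero).2 hπ).isMaximal hne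
  let _ := Ideal.Quotient.field (Ideal.span {(p : 𝓞 F)})
  have hfin : Finite (𝓞 F ⧸ Ideal.span {(p : 𝓞 F)}) := Ideal.finiteQuotientOfFreeOfNeBot _ hne
  have hmk : ∀ x y : 𝓞 F, Ideal.Quotient.mk (Ideal.span {(p : 𝓞 F)}) x = Ideal.Quotient.mk _ y ↔ (p : 𝓞 F) ∣ x - y := fun x y => by
    rw [Ideal.Quotient.eq, Ideal.mem_span_singleton]
  let f : G →* (𝓞 F ⧸ Ideal.span {(p : 𝓞 F)}) :=
    { toFun := fun s => Ideal.Quotient.mk _ (al s)
      map_one' := by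
        rw [← map_one (Ideal.Quotient.mk (Ideal.span {(p : 𝓞 F)}))]
        exact (hmk _ _).2 h2
      map_mul' := fun s t => by
        rw [← map_mul]
        exact (hmk _ _).2 (h1 s t) }
  refine ⟨f.toHomUnits, fun s => ?_, inferInstance, ?_⟩
  · rw [← Units.val_eq_one]
    show Ideal.Quotient.mk (Ideal.span {(p : 𝓞 F)}) (al s) = 1 ↔ _
    rw [← map_one (Ideal.Quotient.mk (Ideal.span {(p : 𝓞 F)})), hmk]
  · rw [Nat.card_units]
    have h3 : Nat.card (𝓞 F ⧸ Ideal.span {(p : 𝓞 F)}) = Nm (p : 𝓞 F) := rfl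
    rw [h3, H55K.Nm_nat]

theorem pow_lt {Ω : Type} [Field Ω] (V : ValuationSubring Ω) {x y : Ω} (hx : V.valuation x ≤ 1) (hy : V.valuation y ≤ 1)
    (h : V.valuation (x - y) < 1) (n : ℕ) : V.valuation (x ^ n - y ^ n) < 1 := by
  induction n with
  | zero =>
    rw [pow_zero, pow_zero, sub_self, map_zero]
    exact zero_lt_one
  | succ n ih =>
    have e1 : x ^ (n + 1) - y ^ (n + 1) = x * (x ^ n - y ^ n) + (x - y) * y ^ n := by ring
    rw [e1]
    refine Valuation.map_add_lt _ ?_ ?_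
    · rw [map_mul]
      exact lt_of_le_of_lt (mul_le_of_le_one_left' hx) ih
    · rw [map_mul, map_pow]
      exact lt_of_le_of_lt (mul_le_of_le_one_right' (pow_le_one' hy n)) h

/-- The action on the parameter of a point of order p. -/
theorem tt_al (h : CMA F A B Om j act) (hG : GV A B V) {T : Pt (WAB A B) Ω} (hT : Ker V T) (h0 : tt T ≠ 0) {s : Ω ≃ₐ[F] Ω} {a : 𝓞 F}
    (ha : ac (WAB A B) s T = act a T) : V.valuation (s (tt T) / tt T - ak Ω a) < 1 := by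
  have hv : V.valuation (tt T) ≠ 0 := (map_ne_zero _).2 h0
  have h1 := H55K.tt_act h hG a hT
  rw [← ha, H55K.S.tt_ac] at h1
  have h3 : s (tt T) / tt T - ak Ω a = (s (tt T) - ak Ω a * tt T) / tt T := by
    rw [sub_div, mul_div_cancel_right₀ _ h0]
  rw [h3, map_div₀, div_lt_one₀ (zero_lt_iff.2 hv)]
  refine lt_of_le_of_lt h1 ?_
  rw [sq]
  calc V.valuation (tt T) * V.valuation (tt T) < 1 * V.valuation (tt T) :=
        mul_lt_mul_of_pos_right (H55K.ttlt hG hT) (zero_lt_iff.2 hv)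
    _ = V.valuation (tt T) := one_mul _

/-- The frame of E[p]: Fri, with the action on the points and the bound for the number of levels. -/
structure Fe (X : Frm F Ω) (N : IntermediateField F Ω) (act : 𝓞 F →+* AddMonoid.End (Pt (WAB A B) Ω)) (om : (Ω ≃ₐ[F] Ω) → ZMod X.p)
    (al : (Ω ≃ₐ[F] Ω) → 𝓞 F) (φ : Ω ≃ₐ[F] Ω) (q : ℕ) (g : 𝓞 F) (b₀ : ℕ) : Prop where
  fri : Fri X (DN N X.V) om al φ q g
  act : ∀ s, ∀ T : Pt (WAB A B) Ω, X.p • T = 0 → ac (WAB A B) s T = act (al s) T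
  memC : ∀ s, s ∈ X.C ↔ s ∈ DN N X.V ∧ ∀ T : Pt (WAB A B) Ω, X.p • T = 0 → ac (WAB A B) s T = T
  nrm : ∀ s, (X.p : 𝓞 F) ∣ al s * cj (al s) - ((om s).val : 𝓞 F)
  cnt : ∀ (k : ℕ) (S₁ S₂ : Finset ℕ), k * (X.p - 1) < X.e * X.p → (∀ i ∈ S₁, i < k ∧ ¬ X.p ∣ i + 1 ∧ G1 X (DN N X.V) al (i + 1)) →
      (∀ i ∈ S₂, i < k ∧ ¬ X.p ∣ i + 1 ∧ G2 X (DN N X.V) al (i + 1)) → S₁.card + S₂.card ≤ 2 * b₀

theorem exists_fe (dta : Dta A B Om j act mo ψ p) (hπ : Prime (p : 𝓞 F)) (hV : V.valuation (p : Ω) < 1) (N : IntermediateField F Ω)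
    [NumberField N] {v : HeightOneSpectrum (𝓞 N)} (hv : H13S.Abv N V v) {b₀ : ℕ} (hb0 : 0 < b₀)
    (hb : v.valuation N (algebraMap F N ((p : 𝓞 F) : F)) = WithZero.exp (-(b₀ : ℤ))) :
    ∃ (X : Frm F Ω) (om : (Ω ≃ₐ[F] Ω) → ZMod X.p) (al : (Ω ≃ₐ[F] Ω) → 𝓞 F) (φ : Ω ≃ₐ[F] Ω) (g : 𝓞 F), X.p = p ∧ X.V = V ∧
      Fe X N act om al φ (Ideal.absNorm v.asIdeal) g b₀ ∧ ∃ (L : IntermediateField F Ω) (_ : NumberField L) (vL : HeightOneSpectrum (𝓞 L)),
        H13S.Abv L V vL ∧ X.C = DN L V := by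
  classical
  have hal' : Algebra.IsAlgebraic F Ω := IsAlgClosure.isAlgebraic
  have hp := dta.prime
  have hpf : Fact p.Prime := ⟨hp⟩
  have hA := dta.cma
  have hG : GV A B V := dta.good V hV
  have hpa : ak Ω (p : 𝓞 F) = (p : Ω) := by simp [ak]
  have hVa : V.valuation (ak Ω (p : 𝓞 F)) < 1 := by rw [hpa]; exact hV
  have hact : ∀ T : Pt (WAB A B) Ω, act (p : 𝓞 F) T = p • T := fun T => H55K.S.act_nat p T
  obtain ⟨w₁, hw₁N, hw₁0, hw₁1, hπw, hval⟩ := H19C.exists_unif2 (V := V) N hv hb0 hb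
  obtain ⟨φ, hq1, hpq, hφD, hφ, -⟩ := H19C.exists_res2 (π := (p : 𝓞 F)) hp hπ dvd_rfl hVa N hv
  rw [hpa] at hπw
  obtain ⟨al, al1, al2, al3⟩ := exists_al (p := p) hA hπ
  have hac : IsAlgClosed Ω := IsAlgClosure.isAlgClosed F
  have hchar : CharZero Ω := charZero_of_injective_algebraMap (algebraMap F Ω).injective
  have hn0 : NeZero p := ⟨hp.ne_zero⟩
  have hn1 : NeZero (p : Ω) := ⟨Nat.cast_ne_zero.2 hp.ne_zero⟩
  obtain ⟨ζ, hζ⟩ := HasEnoughRootsOfUnity.exists_primitiveRoot Ω p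
  -- the cyclotomic character
  have hom : ∀ s : Ω ≃ₐ[F] Ω, ∃ m : ZMod p, s ζ = zt ζ m ∧ (p : 𝓞 F) ∣ al s * cj (al s) - ((m.val : ℕ) : 𝓞 F) := by
    intro s
    have hs1 : s ζ ^ p = 1 := by rw [← map_pow, hζ.pow_eq_one, map_one]
    obtain ⟨c, hc1, hc⟩ := hζ.eq_pow_of_pow_eq_one hs1
    refine ⟨(c : ZMod p), ?_, ?_⟩
    · rw [H19B.zt_nat hζ, hc]
    · obtain ⟨T₀, hT₀, hT₀0⟩ := H55K.exists_tor hA hπ
      have hT' : T₀ ∈ Tor act (cj (p : 𝓞 F)) := by rw [H55K.cj_nat]; exact hT₀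
      have hTp : p • T₀ = 0 := by rw [← hact]; exact hT₀
      have h1 := H55K.S.char_id _ p dta hπ dvd_rfl ζ hζ s (al s) (al s) c T₀ T₀ hT₀ hT₀0 hT' hT₀0 (al1 s T₀ hTp) (al1 s T₀ hTp) hc.symm
      rw [ZMod.val_natCast, Nat.mod_eq_of_lt hc1, mul_comm (al s)]
      exact h1
  choose om hom1 hom2 using hom
  -- the generator
  obtain ⟨g, hg1, hg2⟩ := exists_gen hp (by have := dta.five; omega) hπ
  -- the field of the points of order p
  have hNf : FiniteDimensional F N := H13X.yn1_fin N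
  obtain ⟨L, hL⟩ := H13X.exists_TB hA (p : 𝓞 F) hπ N
  have hLf : FiniteDimensional F L := hL.fin
  have hLn : NumberField L := NumberField.of_module_finite F L
  obtain ⟨w, e, hwL, hw0, hw1, he0, hep, hvalL⟩ := H19B.exists_unif hp hV L
  have hLfix : ∀ s : Ω ≃ₐ[F] Ω, s ∈ L.fixingSubgroup ↔
      s ∈ N.fixingSubgroup ∧ ∀ T : Pt (WAB A B) Ω, p • T = 0 → ac (WAB A B) s T = T := fun s =>
    (hL.fix s).trans (and_congr_right fun _ => forall_congr' fun T => by rw [H55K.S.mem_Tor, hact])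
  have hVtop : V ≠ ⊤ := by
    rintro rfl
    have h1 : ((p : Ω)⁻¹) ∈ (⊤ : ValuationSubring Ω) := trivial
    have h2 := ((⊤ : ValuationSubring Ω).valuation_le_one_iff _).2 h1
    rw [map_inv₀] at h2
    have h3 : (⊤ : ValuationSubring Ω).valuation (p : Ω) ≠ 0 := (map_ne_zero _).2 (Nat.cast_ne_zero.2 hp.ne_zero)
    exact absurd h2 (not_le.2 ((one_lt_inv₀ (zero_lt_iff.2 h3)).2 hV))
  obtain ⟨vL, hvL⟩ := H13X.xg3_below L hVtop
  obtain ⟨φL, hφLL, hφLD, hφL⟩ := H13X.exists_frobK L hvL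
  obtain ⟨i₁, hi₁⟩ := hvalL w₁ hw₁0 (fun s hsL _ =>
    (IntermediateField.mem_fixingSubgroup_iff N s).1 ((hLfix s).1 hsL).1 w₁ hw₁N)
  obtain ⟨d, hd0, hdw⟩ := H19C.fb_pos hw0 hw1 hw₁1 hi₁
  have hedb : e = d * b₀ := by
    refine H19C.fb_pow hw0 hw1 ?_
    rw [← hep, hπw, hdw, pow_mul]
  -- a point of order p
  obtain ⟨T₀, hT₀, hT₀0⟩ := H55K.exists_tor hA hπ
  have hT₀p : p • T₀ = 0 := by rw [← hact]; exact hT₀
  obtain ⟨hT₀K, hT₀v⟩ := H55K.tor_ram hA hG hπ hVa hT₀ hT₀0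
  rw [H55K.Nm_nat, hpa] at hT₀v
  have hp1 : 0 < p ^ 2 - 1 := by
    have h1 := hp.two_le
    have h2 : 2 ^ 2 ≤ p ^ 2 := Nat.pow_le_pow_left h1 2
    omega
  have ht0 : (tt T₀ : Ω) ≠ 0 := by
    intro h
    rw [h, map_zero, zero_pow hp1.ne'] at hT₀v
    exact (map_ne_zero V.valuation).2 (Nat.cast_ne_zero.2 hp.ne_zero) hT₀v.symm
  obtain ⟨i₂, hi₂⟩ := hvalL (tt T₀) ht0 (fun s hsL _ => by
    rw [← H55K.S.tt_ac (W := WAB A B), ((hLfix s).1 hsL).2 T₀ hT₀p])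
  obtain ⟨r, hr0, hrw⟩ := H19C.fb_pos hw0 hw1 (H55K.ttlt hG hT₀K) hi₂
  have hre : r * (p ^ 2 - 1) = e := by
    refine H19C.fb_pow hw0 hw1 ?_
    rw [pow_mul, ← hrw, hT₀v, hep]
  have hw0v : V.valuation w ≠ 0 := (map_ne_zero _).2 hw0
  let C : Subgroup (Ω ≃ₐ[F] Ω) := f6Fix (DN N V) (fun T : Pt (WAB A B) Ω => p • T = 0)
  have hCL : C = DN L V := by
    ext s
    constructor
    · intro hs
      exact mem_DN.2 ⟨(hLfix s).2 ⟨(mem_DN.1 hs.1).1, hs.2⟩, (mem_DN.1 hs.1).2⟩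
    · intro hs
      have h1 := mem_DN.1 hs
      have h2 := (hLfix s).1 h1.1
      exact ⟨mem_DN.2 ⟨h2.1, h1.2⟩, h2.2⟩
  let X : Frm F Ω :=
    { p := p
      q := Ideal.absNorm vL.asIdeal
      e := e
      b := e
      Q := Ideal.absNorm vL.asIdeal
      G := fun _ => True
      V := V
      D := C
      E := C
      C := C
      w := w
      φ := φL
      ζ := ζ
      om := fun _ => 1
      et := fun _ => 1 }
  have hwC : ∀ s ∈ C, s w = w := fun s hs =>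
    (IntermediateField.mem_fixingSubgroup_iff L s).1 ((hLfix s).2 ⟨(mem_DN.1 hs.1).1, hs.2⟩) w hwL
  have hdv : ∀ s ∈ DN N V, ∀ x : Ω, V.valuation (s x) = V.valuation x := fun s hs x => H13X.Dec.val (mem_DN.1 hs).2 x
  have hCD : C ≤ DN N V := fun s hs => hs.1
  have hζ1 : ∀ s ∈ C, s ζ = ζ := by
    intro s hs
    obtain ⟨c, hc⟩ := (al3 s).2 hs.2
    obtain ⟨c', hc'⟩ := hom2 s
    have h1 : (p : 𝓞 F) ∣ (((om s).val : ℤ) - 1 : ℤ) := by
      refine ⟨cj (al s) * c + cj c - c', ?_⟩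
      have h2 : cj (al s) - 1 = (p : 𝓞 F) * cj c := by
        have h3 := congrArg cj hc
        rw [map_sub, map_one, map_mul, H55K.cj_nat] at h3
        exact h3
      push_cast
      linear_combination (cj (al s)) * hc + h2 - hc'
    have h2 : (p : ℤ) ∣ ((om s).val : ℤ) - 1 := by
      by_contra hn
      obtain ⟨u, v', huv⟩ := ((Nat.prime_iff_prime_int.1 hp).coprime_iff_not_dvd).2 hn
      refine hπ.not_isUnit (isUnit_of_dvd_one ?_)
      have h6 := congrArg (Int.cast : ℤ → 𝓞 F) huv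
      push_cast at h6
      rw [← h6]
      refine dvd_add (dvd_mul_left _ _) (Dvd.dvd.mul_left ?_ _)
      push_cast at h1
      exact h1
    have h3 : om s = 1 := by
      have h4 := (ZMod.intCast_zmod_eq_zero_iff_dvd _ p).2 h2
      push_cast at h4
      rw [ZMod.natCast_zmod_val, sub_eq_zero] at h4
      exact h4
    rw [hom1 s, h3]
    have h5 := H19B.zt_nat hζ 1
    rw [Nat.cast_one, pow_one] at h5
    exact h5
  have hφL' : ∀ x : Ω, V.valuation x ≤ 1 → V.valuation (φL x - x ^ Ideal.absNorm vL.asIdeal) < 1 := fun x hx =>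
    hφL x ((V.valuation_le_one_iff _).1 hx)
  have hφLC : φL ∈ C := by
    rw [hCL]
    exact mem_DN.2 ⟨hφLL, hφLD⟩
  obtain ⟨fL, hfL0, hfL⟩ := H19B.f2_exp V (p : 𝓞 F) hπ hVa vL hvL
  have hpqL : p ∣ Ideal.absNorm vL.asIdeal := by
    rw [hfL]
    exact dvd_pow (H19B.f2_Nm hp hπ dvd_rfl) hfL0.ne'
  have hqL0 : Ideal.absNorm vL.asIdeal ≠ 0 := by
    rw [Ne, Ideal.absNorm_eq_zero_iff]
    exact vL.ne_bot
  have hqL1 : 1 < Ideal.absNorm vL.asIdeal :=
    lt_of_lt_of_le hp.one_lt (Nat.le_of_dvd (Nat.pos_of_ne_zero hqL0) hpqL)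
  have hOk : X.Ok := by
    refine
      { pr := hp
        odd := lt_of_lt_of_le (by norm_num) dta.five
        dec := fun s hs => (mem_DN.1 (hCD hs)).2
        inv := fun s hs => hdv s (hCD hs)
        le1 := le_rfl
        le2 := le_rfl
        nrm1 := fun s hs t ht => C.mul_mem (C.mul_mem (C.inv_mem hs) ht) hs
        nrm2 := fun s hs t ht => C.mul_mem (C.mul_mem (C.inv_mem hs) ht) hs
        rep := ⟨{1}, ⟨fun s hs => by rw [Finset.mem_singleton.1 hs]; exact C.one_mem,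
          fun t ht => ⟨1, Finset.mem_singleton_self _, by rw [inv_one, one_mul]; exact ht⟩,
          fun s hs s' hs' _ => (Finset.mem_singleton.1 hs).trans (Finset.mem_singleton.1 hs').symm⟩, by
            rw [Finset.card_singleton]
            exact fun h => hp.one_lt.ne' (Nat.dvd_one.1 h)⟩
        fw := hwC
        w0 := hw0
        w1 := hw1
        val := fun x hx0 hx => hvalL x hx0 fun s hsL hsI => hx s
          ⟨mem_DN.2 ⟨((hLfix s).1 hsL).1, H55P.inert_dec V s hsI⟩, ((hLfix s).1 hsL).2⟩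
        e0 := he0
        ep := hep
        q0 := hqL1
        Qp := hpqL
        Q0 := lt_trans zero_lt_one hqL1
        res := fun x hx hxE => by
          have h1 := hφL' x hx
          rw [hxE _ hφLC] at h1
          rw [← neg_sub, Valuation.map_neg]
          exact h1
        phi := hφLC
        fro := hφL'
        prim := hζ
        zD := fun s hs => by
          rw [hζ1 s hs]
          have h5 := H19B.zt_nat hζ 1
          rw [Nat.cast_one, pow_one] at h5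
          exact h5.symm
        om1 := fun _ _ => rfl
        et1 := fun _ _ => rfl
        lev := fun i hi => absurd trivial hi
        cnt := fun k S hk hS => H19C.cnt_one (lt_of_lt_of_le (by norm_num) dta.five) he0 S hk fun i hi => ⟨(hS i hi).1, (hS i hi).2.1⟩ }
  have hmemC : ∀ s, s ∈ C ↔ s ∈ DN N V ∧ ∀ T : Pt (WAB A B) Ω, p • T = 0 → ac (WAB A B) s T = T := fun s => Iff.rfl
  have hFri : Fri X (DN N V) om al φ (Ideal.absNorm v.asIdeal) g :=
    { ok := hOk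
      eD := rfl
      eE := rfl
      le := hCD
      nrm := fun s hs t ht => f6_nrm (fun s _ T hT => by rw [← map_nsmul, hT, map_zero]) hs ht
      inv := hdv
      zD := fun s _ => hom1 s
      phi := hφD
      q0 := hq1
      fro := hφ
      alC := fun s hs => by
        rw [al3 s]
        exact ⟨fun h => h.2, fun h => ⟨hs, h⟩⟩
      ine := hπ
      gen := hg1
      bas := hg2 }
  -- the inertia group
  let I : Subgroup (Ω ≃ₐ[F] Ω) := DN N V ⊓ H55P.inS F V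
  obtain ⟨f, hf1, hffin, hfcard⟩ := exists_hom (G := Ω ≃ₐ[F] Ω) hp hπ al al2 ((al3 1).2 fun T _ => by
    have h1 := H55K.S.ac_mul (W := WAB A B) (1 : Ω ≃ₐ[F] Ω) 1 T
    cases T <;> rfl)
  obtain ⟨S, hS, hSc⟩ := rep_hom f (I ⊓ C) I (fun s hsI => by
    rw [hf1, al3]
    exact ⟨fun h1 => ⟨hsI, hsI.1, h1⟩, fun h1 => h1.2.2⟩)
  have hSp : ¬ p ∣ S.card := by
    intro h
    have h1 : p ∣ p ^ 2 - 1 := h.trans (hfcard ▸ hSc)
    have h2 : p ∣ p ^ 2 := dvd_pow_self _ two_ne_zero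
    have h3 : p ^ 2 = (p ^ 2 - 1) + 1 := by omega
    rw [h3] at h2
    exact hp.one_lt.ne' (Nat.dvd_one.1 ((Nat.dvd_add_right h1).1 h2))
  have hθ1 : ∀ s ∈ DN N V, V.valuation (s w / w) = 1 := fun s hs => by rw [map_div₀, hdv s hs, div_self hw0v]
  have hlev : ∀ i : ℕ, (∀ s ∈ I, V.valuation ((s w / w) ^ i - 1) < 1) → d ∣ i := by
    intro i hi
    exact H19C.lev_dvd hp hV hS hSp hw0 hw1 (fun s hs => hwC s hs.2) hdw
      (fun y hy hfix => hval y hy fun s hsN hsI => hfix s ⟨mem_DN.2 ⟨hsN, H55P.inert_dec V s hsI⟩, hsI⟩) hi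
  -- powers of the characters
  have hdp : d ∣ p ^ 2 - 1 := by
    refine hlev _ fun s hs => ?_
    have h1 : s ^ (p ^ 2 - 1) ∈ C := by
      refine ⟨(DN N V).pow_mem hs.1 _, (al3 _).1 ((hf1 _).1 ?_)⟩
      rw [map_pow, ← hfcard]
      exact pow_card_eq_one'
    have h2 := (H19C.lv_pow (V := V) hs.2 (hdv s hs.1) hw0 (p ^ 2 - 1)).1
    rw [hwC _ h1, div_self hw0] at h2
    rw [← neg_sub, Valuation.map_neg]
    exact h2
  have hθr : ∀ s ∈ I, V.valuation ((s w / w) ^ r - ak Ω (al s)) < 1 := by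
    intro s hs
    have h1 := tt_al hA hG hT₀K ht0 (al1 s T₀ hT₀p)
    have hwr : w ^ r ≠ 0 := pow_ne_zero _ hw0
    obtain ⟨y, hy⟩ : ∃ y : Ω, y = tt T₀ / w ^ r := ⟨_, rfl⟩
    have hy1 : V.valuation y = 1 := by
      rw [hy, map_div₀, map_pow, hrw, div_self (pow_ne_zero _ hw0v)]
    have hy0 : y ≠ 0 := fun h => by rw [h, map_zero] at hy1; exact zero_ne_one hy1
    have h2 : V.valuation (s y - y) < 1 := hs.2 y ((V.valuation_le_one_iff _).1 hy1.le)
    have h3 : tt T₀ = y * w ^ r := by rw [hy, div_mul_cancel₀ _ hwr]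
    have h4 : s (tt T₀) / tt T₀ = (s w / w) ^ r + ((s y - y) / y) * (s w / w) ^ r := by
      rw [h3, map_mul, map_pow, div_pow]
      field_simp
      ring
    have h5 : (s w / w) ^ r - ak Ω (al s) = (s (tt T₀) / tt T₀ - ak Ω (al s)) - ((s y - y) / y) * (s w / w) ^ r := by
      rw [h4]
      ring
    rw [h5]
    refine V.valuation.map_sub_lt h1 ?_
    rw [map_mul, map_div₀, hy1, div_one, map_pow, hθ1 s hs.1, one_pow, mul_one]
    exact h2
  have hmod : ∀ i k : ℕ, (∀ s ∈ I, V.valuation ((s w / w) ^ i - (s w / w) ^ k) < 1) → i ≡ k [MOD d] := by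
    intro i k hlt
    rcases le_total i k with hir | hir
    · obtain ⟨m, rfl⟩ := Nat.exists_eq_add_of_le hir
      have h4 : d ∣ m := by
        refine hlev m fun s hs => ?_
        have h5 := hlt s hs
        have h6 : (s w / w) ^ i - (s w / w) ^ (i + m) = -((s w / w) ^ i * ((s w / w) ^ m - 1)) := by ring
        rw [h6, Valuation.map_neg, map_mul, H19C.lv_one (hθ1 s hs.1) i, one_mul] at h5
        exact h5
      exact (Nat.modEq_iff_dvd' (Nat.le_add_right i m)).2 (by rw [Nat.add_sub_cancel_left]; exact h4)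
    · obtain ⟨m, rfl⟩ := Nat.exists_eq_add_of_le hir
      have h4 : d ∣ m := by
        refine hlev m fun s hs => ?_
        have h5 := hlt s hs
        have h6 : (s w / w) ^ (k + m) - (s w / w) ^ k = (s w / w) ^ k * ((s w / w) ^ m - 1) := by ring
        rw [h6, map_mul, H19C.lv_one (hθ1 s hs.1) k, one_mul] at h5
        exact h5
      exact ((Nat.modEq_iff_dvd' (Nat.le_add_right k m)).2 (by rw [Nat.add_sub_cancel_left]; exact h4)).symm
  have hle : ∀ a : 𝓞 F, V.valuation (ak Ω a) ≤ 1 := fun a => H55K.ak_le V a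
  have hθp : ∀ s ∈ I, V.valuation ((s w / w) ^ (r * p) - ak Ω (cj (al s))) < 1 := by
    intro s hs
    have h1 := pow_lt V (H19C.lv_one (hθ1 s hs.1) r).le (hle (al s)) (hθr s hs) p
    obtain ⟨c, hc⟩ := frob_cj hp (by have := dta.five; omega) hπ (al s)
    have h2 : ak Ω (al s) ^ p - ak Ω (cj (al s)) = (p : Ω) * ak Ω c := by
      have h3 := congrArg (fun x : 𝓞 F => ak Ω x) hc
      simpa [ak] using h3
    have h4 : (s w / w) ^ (r * p) - ak Ω (cj (al s)) = (((s w / w) ^ r) ^ p - ak Ω (al s) ^ p) + (p : Ω) * ak Ω c := by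
      rw [← h2, pow_mul]
      ring
    rw [h4]
    refine Valuation.map_add_lt _ h1 ?_
    rw [map_mul]
    exact lt_of_le_of_lt (mul_le_of_le_one_right' (hle c)) hV
  refine ⟨X, om, al, φ, g, rfl, rfl, ⟨hFri, al1, hmemC, hom2, fun k S₁ S₂ hk h₁ h₂ => ?_⟩, L, hLn, vL, hvL, hCL⟩
  refine cnt2 (r := r) (lt_of_lt_of_le (by norm_num) dta.five) hd0 hdp hedb hre S₁ S₂ hk (fun i hi => ?_) (fun i hi => ?_)
  · obtain ⟨a1, a2, a3⟩ := h₁ i hi
    refine ⟨a1, a2, hmod _ _ fun s hs => ?_⟩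
    have h5 : (s w / w) ^ (i + 1) - (s w / w) ^ r = ((s w / w) ^ (i + 1) - ak Ω (al s)) - ((s w / w) ^ r - ak Ω (al s)) := by ring
    rw [h5]
    exact V.valuation.map_sub_lt (a3 s hs.1 hs.2) (hθr s hs)
  · obtain ⟨a1, a2, a3⟩ := h₂ i hi
    refine ⟨a1, a2, hmod _ _ fun s hs => ?_⟩
    have h5 : (s w / w) ^ (i + 1) - (s w / w) ^ (r * p) =
        ((s w / w) ^ (i + 1) - ak Ω (cj (al s))) - ((s w / w) ^ (r * p) - ak Ω (cj (al s))) := by ring
    rw [h5]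
    exact V.valuation.map_sub_lt (a3 s hs.1 hs.2) (hθp s hs)

end SSN
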