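import Mathlib
import Pool.Agent.Lib.H19C.GB
import Pool.Agent.Lib.H19C.FU
import Pool.Agent.Lib.H19C.D2
import Pool.Agent.Lib.H19B.E1
import Pool.Agent.Lib.H19B.E2
import Pool.Agent.Lib.H19B.C1
import Pool.Agent.Lib.H55K.G5D
import Pool.Agent.Lib.H55K.G5E

/-! # SSN, chunk LK: the local index at a prime above π, for any prime element π of F (port of H19C/LA2) -/

open NumberField IsDedekindDomain WeierstrassCurve

namespace SSN

open H55P (IQ Pt ac Dec Inert decS Nm)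
open H35P (WAB Ker tt)
open H55K (Tor CMA Dta GV ak cj xc yc)
open H19B (DN mem_DN Cc CS mem_CS EF mem_EF)
open H19C (CB CL mem_CB mem_CL)
open H13S (Abv)

variable {F : Type} [Field F] [NumberField F] [IQ F] {A B : F} {Om : ℂ} {Ω : Type} [Field Ω] [DecidableEq Ω]
  [Algebra F Ω] [IsAlgClosure F Ω] {j : Ω →+* ℂ} {act : 𝓞 F →+* AddMonoid.End (Pt (WAB A B) Ω)} {mo : Ideal (𝓞 F)}
  {ψ : Ideal (𝓞 F) →*₀ 𝓞 F} {p : ℕ} {V : ValuationSubring Ω} {π : 𝓞 F}

/-- The points killed by π and fixed by D. -/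
def FT (D : Subgroup (Ω ≃ₐ[F] Ω)) (act : 𝓞 F →+* AddMonoid.End (Pt (WAB A B) Ω)) (π : 𝓞 F) : AddSubgroup (Pt (WAB A B) Ω) where
  carrier := {T | act π T = 0 ∧ ∀ s ∈ D, ac (WAB A B) s T = T}
  zero_mem' := ⟨map_zero _, fun s _ => map_zero _⟩
  add_mem' := fun h1 h2 => ⟨by rw [map_add, h1.1, h2.1, add_zero], fun s hs => by rw [map_add, h1.2 s hs, h2.2 s hs]⟩
  neg_mem' := fun h1 => ⟨by rw [map_neg, h1.1, neg_zero], fun s hs => by rw [map_neg, h1.2 s hs]⟩

theorem mem_FT (D : Subgroup (Ω ≃ₐ[F] Ω)) (π : 𝓞 F) (T : Pt (WAB A B) Ω) :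
    T ∈ FT D act π ↔ act π T = 0 ∧ ∀ s ∈ D, ac (WAB A B) s T = T := Iff.rfl

/-- The points of the group E which are images under π of points fixed by D. -/
def KG (D : Subgroup (Ω ≃ₐ[F] Ω)) (act : 𝓞 F →+* AddMonoid.End (Pt (WAB A B) Ω)) (π : 𝓞 F) (E : AddSubgroup (Pt (WAB A B) Ω)) :
    AddSubgroup (Pt (WAB A B) Ω) where
  carrier := {P | P ∈ E ∧ ∃ Q : Pt (WAB A B) Ω, (∀ s ∈ D, ac (WAB A B) s Q = Q) ∧ act π Q = P}
  zero_mem' := ⟨E.zero_mem, 0, fun s _ => map_zero _, map_zero _⟩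
  add_mem' := by
    rintro P P' ⟨h1, Q, h2, h3⟩ ⟨h1', Q', h2', h3'⟩
    exact ⟨E.add_mem h1 h1', Q + Q', fun s hs => by rw [map_add, h2 s hs, h2' s hs], by rw [map_add, h3, h3']⟩
  neg_mem' := by
    rintro P ⟨h1, Q, h2, h3⟩
    exact ⟨E.neg_mem h1, -Q, fun s hs => by rw [map_neg, h2 s hs], by rw [map_neg, h3]⟩

/-- There are finitely many points killed by π. -/
theorem ft_fin (h : CMA F A B Om j act) (hπ : Prime π) (D : Subgroup (Ω ≃ₐ[F] Ω)) : Finite (FT D act π) := by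
  have h1 : Finite (Tor act π) := Nat.finite_of_card_ne_zero (by
    rw [(H55K.S.gi_gen h π hπ).1]
    exact H55K.S.Nm_ne_zero' hπ.ne_zero)
  exact Finite.of_injective (fun T : FT D act π => (⟨T.1, T.2.1⟩ : Tor act π)) fun T T' hTT =>
    Subtype.ext (congrArg (fun R : Tor act π => R.1) hTT)

/-- The lower bound for the number of local points. -/
theorem kg_index (hA : CMA F A B Om j act) (hG : GV A B V) (hp : p.Prime) (hπ : Prime π) (hd : π ∣ (p : 𝓞 F))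
    (hV : V.valuation (ak Ω π) < 1) (N : IntermediateField F Ω) [NumberField N] {v : HeightOneSpectrum (𝓞 N)}
    (hv : Abv N V v) {b : ℕ} (hb0 : 0 < b) (hb : v.valuation N (algebraMap F N (π : F)) = WithZero.exp (-(b : ℤ))) :
    ∃ E : AddSubgroup (Pt (WAB A B) Ω), (∀ P ∈ E, Ker V P ∧ ∀ s ∈ DN N V, ac (WAB A B) s P = P) ∧
      ((KG (DN N V) act π E).relIndex E ≠ 0 →
        Ideal.absNorm v.asIdeal ^ b * Nat.card (FT (DN N V) act π) ≤ (KG (DN N V) act π E).relIndex E) := by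
  classical
  obtain ⟨w, hwN, hw0, hw1, hπw, hval⟩ := H19C.exists_unif2 (V := V) N hv hb0 hb
  obtain ⟨-, hq1, -, -, -, hrs⟩ := H19C.exists_res2 hp hπ hd hV N hv
  have hNf : FiniteDimensional F N := H13X.yn1_fin N
  have hw0v : V.valuation w ≠ 0 := (map_ne_zero _).2 hw0
  have hval' : ∀ y : Ω, y ≠ 0 → (∀ s ∈ DN N V, s y = y) → ∃ i : ℤ, V.valuation y = V.valuation w ^ i := fun y hy hfix =>
    hval y hy fun s hsN hsI => hfix s (mem_DN.2 ⟨hsN, H55P.inert_dec V s hsI⟩)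
  have hq0 : 0 < Ideal.absNorm v.asIdeal := lt_trans zero_lt_one hq1
  refine ⟨EF hG (DN N V) w hw1 0, fun P hP => ⟨hP.1, hP.2.1⟩, fun hKf => ?_⟩
  -- the points killed by π
  have hzero : ∀ T : Pt (WAB A B) Ω, act π T = 0 → T ∈ EF hG (DN N V) w hw1 b → T = 0 := by
    intro T hT hTE
    by_contra h0
    obtain ⟨-, h1⟩ := H55K.tor_ram hA hG hπ hV hT h0
    rw [hπw] at h1
    have h2 : V.valuation (tt T) ^ (Nm π - 1) ≤ (V.valuation w ^ (b + 1)) ^ (Nm π - 1) :=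
      pow_le_pow_left₀ zero_le hTE.2.2 _
    rw [h1, ← pow_mul] at h2
    have h5 : 1 ≤ Nm π - 1 := by
      have h4 := H19B.f2_Nm hp hπ hd
      have h6 : Nm π ≠ 0 := H55K.S.Nm_ne_zero' hπ.ne_zero
      have h7 := Nat.le_of_dvd (Nat.pos_of_ne_zero h6) h4
      have := hp.two_le
      omega
    have h3 : b < (b + 1) * (Nm π - 1) := by
      calc b < b + 1 := Nat.lt_succ_self b
        _ = (b + 1) * 1 := (mul_one _).symm
        _ ≤ (b + 1) * (Nm π - 1) := Nat.mul_le_mul_left _ h5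
    exact absurd h2 (not_le.2 (pow_lt_pow_right_of_lt_one₀ (zero_lt_iff.2 hw0v) hw1 h3))
  have hfin : Finite (FT (DN N V) act π) := ft_fin hA hπ _
  obtain ⟨r, hr, hrr⟩ : ∃ (r : Fin (Nat.card (FT (DN N V) act π)) → Pt (WAB A B) Ω),
      (∀ i, r i ∈ EF hG (DN N V) w hw1 0 ∧ act π (r i) = 0) ∧ ∀ i i', r i - r i' ∈ EF hG (DN N V) w hw1 b → i = i' := by
    refine ⟨fun i => ((Finite.equivFin (FT (DN N V) act π)).symm i).1, fun i => ?_, fun i i' h => ?_⟩
    · have h1 := ((Finite.equivFin (FT (DN N V) act π)).symm i).2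
      exact ⟨H19B.ef_zero hG hw0 hw1 hval' _ (H55K.tor_ker hA hG hπ hV h1.1) h1.2, h1.1⟩
    · have h1 := ((Finite.equivFin (FT (DN N V) act π)).symm i).2.1
      have h2 := ((Finite.equivFin (FT (DN N V) act π)).symm i').2.1
      have h3 := hzero _ (by rw [map_sub, h1, h2, sub_zero]) h
      exact (Finite.equivFin (FT (DN N V) act π)).symm.injective (Subtype.ext (sub_eq_zero.1 h3))
  refine H19C.count_index2 (EF hG (DN N V) w hw1) (H19B.ef_anti hG _ hw1) hq0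
    (H19B.ef_index hA hG hw0 hw1 hwN hq0 hrs hval') (act π) (fun P hP => H19B.ef_act0 hA hG hw1 π P hP) b b
    (fun P hP => H19B.ef_act hA hG hw1 hπw (Nat.le_succ b) P hP) r hr hrr _ ?_ hKf
  rintro P ⟨hP, Q, hQ1, hQ2⟩
  have hKQ : Ker V Q := H55K.ker_red hA hG hπ hV (by rw [hQ2]; exact hP.1)
  exact ⟨Q, H19B.ef_zero hG hw0 hw1 hval' Q hKQ hQ1, hQ2⟩

/-- THE LOCAL INDEX: an upper bound for the number of classes gives an upper bound for the index of the local condition. -/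
theorem loc_index (hA : CMA F A B Om j act) (hG : GV A B V) (hp : p.Prime) (hπ : Prime π) (hd : π ∣ (p : 𝓞 F))
    (hV : V.valuation (ak Ω π) < 1) (N N' : IntermediateField F Ω) [NumberField N] (hNN : N ≤ N')
    {v : HeightOneSpectrum (𝓞 N)} (hv : Abv N V v) {b : ℕ} (hb0 : 0 < b)
    (hb : v.valuation N (algebraMap F N (π : F)) = WithZero.exp (-(b : ℤ)))
    (hne : (CB (DN N V) act π).relIndex (CS (DN N V) act π) ≠ 0) :
    (CL (DN N V) (DN N' V) act π).relIndex (CS (DN N V) act π) ≠ 0 ∧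
      (Ideal.absNorm v.asIdeal ^ b * Nat.card (FT (DN N V) act π)) * (CL (DN N V) (DN N' V) act π).relIndex (CS (DN N V) act π) ≤
        (CB (DN N V) act π).relIndex (CS (DN N V) act π) := by
  classical
  obtain ⟨E, hE1, hE2⟩ := kg_index hA hG hp hπ hd hV N hv hb0 hb
  have hm : DN N' V ≤ DN N V := fun _ hs =>
    mem_DN.2 ⟨IntermediateField.fixingSubgroup_le hNN (mem_DN.1 hs).1, (mem_DN.1 hs).2⟩
  have l3 : CB (DN N V) act π ≤ CL (DN N V) (DN N' V) act π := by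
    rintro c ⟨hc, T, hT, h1⟩
    exact ⟨hc, T, fun s hs => h1 s (hm hs)⟩
  have l4 : CL (DN N V) (DN N' V) act π ≤ CS (DN N V) act π := fun c hc => hc.1
  have h2 := AddSubgroup.relIndex_mul_relIndex _ _ _ l3 l4
  have hne1 : (CB (DN N V) act π).relIndex (CL (DN N V) (DN N' V) act π) ≠ 0 := fun h0 => hne (by rw [← h2, h0, zero_mul])
  have hne2 : (CL (DN N V) (DN N' V) act π).relIndex (CS (DN N V) act π) ≠ 0 := fun h0 => hne (by rw [← h2, h0, mul_zero])
  refine ⟨hne2, ?_⟩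
  -- the Kummer map
  have hex : ∀ P : Pt (WAB A B) Ω, ∃ Q : Pt (WAB A B) Ω, act π Q = P := fun P => hA.surj π hπ.ne_zero P
  choose Qf hQf using hex
  have hQfix : ∀ P ∈ E, ∀ s ∈ DN N V, ac (WAB A B) s (act π (Qf P)) = act π (Qf P) := fun P hP s hs => by
    rw [hQf]
    exact (hE1 P hP).2 s hs
  have h3 := H19B.rel_map (KG (DN N V) act π E) E (CB (DN N V) act π) (CL (DN N V) (DN N' V) act π)
    (fun P s => ac (WAB A B) s (Qf P) - Qf P) (fun P hP => ?_) (fun P hP P' hP' hPP => ?_) hne1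
  · have h4 := (hE2 h3.1).trans h3.2
    rw [← h2]
    exact Nat.mul_le_mul_right _ h4
  · exact ⟨H19B.kum_cc hA (DN N V) (Qf P) (hQfix P hP), Qf P, fun s _ => rfl⟩
  · obtain ⟨-, T, hT, h4⟩ := hPP
    refine ⟨E.sub_mem hP hP', Qf P - Qf P' - T, fun s hs => ?_, ?_⟩
    · have h5 : (ac (WAB A B) s (Qf P) - Qf P) - (ac (WAB A B) s (Qf P') - Qf P') = ac (WAB A B) s T - T := h4 s hs
      rw [map_sub, map_sub]
      have h6 : ac (WAB A B) s (Qf P) - ac (WAB A B) s (Qf P') = (ac (WAB A B) s T - T) + (Qf P - Qf P') := by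
        rw [← h5]
        abel
      rw [h6]
      abel
    · rw [map_sub, map_sub, hQf, hQf, hT, sub_zero]

end SSN
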