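import Mathlib
import Pool.Agent.Lib.SSN.L4
import Pool.Agent.Lib.SSN.L5
import Pool.Agent.Lib.SSN.LK
import Pool.Agent.Lib.H19C.LE
import Pool.Agent.Lib.H19B.C2

/-! # SSN, chunk L6: the number of local classes with coefficients in E[p], p inert -/

open NumberField IsDedekindDomain WeierstrassCurve

namespace SSN

open H55P (IQ Pt ac Dec Inert decS Nm)
open H35P (WAB Ker tt)
open H55K (Tor CMA Dta GV ak cj)
open H19B (DN mem_DN Cc CS mem_CS rel_le rel_map)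
open H19C (Frm CB CL CU mem_CB mem_CL mem_CU)

variable {F : Type} [Field F] [NumberField F] [IQ F] {A B : F} {Om : ℂ} {Ω : Type} [Field Ω] [DecidableEq Ω]
  [Algebra F Ω] [IsAlgClosure F Ω] {j : Ω →+* ℂ} {act : 𝓞 F →+* AddMonoid.End (Pt (WAB A B) Ω)} {mo : Ideal (𝓞 F)}
  {ψ : Ideal (𝓞 F) →*₀ 𝓞 F} {p : ℕ} {V : ValuationSubring Ω}

/-- The trace modulo p. -/
theorem exists_tr (hP : Prime (p : 𝓞 F)) {g : 𝓞 F} (hg : ¬ (p : 𝓞 F) ∣ g - cj g) : ∃ τ : 𝓞 F →+ ZMod p,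
    ∀ x, (∀ z, τ (x * cj z) = 0) → (p : 𝓞 F) ∣ x := by
  have hex : ∀ x : 𝓞 F, ∃ n : ℤ, x + cj x = (n : 𝓞 F) := H55K.TQ.rf_tr
  choose t ht using hex
  have hadd : ∀ x y, t (x + y) = t x + t y := by
    intro x y
    have h1 : ((t (x + y) : ℤ) : 𝓞 F) = ((t x + t y : ℤ) : 𝓞 F) := by
      push_cast
      rw [← ht, ← ht, ← ht, map_add]
      ring
    exact Int.cast_injective h1
  refine ⟨AddMonoidHom.mk' (fun x => ((t x : ℤ) : ZMod p)) fun x y => by rw [hadd]; push_cast; rfl, fun x hx => ?_⟩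
  have h1 : ∀ z, (p : 𝓞 F) ∣ x * cj z + cj x * z := by
    intro z
    have h2 : ((t (x * cj z) : ℤ) : ZMod p) = 0 := hx z
    obtain ⟨c, hc⟩ := (ZMod.intCast_zmod_eq_zero_iff_dvd _ p).1 h2
    refine ⟨c, ?_⟩
    have h3 := ht (x * cj z)
    rw [map_mul, H55K.cj_cj, hc] at h3
    push_cast at h3
    exact h3
  have h2 := h1 1
  have h3 := h1 g
  rw [map_one, mul_one, mul_one] at h2
  have h4 : (p : 𝓞 F) ∣ x * (g - cj g) := by
    have h5 := dvd_sub (Dvd.dvd.mul_left h2 g) h3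
    have e1 : g * (x + cj x) - (x * cj g + cj x * g) = x * (g - cj g) := by ring
    rwa [e1] at h5
  exact (hP.dvd_or_dvd h4).resolve_right hg

/-- A pairing of the points of order p with 𝓞 F. -/
theorem exists_pair (h : CMA F A B Om j act) (hP : Prime (p : 𝓞 F)) {g : 𝓞 F} (hg : ¬ (p : 𝓞 F) ∣ g - cj g) :
    ∃ e : Pt (WAB A B) Ω → 𝓞 F →+ ZMod p,
      (∀ T T', p • T = 0 → p • T' = 0 → ∀ y, e (T + T') y = e T y + e T' y) ∧
      (∀ T, p • T = 0 → ∀ a y, e (act a T) y = e T (a * y)) ∧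
      ∀ T, p • T = 0 → (∀ z, e T (cj z) = 0) → T = 0 := by
  classical
  obtain ⟨τ, hτ⟩ := exists_tr hP hg
  obtain ⟨-, T₀, hT₀, hgen, hz⟩ := H55K.S.gi_gen h _ hP
  have hact : ∀ T : Pt (WAB A B) Ω, act (p : 𝓞 F) T = p • T := fun T => H55K.S.act_nat p T
  have hτp : ∀ x, τ ((p : 𝓞 F) * x) = 0 := fun x => by
    rw [← nsmul_eq_mul, map_nsmul, nsmul_eq_mul, ZMod.natCast_self, zero_mul]
  have hex : ∀ T : Pt (WAB A B) Ω, ∃ a : 𝓞 F, p • T = 0 → T = act a T₀ := by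
    intro T
    by_cases hT : p • T = 0
    · obtain ⟨a, ha⟩ := hgen T (by rw [H55K.S.mem_Tor, hact]; exact hT)
      exact ⟨a, fun _ => ha⟩
    · exact ⟨0, fun h' => absurd h' hT⟩
  choose co hco using hex
  have hT₀p : p • T₀ = 0 := by rw [← hact]; exact hT₀
  have key : ∀ a y, τ (co (act a T₀) * y) = τ (a * y) := by
    intro a y
    have h1 : p • act a T₀ = 0 := by rw [← map_nsmul, hT₀p, map_zero]
    have h2 := hco _ h1
    have h3 : (p : 𝓞 F) ∣ a - co (act a T₀) := by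
      rw [← hz, H55K.S.act_sub, ← h2, sub_self]
    obtain ⟨c, hc⟩ := h3
    have e1 : a * y = co (act a T₀) * y + (p : 𝓞 F) * (c * y) := by
      linear_combination y * hc
    rw [e1, map_add, hτp, add_zero]
  refine ⟨fun T => τ.comp (AddMonoidHom.mulLeft (co T)), fun T T' hT hT' y => ?_, fun T hT a y => ?_, fun T hT h0 => ?_⟩
  · have h1 := hco T hT
    have h2 := hco T' hT'
    have e1 : T + T' = act (co T + co T') T₀ := by rw [H55K.S.act_add, ← h1, ← h2]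
    show τ (co (T + T') * y) = τ (co T * y) + τ (co T' * y)
    rw [e1, key, ← map_add, add_mul]
  · have h1 := hco T hT
    have e1 : act a T = act (a * co T) T₀ := by rw [H55K.S.act_mul, ← h1]
    show τ (co (act a T) * y) = τ (co T * (a * y))
    rw [e1, key]
    congr 1
    ring
  · have h1 := hco T hT
    obtain ⟨c, hc⟩ := hτ (co T) h0
    rw [h1, hc, mul_comm, H55K.S.act_mul, hact, hT₀p, map_zero]

variable {X : Frm F Ω} {N : IntermediateField F Ω} {om : (Ω ≃ₐ[F] Ω) → ZMod X.p} {al : (Ω ≃ₐ[F] Ω) → 𝓞 F} {φ : Ω ≃ₐ[F] Ω}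
  {q : ℕ} {g : 𝓞 F} {b₀ : ℕ}

/-- The index of the cocycles which are trivial on the inertia elements of C. -/
theorem cu_index (h : CMA F A B Om j act) (hE : Fe X N act om al φ q g b₀) {n : ℕ} (hn : 1 ≤ n) (hn2 : DN N X.V ≤ X.C → X.p ^ 2 ≤ n) :
    (CU (DN N X.V) X.C X.V act (X.p : 𝓞 F)).relIndex (CS (DN N X.V) act (X.p : 𝓞 F)) ≠ 0 ∧
      (CU (DN N X.V) X.C X.V act (X.p : 𝓞 F)).relIndex (CS (DN N X.V) act (X.p : 𝓞 F)) ≤ q ^ (2 * b₀) * n := by
  classical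
  have hX := hE.fri
  have hXp : NeZero X.p := ⟨hX.ok.pr.ne_zero⟩
  obtain ⟨e, e1, e2, e3⟩ := exists_pair (p := X.p) h hX.ine hX.gen
  have hact : ∀ T : Pt (WAB A B) Ω, act (X.p : 𝓞 F) T = X.p • T := fun T => H55K.S.act_nat X.p T
  have e0 : ∀ y, e 0 y = 0 := by
    intro y
    have h1 := e1 0 0 (nsmul_zero _) (nsmul_zero _) y
    rw [add_zero] at h1
    exact left_eq_add.1 h1
  have hep : ∀ T y, e T ((X.p : 𝓞 F) * y) = 0 := fun T y => by
    rw [← nsmul_eq_mul, map_nsmul, nsmul_eq_mul, ZMod.natCast_self, zero_mul]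
  obtain ⟨i1, i2⟩ := bi_index hX hE.cnt hn hn2
  have hfixC : ∀ s ∈ X.C, ∀ T : Pt (WAB A B) Ω, X.p • T = 0 → ac (WAB A B) s T = T := fun s hs => ((hE.memC s).1 hs).2
  have hmap := rel_map (CU (DN N X.V) X.C X.V act (X.p : 𝓞 F)) (CS (DN N X.V) act (X.p : 𝓞 F)) (BI X (DN N X.V) om al)
    (BW X (DN N X.V) om al) (fun c z t => if t ∈ X.C then e (c t) (cj z) else 0) (fun c hc => ?_) (fun c hc c' hc' hcc => ?_) i1
  · exact ⟨hmap.1, hmap.2.trans i2⟩
  · have ht : ∀ s ∈ DN N X.V, X.p • c s = 0 := fun s hs => by rw [← hact]; exact hc.tor s hs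
    refine ⟨fun z => ⟨fun s hs t ht' => ?_, fun s hs t ht' => ?_, ?_⟩, fun z z' t ht' => ?_, fun s hs t ht' z => ?_⟩
    · rw [if_pos hs, if_pos ht', if_pos (X.C.mul_mem hs ht'), hc.mul s (hX.le hs) t (hX.le ht'), hfixC s hs _ (ht t (hX.le ht'))]
      exact e1 _ _ (ht s (hX.le hs)) (ht t (hX.le ht')) _
    · rw [hX.eD] at hs
      rw [hX.ok.om1 s hs, hX.ok.et1 s (hX.eE ▸ hs), one_mul, one_mul]
      have hc1 : s⁻¹ * t * s ∈ X.C := X.C.mul_mem (X.C.mul_mem (X.C.inv_mem hs) ht') hs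
      rw [if_pos hc1, if_pos ht']
      have h1 := hc.mul s (hX.le hs) _ (hX.le hc1)
      have h2 : s * (s⁻¹ * t * s) = t * s := by group
      rw [h2, hc.mul t (hX.le ht') s (hX.le hs), hfixC s hs _ (ht _ (hX.le hc1)), hfixC t ht' _ (ht _ (hX.le hs)), add_comm] at h1
      rw [add_left_cancel h1]
    · obtain ⟨L, hL, hL0⟩ := hc.cont
      refine ⟨L, hL, fun s hs hsL => ?_⟩
      show (if s ∈ X.C then e (c s) (cj z) else 0) = 0
      rw [if_pos hs, hL0 s (hX.le hs) hsL, e0]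
    · rw [if_pos ht', if_pos ht', if_pos ht', map_add, map_add]
    · have hc1 : s⁻¹ * t * s ∈ X.C := hX.nrm s hs t ht'
      rw [if_pos hc1, if_pos ht']
      have h1 := hc.mul s hs _ (hX.le hc1)
      have h2 : s * (s⁻¹ * t * s) = t * s := by group
      rw [h2, hc.mul t (hX.le ht') s hs, hfixC t ht' _ (ht _ hs), add_comm] at h1
      have h3 := add_left_cancel h1
      have h5 : cj (al s * z) = cj (al s) * cj z := map_mul _ _ _
      rw [h3, hE.act s _ (ht _ (hX.le hc1)), e2 _ (ht _ (hX.le hc1)), h5, ← mul_assoc]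
      obtain ⟨x, hx⟩ := hE.nrm s
      have h4 : al s * cj (al s) = (((om s).val : ℕ) : 𝓞 F) + (X.p : 𝓞 F) * x := by rw [← hx]; ring
      rw [h4, add_mul, map_add, mul_assoc (X.p : 𝓞 F), hep, add_zero, ← nsmul_eq_mul, map_nsmul, nsmul_eq_mul, ZMod.natCast_zmod_val]
  · refine ⟨(CS (DN N X.V) act (X.p : 𝓞 F)).sub_mem hc hc', fun t ht' hi => ?_⟩
    have ht : X.p • c t = 0 := by rw [← hact]; exact hc.tor t (hX.le ht')
    have ht2 : X.p • c' t = 0 := by rw [← hact]; exact hc'.tor t (hX.le ht')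
    have ht3 : X.p • (c t - c' t) = 0 := by rw [nsmul_sub, ht, ht2, sub_zero]
    refine e3 _ ht3 fun z => ?_
    have h1 := hcc.2 z t ht' hi
    simp only [Pi.sub_apply, if_pos ht'] at h1
    have h2 := e1 (c t - c' t) (c' t) ht3 ht2 (cj z)
    rw [sub_add_cancel] at h2
    rw [h2, add_sub_cancel_right] at h1
    exact h1

/-- The number of points of order p fixed by D. -/
theorem ft_card (h : CMA F A B Om j act) (hE : Fe X N act om al φ q g b₀) :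
    1 ≤ Nat.card (FT (DN N X.V) act (X.p : 𝓞 F)) ∧ (DN N X.V ≤ X.C → Nat.card (FT (DN N X.V) act (X.p : 𝓞 F)) = X.p ^ 2) := by
  have hX := hE.fri
  have hact : ∀ T : Pt (WAB A B) Ω, act (X.p : 𝓞 F) T = X.p • T := fun T => H55K.S.act_nat X.p T
  have hfin := ft_fin h hX.ine (DN N X.V)
  have : Nonempty (FT (DN N X.V) act (X.p : 𝓞 F)) := ⟨0⟩
  refine ⟨Nat.card_pos, fun hD => ?_⟩
  have h1 : (FT (DN N X.V) act (X.p : 𝓞 F)) = Tor act (X.p : 𝓞 F) := by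
    ext T
    refine ⟨fun hT => hT.1, fun hT => ⟨hT, fun s hs => ?_⟩⟩
    exact ((hE.memC s).1 (hD hs)).2 T (by rw [← hact]; exact hT)
  rw [h1, (H55K.S.gi_gen h _ hX.ine).1, H55K.Nm_nat]

/-- The index of the coboundaries. -/
theorem cbu_index (h : CMA F A B Om j act) (hE : Fe X N act om al φ q g b₀) [NumberField N] {v : HeightOneSpectrum (𝓞 N)}
    (hv : H13S.Abv N X.V v) {L : IntermediateField F Ω} [NumberField L] {vL : HeightOneSpectrum (𝓞 L)} (hvL : H13S.Abv L X.V vL)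
    (hCL : X.C = DN L X.V) :
    (CB (DN N X.V) act (X.p : 𝓞 F)).relIndex (CU (DN N X.V) X.C X.V act (X.p : 𝓞 F)) ≠ 0 ∧
      (CB (DN N X.V) act (X.p : 𝓞 F)).relIndex (CU (DN N X.V) X.C X.V act (X.p : 𝓞 F)) ≤ Nat.card (FT (DN N X.V) act (X.p : 𝓞 F)) := by
  classical
  have hX := hE.fri
  have hact : ∀ T : Pt (WAB A B) Ω, act (X.p : 𝓞 F) T = X.p • T := fun T => H55K.S.act_nat X.p T
  obtain ⟨n1, n2⟩ := ft_card h hE
  by_cases hD : DN N X.V ≤ X.C
  · -- D fixes the points of order p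
    obtain ⟨φ', hφN, hφD, hφF⟩ := H13X.exists_frobK N hv
    have hφ : φ' ∈ DN N X.V := mem_DN.2 ⟨hφN, hφD⟩
    have hφ' : ∀ x : Ω, X.V.valuation x ≤ 1 → X.V.valuation (φ' x - x ^ Ideal.absNorm v.asIdeal) < 1 := fun x hx =>
      hφF x ((X.V.valuation_le_one_iff _).1 hx)
    have hfin := ft_fin h hX.ine (DN N X.V)
    have hft : Fintype (FT (DN N X.V) act (X.p : 𝓞 F)) := Fintype.ofFinite _
    have h1 := rel_le (CB (DN N X.V) act (X.p : 𝓞 F)) (CU (DN N X.V) X.C X.V act (X.p : 𝓞 F)) (fun c => c φ')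
      ((Finset.univ : Finset (FT (DN N X.V) act (X.p : 𝓞 F))).image fun T => T.1) (fun c hc => ?_) (fun c hc c' hc' hcc => ?_)
    · refine ⟨h1.1, h1.2.trans ?_⟩
      refine Finset.card_image_le.trans ?_
      rw [Finset.card_univ, Nat.card_eq_fintype_card]
    · have h2 : act (X.p : 𝓞 F) (c φ') = 0 := hc.1.tor φ' hφ
      exact Finset.mem_image.2 ⟨⟨c φ', h2, fun s hs => ((hE.memC s).1 (hD hs)).2 _ (by rw [← hact]; exact h2)⟩, Finset.mem_univ _, rfl⟩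
    · have h2 : Cc (DN N X.V) act (X.p : 𝓞 F) (c - c') := (CS (DN N X.V) act (X.p : 𝓞 F)).sub_mem hc.1 hc'.1
      refine ⟨h2, 0, map_zero _, fun s hs => ?_⟩
      rw [map_zero, sub_zero]
      refine H19C.dn_gen hv h2.mul h2.cont (fun s hs hi => ?_) hφ hφ' ?_ hs
      · rw [Pi.sub_apply, hc.2 s (hD hs) hi, hc'.2 s (hD hs) hi, sub_self]
      · rw [Pi.sub_apply, hcc, sub_self]
  · -- D moves a point
    obtain ⟨s₀, hs₀, hs₀C⟩ : ∃ s ∈ DN N X.V, s ∉ X.C := by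
      by_contra hcon
      push Not at hcon
      exact hD fun s hs => hcon s hs
    have hnd : ¬ (X.p : 𝓞 F) ∣ al s₀ - 1 := fun h' => hs₀C ((hX.alC s₀ hs₀).2 h')
    obtain ⟨u, u', huu⟩ : IsCoprime (X.p : 𝓞 F) (al s₀ - 1) := (hX.ine.irreducible.coprime_iff_not_dvd).2 hnd
    -- division by al s₀ - 1
    have hdiv : ∀ T : Pt (WAB A B) Ω, X.p • T = 0 → T = act u' (ac (WAB A B) s₀ T - T) := by
      intro T hT
      rw [hE.act s₀ T hT]
      have e1 : act (al s₀) T - T = act (al s₀ - 1) T := by rw [H55K.S.act_sub, H55K.S.act_one]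
      rw [e1, ← H55K.S.act_mul]
      have e2 : act (u * (X.p : 𝓞 F) + u' * (al s₀ - 1)) T = T := by rw [huu, H55K.S.act_one]
      rw [H55K.S.act_add, H55K.S.act_mul u, hact, hT, map_zero, zero_add] at e2
      exact e2.symm
    have hle : CU (DN N X.V) X.C X.V act (X.p : 𝓞 F) ≤ CB (DN N X.V) act (X.p : 𝓞 F) := by
      rintro c ⟨hc, hcI⟩
      have ht : ∀ s ∈ DN N X.V, X.p • c s = 0 := fun s hs => by rw [← hact]; exact hc.tor s hs
      have hfixC : ∀ s ∈ X.C, ∀ T : Pt (WAB A B) Ω, X.p • T = 0 → ac (WAB A B) s T = T := fun s hs => ((hE.memC s).1 hs).2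
      obtain ⟨φL, hφN, hφD, hφF⟩ := H13X.exists_frobK L hvL
      have hφC : φL ∈ X.C := by
        rw [hCL]
        exact mem_DN.2 ⟨hφN, hφD⟩
      have hφ' : ∀ x : Ω, X.V.valuation x ≤ 1 → X.V.valuation (φL x - x ^ Ideal.absNorm vL.asIdeal) < 1 := fun x hx =>
        hφF x ((X.V.valuation_le_one_iff _).1 hx)
      have hhom : ∀ s ∈ X.C, ∀ t ∈ DN N X.V, c (s * t) = c s + c t := fun s hs t ht' => by
        rw [hc.mul s (hX.le hs) t ht', hfixC s hs _ (ht t ht')]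
      -- the value at the Frobenius element
      have hφ0 : c φL = 0 := by
        have hk1 : s₀ * φL * s₀⁻¹ ∈ X.C := by
          have h1 := hX.nrm s₀⁻¹ (inv_mem hs₀) φL hφC
          rwa [inv_inv] at h1
        have hk2 : s₀ * φL * s₀⁻¹ * φL⁻¹ ∈ X.C := X.C.mul_mem hk1 (X.C.inv_mem hφC)
        have hk3 : Inert X.V (s₀ * φL * s₀⁻¹ * φL⁻¹) :=
          H19B.comm_inert hX.ok.pr (H19C.vp_lt X hX.ok) s₀ φL (mem_DN.1 hs₀).2 hφD
        have h1 : c (s₀ * φL * s₀⁻¹ * φL⁻¹ * φL) = c φL := by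
          rw [hhom _ hk2 φL (hX.le hφC), hcI _ hk2 hk3, zero_add]
        have h2 : s₀ * φL * s₀⁻¹ * φL⁻¹ * φL = s₀ * φL * s₀⁻¹ := by group
        rw [h2] at h1
        have h3 : c (s₀ * φL * s₀⁻¹ * s₀) = c φL + c s₀ := by rw [hhom _ hk1 s₀ hs₀, h1]
        have h4 : s₀ * φL * s₀⁻¹ * s₀ = s₀ * φL := by group
        rw [h4, hc.mul s₀ hs₀ φL (hX.le hφC), add_comm] at h3
        have h5 : ac (WAB A B) s₀ (c φL) = c φL := add_right_cancel h3
        have h6 := hdiv (c φL) (ht φL (hX.le hφC))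
        rw [h5, sub_self, map_zero] at h6
        exact h6
      -- zero on C
      have hC0 : ∀ s ∈ X.C, c s = 0 := by
        intro s hs
        have hsub : ∀ t ∈ DN L X.V, t ∈ DN N X.V := fun t ht' => hX.le (hCL ▸ ht')
        refine H19C.dn_gen hvL (fun s hs t ht' => hc.mul s (hsub s hs) t (hsub t ht'))
          (by
            obtain ⟨L', hL', hL0⟩ := hc.cont
            exact ⟨L', hL', fun s hs => hL0 s (hsub s hs)⟩)
          (fun s hs hi => hcI s (hCL ▸ hs) hi) (hCL ▸ hφC) hφ' hφ0 (hCL ▸ hs)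
      -- coboundary
      have hcm : ∀ s ∈ DN N X.V, ac (WAB A B) s₀ (c s) - c s = ac (WAB A B) s (c s₀) - c s₀ := by
        intro s hs
        have hk : s * s₀ * s⁻¹ * s₀⁻¹ ∈ X.C := by
          rw [hE.memC]
          refine ⟨mul_mem (mul_mem (mul_mem hs hs₀) (inv_mem hs)) (inv_mem hs₀), fun T hT => ?_⟩
          have hT1 : ∀ r : Ω ≃ₐ[F] Ω, X.p • ac (WAB A B) r T = 0 := fun r => by rw [← map_nsmul, hT, map_zero]
          have h1 : ∀ R : Pt (WAB A B) Ω, X.p • R = 0 → ac (WAB A B) s (ac (WAB A B) s₀ R) = ac (WAB A B) s₀ (ac (WAB A B) s R) := by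
            intro R hR
            have hR1 : ∀ r : Ω ≃ₐ[F] Ω, X.p • ac (WAB A B) r R = 0 := fun r => by rw [← map_nsmul, hR, map_zero]
            rw [hE.act s _ (hR1 s₀), hE.act s₀ R hR, hE.act s₀ _ (hR1 s), hE.act s R hR, ← H55K.S.act_mul, ← H55K.S.act_mul, mul_comm]
          have hR2 : X.p • ac (WAB A B) s⁻¹ (ac (WAB A B) s₀⁻¹ T) = 0 := by rw [← map_nsmul, hT1, map_zero]
          rw [H55K.S.ac_mul, H55K.S.ac_mul, H55K.S.ac_mul, h1 _ hR2, H55K.S.ac_inv, H55K.S.ac_inv]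
        have h1 : c (s * s₀ * s⁻¹ * s₀⁻¹ * (s₀ * s)) = c (s₀ * s) := by
          rw [hhom _ hk _ (mul_mem hs₀ hs), hC0 _ hk, zero_add]
        have h2 : s * s₀ * s⁻¹ * s₀⁻¹ * (s₀ * s) = s * s₀ := by group
        rw [h2, hc.mul s hs s₀ hs₀, hc.mul s₀ hs₀ s hs] at h1
        have h3 : ac (WAB A B) s (c s₀) = c s₀ + ac (WAB A B) s₀ (c s) - c s := by rw [← h1]; abel
        rw [h3]
        abel
      refine ⟨hc, act u' (c s₀), ?_, fun s hs => ?_⟩
      · rw [hact, ← map_nsmul, ht s₀ hs₀, map_zero]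
      · have h1 := hdiv (c s) (ht s hs)
        rw [hcm s hs, map_sub, ← h.gal] at h1
        exact h1
    have h1 : (CB (DN N X.V) act (X.p : 𝓞 F)).relIndex (CU (DN N X.V) X.C X.V act (X.p : 𝓞 F)) = 1 :=
      AddSubgroup.relIndex_eq_one.2 hle
    rw [h1]
    exact ⟨one_ne_zero, n1⟩

/-- THE NUMBER OF LOCAL CLASSES. -/
theorem cs_index (dta : Dta A B Om j act mo ψ p) (hπ : Prime (p : 𝓞 F)) (hV : V.valuation (p : Ω) < 1) (N : IntermediateField F Ω)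
    [NumberField N] {v : HeightOneSpectrum (𝓞 N)} (hv : H13S.Abv N V v) {b₀ : ℕ} (hb0 : 0 < b₀)
    (hb : v.valuation N (algebraMap F N ((p : 𝓞 F) : F)) = WithZero.exp (-(b₀ : ℤ))) :
    (CB (DN N V) act (p : 𝓞 F)).relIndex (CS (DN N V) act (p : 𝓞 F)) ≠ 0 ∧
      (CB (DN N V) act (p : 𝓞 F)).relIndex (CS (DN N V) act (p : 𝓞 F)) ≤
        Ideal.absNorm v.asIdeal ^ (2 * b₀) * Nat.card (FT (DN N V) act (p : 𝓞 F)) ^ 2 := by
  obtain ⟨X, om, al, φ, g, rfl, rfl, hE, L, hL, vL, hvL, hCL⟩ := exists_fe dta hπ hV N hv hb0 hb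
  have hA := dta.cma
  obtain ⟨n1, n2⟩ := ft_card hA hE
  obtain ⟨i1, i2⟩ := cu_index hA hE n1 (fun hD => (n2 hD).ge)
  obtain ⟨k1, k2⟩ := cbu_index hA hE hv hvL hCL
  have l1 : CB (DN N X.V) act (X.p : 𝓞 F) ≤ CU (DN N X.V) X.C X.V act (X.p : 𝓞 F) := by
    rintro c ⟨hc, T, hT, h1⟩
    refine ⟨hc, fun s hs _ => ?_⟩
    rw [h1 s (hE.fri.le hs), ((hE.memC s).1 hs).2 T (by rw [← H55K.S.act_nat (act := act)]; exact hT), sub_self]
  have l2 : CU (DN N X.V) X.C X.V act (X.p : 𝓞 F) ≤ CS (DN N X.V) act (X.p : 𝓞 F) := fun c hc => hc.1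
  have h1 := AddSubgroup.relIndex_mul_relIndex _ _ _ l1 l2
  rw [← h1]
  refine ⟨Nat.mul_ne_zero k1 i1, (Nat.mul_le_mul k2 i2).trans (le_of_eq ?_)⟩
  ring

/-- THE LOCAL INDEX at the primes above an inert prime p. -/
theorem loc_I (dta : Dta A B Om j act mo ψ p) (hπ : Prime (p : 𝓞 F)) (hV : V.valuation (p : Ω) < 1) (N N' : IntermediateField F Ω)
    [NumberField N] (hNN : N ≤ N') {v : HeightOneSpectrum (𝓞 N)} (hv : H13S.Abv N V v) {b₀ : ℕ} (hb0 : 0 < b₀)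
    (hb : v.valuation N (algebraMap F N ((p : 𝓞 F) : F)) = WithZero.exp (-(b₀ : ℤ))) :
    (CL (DN N V) (DN N' V) act (p : 𝓞 F)).relIndex (CS (DN N V) act (p : 𝓞 F)) ≠ 0 ∧
      (CL (DN N V) (DN N' V) act (p : 𝓞 F)).relIndex (CS (DN N V) act (p : 𝓞 F)) ≤
        Ideal.absNorm v.asIdeal ^ b₀ * Nat.card (FT (DN N V) act (p : 𝓞 F)) := by
  have hA := dta.cma
  have hpa : ak Ω (p : 𝓞 F) = (p : Ω) := by simp [ak]
  have hVa : V.valuation (ak Ω (p : 𝓞 F)) < 1 := by rw [hpa]; exact hV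
  obtain ⟨c1, c2⟩ := cs_index dta hπ hV N hv hb0 hb
  obtain ⟨d1, d2⟩ := loc_index hA (dta.good V hV) dta.prime hπ dvd_rfl hVa N N' hNN hv hb0 hb c1
  refine ⟨d1, ?_⟩
  have hfin := ft_fin hA hπ (DN N V)
  have : Nonempty (FT (DN N V) act (p : 𝓞 F)) := ⟨0⟩
  have hpos : 0 < Ideal.absNorm v.asIdeal ^ b₀ * Nat.card (FT (DN N V) act (p : 𝓞 F)) := by
    refine Nat.mul_pos (pow_pos (Nat.pos_of_ne_zero fun h0 => ?_) _) Nat.card_pos
    rw [Ideal.absNorm_eq_zero_iff] at h0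
    exact v.ne_bot h0
  refine Nat.le_of_mul_le_mul_left ((d2.trans c2).trans (le_of_eq ?_)) hpos
  ring

end SSN
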