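import Mathlib
import Pool.Agent.Lib.SSN.D
import Pool.Agent.Lib.H19C.GT2
import Pool.Agent.Lib.SSN.L6

/-! # SSN, chunk LI: interface to the local half -/

open NumberField IsDedekindDomain WeierstrassCurve

namespace SSN

open H55P (IQ Pt ac Dec Inert decS Nm Ram)
open H35P (WAB Ker tt)
open H55K (Tor CMA Dta GV ak cj xc yc Lft TFld Abw exists_abw)
open H55K.S
open H55R (Pl ord smulP)
open H19B (DN mem_DN Cc CS mem_CS)
open H19C (SUs mem_SUs SUs_act CL mem_CL KR dl)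
open H13S (Abv)
open H13X (Dat IsTB DecN algNL JV)
open H13Y (guN)

variable {F : Type} [Field F] [NumberField F] [IQ F] {A B : F} {Om : ℂ} {Ω : Type} [Field Ω] [DecidableEq Ω]
  [Algebra F Ω] [IsAlgClosure F Ω] {j : Ω →+* ℂ} {act : 𝓞 F →+* AddMonoid.End (Pt (WAB A B) Ω)} {mo : Ideal (𝓞 F)}
  {ψ : Ideal (𝓞 F) →*₀ 𝓞 F}

variable {π : 𝓞 F} {l : ℕ} {e : Pt (WAB A B) Ω → Pt (WAB A B) Ω → Ω} {N N' L : IntermediateField F Ω}
  {c c' : (Ω ≃ₐ[F] Ω) → Pt (WAB A B) Ω} {V V₀ : ValuationSubring Ω} {T₀ : Pt (WAB A B) Ω}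

/-- The number of points of order l fixed by D. -/
theorem ft_dl (D : Dat A B Om j act mo ψ (l : 𝓞 F) l) (Dg : Subgroup (Ω ≃ₐ[F] Ω)) :
    Nat.card (FT Dg act (l : 𝓞 F)) ≤ (dl l Dg act (l : 𝓞 F)) ^ 2 := by
  have hA := D.dta.cma
  have hπ := D.pr
  have h1 : Finite (Tor act (l : 𝓞 F)) := Nat.finite_of_card_ne_zero (by
    rw [(H55K.S.gi_gen hA _ hπ).1]
    exact H55K.S.Nm_ne_zero' hπ.ne_zero)
  unfold dl
  split_ifs with hfx
  · have h2 : Nat.card (FT Dg act (l : 𝓞 F)) ≤ Nat.card (Tor act (l : 𝓞 F)) :=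
      Nat.card_le_card_of_injective (fun T : FT Dg act (l : 𝓞 F) => (⟨T.1, T.2.1⟩ : Tor act (l : 𝓞 F))) fun T T' hTT =>
        Subtype.ext (congrArg (fun R : Tor act (l : 𝓞 F) => R.1) hTT)
    rwa [(H55K.S.gi_gen hA _ hπ).1, H55K.Nm_nat] at h2
  · push Not at hfx
    obtain ⟨s, hs, R, hR, hne⟩ := hfx
    have hsub : Subsingleton (FT Dg act (l : 𝓞 F)) := ⟨fun T T' => by
      have h3 : ∀ T : FT Dg act (l : 𝓞 F), T.1 = 0 := fun T =>
        H13X.no_fix hA hπ ⟨R, hR, hne⟩ (T := T.1) T.2.1 (T.2.2 s hs)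
      exact Subtype.ext ((h3 T).trans (h3 T').symm)⟩
    rw [one_pow]
    exact Finite.card_le_one_iff_subsingleton.2 hsub

/-- THE LOCAL INDEX at the primes above l. -/
theorem loc_in (D : Dat A B Om j act mo ψ (l : 𝓞 F) l) [NumberField N] [NumberField N'] (hNN : N ≤ N')
    {v : HeightOneSpectrum (𝓞 N)} (hlv : (l : 𝓞 N) ∈ v.asIdeal) (hv : Abv N V v) {b : ℕ} (hb0 : 0 < b)
    (hb : v.valuation N (algebraMap F N (((l : 𝓞 F) : F))) = WithZero.exp (-(b : ℤ))) :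
    (CL (DN N V) (DN N' V) act (l : 𝓞 F)).relIndex (CS (DN N V) act (l : 𝓞 F)) ≠ 0 ∧
      (CL (DN N V) (DN N' V) act (l : 𝓞 F)).relIndex (CS (DN N V) act (l : 𝓞 F)) ≤
        Ideal.absNorm v.asIdeal ^ b * (dl l (DN N V) act (l : 𝓞 F)) ^ 2 := by
  have hV : V.valuation (l : Ω) < 1 := by
    have h1 := (hv.lt ((l : 𝓞 N) : N)).2 ((v.valuation_lt_one_iff_mem (K := N) (l : 𝓞 N)).2 hlv)
    have e1 : ((((l : ℕ) : 𝓞 N) : N) : Ω) = (l : Ω) := by simp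
    rwa [e1] at h1
  obtain ⟨h1, h2⟩ := loc_I D.dta D.pr hV N N' hNN hv hb0 hb
  exact ⟨h1, h2.trans (Nat.mul_le_mul_left _ (ft_dl D _))⟩

end SSN
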