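import Mathlib
import Pool.Agent.Lib.SSN.D
import Pool.Agent.Lib.H19C.GK

/-! # SSN, chunk A1: the relation between classes and units -/

open NumberField IsDedekindDomain WeierstrassCurve

namespace SSN

open H55P (IQ Pt ac Dec Inert decS Nm Ram)
open H35P (WAB Ker tt)
open H55K (Tor CMA Dta GV ak cj xc yc Lft TFld Abw exists_abw)
open H55K.S
open H55R (Pl ord smulP)
open H19B (DN mem_DN Cc CS mem_CS)
open H19C (SUs mem_SUs SUs_act CL mem_CL KR dl)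
open H13S (Abv)
open H13X (Dat IsTB DecN algNL JV)
open H13Y (guN)

variable {F : Type} [Field F] [NumberField F] [IQ F] {A B : F} {Om : ℂ} {Ω : Type} [Field Ω] [DecidableEq Ω]
  [Algebra F Ω] [IsAlgClosure F Ω] {j : Ω →+* ℂ} {act : 𝓞 F →+* AddMonoid.End (Pt (WAB A B) Ω)} {mo : Ideal (𝓞 F)}
  {ψ : Ideal (𝓞 F) →*₀ 𝓞 F}

variable {π : 𝓞 F} {l : ℕ} {e : Pt (WAB A B) Ω → Pt (WAB A B) Ω → Ω} {N N' L : IntermediateField F Ω}
  {c c' : (Ω ≃ₐ[F] Ω) → Pt (WAB A B) Ω} {V V₀ : ValuationSubring Ω} {T₀ : Pt (WAB A B) Ω}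

/-- Chunk A1 (S/M), five lemmas. -/
theorem kri_sub (D : Dat A B Om j act mo ψ π l) (he : Pairing A B act π l e) (hT₀ : T₀ ∈ Tor act π)
    (hc : ∀ s ∈ L.fixingSubgroup, c s ∈ Tor act (cj π)) (hc' : ∀ s ∈ L.fixingSubgroup, c' s ∈ Tor act (cj π))
    {f f' : HM F L} (h : KRI act L e l T₀ c f) (h' : KRI act L e l T₀ c' f') : KRI act L e l T₀ (c - c') (f - f') := by
  intro a
  exact H19C.kr_sub D he (H55K.tor_act a hT₀) hc hc' (h a) (h' a)

/-- PROOF of kri_sub: for each a H19C.kr_sub for T = act a T₀ (in Tor act π: H55K.tor_act a hT₀) and M = id; ev (f - f') a = ev f a * (ev f' a)⁻¹ (sub_ev).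
PROOF of kri_zero: H19C.kr_zero; ev 0 a = 1. -/
theorem kri_zero (D : Dat A B Om j act mo ψ π l) (he : Pairing A B act π l e) (hT₀ : T₀ ∈ Tor act π) :
    KRI act L e l T₀ (0 : (Ω ≃ₐ[F] Ω) → Pt (WAB A B) Ω) (0 : HM F L) := by
  intro a
  exact H19C.kr_zero D he (H55K.tor_act a hT₀)

/-- PROOF. For b: h (a * b) gives y, z with Kum L e c (act (a * b) T₀) y and y ^ l = ev f (a * b) * z ^ l = ev (a • f) b * z ^ l (smul_ev). The same y, z:
e (act (cj a) (c s)) (act b T₀) = e (c s) (act (cj (cj a)) (act b T₀)) = e (c s) (act (a * b) T₀) by hadj, cj_cj, act_mul. -/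
theorem kri_smul (he : Pairing A B act π l e)
    (hadj : ∀ (a : 𝓞 F), ∀ X ∈ Tor act (cj π), ∀ T ∈ Tor act π, e (act a X) T = e X (act (cj a) T)) (hT₀ : T₀ ∈ Tor act π)
    (hc : ∀ s ∈ L.fixingSubgroup, c s ∈ Tor act (cj π)) {f : HM F L} (h : KRI act L e l T₀ c f) (a : 𝓞 F) :
    KRI act L e l T₀ (fun s => act (cj a) (c s)) (a • f) := by
  intro b
  obtain ⟨y, z, ⟨hy0, hy⟩, hyz⟩ := h (a * b)
  refine ⟨y, z, ⟨hy0, fun s hs => ?_⟩, hyz⟩
  rw [hadj (cj a) (c s) (hc s hs) (act b T₀) (H55K.tor_act b hT₀), H55K.cj_cj, ← H55K.S.act_mul]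
  exact hy s hs

/-- PROOF. H19C.kr_lpow for T = act a T₀, M = id; ev ((l : 𝓞 F) • f) a = (ev f a) ^ l (nat_ev). -/
theorem kri_lpow (D : Dat A B Om j act mo ψ π l) (he : Pairing A B act π l e) (hT₀ : T₀ ∈ Tor act π) (f : HM F L) :
    KRI act L e l T₀ (0 : (Ω ≃ₐ[F] Ω) → Pt (WAB A B) Ω) ((l : 𝓞 F) • f) := by
  intro a
  rw [nat_ev]
  exact H19C.kr_lpow D he (H55K.tor_act a hT₀) (ev f a)

/-- PROOF. H19C.kr_cob for T = act a T₀, M = id. -/
theorem kri_cob (D : Dat A B Om j act mo ψ π l) (he : Pairing A B act π l e) (hL : IsTB act π N L) (hT₀ : T₀ ∈ Tor act π)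
    {f : HM F L} (h : KRI act L e l T₀ c f) {X : Pt (WAB A B) Ω} (hX : X ∈ Tor act (cj π))
    (hc : ∀ s ∈ N.fixingSubgroup, c s = ac (WAB A B) s X - X) (a : 𝓞 F) : ∃ z : (L)ˣ, ev f a = z ^ l := by
  exact H19C.kr_cob D he hL (H55K.tor_act a hT₀) (h a) hX hc

end SSN
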