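import Mathlib
import Pool.Agent.Lib.SSN.D
import Pool.Agent.Lib.H19C.GT1

/-! # SSN, chunk A3: the local conditions outside l -/

open NumberField IsDedekindDomain WeierstrassCurve

namespace SSN

open H55P (IQ Pt ac Dec Inert decS Nm Ram)
open H35P (WAB Ker tt)
open H55K (Tor CMA Dta GV ak cj xc yc Lft TFld Abw exists_abw)
open H55K.S
open H55R (Pl ord smulP)
open H19B (DN mem_DN Cc CS mem_CS)
open H19C (SUs mem_SUs SUs_act CL mem_CL KR dl)
open H13S (Abv)
open H13X (Dat IsTB DecN algNL JV)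
open H13Y (guN)

variable {F : Type} [Field F] [NumberField F] [IQ F] {A B : F} {Om : ℂ} {Ω : Type} [Field Ω] [DecidableEq Ω]
  [Algebra F Ω] [IsAlgClosure F Ω] {j : Ω →+* ℂ} {act : 𝓞 F →+* AddMonoid.End (Pt (WAB A B) Ω)} {mo : Ideal (𝓞 F)}
  {ψ : Ideal (𝓞 F) →*₀ 𝓞 F}

variable {π : 𝓞 F} {l : ℕ} {e : Pt (WAB A B) Ω → Pt (WAB A B) Ω → Ω} {N N' L : IntermediateField F Ω}
  {c c' : (Ω ≃ₐ[F] Ω) → Pt (WAB A B) Ω} {V V₀ : ValuationSubring Ω} {T₀ : Pt (WAB A B) Ω}

/-- Chunk A3 (S/M), five lemmas, ports of H19C/GK.lean (kr_inert, kill_w) and H19C/GT1.lean (loc_out, loc_tame); the only change: the generator T₀ over the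
integers modulo l is replaced by all points act a T₀ (kri_nondeg in the place of H19C.kr_gen; the Kummer generator for act a T₀ from h a, for every a). -/
theorem kri_nondeg (he : Pairing A B act π l e) (hgen : ∀ T ∈ Tor act π, ∃ a : 𝓞 F, act a T₀ = T) {X : Pt (WAB A B) Ω}
    (hX : X ∈ Tor act (cj π)) (h : ∀ a : 𝓞 F, e X (act a T₀) = 1) : X = 0 := by
  refine he.nondeg X hX fun T hT => ?_
  obtain ⟨a, ha⟩ := hgen T hT
  rw [← ha]
  exact h a

/-- Outside l: if the values are units at V then the class is unramified. -/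
theorem kri_inert (D : Dat A B Om j act mo ψ π l) (he : Pairing A B act π l e) (hT₀ : T₀ ∈ Tor act π)
    (hgen : ∀ T ∈ Tor act π, ∃ a : 𝓞 F, act a T₀ = T) {f : HM F L} (h : KRI act L e l T₀ c f) (hl : V.valuation (l : Ω) = 1)
    (hx : ∀ a, V.valuation (((ev f a : (L)ˣ) : L) : Ω) = 1) {s : Ω ≃ₐ[F] Ω} (hi : Inert V s) (hs : s ∈ L.fixingSubgroup)
    (hc : c s ∈ Tor act (cj π)) : c s = 0 := by
  have hchar : CharZero Ω := charZero_of_injective_algebraMap (algebraMap F Ω).injective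
  refine kri_nondeg he hgen hc fun a => ?_
  have hTa : act a T₀ ∈ Tor act π := H55K.tor_act a hT₀
  obtain ⟨y, z, ⟨hy0, hy⟩, hyz⟩ := h a
  rw [MonoidHom.id_apply] at hyz
  have hl0 : l ≠ 0 := D.hl.ne_zero
  have hvy : V.valuation y = V.valuation ((z : L) : Ω) := by
    have e1 : V.valuation y ^ l = V.valuation ((z : L) : Ω) ^ l := by
      rw [← map_pow, hyz, Units.val_mul]
      have e2 : (((ev f a : (L)ˣ) : L) * ((z ^ l : (L)ˣ) : L) : L) = ((ev f a : (L)ˣ) : L) * (z : L) ^ l := by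
        rw [Units.val_pow_eq_pow_val]
      rw [e2]
      have e3 : ((((ev f a : (L)ˣ) : L) * (z : L) ^ l : L) : Ω) = (((ev f a : (L)ˣ) : L) : Ω) * ((z : L) : Ω) ^ l := rfl
      rw [e3, map_mul, hx a, one_mul, map_pow]
    exact (pow_left_inj₀ zero_le zero_le hl0).1 e1
  have hpow : s (y ^ l) = y ^ l := by
    rw [map_pow, hy s hs, mul_pow, he.root _ hc _ hTa, one_mul]
  have hsy : s y = y := H13Z.unr_val V D.hl hl hy0 hvy hi
    ((IntermediateField.mem_fixingSubgroup_iff L s).1 hs _ (z : L).2) hpow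
  have h3 := hy s hs
  rw [hsy] at h3
  exact mul_right_cancel₀ hy0 (by rw [one_mul]; exact h3.symm)

/-- Above w over N': every class is unramified if w is tamely ramified in N'. -/
theorem kri_kill [NumberField N] (D : Dat A B Om j act mo ψ π l) (he : Pairing A B act π l e) (hL : IsTB act π N L)
    (C : H13X.Cc act π N c) (hT₀ : T₀ ∈ Tor act π) (hgen : ∀ T ∈ Tor act π, ∃ a : 𝓞 F, act a T₀ = T)
    (hl : V.valuation (l : Ω) = 1) (hfx : ∀ t, DecN N V t → ∀ T ∈ Tor act π, ac (WAB A B) t T = T) (hNN : N ≤ N')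
    (hx : ∀ a ∈ N, a ≠ 0 → ∃ x ∈ N', V.valuation x ^ l = V.valuation a) {s : Ω ≃ₐ[F] Ω}
    (hs : s ∈ N'.fixingSubgroup) (hi : Inert V s) : c s = 0 := by
  have hchar : CharZero Ω := charZero_of_injective_algebraMap (algebraMap F Ω).injective
  have hfix : ∀ t : Ω ≃ₐ[F] Ω, t ∈ N.fixingSubgroup → Inert V t → t ∈ L.fixingSubgroup :=
    fun t ht hti => (hL.fix t).2 ⟨ht, hfx t ⟨ht, H55P.inert_dec V t hti⟩⟩
  have hsN : s ∈ N.fixingSubgroup := IntermediateField.fixingSubgroup_antitone hNN hs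
  have hsL := hfix s hsN hi
  refine kri_nondeg he hgen (C.val s hsN) fun b => ?_
  have hTb : act b T₀ ∈ Tor act π := H55K.tor_act b hT₀
  obtain ⟨y, hy0, hy⟩ := H13X.exists_kumB D C he hL hTb
  have hpow : ∀ t ∈ L.fixingSubgroup, t (y ^ l) = y ^ l := fun t ht => by
    rw [map_pow, hy t ht, mul_pow, he.root _ (C.val t (hL.mono ht)) _ hTb, one_mul]
  obtain ⟨a, ha0, ha⟩ := H13S.value_fixed N V (y ^ l) (pow_ne_zero l hy0) (fun t ht hti => hpow t (hfix t ht hti))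
  obtain ⟨x, hxN, hxa⟩ := hx (a : Ω) a.2 (fun h => ha0 (Subtype.ext h))
  rw [← hxa, map_pow] at ha
  have hxy : V.valuation y = V.valuation x := (pow_left_inj₀ zero_le zero_le D.hl.ne_zero).1 ha
  have hsy : s y = y := H13Z.unr_val V D.hl hl hy0 hxy hi ((IntermediateField.mem_fixingSubgroup_iff N' s).1 hs x hxN)
    (hpow s hsL)
  have h3 := hy s hsL
  rw [hsy] at h3
  exact mul_right_cancel₀ hy0 (by rw [one_mul]; exact h3.symm)

/-- The local conditions outside l and w. -/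
theorem kri_out [NumberField N] (D : Dat A B Om j act mo ψ π l) (he : Pairing A B act π l e) (hL : IsTB act π N L)
    (C : H13X.Cc act π N c) (hNN : N ≤ N') (hT₀ : T₀ ∈ Tor act π) (hgen : ∀ T ∈ Tor act π, ∃ a : 𝓞 F, act a T₀ = T)
    {f : HM F L} (h : KRI act L e l T₀ c f) (hVt : V ≠ ⊤) (hl : V.valuation (l : Ω) = 1)
    (hx : ∀ a, V.valuation (((ev f a : (L)ˣ) : L) : Ω) = 1) :
    ∃ P : Pt (WAB A B) Ω, ∀ s ∈ N'.fixingSubgroup, Dec V s → c s = ac (WAB A B) s P - P := by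
  obtain ⟨v, hv⟩ := H13X.xg3_below (F := F) N hVt
  obtain ⟨P, hP⟩ := H13X.loc_zero D C hv (fun h => absurd h (by rw [hl]; exact lt_irrefl _)) fun s hs hj =>
    kri_inert D he hT₀ hgen h hl hx hj.1 ((hL.fix s).2 ⟨hs, hj.2.1⟩) (C.val s hs)
  exact ⟨P, fun s hs hsD => hP s (IntermediateField.fixingSubgroup_antitone hNN hs) hsD⟩

/-- The local conditions above w, not above l. -/
theorem kri_tame [NumberField N] [NumberField N'] (D : Dat A B Om j act mo ψ π l) (he : Pairing A B act π l e) (hL : IsTB act π N L)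
    (C : H13X.Cc act π N c) (hNN : N ≤ N') (hT₀ : T₀ ∈ Tor act π) (hgen : ∀ T ∈ Tor act π, ∃ a : 𝓞 F, act a T₀ = T)
    (hn : ∀ s ∈ N.fixingSubgroup, ∀ x ∈ N', s x ∈ N')
    (hd : Module.finrank F N' = Module.finrank F N * l) {w : HeightOneSpectrum (𝓞 N)}
    (hr : Ram N N' w.asIdeal) (hV : Abv N V w) (hVt : V ≠ ⊤) (hl : V.valuation (l : Ω) = 1)
    (hfx : ∀ t, DecN N V t → ∀ T ∈ Tor act π, ac (WAB A B) t T = T) :
    ∃ P : Pt (WAB A B) Ω, ∀ s ∈ N'.fixingSubgroup, Dec V s → c s = ac (WAB A B) s P - P := by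
  have hN'f : FiniteDimensional F N' := H13X.yn1_fin N'
  have hmono : ∀ s ∈ N'.fixingSubgroup, s ∈ N.fixingSubgroup := fun s hs => IntermediateField.fixingSubgroup_antitone hNN hs
  have C' : H13X.Cc act π N' c := ⟨fun s hs t ht => C.mul s (hmono s hs) t (hmono t ht), by
    obtain ⟨M, hM, h1⟩ := C.cont
    exact ⟨M, hM, fun s hs => h1 s (hmono s hs)⟩, fun s hs => C.val s (hmono s hs)⟩
  obtain ⟨v, hv⟩ := H13X.xg3_below (F := F) N' hVt
  exact H13X.loc_zero D C' hv (fun h => absurd h (by rw [hl]; exact lt_irrefl _)) fun s hs hj =>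
    kri_kill D he hL C hT₀ hgen hl hfx hNN (fun a ha h0 => H13Y.ram_step D.hl hNN hn hd hr hV ha h0) hs hj.1

end SSN
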