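import Mathlib
import Pool.Agent.Lib.SSN.D
import Pool.Agent.Lib.H13X.XN4
import Pool.Agent.Lib.H55K.K3

/-! # SSN, chunk A4: the character of Gal(L/N) -/

open NumberField IsDedekindDomain WeierstrassCurve

namespace SSN

open H55P (IQ Pt ac Dec Inert decS Nm Ram)
open H35P (WAB Ker tt)
open H55K (Tor CMA Dta GV ak cj xc yc Lft TFld Abw exists_abw)
open H55K.S
open H55R (Pl ord smulP)
open H19B (DN mem_DN Cc CS mem_CS)
open H19C (SUs mem_SUs SUs_act CL mem_CL KR dl)
open H13S (Abv)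
open H13X (Dat IsTB DecN algNL JV)
open H13Y (guN)

variable {F : Type} [Field F] [NumberField F] [IQ F] {A B : F} {Om : ℂ} {Ω : Type} [Field Ω] [DecidableEq Ω]
  [Algebra F Ω] [IsAlgClosure F Ω] {j : Ω →+* ℂ} {act : 𝓞 F →+* AddMonoid.End (Pt (WAB A B) Ω)} {mo : Ideal (𝓞 F)}
  {ψ : Ideal (𝓞 F) →*₀ 𝓞 F}

variable {π : 𝓞 F} {l : ℕ} {e : Pt (WAB A B) Ω → Pt (WAB A B) Ω → Ω} {N N' L : IntermediateField F Ω}
  {c c' : (Ω ≃ₐ[F] Ω) → Pt (WAB A B) Ω} {V V₀ : ValuationSubring Ω} {T₀ : Pt (WAB A B) Ω}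

/-- Chunk A4 (M). PROOF. Existence of T₀ ≠ 0 in Tor act π with Tor act π = {act a T₀} (H55K.S.gi_gen or H55K.S.PA1_gen / H55K.tor_gen; act a T₀ = 0 iff π divides a: H55K.tor_zero).
Every σ in Gal(L/N) has a lift s (Lft σ s: H55K.exists_lft with the structures of the fields; see H13X/XN4.lean, H55K/K3.lean). s is in N.fixingSubgroup (σ fixes N). Choose a lift s_σ and χ σ with
ac s_σ T₀ = act (χ σ) T₀ (tor_gen; ac preserves Tor act π: ac_mem). act: for R = act b T₀: ac s_σ R = act b (ac s_σ T₀) = act (χ σ) R (ac_act hA, act_mul, commutativity). For another lift s' of σ: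
s' = s_σ * t with t = s_σ⁻¹ * s' fixing L (for x in L: s' x = σ x = s_σ x), so t fixes Tor act π (hL.fix: t in L.fixingSubgroup) and ac s' R = ac s_σ (ac t R) = ac s_σ R.
mul: s_σ * s_τ is a lift of σ * τ: act (χ (σ τ)) T₀ = act (χ σ * χ τ) T₀, so π divides the difference (tor_zero, act_sub). one: 1 is a lift of 1. ne: if π divides χ σ then ac s T₀ = 0 (tor_zero), T₀ = 0 (ac is
injective). inj: if π divides χ σ - 1 then ac s R = R for all R in Tor act π, s in L.fixingSubgroup (hL.fix; s in N.fixingSubgroup), so σ x = s x = x for all x in L. The models: H55K.exists_chi (file H55K/K3.lean or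
K0C.lean) and its use in H13X/XN5.lean. -/
theorem exists_chi2 (hA : CMA F A B Om j act) (hp : Prime π) (hL : IsTB act π N L) :
    letI := algNL hL.le
    ∃ χ : Gal(L/N) → 𝓞 F, Chi act π χ := by
  classical
  letI := algNL hL.le
  have hfL : FiniteDimensional F L := hL.fin
  have hfN : FiniteDimensional F N :=
    FiniteDimensional.of_injective (IntermediateField.inclusion hL.le).toLinearMap
      (IntermediateField.inclusion hL.le).toRingHom.injective
  have hnL : NumberField L := NumberField.of_module_finite F L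
  have hnN : NumberField N := NumberField.of_module_finite F N
  have hT : IsScalarTower F N L := IsScalarTower.of_algebraMap_eq fun x => Subtype.ext rfl
  have hT' : IsScalarTower N L Ω := IsScalarTower.of_algebraMap_eq fun x => rfl
  obtain ⟨T₀, hT₀, h0⟩ := H55K.exists_tor hA hp
  have hex : ∀ σ : Gal(L/N), ∃ s : Ω ≃ₐ[F] Ω, Lft σ s := fun σ => H55K.exists_lft σ
  choose sl hsl using hex
  have hex2 : ∀ σ : Gal(L/N), ∃ a : 𝓞 F, act a T₀ = ac (WAB A B) (sl σ) T₀ := fun σ =>
    H55K.tor_gen hA hp hT₀ (ac_mem hA (sl σ) hT₀) h0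
  choose χ hχ using hex2
  have hfixL : ∀ s : Ω ≃ₐ[F] Ω, (∀ x : L, s (algebraMap L Ω x) = algebraMap L Ω x) → s ∈ L.fixingSubgroup := by
    intro s hs
    rw [IntermediateField.mem_fixingSubgroup_iff]
    exact fun x hx => hs ⟨x, hx⟩
  have key : ∀ (σ : Gal(L/N)) (s : Ω ≃ₐ[F] Ω), Lft σ s → ac (WAB A B) s T₀ = act (χ σ) T₀ := by
    intro σ s hs
    have h1 : Lft (σ⁻¹ * σ) ((sl σ)⁻¹ * s) := (H55K.Lft.inv (hsl σ)).mul hs
    rw [inv_mul_cancel] at h1
    have h2 : (sl σ)⁻¹ * s ∈ L.fixingSubgroup := hfixL _ fun x => h1 x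
    have h3 : ac (WAB A B) ((sl σ)⁻¹ * s) T₀ = T₀ := ((hL.fix _).1 h2).2 T₀ hT₀
    have h4 : s = sl σ * ((sl σ)⁻¹ * s) := by rw [mul_inv_cancel_left]
    rw [h4, ac_mul, h3, hχ]
  have hgen : ∀ R ∈ Tor act π, ∃ b : 𝓞 F, act b T₀ = R := fun R hR => H55K.tor_gen hA hp hT₀ hR h0
  refine ⟨χ, ?_, ?_, ?_, ?_, ?_⟩
  · intro σ s hs R hR
    obtain ⟨b, rfl⟩ := hgen R hR
    rw [ac_act hA, key σ s hs, ← act_mul, ← act_mul, mul_comm]
  · intro σ τ
    rw [← H55K.tor_zero hA hp hT₀ h0, act_sub, sub_eq_zero]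
    rw [← key (σ * τ) (sl σ * sl τ) ((hsl σ).mul (hsl τ)), ac_mul, ← hχ τ, ac_act hA, ← hχ σ, ← act_mul, mul_comm]
  · rw [← H55K.tor_zero hA hp hT₀ h0, act_sub, act_one, sub_eq_zero, ← key 1 1 H55K.lft_one, ac_one]
  · intro σ hd
    rw [← H55K.tor_zero hA hp hT₀ h0, hχ] at hd
    exact ac_ne (sl σ) h0 hd
  · intro σ hd
    have h1 : sl σ ∈ L.fixingSubgroup := by
      rw [hL.fix]
      refine ⟨?_, ?_⟩
      · rw [IntermediateField.mem_fixingSubgroup_iff]
        intro x hx
        have h2 := (hsl σ).fxd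
        exact h2 ⟨x, hx⟩
      · intro R hR
        obtain ⟨b, rfl⟩ := hgen R hR
        rw [← H55K.tor_zero hA hp hT₀ h0, act_sub, act_one, sub_eq_zero] at hd
        rw [ac_act hA, ← hχ, hd]
    rw [← H55K.lft_fxd (hsl σ)]
    intro x
    exact (IntermediateField.mem_fixingSubgroup_iff L _).1 h1 _ x.2

/-- Chunk A4, second part. PROOF. The group Gal(L/N) embeds into the units of 𝓞 F / π (σ ↦ class of χ σ: mul, one, ne, inj), a group of order Nm π - 1 (the ring 𝓞 F / π is a field with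
Nm π elements); so the order divides Nm π - 1 (Subgroup.card_dvd_of_injective), and l divides Nm π (H13X.CO2_Nm or: π divides l, Nm π = l or l ^ 2), so l does not divide Nm π - 1. -/
theorem chi_card (D : Dat A B Om j act mo ψ π l) (hL : IsTB act π N L) :
    letI := algNL hL.le
    ∀ [Fintype Gal(L/N)] (χ : Gal(L/N) → 𝓞 F), Chi act π χ → ¬ l ∣ Fintype.card Gal(L/N) := by
  classical
  letI := algNL hL.le
  intro iG χ hχ hdvd
  have hp := D.pr
  have hmax : (Ideal.span {π}).IsMaximal := by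
    have h1 : (Ideal.span {π}).IsPrime := (Ideal.span_singleton_prime hp.ne_zero).2 hp
    exact h1.isMaximal (by rw [Ne, Ideal.span_singleton_eq_bot]; exact hp.ne_zero)
  have hb : Ideal.span {π} ≠ ⊥ := by
    rw [Ne, Ideal.span_singleton_eq_bot]
    exact hp.ne_zero
  let k := 𝓞 F ⧸ Ideal.span {π}
  letI ik : Field k := Ideal.Quotient.field (Ideal.span {π})
  have hfin : Finite k := Ideal.finiteQuotientOfFreeOfNeBot _ hb
  letI : Fintype k := Fintype.ofFinite k
  let q : 𝓞 F →+* k := Ideal.Quotient.mk (Ideal.span {π})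
  have hk : ∀ x, q x = 0 ↔ π ∣ x := fun x => by
    rw [Ideal.Quotient.eq_zero_iff_mem, Ideal.mem_span_singleton]
  have hchar : CharP k l := by
    have h1 : ((l : ℕ) : k) = 0 := by
      have h2 := (hk (l : 𝓞 F)).2 D.dvd
      rw [map_natCast] at h2
      exact h2
    obtain ⟨p, hp⟩ := CharP.exists k
    have h2 : p ∣ l := (CharP.cast_eq_zero_iff k p l).1 h1
    rcases (Nat.dvd_prime D.hl).1 h2 with h3 | h3
    · exfalso
      subst h3
      have h4 : ((1 : ℕ) : k) = 0 := (CharP.cast_eq_zero_iff k 1 1).2 (dvd_refl 1)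
      rw [Nat.cast_one] at h4
      exact one_ne_zero h4
    · rw [← h3]
      exact hp
  let φ : Gal(L/N) →* kˣ :=
    { toFun := fun σ => Units.mk0 (q (χ σ)) (fun h => hχ.ne σ ((hk _).1 h))
      map_one' := Units.ext (by
        show q (χ 1) = 1
        rw [← sub_eq_zero, ← map_one q, ← map_sub, hk]
        exact hχ.one)
      map_mul' := fun σ τ => Units.ext (by
        show q (χ (σ * τ)) = q (χ σ) * q (χ τ)
        rw [← map_mul, ← sub_eq_zero, ← map_sub, hk]
        exact hχ.mul σ τ) }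
  have hinj : Function.Injective φ := by
    rw [injective_iff_map_eq_one]
    intro σ hσ
    apply hχ.inj
    rw [← hk, map_sub, map_one, sub_eq_zero]
    exact congrArg Units.val hσ
  have h1 : Nat.card Gal(L/N) ∣ Nat.card kˣ := Subgroup.card_dvd_of_injective φ hinj
  rw [Nat.card_eq_fintype_card, Nat.card_eq_fintype_card, Fintype.card_units] at h1
  obtain ⟨n, hn, hc⟩ := FiniteField.card k l
  have h2 : l ∣ Fintype.card k := by
    rw [hc]
    exact dvd_pow_self l n.ne_zero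
  have h3 : l ∣ Fintype.card k - 1 := hdvd.trans h1
  have h4 : 0 < Fintype.card k := Fintype.card_pos
  have h5 : l ∣ 1 := by
    have h6 := Nat.dvd_sub h2 h3
    have h7 : Fintype.card k - (Fintype.card k - 1) = 1 := by omega
    rwa [h7] at h6
  exact D.hl.one_lt.ne' (Nat.dvd_one.1 h5)

end SSN
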