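import Mathlib
import Pool.Agent.Lib.SSN.D
import Pool.Agent.Lib.H13X.XN4
import Pool.Agent.Lib.H13X.XZ5

/-! # SSN, chunk A5: the class of f -/

open NumberField IsDedekindDomain WeierstrassCurve

namespace SSN

open H55P (IQ Pt ac Dec Inert decS Nm Ram)
open H35P (WAB Ker tt)
open H55K (Tor CMA Dta GV ak cj xc yc Lft TFld Abw exists_abw)
open H55K.S
open H55R (Pl ord smulP)
open H19B (DN mem_DN Cc CS mem_CS)
open H19C (SUs mem_SUs SUs_act CL mem_CL KR dl)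
open H13S (Abv)
open H13X (Dat IsTB DecN algNL JV)
open H13Y (guN)

variable {F : Type} [Field F] [NumberField F] [IQ F] {A B : F} {Om : ℂ} {Ω : Type} [Field Ω] [DecidableEq Ω]
  [Algebra F Ω] [IsAlgClosure F Ω] {j : Ω →+* ℂ} {act : 𝓞 F →+* AddMonoid.End (Pt (WAB A B) Ω)} {mo : Ideal (𝓞 F)}
  {ψ : Ideal (𝓞 F) →*₀ 𝓞 F}

variable {π : 𝓞 F} {l : ℕ} {e : Pt (WAB A B) Ω → Pt (WAB A B) Ω → Ω} {N N' L : IntermediateField F Ω}
  {c c' : (Ω ≃ₐ[F] Ω) → Pt (WAB A B) Ω} {V V₀ : ValuationSubring Ω} {T₀ : Pt (WAB A B) Ω}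

/-- Chunk A5 (M), two theorems. PROOF of pg_equiv. ev (PG r f) b = prod over g of guN g (ev f (r g * b)) (PG_ev), r g = χ g⁻¹. guN σ of it (b = a) is the product over g of guN (σ g) (ev f (χ g⁻¹ * a)); substitute
h = σ g (Equiv.mulLeft σ): product over h of guN h (ev f (χ (h⁻¹ * σ) * a)) (g⁻¹ = h⁻¹ * σ). Mod l: χ (h⁻¹ * σ) = χ h⁻¹ * χ σ + l * c_h (mul), so ev f (χ (h⁻¹ σ) * a) = ev f (χ h⁻¹ * (χ σ * a)) * (ev f (c_h * a)) ^ l (ev_add, ev_natmul).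
So guN σ (ev (PG r f) a) = ev (PG r f) (χ σ * a) * (product over h of guN h (ev f (c_h * a))) ^ l. -/
theorem pg_equiv {N L : Type} [Field N] [Field L] [Algebra N L] [Fintype Gal(L/N)] {χ : Gal(L/N) → 𝓞 F}
    (hχ : ∀ σ τ, (l : 𝓞 F) ∣ χ (σ * τ) - χ σ * χ τ) (f : HM F L) (σ : Gal(L/N)) (a : 𝓞 F) :
    ∃ z : Lˣ, guN σ (ev (PG (fun g => χ g⁻¹) f) a) = ev (PG (fun g => χ g⁻¹) f) (χ σ * a) * z ^ l := by
  classical
  choose cg hcg using fun g : Gal(L/N) => hχ g⁻¹ σ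
  refine ⟨∏ g : Gal(L/N), guN g (ev f (cg g * a)), ?_⟩
  rw [PG_ev, PG_ev, map_prod, ← Finset.prod_pow, ← Finset.prod_mul_distrib]
  rw [← Equiv.prod_comp (Equiv.mulLeft σ⁻¹)]
  refine Finset.prod_congr rfl fun g _ => ?_
  have e1 : (Equiv.mulLeft σ⁻¹) g = σ⁻¹ * g := rfl
  have e2 : (σ⁻¹ * g)⁻¹ = g⁻¹ * σ := by rw [mul_inv_rev, inv_inv]
  have e3 : ∀ x : Lˣ, guN σ (guN (σ⁻¹ * g) x) = guN g x := by
    intro x
    have h1 : guN σ (guN (σ⁻¹ * g) x) = (guN σ * guN (σ⁻¹ * g)) x := rfl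
    rw [h1, ← map_mul, mul_inv_cancel_left]
  have e4 : χ (g⁻¹ * σ) * a = χ g⁻¹ * (χ σ * a) + (l : 𝓞 F) * (cg g * a) := by
    have h1 : χ (g⁻¹ * σ) = χ g⁻¹ * χ σ + (l : 𝓞 F) * cg g := by
      rw [← hcg g]
      ring
    rw [h1]
    ring
  rw [e1, e2, e3, e4, ev_add, ev_natmul, map_mul, map_pow]

/-- PROOF of kri_exists (port of H19C.kr_exists, file H19C/GK.lean). Let m T = ev (PG r f) (cc T), cc T chosen with act (cc T) T₀ = T for T in Tor act l (tor_gen). H13X.cocycle_of_m D he hL m: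
hadd: act (cc (T + T') - cc T - cc T') T₀ = 0, so l divides cc (T + T') - cc T - cc T' (H55K.tor_zero), = l * b: ev f' (cc (T + T')) = ev f' (cc T) * ev f' (cc T') * (ev f' b) ^ l for every f' in HM.
hact: σ in N.fixingSubgroup restricts to g in Gal(L/N) (H13X.exists_restr); ac σ T = act (χ g) T = act (χ g * cc T) T₀ (hχ.act, Lft g σ: the hypothesis of exists_restr); so l divides cc (ac σ T) - χ g * cc T and
m (ac σ T) = ev f' (χ g * cc T) * (..) ^ l = guN g (m T) * (..) ^ l by pg_equiv. It gives c with H13X.Cc act l N c and for all T in Tor a Kummer generator y with y ^ l = m T * z ^ l. For a: T = act a T₀, l divides cc T - a, so m T = ev f' a * (..) ^ l. -/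
theorem kri_exists (D : Dat A B Om j act mo ψ (l : 𝓞 F) l) (he : Pairing A B act (l : 𝓞 F) l e) [NumberField N] [NumberField L]
    (hL : IsTB act (l : 𝓞 F) N L) (hT₀ : T₀ ∈ Tor act (l : 𝓞 F)) (h0 : T₀ ≠ 0) :
    letI := algNL hL.le
    ∀ [Fintype Gal(L/N)] (χ : Gal(L/N) → 𝓞 F) (_ : Chi act (l : 𝓞 F) χ) (f : HM F L),
      ∃ c : (Ω ≃ₐ[F] Ω) → Pt (WAB A B) Ω, H13X.Cc act (l : 𝓞 F) N c ∧ KRI act L e l T₀ c (PG (fun g => χ g⁻¹) f) := by
  classical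
  letI := algNL hL.le
  intro iG χ hχ f
  have hA := D.cma
  have hp := D.pr
  have hrestr := H13X.exists_restr hA hL
  obtain ⟨f', hf'⟩ : ∃ f' : HM F L, f' = PG (fun g => χ g⁻¹) f := ⟨_, rfl⟩
  have hequ : ∀ (σ : Gal(L/N)) (a : 𝓞 F), ∃ z : (L)ˣ, guN σ (ev f' a) = ev f' (χ σ * a) * z ^ l := by
    intro σ a
    rw [hf']
    exact pg_equiv hχ.mul f σ a
  rw [← hf']
  have hmod : ∀ x y : 𝓞 F, act x T₀ = act y T₀ → ∃ z : (L)ˣ, ev f' x = ev f' y * z ^ l := by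
    intro x y hxy
    have h1 : act (x - y) T₀ = 0 := by rw [H55K.k2a_sub, hxy, sub_self]
    rw [H55K.tor_zero hA hp hT₀ h0] at h1
    obtain ⟨b, hb⟩ := h1
    refine ⟨ev f' b, ?_⟩
    have h2 : x = y + (l : 𝓞 F) * b := by
      rw [← hb]
      ring
    rw [h2, ev_add, ev_natmul]
  have hex : ∀ T : Pt (WAB A B) Ω, ∃ c : 𝓞 F, T ∈ Tor act (l : 𝓞 F) → act c T₀ = T := by
    intro T
    by_cases hT : T ∈ Tor act (l : 𝓞 F)
    · obtain ⟨c, hc⟩ := H55K.tor_gen hA hp hT₀ hT h0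
      exact ⟨c, fun _ => hc⟩
    · exact ⟨0, fun h => absurd h hT⟩
  choose cc hcc using hex
  have hP : ∀ c : 𝓞 F, act c T₀ ∈ Tor act (l : 𝓞 F) := fun c => H55K.tor_act c hT₀
  obtain ⟨c, hc, hcT⟩ := H13X.cocycle_of_m D he hL (fun T => ev f' (cc T)) (fun T hT T' hT' => by
    have h1 : act (cc (T + T')) T₀ = act (cc T + cc T') T₀ := by
      rw [hcc _ (AddSubgroup.add_mem _ hT hT'), H55K.k2a_add, hcc T hT, hcc T' hT']
    obtain ⟨z, hz⟩ := hmod _ _ h1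
    refine ⟨z, ?_⟩
    show ev f' (cc (T + T')) = ev f' (cc T) * ev f' (cc T') * z ^ l
    rw [hz, ev_add]) (fun σ hσ T hT => by
    obtain ⟨g, hg⟩ := hrestr σ hσ
    have h1 : act (cc (ac (WAB A B) σ T)) T₀ = act (χ g * cc T) T₀ := by
      rw [hcc _ (ac_mem hA σ hT), H55K.k2a_mul, hcc T hT]
      exact hχ.act g σ (fun x => hg x) T hT
    obtain ⟨z, hz⟩ := hmod _ _ h1
    obtain ⟨z', hz'⟩ := hequ g (cc T)
    refine ⟨z'⁻¹ * z, ?_⟩
    have h2 : ev f' (cc (ac (WAB A B) σ T)) = guN g (ev f' (cc T)) * (z'⁻¹ * z) ^ l := by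
      rw [hz, hz', mul_pow, inv_pow, mul_assoc, mul_inv_cancel_left]
    show ((ev f' (cc (ac (WAB A B) σ T)) : L) : Ω) = _
    rw [h2, hg]
    rfl)
  refine ⟨c, hc, fun a => ?_⟩
  obtain ⟨y, hy, z, hyz⟩ := hcT (act a T₀) (hP a)
  obtain ⟨w, hw⟩ := hmod (cc (act a T₀)) a (hcc _ (hP a))
  refine ⟨y, w * z, hy, ?_⟩
  rw [hyz, MonoidHom.id_apply]
  have h1 : ev f' (cc (act a T₀)) * z ^ l = ev f' a * (w * z) ^ l := by
    rw [hw, mul_pow, mul_assoc]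
  rw [h1]

end SSN
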