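import Mathlib

/-! # SSN, chunk B1: Teichmueller representatives for a finite residue field (only Mathlib) -/

namespace SSN

section

variable {R : Type} [CommRing R] {p : ℕ} {φ : R →+* ℂ} {V : ValuationSubring ℂ} {G : Type} [Group G] {χ : G → R}

/-- Elements divisible by p have value less than one. -/
theorem b1_dvd (hφ : ∀ a, φ a ∈ V) (hV : V.valuation (p : ℂ) < 1) {a : R} (h : (p : R) ∣ a) :
    V.valuation (φ a) < 1 := by
  obtain ⟨c, rfl⟩ := h
  rw [map_mul, map_mul, map_natCast]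
  exact mul_lt_one_of_lt_of_le hV ((V.valuation_le_one_iff _).2 (hφ c))

theorem b1_nat (V : ValuationSubring ℂ) (n : ℕ) : V.valuation (n : ℂ) ≤ 1 :=
  (V.valuation_le_one_iff _).2 (natCast_mem V n)

theorem b1_mul {x y : ℂ} (hx : V.valuation x ≤ 1) (hy : V.valuation y < 1) : V.valuation (x * y) < 1 := by
  rw [map_mul, mul_comm]
  exact mul_lt_one_of_lt_of_le hy hx

theorem b1_root {n : ℕ} (hn : n ≠ 0) {ζ : ℂ} (h : ζ ^ n = 1) : V.valuation ζ = 1 := by
  have h1 : V.valuation ζ ^ n = 1 := by rw [← map_pow, h, map_one]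
  exact (pow_eq_one_iff.1 h1).resolve_right hn

/-- A root of unity of order prime to the residue characteristic is not congruent to 1. -/
theorem b1_far {n : ℕ} (hn : V.valuation (n : ℂ) = 1) {ξ : ℂ} (h : ξ ^ n = 1) (h1 : V.valuation (1 - ξ) < 1) :
    ξ = 1 := by
  by_contra hne
  have hn0 : n ≠ 0 := by
    rintro rfl
    rw [Nat.cast_zero, map_zero] at hn
    exact zero_ne_one hn
  have hξ : ξ ∈ V := by
    rw [← V.valuation_le_one_iff, b1_root hn0 h]
  have hs : ∑ i ∈ Finset.range n, ξ ^ i = 0 := by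
    have h2 : (∑ i ∈ Finset.range n, ξ ^ i) * (ξ - 1) = 0 := by
      rw [geom_sum_mul, h, sub_self]
    exact (mul_eq_zero.1 h2).resolve_right (sub_ne_zero.2 hne)
  have h3 : (n : ℂ) = (1 - ξ) * ∑ i ∈ Finset.range n, ∑ j ∈ Finset.range i, ξ ^ j := by
    rw [Finset.mul_sum]
    have h4 : ∀ i ∈ Finset.range n, (1 - ξ) * ∑ j ∈ Finset.range i, ξ ^ j = 1 - ξ ^ i := by
      intro i _
      have h5 := geom_sum_mul ξ i
      linear_combination -h5
    rw [Finset.sum_congr rfl h4, Finset.sum_sub_distrib, hs, sub_zero, Finset.sum_const, Finset.card_range,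
      nsmul_eq_mul, mul_one]
  have h6 : ∑ i ∈ Finset.range n, ∑ j ∈ Finset.range i, ξ ^ j ∈ V :=
    sum_mem fun i _ => sum_mem fun j _ => pow_mem hξ j
  rw [h3, map_mul] at hn
  have h7 := mul_lt_one_of_lt_of_le h1 ((V.valuation_le_one_iff _).2 h6)
  rw [hn] at h7
  exact lt_irrefl _ h7

theorem b1_uniq {n : ℕ} (hn : V.valuation (n : ℂ) = 1) {ζ ζ' : ℂ} (h : ζ ^ n = 1) (h' : ζ' ^ n = 1)
    (h1 : V.valuation (ζ - ζ') < 1) : ζ = ζ' := by
  have hn0 : n ≠ 0 := by
    rintro rfl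
    rw [Nat.cast_zero, map_zero] at hn
    exact zero_ne_one hn
  have hζ : ζ ≠ 0 := by
    rintro rfl
    rw [zero_pow hn0] at h
    exact zero_ne_one h
  have hv := b1_root (V := V) hn0 h
  have h2 : V.valuation (1 - ζ' / ζ) < 1 := by
    have e : 1 - ζ' / ζ = (ζ - ζ') / ζ := by field_simp
    rw [e, map_div₀, hv, div_one]
    exact h1
  have h3 : (ζ' / ζ) ^ n = 1 := by
    rw [div_pow, h, h', div_one]
  have h4 := b1_far hn h3 h2
  rw [div_eq_one_iff_eq hζ] at h4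
  exact h4.symm

/-- A root of unity congruent to a given element. -/
theorem b1_ex {n : ℕ} (hn : 0 < n) {a : ℂ} (ha : a ∈ V) (h : V.valuation (a ^ n - 1) < 1) :
    ∃ ζ : ℂ, ζ ^ n = 1 ∧ V.valuation (ζ - a) < 1 := by
  by_contra hcon
  push Not at hcon
  have h1 := Polynomial.X_pow_sub_one_eq_prod hn (Complex.isPrimitiveRoot_exp n hn.ne')
  have h2 := congrArg (Polynomial.eval a) h1
  rw [Polynomial.eval_prod] at h2
  simp only [Polynomial.eval_sub, Polynomial.eval_pow, Polynomial.eval_X, Polynomial.eval_one, Polynomial.eval_C] at h2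
  rw [h2, map_prod] at h
  have h3 : ∏ ζ ∈ Polynomial.nthRootsFinset n (1 : ℂ), V.valuation (a - ζ) = 1 := by
    apply Finset.prod_eq_one
    intro ζ hζ
    have h4 : ζ ^ n = 1 := (Polynomial.mem_nthRootsFinset hn 1).1 hζ
    have h5 : ζ ∈ V := by
      rw [← V.valuation_le_one_iff, b1_root hn.ne' h4]
    apply le_antisymm
    · exact (V.valuation_le_one_iff _).2 (sub_mem ha h5)
    · rw [Valuation.map_sub_swap]
      exact hcon ζ h4
  rw [h3] at h
  exact lt_irrefl _ h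

/-- Chunk B1 (M), three theorems, ONLY MATHLIB. PROOF of b1_teich. q = card (R / p), a finite field; n = q - 1 is prime to p (q is a power of p: the characteristic of the field R / p is p; if V(n) < 1 then ... simply: p divides q
(as p = 0 in the finite field R / p of cardinality q, addOrderOf 1 = p divides q), so n = -1 modulo p). For a in R not divisible by p: a ^ n - 1 is divisible by p (FiniteField.pow_card_sub_one_eq_one in R / p), so V(φ(a) ^ n - 1) < 1
(φ(p c) = p φ(c), V(φ c) ≤ 1). X ^ n - 1 is the product of X - ζ over the n-th roots of unity of ℂ (X_pow_sub_one_eq_prod with Complex.isPrimitiveRoot_exp), so V of the product of φ(a) - ζ is < 1 and V(φ(a) - ζ) < 1 for one ζ (every factor has V ≤ 1, roots of unity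
are in V). Unique: if ζ ≠ ζ' are n-th roots of unity then V(ζ - ζ') = 1: it is enough V(1 - ξ) = 1 for every n-th root of unity ξ ≠ 1; the product of 1 - ξ over all ξ ≠ 1 is n (IsPrimitiveRoot: prod_one_sub_pow_eq_order, or derivative of X ^ n - 1), V(n) = 1 because n = q - 1,
V(q) < 1; all factors have V ≤ 1. Now ω σ = the unit ζ_σ with V(ζ_σ - φ(χ σ)) < 1; ζ_σ ζ_τ is an n-th root of unity congruent to φ(χ σ) φ(χ τ), hence to φ(χ (σ τ)) (h1), so equal to ζ_(σ τ) by uniqueness; MonoidHom.mk'. -/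
theorem b1_teich (hp : p.Prime) (hmax : (Ideal.span {(p : R)}).IsMaximal) (hfin : Finite (R ⧸ Ideal.span {(p : R)}))
    (hφ : ∀ a, φ a ∈ V) (hV : V.valuation (p : ℂ) < 1) (h1 : ∀ σ τ, (p : R) ∣ χ (σ * τ) - χ σ * χ τ)
    (h3 : ∀ σ, ¬ (p : R) ∣ χ σ) : ∃ ω : G →* ℂˣ, ∀ σ, V.valuation ((ω σ : ℂ) - φ (χ σ)) < 1 := by
  classical
  have hne : (Ideal.span {(p : R)}) ≠ ⊤ := hmax.ne_top
  let _ : Field (R ⧸ Ideal.span {(p : R)}) := Ideal.Quotient.field _
  let _ : Fintype (R ⧸ Ideal.span {(p : R)}) := Fintype.ofFinite _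
  obtain ⟨q, hq⟩ : ∃ q, q = Fintype.card (R ⧸ Ideal.span {(p : R)}) := ⟨_, rfl⟩
  have hq2 : 1 < q := by
    rw [hq]
    exact Fintype.one_lt_card
  have : Fact p.Prime := ⟨hp⟩
  have hpz : ((p : ℕ) : R ⧸ Ideal.span {(p : R)}) = 0 := by
    rw [← map_natCast (Ideal.Quotient.mk (Ideal.span {(p : R)})) p, Ideal.Quotient.eq_zero_iff_mem]
    exact Ideal.mem_span_singleton_self _
  have hpq : p ∣ q := by
    have h1' : addOrderOf (1 : R ⧸ Ideal.span {(p : R)}) = p := by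
      apply addOrderOf_eq_prime
      · rw [nsmul_eq_mul, mul_one, hpz]
      · exact one_ne_zero
    have h2' : addOrderOf (1 : R ⧸ Ideal.span {(p : R)}) ∣ q := by
      rw [hq]
      exact addOrderOf_dvd_card
    rwa [h1'] at h2'
  have hVq : V.valuation (q : ℂ) < 1 := by
    obtain ⟨c, hc⟩ := hpq
    rw [hc, Nat.cast_mul, map_mul]
    exact mul_lt_one_of_lt_of_le hV (b1_nat V c)
  obtain ⟨n, hn⟩ : ∃ n, q = n + 1 := ⟨q - 1, by omega⟩
  have hn0 : 0 < n := by omega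
  have hVn : V.valuation (n : ℂ) = 1 := by
    have e : (n : ℂ) = (q : ℂ) - 1 := by
      rw [hn]
      push_cast
      ring
    rw [e, Valuation.map_sub_eq_of_lt_right _ (by rw [map_one]; exact hVq), map_one]
  have key : ∀ a : R, ¬ (p : R) ∣ a → ∃ ζ : ℂ, ζ ^ n = 1 ∧ V.valuation (ζ - φ a) < 1 := by
    intro a ha
    apply b1_ex hn0 (hφ a)
    have h2 : (Ideal.Quotient.mk (Ideal.span {(p : R)}) a) ≠ 0 := by
      intro h0
      rw [Ideal.Quotient.eq_zero_iff_mem, Ideal.mem_span_singleton] at h0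
      exact ha h0
    have h3 := FiniteField.pow_card_sub_one_eq_one _ h2
    have h4 : Fintype.card (R ⧸ Ideal.span {(p : R)}) - 1 = n := by omega
    rw [h4, ← map_pow, ← map_one (Ideal.Quotient.mk (Ideal.span {(p : R)})), Ideal.Quotient.eq,
      Ideal.mem_span_singleton] at h3
    have h5 := b1_dvd hφ hV h3
    rwa [map_sub, map_pow, map_one] at h5
  choose ζ hζ1 hζ2 using fun σ => key (χ σ) (h3 σ)
  have hζ0 : ∀ σ, ζ σ ≠ 0 := by
    intro σ h0
    have := hζ1 σ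
    rw [h0, zero_pow hn0.ne'] at this
    exact zero_ne_one this
  have hζV : ∀ σ, ζ σ ∈ V := by
    intro σ
    rw [← V.valuation_le_one_iff, b1_root hn0.ne' (hζ1 σ)]
  have hmul : ∀ σ τ, ζ (σ * τ) = ζ σ * ζ τ := by
    intro σ τ
    refine b1_uniq hVn (hζ1 _) (by rw [mul_pow, hζ1, hζ1, one_mul]) ?_
    have e : ζ (σ * τ) - ζ σ * ζ τ = (ζ (σ * τ) - φ (χ (σ * τ))) + φ (χ (σ * τ) - χ σ * χ τ)
        - (φ (χ σ) * (ζ τ - φ (χ τ)) + ζ τ * (ζ σ - φ (χ σ))) := by
      rw [map_sub, map_mul]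
      ring
    rw [e]
    refine Valuation.map_sub_lt _ (Valuation.map_add_lt _ (hζ2 _) (b1_dvd hφ hV (h1 σ τ)))
      (Valuation.map_add_lt _ ?_ ?_)
    · exact b1_mul ((V.valuation_le_one_iff _).2 (hφ _)) (hζ2 _)
    · exact b1_mul ((V.valuation_le_one_iff _).2 (hζV _)) (hζ2 _)
  refine ⟨MonoidHom.mk' (fun σ => Units.mk0 (ζ σ) (hζ0 σ)) (fun σ τ => ?_), fun σ => ?_⟩
  · apply Units.ext
    exact hmul σ τ
  · exact hζ2 σ

/-- PROOF. φ(χ g⁻¹) ω(g) - φ(χ g⁻¹) φ(χ g) has V < 1 (V(φ(χ g⁻¹)) ≤ 1); χ g⁻¹ χ g = χ 1 = 1 modulo p. So V(sum - card G) < 1 and V(card G) = 1 (p does not divide card G: a card G + b p = 1, so V(card G) < 1 would give V(1) < 1). -/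
theorem b1_sum [Fintype G] (hp : p.Prime) (hφ : ∀ a, φ a ∈ V) (hV : V.valuation (p : ℂ) < 1)
    (h1 : ∀ σ τ, (p : R) ∣ χ (σ * τ) - χ σ * χ τ) (h2 : (p : R) ∣ χ 1 - 1) (hc : ¬ p ∣ Fintype.card G) (ω : G → ℂ)
    (hω : ∀ σ, V.valuation (ω σ - φ (χ σ)) < 1) : V.valuation (∑ g, φ (χ g⁻¹) * ω g) = 1 := by
  have hco : V.valuation ((Fintype.card G : ℕ) : ℂ) = 1 := by
    apply le_antisymm (b1_nat V _)
    by_contra hlt
    push Not at hlt
    have hcop : Nat.Coprime (Fintype.card G) p := ((Nat.Prime.coprime_iff_not_dvd hp).2 hc).symm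
    obtain ⟨a, b, hab⟩ := Nat.isCoprime_iff_coprime.2 hcop
    have h3 := congrArg (fun z : ℤ => (z : ℂ)) hab
    push_cast at h3
    have h4 : V.valuation (1 : ℂ) < 1 := by
      rw [← h3]
      refine Valuation.map_add_lt _ ?_ ?_
      · exact b1_mul ((V.valuation_le_one_iff _).2 (intCast_mem V a)) hlt
      · exact b1_mul ((V.valuation_le_one_iff _).2 (intCast_mem V b)) hV
    rw [map_one] at h4
    exact lt_irrefl _ h4
  have hsm : V.valuation (∑ g : G, (φ (χ g⁻¹) * ω g - 1)) < 1 := by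
    apply Valuation.map_sum_lt _ one_ne_zero
    intro g _
    have e : φ (χ g⁻¹) * ω g - 1 = φ (χ g⁻¹) * (ω g - φ (χ g)) + (φ (χ 1 - 1) - φ (χ (g⁻¹ * g) - χ g⁻¹ * χ g)) := by
      rw [inv_mul_cancel, map_sub, map_sub, map_mul, map_one]
      ring
    rw [e]
    refine Valuation.map_add_lt _ ?_ (Valuation.map_sub_lt _ (b1_dvd hφ hV h2) (b1_dvd hφ hV (h1 _ _)))
    exact b1_mul ((V.valuation_le_one_iff _).2 (hφ _)) (hω g)
  have e : ∑ g : G, φ (χ g⁻¹) * ω g = (∑ g : G, (φ (χ g⁻¹) * ω g - 1)) + ((Fintype.card G : ℕ) : ℂ) := by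
    rw [Finset.sum_sub_distrib, Finset.sum_const, Finset.card_univ, nsmul_eq_mul, mul_one, sub_add_cancel]
  rw [e, Valuation.map_add_eq_of_lt_right _ (by rw [hco]; exact hsm), hco]

/-- PROOF. V(1 - φ(χ σ)) < 1. If p does not divide a = χ σ - 1 then a b = 1 + p c (the ideal of p is maximal: Ideal.IsMaximal.exists_inv or the field R / p), so
1 = V(1) ≤ max (V(φ a) V(φ b), V(p) V(φ c)) < 1. -/
theorem b1_one (hmax : (Ideal.span {(p : R)}).IsMaximal) (hφ : ∀ a, φ a ∈ V) (hV : V.valuation (p : ℂ) < 1) {a : R}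
    (h : V.valuation (φ a) < 1) : (p : R) ∣ a := by
  by_contra hn
  have hx : a ∉ Ideal.span {(p : R)} := fun h0 => hn (Ideal.mem_span_singleton.1 h0)
  obtain ⟨y, i, hi, hyi⟩ := hmax.exists_inv hx
  have h1 : V.valuation (φ (y * a + i)) < 1 := by
    rw [map_add, map_mul]
    refine Valuation.map_add_lt _ ?_ (b1_dvd hφ hV (Ideal.mem_span_singleton.1 hi))
    exact b1_mul ((V.valuation_le_one_iff _).2 (hφ _)) h
  rw [hyi, map_one, map_one] at h1
  exact lt_irrefl _ h1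

end

end SSN
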