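import Mathlib

/-! # SSN, chunk B2: generators modulo a submodule of finite index (only Mathlib) -/

namespace SSN

/-- Chunk B2 (M), ONLY MATHLIB. PROOF. The quotient Q = W ⧸ Y is a module over the field k = R ⧸ span {p} (p kills it: hY; Module.IsTorsionBySet.module for the set span {p}, or define the structure by
Module.IsTorsionBySet ... ; Ideal.Quotient.field), finite (Nat.card Q = Y.toAddSubgroup.index ≠ 0), so Nat.card Q = q ^ d with d = finrank k Q (Module.natCard_eq_pow_finrank), d < n (q ^ d < q ^ n). Take a basis of Q over k,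
lifts y i in W of the basis vectors; for x the class of x is a combination of the basis vectors with coefficients in k, lift them to R: x - ∑ a i • y i has class 0. The scalar multiplication of R on Q factors through k:
(a : k) • v = a • v. -/
theorem sub_gen {R : Type} [CommRing R] {p : ℕ} (hmax : (Ideal.span {(p : R)}).IsMaximal) {q : ℕ}
    (hq : Nat.card (R ⧸ Ideal.span {(p : R)}) = q) (hq1 : 1 < q) {W : Type} [AddCommGroup W] [Module R W] (Y : Submodule R W)
    (hY : ∀ x : W, (p : R) • x ∈ Y) (h0 : Y.toAddSubgroup.index ≠ 0) {n : ℕ} (h1 : Y.toAddSubgroup.index < q ^ n) :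
    ∃ (d : ℕ) (y : Fin d → W), d < n ∧ ∀ x, ∃ a : Fin d → R, x - ∑ i, a i • y i ∈ Y := by
  letI : Field (R ⧸ Ideal.span {(p : R)}) := Ideal.Quotient.field _
  have hT : Module.IsTorsionBySet R (W ⧸ Y) (Ideal.span {(p : R)} : Set R) := by
    rw [Module.isTorsionBySet_span_singleton_iff]
    intro v
    induction v using Submodule.Quotient.induction_on with
    | H x =>
      rw [← Submodule.Quotient.mk_smul, Submodule.Quotient.mk_eq_zero]
      exact hY x
  letI : Module (R ⧸ Ideal.span {(p : R)}) (W ⧸ Y) := hT.module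
  have hcard : Nat.card (W ⧸ Y) = Y.toAddSubgroup.index := rfl
  have hfin : Finite (W ⧸ Y) := Nat.finite_of_card_ne_zero (by rw [hcard]; exact h0)
  have hk : Module.Finite (R ⧸ Ideal.span {(p : R)}) (W ⧸ Y) := inferInstance
  have hc := Module.natCard_eq_pow_finrank (K := R ⧸ Ideal.span {(p : R)}) (V := W ⧸ Y)
  rw [hq, hcard] at hc
  rw [hc] at h1
  let b := Module.finBasis (R ⧸ Ideal.span {(p : R)}) (W ⧸ Y)
  choose y hy using fun i => Submodule.Quotient.mk_surjective Y (b i)
  refine ⟨_, y, (Nat.pow_lt_pow_iff_right hq1).1 h1, fun x => ?_⟩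
  have h2 := b.sum_repr (Submodule.Quotient.mk x)
  choose a ha using fun i => Ideal.Quotient.mk_surjective (b.repr (Submodule.Quotient.mk x) i)
  refine ⟨a, ?_⟩
  rw [← Submodule.Quotient.mk_eq_zero, Submodule.Quotient.mk_sub, sub_eq_zero]
  rw [← h2]
  have h3 : (Submodule.Quotient.mk (∑ i, a i • y i) : W ⧸ Y) = ∑ i, a i • b i := by
    rw [← Submodule.mkQ_apply, map_sum]
    refine Finset.sum_congr rfl fun i _ => ?_
    rw [map_smul, Submodule.mkQ_apply, hy]
  rw [h3]
  refine Finset.sum_congr rfl fun i _ => ?_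
  rw [← ha i]
  rfl

end SSN
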