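import Mathlib
import Pool.Agent.Lib.SSN.B2
import Pool.Agent.Lib.H13Y.GN3

/-! # SSN, chunk B3: the counting argument over a ring -/

namespace SSN

/-- Chunk B3 (M). PROOF (model: H19C.gn_alg2, file H19C/GC.lean; here everything is additive and linear over R). Suppose not: for every x in Y there is z with ∑ r σ • g σ x = (p : R) • z. sub_gen with n = card ι: d < card ι and y : Fin d → W
generating W modulo Y. T : (ι → ℂ) →ₗ (Fin d → ℂ), c ↦ (∑ i, c i * ψ i (y j))_j has a nonzero element c in its kernel (LinearMap.ker_ne_bot_of_finrank_lt). Ψ x = ∑ i, c i * ψ i x: additive, Ψ (a • x) = φ a * Ψ x, Ψ (g σ x) = ω σ * Ψ x, Ψ (y j) = 0, not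
identically 0 (p3). For x in W there is x' in Y with Ψ x' = Ψ x (x' = x - ∑ a i • y i). w = ∑ φ (r σ) * ω σ: w * Ψ x' = Ψ (∑ r σ • g σ x') = Ψ ((p : R) • z) = p * Ψ z. So the additive group N of the values of Ψ is stable under
multiplication by w / p, is not 0 and is finitely generated (hfg: h N is contained in the image of B, which is finitely generated; as in gn_alg2), so V(w / p) ≤ 1 (H13Y.val_le_one_of_stable), V(w) ≤ V(p) < 1: contradiction with hω. -/
theorem gn_lin {R : Type} [CommRing R] {p : ℕ} (hp : p.Prime) (hmax : (Ideal.span {(p : R)}).IsMaximal) {q : ℕ}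
    (hq : Nat.card (R ⧸ Ideal.span {(p : R)}) = q) (hq1 : 1 < q) {W : Type} [AddCommGroup W] [Module R W]
    {G : Type} [Fintype G] (g : G → W → W) (r : G → R) (Y : Submodule R W)
    (hY : ∀ x : W, (p : R) • x ∈ Y) {ι : Type} [Fintype ι] (h0 : Y.toAddSubgroup.index ≠ 0)
    (h1 : Y.toAddSubgroup.index < q ^ Fintype.card ι) (φ : R →+* ℂ) (V : ValuationSubring ℂ) (hV : V.valuation (p : ℂ) < 1)
    (ω : G → ℂ) (hω : V.valuation (∑ σ, φ (r σ) * ω σ) = 1) (ψ : ι → W → ℂ)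
    (p0 : ∀ i x y, ψ i (x + y) = ψ i x + ψ i y) (p1 : ∀ i a x, ψ i (a • x) = φ a * ψ i x)
    (p2 : ∀ i σ x, ψ i (g σ x) = ω σ * ψ i x) (p3 : ∀ c : ι → ℂ, (∀ x, ∑ i, c i * ψ i x = 0) → c = 0)
    (hfg : ∃ (h : ℕ) (B : AddSubgroup W), h ≠ 0 ∧ B.FG ∧ ∀ x, h • x ∈ B) :
    ∃ x ∈ Y, ∀ y : W, ∑ σ, r σ • g σ x ≠ (p : R) • y := by
  classical
  by_contra hcon
  push Not at hcon
  obtain ⟨d, y, hd, hgen⟩ := sub_gen hmax hq hq1 Y hY h0 h1
  let T : (ι → ℂ) →ₗ[ℂ] (Fin d → ℂ) :=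
    { toFun := fun c j => ∑ i, c i * ψ i (y j)
      map_add' := by
        intro c c'
        funext j
        simp only [Pi.add_apply, add_mul, Finset.sum_add_distrib]
      map_smul' := by
        intro r c
        funext j
        simp only [Pi.smul_apply, smul_eq_mul, RingHom.id_apply, Finset.mul_sum, mul_assoc] }
  have hT : LinearMap.ker T ≠ ⊥ := by
    refine LinearMap.ker_ne_bot_of_finrank_lt ?_
    rw [Module.finrank_fin_fun, Module.finrank_fintype_fun_eq_card]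
    exact hd
  obtain ⟨c, hcT, hc0⟩ := Submodule.exists_mem_ne_zero_of_ne_bot hT
  have hcy : ∀ j, ∑ i, c i * ψ i (y j) = 0 := fun j => congrFun (LinearMap.mem_ker.1 hcT) j
  -- the function Ψ
  let Ψ : W →+ ℂ := AddMonoidHom.mk' (fun x => ∑ i, c i * ψ i x) (by
    intro x y
    rw [← Finset.sum_add_distrib]
    refine Finset.sum_congr rfl fun i _ => ?_
    rw [p0, mul_add])
  have hΨ : ∀ x, Ψ x = ∑ i, c i * ψ i x := fun _ => rfl
  have hΨ1 : ∀ (a : R) (x : W), Ψ (a • x) = φ a * Ψ x := by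
    intro a x
    rw [hΨ, hΨ, Finset.mul_sum]
    refine Finset.sum_congr rfl fun i _ => ?_
    rw [p1 i a x]
    ring
  have hΨ2 : ∀ (σ : G) (x : W), Ψ (g σ x) = ω σ * Ψ x := by
    intro σ x
    rw [hΨ, hΨ, Finset.mul_sum]
    refine Finset.sum_congr rfl fun i _ => ?_
    rw [p2 i σ x]
    ring
  have hΨy : ∀ j, Ψ (y j) = 0 := fun j => by rw [hΨ, hcy]
  set w : ℂ := ∑ σ, φ (r σ) * ω σ with hw
  have hΨw : ∀ x, Ψ (∑ σ, r σ • g σ x) = w * Ψ x := by
    intro x
    rw [map_sum, hw, Finset.sum_mul]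
    refine Finset.sum_congr rfl fun σ _ => ?_
    rw [hΨ1, hΨ2, mul_assoc]
  -- the key claim
  have key : ∀ x, ∃ x' ∈ Y, Ψ x' = Ψ x := by
    intro x
    obtain ⟨a, ha⟩ := hgen x
    refine ⟨_, ha, ?_⟩
    rw [map_sub, map_sum, Finset.sum_eq_zero, sub_zero]
    intro i _
    rw [hΨ1, hΨy, mul_zero]
  -- stability
  have hp0 : (p : ℂ) ≠ 0 := Nat.cast_ne_zero.2 hp.ne_zero
  have hst : ∀ x, ∃ z, w / p * Ψ x = Ψ z := by
    intro x
    obtain ⟨x', hx', hΨx⟩ := key x
    obtain ⟨z, hz⟩ := hcon x' hx'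
    refine ⟨z, ?_⟩
    have h2 := hΨw x'
    rw [hz, hΨ1, map_natCast, hΨx] at h2
    field_simp
    linear_combination -h2
  have hN0 : Ψ.range ≠ ⊥ := by
    intro h
    apply hc0
    apply p3
    intro x
    have h2 : Ψ x ∈ Ψ.range := ⟨x, rfl⟩
    rw [h, AddSubgroup.mem_bot] at h2
    exact h2
  have hNfg : Ψ.range.FG := by
    obtain ⟨h, B, hh0, ⟨S, hS⟩, hpow⟩ := hfg
    let N : Submodule ℤ ℂ := AddSubgroup.toIntSubmodule Ψ.range
    let NB : Submodule ℤ ℂ := Submodule.span ℤ (Ψ '' (S : Set W))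
    have hNB : NB.FG := Submodule.fg_span (S.finite_toSet.image _)
    have hBN : ∀ x ∈ B, Ψ x ∈ NB := by
      intro x hx
      rw [← hS] at hx
      induction hx using AddSubgroup.closure_induction with
      | mem x hx => exact Submodule.subset_span ⟨x, hx, rfl⟩
      | zero =>
        rw [map_zero]
        exact NB.zero_mem
      | add x y _ _ hx hy =>
        rw [map_add]
        exact NB.add_mem hx hy
      | neg x _ hx =>
        rw [map_neg]
        exact NB.neg_mem hx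
    let m1 : ℂ →ₗ[ℤ] ℂ := (LinearMap.mulLeft ℤ (h : ℂ))
    let m2 : ℂ →ₗ[ℤ] ℂ := (LinearMap.mulLeft ℤ ((h : ℂ)⁻¹))
    have h1 : N.map m1 ≤ NB := by
      rintro _ ⟨_, ⟨x, rfl⟩, rfl⟩
      show (h : ℂ) * Ψ x ∈ NB
      rw [← nsmul_eq_mul, ← map_nsmul]
      exact hBN _ (hpow x)
    have hNoeth : IsNoetherian ℤ NB := isNoetherian_of_fg_of_noetherian NB hNB
    have h2 : (N.map m1).FG := isNoetherian_submodule.1 hNoeth _ h1
    have h3 : N = (N.map m1).map m2 := by
      rw [← Submodule.map_comp]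
      have h4 : m2.comp m1 = LinearMap.id := by
        refine LinearMap.ext fun z => ?_
        show (h : ℂ)⁻¹ * ((h : ℂ) * z) = z
        rw [← mul_assoc, inv_mul_cancel₀ (Nat.cast_ne_zero.2 hh0), one_mul]
      rw [h4, Submodule.map_id]
    have h5 : N.FG := by
      rw [h3]
      exact h2.map _
    exact (Submodule.fg_iff_addSubgroup_fg N).1 h5
  have hfin := H13Y.val_le_one_of_stable V Ψ.range hNfg hN0 (w / p) (by
      rintro _ ⟨x, rfl⟩
      obtain ⟨z, hzz⟩ := hst x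
      exact ⟨z, hzz.symm⟩)
  have h2 : V.valuation (w / p * p) < 1 := by
    rw [map_mul]
    exact lt_of_le_of_lt (mul_le_of_le_one_left' hfin) hV
  rw [div_mul_cancel₀ _ hp0, hω] at h2
  exact lt_irrefl _ h2

end SSN
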