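import Mathlib
import Pool.Agent.Lib.SSN.D
import Pool.Agent.Lib.H55K.Y7A
import Pool.Agent.Lib.H55P.F0

/-! # SSN, chunk B4: the linear functionals -/

open NumberField IsDedekindDomain WeierstrassCurve

namespace SSN

open H55P (IQ Pt ac Dec Inert decS Nm Ram)
open H35P (WAB Ker tt)
open H55K (Tor CMA Dta GV ak cj xc yc Lft TFld Abw exists_abw)
open H55K.S
open H55R (Pl ord smulP)
open H19B (DN mem_DN Cc CS mem_CS)
open H19C (SUs mem_SUs SUs_act CL mem_CL KR dl)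
open H13S (Abv)
open H13X (Dat IsTB DecN algNL JV)
open H13Y (guN)

variable {F : Type} [Field F] [NumberField F] [IQ F] {A B : F} {Om : ℂ} {Ω : Type} [Field Ω] [DecidableEq Ω]
  [Algebra F Ω] [IsAlgClosure F Ω] {j : Ω →+* ℂ} {act : 𝓞 F →+* AddMonoid.End (Pt (WAB A B) Ω)} {mo : Ideal (𝓞 F)}
  {ψ : Ideal (𝓞 F) →*₀ 𝓞 F}

variable {π : 𝓞 F} {l : ℕ} {e : Pt (WAB A B) Ω → Pt (WAB A B) Ω → Ω} {N N' L : IntermediateField F Ω}
  {c c' : (Ω ≃ₐ[F] Ω) → Pt (WAB A B) Ω} {V V₀ : ValuationSubring Ω} {T₀ : Pt (WAB A B) Ω}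

/-- The determinant of the coordinates. -/
noncomputable def b4_det (F : Type) [Field F] [NumberField F] [IQ F] (u v : 𝓞 F) : ℤ :=
  (H55P.bF F).repr u 0 * (H55P.bF F).repr v 1 - (H55P.bF F).repr u 1 * (H55P.bF F).repr v 0

theorem b4_det_add (u v w : 𝓞 F) : b4_det F u (v + w) = b4_det F u v + b4_det F u w := by
  unfold b4_det
  rw [map_add, Finsupp.add_apply, Finsupp.add_apply]
  ring

theorem b4_det_self (u : 𝓞 F) : b4_det F u u = 0 := by
  unfold b4_det
  ring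

theorem b4_id (u v w : 𝓞 F) : (b4_det F u v : 𝓞 F) * w = (b4_det F w v : 𝓞 F) * u + (b4_det F u w : 𝓞 F) * v := by
  have hu := H55P.bF_repr (F := F) u
  have hv := H55P.bF_repr (F := F) v
  have hw := H55P.bF_repr (F := F) w
  unfold b4_det
  push_cast
  generalize (H55P.bF F).repr u 0 = u0 at *
  generalize (H55P.bF F).repr u 1 = u1 at *
  generalize (H55P.bF F).repr v 0 = v0 at *
  generalize (H55P.bF F).repr v 1 = v1 at *
  generalize (H55P.bF F).repr w 0 = w0 at *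
  generalize (H55P.bF F).repr w 1 = w1 at *
  rw [hu, hv, hw]
  ring

theorem b4_delta (F : Type) [Field F] [NumberField F] [IQ F] : ∃ (D : ℕ) (δ : 𝓞 F), 0 < D ∧ δ ^ 2 = -(D : 𝓞 F) := by
  obtain ⟨x, hx⟩ := H55P.F0_im (F := F)
  have h0 : x - cj x ≠ 0 := by
    intro h
    have h1 : x = cj x := sub_eq_zero.1 h
    have h2 := congrArg (H55P.eF F) h1
    rw [H55K.e_cj] at h2
    exact hx (Complex.conj_eq_iff_im.1 h2.symm)
  refine ⟨Nm (x - cj x), x - cj x, Nat.pos_of_ne_zero fun h => h0 (H55P.Nm_eq_zero.1 h), ?_⟩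
  rw [← H55K.mul_cj, map_sub, H55K.cj_cj]
  ring

theorem b4_ne {D : ℕ} {δ : 𝓞 F} (hD : 0 < D) (hδ : δ ^ 2 = -(D : 𝓞 F)) : b4_det F 1 δ ≠ 0 := by
  intro h0
  have key : ∀ w : 𝓞 F, b4_det F 1 w = 0 := by
    intro w
    have h1 := b4_id (F := F) 1 δ w
    rw [h0, Int.cast_zero, zero_mul, mul_one] at h1
    have h2 : (b4_det F 1 w : 𝓞 F) * δ = -(b4_det F w δ : 𝓞 F) := by linear_combination -h1
    have h3 : ((b4_det F 1 w ^ 2 * (D : ℤ) + b4_det F w δ ^ 2 : ℤ) : 𝓞 F) = 0 := by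
      push_cast
      linear_combination -((b4_det F 1 w : 𝓞 F) * δ - (b4_det F w δ : 𝓞 F)) * h2 + (b4_det F 1 w : 𝓞 F) ^ 2 * hδ
    have h4 : b4_det F 1 w ^ 2 * (D : ℤ) + b4_det F w δ ^ 2 = 0 := by exact_mod_cast h3
    by_contra hne
    have h5 : 0 < b4_det F 1 w ^ 2 := by positivity
    have h6 : (0 : ℤ) < D := by exact_mod_cast hD
    nlinarith [mul_pos h5 h6, sq_nonneg (b4_det F w δ)]
  have ha := key (H55P.bF F 0)
  have hb := key (H55P.bF F 1)
  unfold b4_det at ha hb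
  rw [Module.Basis.repr_self, Finsupp.single_eq_same, Finsupp.single_eq_of_ne (by decide)] at ha hb
  have h1 : (1 : 𝓞 F) = 0 := by
    rw [H55P.bF_repr (F := F) 1]
    have e0 : (H55P.bF F).repr 1 0 = 0 := by linarith
    have e1 : (H55P.bF F).repr 1 1 = 0 := by linarith
    rw [e0, e1, Int.cast_zero, zero_mul, zero_mul, add_zero]
  exact one_ne_zero h1

/-- Powers. -/
theorem b4_zpow {M : Type} [Group M] (f : M → ℂ) (h : ∀ x y, f (x * y) = f x + f y) (x : M) (n : ℤ) :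
    f (x ^ n) = n * f x := by
  let g : M →* Multiplicative ℂ := ⟨⟨fun x => Multiplicative.ofAdd (f x), by
    have h1 := h 1 1
    rw [mul_one] at h1
    have h2 : f 1 = 0 := by linear_combination -h1
    rw [h2]
    rfl⟩, fun x y => congrArg Multiplicative.ofAdd (h x y)⟩
  have h1 := map_zpow g x n
  have h2 := congrArg Multiplicative.toAdd h1
  change f (x ^ n) = n • f x at h2
  rw [h2, zsmul_eq_mul]

/-- Chunk B4 (M). PROOF. δ in 𝓞 F with δ ^ 2 = -D, D a positive integer (H55K.exists_delta; the hypothesis hunr there is not needed: take δ = x - cj x with eF F x not real, see the beginning of its proof, H55P.F0_im, mul_cj).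
(1) For every w in 𝓞 F there are integers K ≠ 0, x, y with K w = x + y δ: coordinates with respect to the basis H55P.bF F (Fin 2); det (u, v) = u0 v1 - u1 v0; det(1, δ) w = det(w, δ) 1 + det(1, w) δ (identity for every pair of coordinates), and
det(1, δ) ≠ 0: otherwise det(1, w) δ = -det(w, δ) for all w, some w among the basis vectors has det(1, w) = k ≠ 0, so k ^ 2 δ ^ 2 = det ^ 2 ≥ 0 but δ ^ 2 = -D < 0 (integers in 𝓞 F, characteristic 0).
(2) Ψ i f = ψ i (ev f δ) + φ δ * ψ i (ev f 1). Additive in f (add_ev, p1). For w with K w = x + y δ: K Ψ(w f) = Ψ((K w) f) with ev ((x + y δ) f) δ = ev f (x δ - y D) and ev (..) 1 = ev f (x + y δ) (ev_intmul, ev_add), so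
K Ψ(w f) = x X + y δ² Y + φ δ (x Y + y X) = (x + y φ δ)(X + φ δ Y) = K φ(w) Ψ f, X = ψ (ev f δ), Y = ψ (ev f 1), (φ δ)^2 = -D. Equivariance: p2 and gf_ev. (3) independence: for x in SUs L S define f by
ev f a = x ^ (det(1, a)) (an additive map of a with integer values): in HS, ev f 1 = 1, ev f δ = x ^ k, k = det(1, δ) ≠ 0, ψ i 1 = 0, so Ψ i f = k ψ i x and ∑ c i ψ i x = 0. -/
theorem exists_Psi {N L : Type} [Field N] [NumberField N] [Field L] [NumberField L] [Algebra N L] (S : Finset (Pl N))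
    {ι : Type} [Fintype ι] (φ : 𝓞 F →+* ℂ) (ω : Gal(L/N) → ℂ) (ψ : ι → Lˣ → ℂ) (p1 : ∀ i x y, ψ i (x * y) = ψ i x + ψ i y)
    (p2 : ∀ i g x, ψ i (guN g x) = ω g * ψ i x) (p3 : ∀ c : ι → ℂ, (∀ x ∈ SUs L S, ∑ i, c i * ψ i x = 0) → c = 0) :
    ∃ Ψ : ι → HM F L → ℂ, (∀ i f f', Ψ i (f + f') = Ψ i f + Ψ i f') ∧ (∀ i a f, Ψ i (a • f) = φ a * Ψ i f) ∧
      (∀ i g f, Ψ i (gf g f) = ω g * Ψ i f) ∧ ∀ c : ι → ℂ, (∀ f ∈ HS F L S, ∑ i, c i * Ψ i f = 0) → c = 0 := by
  obtain ⟨D, δ, hD, hδ⟩ := b4_delta F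
  have hK : b4_det F 1 δ ≠ 0 := b4_ne hD hδ
  have hKC : ((b4_det F 1 δ : ℤ) : ℂ) ≠ 0 := Int.cast_ne_zero.2 hK
  have hφ : φ δ ^ 2 = -(D : ℂ) := by
    rw [← map_pow, hδ, map_neg, map_natCast]
  have hz : ∀ i x (n : ℤ), ψ i (x ^ n) = n * ψ i x := fun i x n => b4_zpow (ψ i) (p1 i) x n
  refine ⟨fun i f => ψ i (ev f δ) + φ δ * ψ i (ev f 1), ?_, ?_, ?_, ?_⟩
  · intro i f f'
    simp only [add_ev, p1]
    ring
  · intro i w f
    have hid := b4_id (F := F) 1 δ w
    set K := b4_det F 1 δ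
    set x := b4_det F w δ
    set y := b4_det F 1 w
    rw [mul_one] at hid
    have h1 : (K : ℂ) * ψ i (ev f (w * δ)) = x * ψ i (ev f δ) - y * D * ψ i (ev f 1) := by
      rw [← hz, ← ev_intmul]
      have e1 : (K : 𝓞 F) * (w * δ) = (x : 𝓞 F) * δ + ((-(y * D) : ℤ) : 𝓞 F) * 1 := by
        push_cast
        linear_combination δ * hid + (y : 𝓞 F) * hδ
      rw [e1, ev_add, p1, ev_intmul, ev_intmul, hz, hz]
      push_cast
      ring
    have h2 : (K : ℂ) * ψ i (ev f w) = x * ψ i (ev f 1) + y * ψ i (ev f δ) := by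
      rw [← hz, ← ev_intmul]
      have e1 : (K : 𝓞 F) * w = (x : 𝓞 F) * 1 + (y : 𝓞 F) * δ := by
        rw [mul_one]
        exact hid
      rw [e1, ev_add, p1, ev_intmul, ev_intmul, hz, hz]
    have h3 : (K : ℂ) * φ w = x + y * φ δ := by
      have h4 := congrArg φ hid
      rw [map_mul, map_add, map_mul, map_intCast, map_intCast, map_intCast] at h4
      exact h4
    simp only [smul_ev, mul_one]
    apply mul_left_cancel₀ hKC
    linear_combination h1 + φ δ * h2 - (ψ i (ev f δ) + φ δ * ψ i (ev f 1)) * h3 - y * ψ i (ev f 1) * hφ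
  · intro i g f
    simp only [gf_ev, p2]
    ring
  · intro c hc
    apply p3
    intro x hx
    have h1 := hc (mkHM (fun a => x ^ b4_det F 1 a) fun a b => by rw [b4_det_add, zpow_add]) (by
      rw [mem_HS]
      intro a
      rw [ev_mk]
      exact (SUs L S).zpow_mem hx _)
    simp only [ev_mk, b4_det_self, hz] at h1
    have h2 : ((b4_det F 1 δ : ℤ) : ℂ) * ∑ i, c i * ψ i x = 0 := by
      rw [Finset.mul_sum, ← h1]
      refine Finset.sum_congr rfl fun i _ => ?_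
      push_cast
      ring
    exact (mul_eq_zero.1 h2).resolve_left hKC

end SSN
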