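import Mathlib
import Pool.Agent.Lib.SSN.D
import Pool.Agent.Lib.H19C.GS
import Pool.Agent.Lib.H55P.F0

/-! # SSN, chunk B5: finite generation and powers -/

open NumberField IsDedekindDomain WeierstrassCurve

namespace SSN

open H55P (IQ Pt ac Dec Inert decS Nm Ram)
open H35P (WAB Ker tt)
open H55K (Tor CMA Dta GV ak cj xc yc Lft TFld Abw exists_abw)
open H55K.S
open H55R (Pl ord smulP)
open H19B (DN mem_DN Cc CS mem_CS)
open H19C (SUs mem_SUs SUs_act CL mem_CL KR dl)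
open H13S (Abv)
open H13X (Dat IsTB DecN algNL JV)
open H13Y (guN)

variable {F : Type} [Field F] [NumberField F] [IQ F] {A B : F} {Om : ℂ} {Ω : Type} [Field Ω] [DecidableEq Ω]
  [Algebra F Ω] [IsAlgClosure F Ω] {j : Ω →+* ℂ} {act : 𝓞 F →+* AddMonoid.End (Pt (WAB A B) Ω)} {mo : Ideal (𝓞 F)}
  {ψ : Ideal (𝓞 F) →*₀ 𝓞 F}

variable {π : 𝓞 F} {l : ℕ} {e : Pt (WAB A B) Ω → Pt (WAB A B) Ω → Ω} {N N' L : IntermediateField F Ω}
  {c c' : (Ω ≃ₐ[F] Ω) → Pt (WAB A B) Ω} {V V₀ : ValuationSubring Ω} {T₀ : Pt (WAB A B) Ω}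

/-- The map with the values z 0, z 1 at the basis. -/
noncomputable def b5_mk {L : Type} [Field L] (z w : Lˣ) : HM F L :=
  mkHM (fun a => z ^ ((H55P.bF F).repr a 0) * w ^ ((H55P.bF F).repr a 1)) fun a b => by
    rw [map_add, Finsupp.add_apply, Finsupp.add_apply, zpow_add, zpow_add]
    exact mul_mul_mul_comm _ _ _ _

theorem b5_mk_ev {L : Type} [Field L] (z w : Lˣ) (a : 𝓞 F) :
    ev (b5_mk (F := F) z w) a = z ^ ((H55P.bF F).repr a 0) * w ^ ((H55P.bF F).repr a 1) := rfl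

theorem b5_ev {L : Type} [Field L] (f : HM F L) (a : 𝓞 F) :
    ev f a = ev f (H55P.bF F 0) ^ ((H55P.bF F).repr a 0) * ev f (H55P.bF F 1) ^ ((H55P.bF F).repr a 1) := by
  conv_lhs => rw [H55P.bF_repr a, ev_add, ev_intmul, ev_intmul]

theorem b5_mem {N L : Type} [Field N] [NumberField N] [Field L] [NumberField L] [Algebra N L] {S : Finset (Pl N)} {z w : Lˣ}
    (hz : z ∈ SUs L S) (hw : w ∈ SUs L S) : b5_mk (F := F) z w ∈ HS F L S := by
  rw [mem_HS]
  intro a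
  rw [b5_mk_ev]
  exact (SUs L S).mul_mem ((SUs L S).zpow_mem hz _) ((SUs L S).zpow_mem hw _)

/-- Chunk B5 (M), two theorems. PROOF of hs_fg. H19C.SUs_fg: h ≠ 0 and a finitely generated B₀ ≤ SUs L S with x ^ h in B₀. Basis b = H55P.bF F of 𝓞 F (Fin 2): the map Θ : Additive B₀ × Additive B₀ → HS F L S, (x, y) ↦ (a ↦ x ^ (coordinate 0 of a) y ^ (coordinate 1 of a))
is additive; B = its range, finitely generated (AddSubgroup.FG of a range, B₀ finitely generated; or AddMonoid.FG / Module.Finite ℤ). For f in HS: h • f = Θ (ev f (b 0) ^ h, ev f (b 1) ^ h) because both are additive in a and agree on b 0, b 1. -/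
theorem hs_fg {N L : Type} [Field N] [NumberField N] [Field L] [NumberField L] [Algebra N L] (S : Finset (Pl N)) :
    ∃ (h : ℕ) (B : AddSubgroup (HS F L S)), h ≠ 0 ∧ B.FG ∧ ∀ x, h • x ∈ B := by
  obtain ⟨h, B₀, hh, hfg, hle, hpow⟩ := H19C.SUs_fg (L := L) S
  have i1 : Group.FG B₀ := (Group.fg_iff_subgroup_fg B₀).2 hfg
  let Θ : (Additive B₀ × Additive B₀) →+ HS F L S :=
    { toFun := fun p => ⟨b5_mk ((p.1.toMul : B₀) : Lˣ) ((p.2.toMul : B₀) : Lˣ), b5_mem (hle p.1.toMul.2) (hle p.2.toMul.2)⟩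
      map_zero' := by
        apply Subtype.ext
        apply HM.ext
        intro a
        show ev (b5_mk (F := F) (1 : Lˣ) (1 : Lˣ)) a = 1
        rw [b5_mk_ev, one_zpow, one_zpow, one_mul]
      map_add' := fun p p' => by
        apply Subtype.ext
        apply HM.ext
        intro a
        show ev (b5_mk (F := F) (((p.1.toMul : B₀) : Lˣ) * ((p'.1.toMul : B₀) : Lˣ))
          (((p.2.toMul : B₀) : Lˣ) * ((p'.2.toMul : B₀) : Lˣ))) a =
          ev (b5_mk (F := F) ((p.1.toMul : B₀) : Lˣ) ((p.2.toMul : B₀) : Lˣ)) a *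
            ev (b5_mk (F := F) ((p'.1.toMul : B₀) : Lˣ) ((p'.2.toMul : B₀) : Lˣ)) a
        rw [b5_mk_ev, b5_mk_ev, b5_mk_ev, mul_zpow, mul_zpow]
        exact mul_mul_mul_comm _ _ _ _ }
  refine ⟨h, Θ.range, hh, ?_, fun f => ?_⟩
  · rw [← AddGroup.fg_iff_addSubgroup_fg]
    have i2 : AddGroup.FG (Additive B₀) := inferInstance
    have i3 : AddGroup.FG (Additive B₀ × Additive B₀) := inferInstance
    exact AddGroup.fg_of_surjective (f := Θ.rangeRestrict) Θ.rangeRestrict_surjective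
  · have h0 := hpow _ (f.2 (H55P.bF F 0))
    have h1 := hpow _ (f.2 (H55P.bF F 1))
    refine ⟨(Additive.ofMul ⟨_, h0⟩, Additive.ofMul ⟨_, h1⟩), ?_⟩
    apply Subtype.ext
    apply HM.ext
    intro a
    show ev (b5_mk (F := F) (ev (f : HM F L) (H55P.bF F 0) ^ h) (ev (f : HM F L) (H55P.bF F 1) ^ h)) a = ev (h • (f : HM F L)) a
    rw [b5_mk_ev, nsmul_ev, b5_ev (f : HM F L) a, mul_pow, ← zpow_natCast, ← zpow_natCast, ← zpow_natCast, ← zpow_natCast,
      ← zpow_mul, ← zpow_mul, ← zpow_mul, ← zpow_mul, mul_comm (h : ℤ), mul_comm (h : ℤ)]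

/-- PROOF. z 0, z 1 in Lˣ with ev f (b i) = z i ^ l; they are in SUs L S (H19C.SUs_pow). g = (a ↦ z 0 ^ (coordinate 0 of a) * z 1 ^ (coordinate 1 of a)) (mkHM); f and (l : 𝓞 F) • g have the same values at b 0 and b 1
(nat_ev), hence everywhere. -/
theorem hs_pow {N L : Type} [Field N] [NumberField N] [Field L] [NumberField L] [Algebra N L] {S : Finset (Pl N)} (hl : l ≠ 0)
    {f : HM F L} (hf : f ∈ HS F L S) (h : ∀ a, ∃ z : Lˣ, ev f a = z ^ l) : ∃ g ∈ HS F L S, f = (l : 𝓞 F) • g := by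
  obtain ⟨z, hz⟩ := h (H55P.bF F 0)
  obtain ⟨w, hw⟩ := h (H55P.bF F 1)
  refine ⟨b5_mk z w, b5_mem (H19C.SUs_pow hl (hf _) hz) (H19C.SUs_pow hl (hf _) hw), HM.ext fun a => ?_⟩
  rw [nat_ev, b5_mk_ev, b5_ev f a, hz, hw, mul_pow, ← zpow_natCast, ← zpow_natCast, ← zpow_natCast, ← zpow_natCast,
    ← zpow_mul, ← zpow_mul, ← zpow_mul, ← zpow_mul, mul_comm (l : ℤ), mul_comm (l : ℤ)]

end SSN
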