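import Mathlib
import Pool.Agent.Lib.SSN.A1
import Pool.Agent.Lib.SSN.A3
import Pool.Agent.Lib.SSN.A4
import Pool.Agent.Lib.SSN.A5
import Pool.Agent.Lib.SSN.B1
import Pool.Agent.Lib.SSN.B3
import Pool.Agent.Lib.SSN.B4
import Pool.Agent.Lib.SSN.B5
import Pool.Agent.Lib.H19C.GT2

/-! # SSN, chunk C1: the selection of a class -/

open NumberField IsDedekindDomain WeierstrassCurve

namespace SSN

open H55P (IQ Pt ac Dec Inert decS Nm Ram)
open H35P (WAB Ker tt)
open H55K (Tor CMA Dta GV ak cj xc yc Lft TFld Abw exists_abw)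
open H55K.S
open H55R (Pl ord smulP)
open H19B (DN mem_DN Cc CS mem_CS)
open H19C (SUs mem_SUs SUs_act CL mem_CL KR dl)
open H13S (Abv)
open H13X (Dat IsTB DecN algNL JV)
open H13Y (guN)

variable {F : Type} [Field F] [NumberField F] [IQ F] {A B : F} {Om : ℂ} {Ω : Type} [Field Ω] [DecidableEq Ω]
  [Algebra F Ω] [IsAlgClosure F Ω] {j : Ω →+* ℂ} {act : 𝓞 F →+* AddMonoid.End (Pt (WAB A B) Ω)} {mo : Ideal (𝓞 F)}
  {ψ : Ideal (𝓞 F) →*₀ 𝓞 F}

variable {π : 𝓞 F} {l : ℕ} {e : Pt (WAB A B) Ω → Pt (WAB A B) Ω → Ω} {N N' L : IntermediateField F Ω}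
  {c c' : (Ω ≃ₐ[F] Ω) → Pt (WAB A B) Ω} {V V₀ : ValuationSubring Ω} {T₀ : Pt (WAB A B) Ω}

omit [NumberField F] [IQ F] in
theorem c1_PG_add {N L : Type} [Field N] [Field L] [Algebra N L] [Fintype Gal(L/N)] (r : Gal(L/N) → 𝓞 F)
    (f f' : HM F L) : PG r (f + f') = PG r f + PG r f' := by
  unfold PG
  rw [← Finset.sum_add_distrib]
  exact Finset.sum_congr rfl fun g _ => by rw [gf_add, smul_add]

omit [NumberField F] [IQ F] in
theorem c1_PG_smul {N L : Type} [Field N] [Field L] [Algebra N L] [Fintype Gal(L/N)] (r : Gal(L/N) → 𝓞 F)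
    (a : 𝓞 F) (f : HM F L) : PG r (a • f) = a • PG r f := by
  unfold PG
  rw [Finset.smul_sum]
  exact Finset.sum_congr rfl fun g _ => by rw [gf_smul, smul_comm]

omit [NumberField F] [IQ F] in
theorem c1_PG_sub {N L : Type} [Field N] [Field L] [Algebra N L] [Fintype Gal(L/N)] (r : Gal(L/N) → 𝓞 F)
    (f f' : HM F L) : PG r (f - f') = PG r f - PG r f' := by
  have h := c1_PG_add r (f - f') f'
  rw [sub_add_cancel] at h
  rw [h, add_sub_cancel_right]

/-- A valuation ring of the complex numbers above l. -/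
theorem c1_V (l : ℕ) (hl : l.Prime) : ∃ V : ValuationSubring ℂ, V.valuation (l : ℂ) < 1 := by
  have : Fact l.Prime := ⟨hl⟩
  obtain ⟨V, -, hV, -⟩ := H13Y.exists_teich l (k := ZMod l) (G := Unit) 1 (fun _ _ _ => rfl)
  exact ⟨V, hV⟩

theorem c1_int (V : ValuationSubring ℂ) {z : ℂ} (h : IsIntegral ℤ z) : z ∈ V := by
  have h2 : IsIntegral V z := h.tower_top
  obtain ⟨y, hy⟩ := (IsIntegrallyClosed.isIntegral_iff (R := V) (K := ℂ)).1 h2
  rw [← hy]
  exact y.2

/-- Chunk C1 (M). PROOF (model: H19C.sel_x, file H19C/GT2.lean). χ from exists_chi2; r g = χ g⁻¹; kri_exists: for f in HM a class g f with KRI (g f) (PG r f). YW = {f in HS F L S | there is c in Y' with KRI c (PG r f)}: a submodule (closed under differences: kri_sub with PG r additive,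
gf_add; scalars: kri_smul with the class act (cj a) c in Y' by hst and PG r (a • f) = a • PG r f, gf_smul), contains (l : 𝓞 F) • f (kri_lpow, class 0; PG r (l • f) = l • PG r f). Index: H19C.rel_mul-like argument: the map HS → CS N.fixingSubgroup, f ↦ g f sends f, f' with g f - g f' in Y' to f - f' in YW
(kri_sub), so YW has index ≤ Y'.relIndex (CS ..) and ≠ 0 (H19B.rel_map, for the additive groups ⊤ of the type HS and YW.toAddSubgroup; relIndex ⊤ = index). V: a valuation ring of ℂ with V(l) < 1 (take it from H13Y.exists_teich or LocalSubring.exists_le_valuationSubring; see H13Y for the existence), φ = eF F (𝓞 F →+* ℂ),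
φ a in V because φ a is integral over ℤ and V is integrally closed. The ideal of l in 𝓞 F is maximal (D.pr : Prime (l : 𝓞 F), 𝓞 F is a principal ideal ring, not a field: PrincipalIdealRing.isMaximal_of_irreducible), the residue field has Nm (l : 𝓞 F) = l ^ 2 elements (H55K.Nm_nat, Nm is by definition
Ideal.absNorm (span {·}) = Nat.card of the quotient). b1_teich, b1_sum (chi_card), ω ≠ 1: some s in N.fixingSubgroup moves a T (hmv), its restriction σ to L satisfies: l does not divide χ σ - 1 (otherwise ac s T = T by hχ.act), so V(ω σ - 1) = 1 or simply ω σ ≠ 1 by b1_one. H19C.exists_psiS with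
H13X.places_card (F := F) N (complex places, Fintype.card (InfinitePlace N) = finrank F N) and H13X.stab_N hL (hS w hw), exists_Psi, hs_fg, gn_lin for W = HS F L S, g σ x = ⟨gf σ x, gf_mem σ x.2⟩, Y = YW, q = l ^ 2, ι = InfinitePlace N ⊕ S. It gives x in YW with PG r x not of the form (l : 𝓞 F) • y, y in HS.
f = PG r x (PG_mem); if all the values ev f a were l-th powers then hs_pow would contradict. -/
theorem sel_in (D : Dat A B Om j act mo ψ (l : 𝓞 F) l) (he : Pairing A B act (l : 𝓞 F) l e)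
    (hadj : ∀ (a : 𝓞 F), ∀ X ∈ Tor act (cj (l : 𝓞 F)), ∀ T ∈ Tor act (l : 𝓞 F), e (act a X) T = e X (act (cj a) T))
    [NumberField N] [NumberField L] (hL : IsTB act (l : 𝓞 F) N L) (hT₀ : T₀ ∈ Tor act (l : 𝓞 F)) (h0 : T₀ ≠ 0)
    (hmv : ∃ s ∈ N.fixingSubgroup, ∃ T ∈ Tor act (l : 𝓞 F), ac (WAB A B) s T ≠ T) (S : Finset (Pl N))
    (hS : ∀ v ∈ S, ∀ V : ValuationSubring Ω, Abv N V v → ∀ s, DecN N V s → ∀ T ∈ Tor act (l : 𝓞 F), ac (WAB A B) s T = T)
    (Y' : AddSubgroup ((Ω ≃ₐ[F] Ω) → Pt (WAB A B) Ω)) (hY' : Y' ≤ CS N.fixingSubgroup act (cj (l : 𝓞 F)))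
    (hst : ∀ (a : 𝓞 F), ∀ c ∈ Y', (fun s => act a (c s)) ∈ Y')
    (hf : Y'.relIndex (CS N.fixingSubgroup act (cj (l : 𝓞 F))) ≠ 0)
    (hc : Y'.relIndex (CS N.fixingSubgroup act (cj (l : 𝓞 F))) < (l ^ 2) ^ (Module.finrank F N + S.card)) :
    letI := algNL hL.le
    ∃ f ∈ HS F L S, ∃ c ∈ Y', KRI act L e l T₀ c f ∧ ¬ ∀ a, ∃ z : (L)ˣ, ev f a = z ^ l := by
  classical
  letI := algNL hL.le
  have hA := D.cma
  have hp := D.pr
  have hl : l.Prime := D.hl
  have hT : IsScalarTower F N L := IsScalarTower.of_algebraMap_eq fun x => Subtype.ext rfl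
  have hT' : IsScalarTower N L Ω := IsScalarTower.of_algebraMap_eq fun x => rfl
  have hTF := H13X.tfld_of_tb hA hL
  have hgal : IsGalois N L := hTF.gal
  letI : Fintype Gal(L/N) := Fintype.ofFinite _
  obtain ⟨χ, hχ⟩ := exists_chi2 hA hp hL
  choose g hgC hgK using fun f : HM F L => kri_exists D he hL hT₀ h0 χ hχ f
  have hval : ∀ c ∈ Y', ∀ s ∈ L.fixingSubgroup, c s ∈ Tor act (cj (l : 𝓞 F)) := fun c hc s hs =>
    ((mem_CS _ _ _).1 (hY' hc)).tor s (hL.mono hs)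
  -- the submodule
  obtain ⟨YW, hYW⟩ : ∃ YW : Submodule (𝓞 F) (HS F L S), ∀ x : HS F L S, x ∈ YW ↔
      ∃ c ∈ Y', KRI act L e l T₀ c (PG (fun g => χ g⁻¹) x.1) := by
    refine ⟨{ carrier := {x | ∃ c ∈ Y', KRI act L e l T₀ c (PG (fun g => χ g⁻¹) x.1)}
              add_mem' := ?_, zero_mem' := ?_, smul_mem' := ?_ }, fun x => Iff.rfl⟩
    · rintro x y ⟨c, hc, h1⟩ ⟨c', hc', h2⟩
      have h3 := kri_sub D he hT₀ (hval 0 Y'.zero_mem) (hval c' hc') (kri_zero D he hT₀) h2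
      have h4 := kri_sub D he hT₀ (hval c hc) (hval _ (Y'.sub_mem Y'.zero_mem hc')) h1 h3
      refine ⟨c - (0 - c'), Y'.sub_mem hc (Y'.sub_mem Y'.zero_mem hc'), ?_⟩
      have h5 : PG (fun g => χ g⁻¹) (x + y : HS F L S).1 = PG (fun g => χ g⁻¹) x.1 - (0 - PG (fun g => χ g⁻¹) y.1) := by
        rw [Submodule.coe_add, c1_PG_add]
        abel
      rw [h5]
      exact h4
    · refine ⟨0, Y'.zero_mem, ?_⟩
      have h5 : PG (fun g => χ g⁻¹) (0 : HS F L S).1 = (0 : HM F L) := by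
        have h6 := c1_PG_smul (fun g => χ g⁻¹) (0 : 𝓞 F) (0 : HM F L)
        rw [zero_smul, zero_smul] at h6
        exact h6
      rw [h5]
      exact kri_zero D he hT₀
    · rintro a x ⟨c, hc, h1⟩
      refine ⟨_, hst (cj a) c hc, ?_⟩
      rw [Submodule.coe_smul, c1_PG_smul]
      exact kri_smul he hadj hT₀ (hval c hc) h1 a
  have hY : ∀ x : HS F L S, (l : 𝓞 F) • x ∈ YW := by
    intro x
    rw [hYW]
    refine ⟨0, Y'.zero_mem, ?_⟩
    rw [Submodule.coe_smul, c1_PG_smul]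
    exact kri_lpow D he hT₀ _
  have hidx := H19B.rel_map YW.toAddSubgroup ⊤ Y' (CS N.fixingSubgroup act (cj (l : 𝓞 F))) (fun x : HS F L S => g x.1)
    (fun x _ => (mem_CS _ _ _).2 (H19C.cc_of (hgC x.1)))
    (fun x _ x' _ hxx => by
      show x - x' ∈ YW
      rw [hYW]
      refine ⟨g x.1 - g x'.1, hxx, ?_⟩
      rw [Submodule.coe_sub, c1_PG_sub]
      exact kri_sub D he hT₀ (fun s hs => (hgC x.1).val s (hL.mono hs)) (fun s hs => (hgC x'.1).val s (hL.mono hs))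
        (hgK x.1) (hgK x'.1)) hf
  rw [AddSubgroup.relIndex_top_right] at hidx
  -- the valuation ring
  obtain ⟨VC, hV⟩ := c1_V l hl
  have hφ : ∀ a : 𝓞 F, H55P.eF F a ∈ VC := by
    intro a
    apply c1_int
    have h1 : IsIntegral ℤ a := Algebra.IsIntegral.isIntegral a
    exact map_isIntegral_int (H55P.eF F) h1
  have hl0 : (l : 𝓞 F) ≠ 0 := hp.ne_zero
  have hmax : (Ideal.span {(l : 𝓞 F)}).IsMaximal := by
    have h1 : (Ideal.span {(l : 𝓞 F)}).IsPrime := (Ideal.span_singleton_prime hl0).2 hp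
    exact h1.isMaximal (by rw [Ne, Ideal.span_singleton_eq_bot]; exact hl0)
  have hq : Nat.card (𝓞 F ⧸ Ideal.span {(l : 𝓞 F)}) = l ^ 2 := by
    have h1 := H55K.Nm_nat (F := F) l
    rw [← h1]
    rfl
  have hq1 : 1 < l ^ 2 := Nat.one_lt_pow two_ne_zero hl.one_lt
  have hfin : Finite (𝓞 F ⧸ Ideal.span {(l : 𝓞 F)}) := Nat.finite_of_card_ne_zero (by rw [hq]; omega)
  obtain ⟨ω, hω⟩ := b1_teich hl hmax hfin hφ hV hχ.mul hχ.ne
  have hsum := b1_sum hl hφ hV hχ.mul hχ.one (chi_card D hL χ hχ) (fun σ => (ω σ : ℂ)) hω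
  have hω1 : ω ≠ 1 := by
    intro h
    obtain ⟨s, hs, T, hTT, hne⟩ := hmv
    obtain ⟨σ, hσ⟩ := H13X.exists_restr hA hL s hs
    have h2 := hω σ
    have h3 : σ = 1 := by
      apply hχ.inj
      apply b1_one hmax hφ hV
      rw [h] at h2
      have h4 : H55P.eF F (χ σ - 1) = -(((1 : Gal(L/N) →* ℂˣ) σ : ℂ) - H55P.eF F (χ σ)) := by
        rw [map_sub, map_one, MonoidHom.one_apply, Units.val_one]
        ring
      rw [h4, Valuation.map_neg]
      exact h2
    apply hne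
    refine ((hL.fix s).1 ?_).2 T hTT
    rw [IntermediateField.mem_fixingSubgroup_iff]
    intro x hx
    have h4 := hσ ⟨x, hx⟩
    rw [h3] at h4
    exact h4
  obtain ⟨hcx, hcardN⟩ := H13X.places_card (F := F) N
  obtain ⟨ψ', p1, p2, p3⟩ := H19C.exists_psiS hcx ω hω1 S (fun w hw => H13X.stab_N hL (hS w hw))
  obtain ⟨Ψ, q0, q1, q2, q3⟩ := exists_Psi (F := F) S (H55P.eF F) (fun σ => (ω σ : ℂ)) ψ' p1 p2 p3
  obtain ⟨x, hx, hnx⟩ := gn_lin hl hmax hq hq1 (W := HS F L S) (G := Gal(L/N))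
    (fun σ x => ⟨gf σ x.1, gf_mem σ x.2⟩) (fun σ => χ σ⁻¹) YW hY (ι := InfinitePlace N ⊕ S) hidx.1 (by
      rw [Fintype.card_sum, hcardN, Fintype.card_coe]
      exact lt_of_le_of_lt hidx.2 hc) (H55P.eF F) VC hV (fun σ => (ω σ : ℂ)) hsum (fun i x => Ψ i x.1)
    (fun i x y => q0 i x.1 y.1) (fun i a x => q1 i a x.1) (fun i σ x => q2 i σ x.1)
    (fun c h => q3 c fun f hf => h ⟨f, hf⟩) (hs_fg S)
  obtain ⟨c, hc', hK⟩ := (hYW x).1 hx
  refine ⟨PG (fun g => χ g⁻¹) x.1, PG_mem _ x.2, c, hc', hK, fun hall => ?_⟩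
  obtain ⟨y, hy, hxy⟩ := hs_pow hl.ne_zero (PG_mem (fun g => χ g⁻¹) x.2) hall
  apply hnx ⟨y, hy⟩
  apply Subtype.ext
  rw [Submodule.coe_smul, ← hxy]
  unfold PG
  rw [AddSubmonoidClass.coe_finsetSum]
  rfl

end SSN
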