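import Mathlib
import Pool.Agent.Lib.SSN.A0
import Pool.Agent.Lib.SSN.C1
import Pool.Agent.Lib.SSN.LI
import Pool.Agent.Lib.H19C.GT2
import Pool.Agent.Lib.H13X.XKB2

/-! # SSN, chunk C2: THE GLOBAL CLASS -/

open NumberField IsDedekindDomain WeierstrassCurve

namespace SSN

open H55P (IQ Pt ac Dec Inert decS Nm Ram)
open H35P (WAB Ker tt)
open H55K (Tor CMA Dta GV ak cj xc yc Lft TFld Abw exists_abw)
open H55K.S
open H55R (Pl ord smulP)
open H19B (DN mem_DN Cc CS mem_CS)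
open H19C (SUs mem_SUs SUs_act CL mem_CL KR dl)
open H13S (Abv)
open H13X (Dat IsTB DecN algNL JV)
open H13Y (guN)

variable {F : Type} [Field F] [NumberField F] [IQ F] {A B : F} {Om : ℂ} {Ω : Type} [Field Ω] [DecidableEq Ω]
  [Algebra F Ω] [IsAlgClosure F Ω] {j : Ω →+* ℂ} {act : 𝓞 F →+* AddMonoid.End (Pt (WAB A B) Ω)} {mo : Ideal (𝓞 F)}
  {ψ : Ideal (𝓞 F) →*₀ 𝓞 F}

variable {π : 𝓞 F} {l : ℕ} {e : Pt (WAB A B) Ω → Pt (WAB A B) Ω → Ω} {N N' L : IntermediateField F Ω}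
  {c c' : (Ω ≃ₐ[F] Ω) → Pt (WAB A B) Ω} {V V₀ : ValuationSubring Ω} {T₀ : Pt (WAB A B) Ω}

omit [IsAlgClosure F Ω] in
theorem c2_cc (hA : CMA F A B Om j act) {D : Subgroup (Ω ≃ₐ[F] Ω)} {ρ : 𝓞 F} (a : 𝓞 F)
    {c : (Ω ≃ₐ[F] Ω) → Pt (WAB A B) Ω} (hc : Cc D act ρ c) : Cc D act ρ (fun s => act a (c s)) := by
  refine ⟨fun s hs t ht => ?_, fun s hs => ?_, ?_⟩
  · rw [hc.mul s hs t ht, map_add, H55K.S.ac_act hA]
  · rw [← act_mul, mul_comm, act_mul, hc.tor s hs, map_zero]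
  · obtain ⟨M, hM, h⟩ := hc.cont
    exact ⟨M, hM, fun s hs hs' => by rw [h s hs hs', map_zero]⟩

/-- The local conditions form a module. -/
theorem yt_smul (hA : CMA F A B Om j act) [NumberField N] (T : Finset (Pl N)) (Vv : Pl N → ValuationSubring Ω) (a : 𝓞 F)
    {c : (Ω ≃ₐ[F] Ω) → Pt (WAB A B) Ω} (hc : c ∈ H19C.YT act π N N' T Vv) : (fun s => act a (c s)) ∈ H19C.YT act π N N' T Vv := by
  obtain ⟨h1, h2⟩ := hc
  refine ⟨(mem_CS _ _ _).2 (c2_cc hA a ((mem_CS _ _ _).1 h1)), ?_⟩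
  refine AddSubgroup.mem_iInf.2 fun v => ?_
  obtain ⟨h3, P, h4⟩ := (mem_CL _ _ _ _).1 (AddSubgroup.mem_iInf.1 h2 v)
  refine (mem_CL _ _ _ _).2 ⟨c2_cc hA a h3, act a P, fun s hs => ?_⟩
  rw [h4 s hs, map_sub, H55K.S.ac_act hA]

/-- Chunk C2 (M/L), two theorems. PROOF of yt_smul (model of the definition: H19C.YT, file GT2): the conditions of CS (mul, tor, cont) and CL are preserved by act a: act a (ac s P) = ac s (act a P) (H55K.S.ac_act hA).
PROOF of glob_in: word for word H19C.glob (file H19C/GT3.lean) with π = (l : 𝓞 F) and these changes: the only case for w is: l not in w and the decomposition groups at w fix Tor; S = (T.filter P) ∪ {w}; the local index is loc_in (LI.lean; CL, CS for cj (l : 𝓞 F) = l: H55K.cj_nat) with bound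
absNorm v ^ b v * (if P v then l ^ 2 else 1) (the square of dl); num_bound (GT2) for l ^ 2 in the place of l; hnorm: prod absNorm v ^ b v ≤ Nm (l : 𝓞 F) ^ finrank F N = (l ^ 2) ^ finrank F N (H19C.prod_norm_pow, H55K.Nm_nat); b from H19C.exists_b. So YT has relIndex ≤ (l ^ 2) ^ (finrank F N + (T.filter P).card)
< (l ^ 2) ^ (finrank F N + S.card). T₀ ≠ 0 in Tor act l with generation by act a T₀: H55K.S.gi_gen or H55K.tor_gen. e from exists_pairing2. sel_in gives f in HS, c in YT, KRI c f, not all values l-th powers. Not a coboundary: H13X.YG3_red and kri_cob. Local conditions: at the primes of T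
by c in YT and H19C.loc_conj; at w by kri_tame; elsewhere kri_out: the values of f are units at V (H19C.ord_val, mem_SUs). -/
theorem glob_in (D : Dat A B Om j act mo ψ (l : 𝓞 F) l) [NumberField N] [NumberField N'] (hNN : N ≤ N')
    (hn : ∀ s ∈ N.fixingSubgroup, ∀ x ∈ N', s x ∈ N') (hd : Module.finrank F N' = Module.finrank F N * l)
    {w : HeightOneSpectrum (𝓞 N)} (hr : Ram N N' w.asIdeal) (hlw : (l : 𝓞 N) ∉ w.asIdeal)
    (hfx : ∀ V : ValuationSubring Ω, Abv N V w → ∀ s, DecN N V s → ∀ T ∈ Tor act (l : 𝓞 F), ac (WAB A B) s T = T)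
    (hmv : ∃ s ∈ N.fixingSubgroup, ∃ T ∈ Tor act (l : 𝓞 F), ac (WAB A B) s T ≠ T) :
    ∃ c, H13X.Cc act (l : 𝓞 F) N c ∧ (¬ ∃ T : Pt (WAB A B) Ω, l • T = 0 ∧ ∀ s ∈ N.fixingSubgroup, c s = ac (WAB A B) s T - T) ∧
      ∀ V : ValuationSubring Ω, V ≠ ⊤ →
        ∃ P : Pt (WAB A B) Ω, ∀ s ∈ N'.fixingSubgroup, Dec V s → c s = ac (WAB A B) s P - P := by
  classical
  have hA := D.cma
  have hp := D.pr
  have hl := D.hl
  have hlf : Fact l.Prime := ⟨hl⟩
  have hch : CharZero Ω := charZero_of_injective_algebraMap (algebraMap F Ω).injective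
  have hNf : FiniteDimensional F N := H13X.yn1_fin N
  obtain ⟨L, hL⟩ := H13X.exists_TB hA (l : 𝓞 F) hp N
  have hLf : FiniteDimensional F L := hL.fin
  have hLn : NumberField L := NumberField.of_module_finite F L
  obtain ⟨e, he, hadj⟩ := exists_pairing2 (l : 𝓞 F) l D.dta hp D.dvd
  have hcj : cj (l : 𝓞 F) = (l : 𝓞 F) := H55K.cj_nat l
  obtain ⟨-, T₀, hT₀, hgen', hz⟩ := H55K.S.gi_gen hA (l : 𝓞 F) hp
  have hgen : ∀ T ∈ Tor act (l : 𝓞 F), ∃ a : 𝓞 F, act a T₀ = T := fun T hT => by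
    obtain ⟨a, ha⟩ := hgen' T hT
    exact ⟨a, ha.symm⟩
  have h0 : T₀ ≠ 0 := by
    intro h
    have h1 := (hz 1).1 (by rw [h, map_zero])
    exact hp.not_isUnit (isUnit_of_dvd_one h1)
  -- the primes above l
  let T : Finset (Pl N) := (H19C.fin_above N hl.ne_zero).toFinset
  have hTm : ∀ v : Pl N, v ∈ T ↔ (l : 𝓞 N) ∈ v.asIdeal := fun v => by
    rw [Set.Finite.mem_toFinset]
    exact Iff.rfl
  have hexV : ∀ v : Pl N, ∃ V : ValuationSubring Ω, Abv N V v := fun v => by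
    obtain ⟨V, hV⟩ := exists_abw Ω v
    exact ⟨V, hV⟩
  choose Vv hVv using hexV
  obtain ⟨b, hb⟩ := H19C.exists_b (Ω := Ω) hp.ne_zero N
  let P : Pl N → Prop := fun v => ∀ s ∈ DN N (Vv v), ∀ X : Pt (WAB A B) Ω, act (l : 𝓞 F) X = 0 → ac (WAB A B) s X = X
  have hdl : ∀ v, (dl l (DN N (Vv v)) act (l : 𝓞 F)) ^ 2 = if P v then l ^ 2 else 1 := fun v => by
    have h1 : dl l (DN N (Vv v)) act (l : 𝓞 F) = if P v then l else 1 := rfl
    rw [h1]
    split_ifs
    · rfl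
    · exact one_pow 2
  have hlO : algebraMap (𝓞 F) (𝓞 N) (l : 𝓞 F) = (l : 𝓞 N) := map_natCast _ _
  have hidx : ∀ v ∈ T, (CL (DN N (Vv v)) (DN N' (Vv v)) act (cj (l : 𝓞 F))).relIndex (CS (DN N (Vv v)) act (cj (l : 𝓞 F))) ≠ 0 ∧
      (CL (DN N (Vv v)) (DN N' (Vv v)) act (cj (l : 𝓞 F))).relIndex (CS (DN N (Vv v)) act (cj (l : 𝓞 F))) ≤
        Ideal.absNorm v.asIdeal ^ b v * if P v then l ^ 2 else 1 := by
    intro v hv
    rw [hcj, ← hdl]
    have hb0 : 0 < b v := by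
      rcases (hb v).2 with h1 | h1
      · exact h1.2
      · exact absurd ((hTm v).1 hv) (by rw [← hlO]; exact h1.1)
    exact loc_in D hNN ((hTm v).1 hv) (hVv v) hb0 (hb v).1
  have hnorm : ∏ v ∈ T, Ideal.absNorm v.asIdeal ^ b v ≤ (l ^ 2) ^ Module.finrank F N := by
    have h1 := H19C.prod_norm_pow hp.ne_zero T b fun v _ => (hb v).1
    rw [H55K.Nm_nat] at h1
    exact h1
  have hY := H19C.yt_index (act := act) (π := (l : 𝓞 F)) (N' := N') T Vv fun v hv => (hidx v hv).1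
  -- the set S
  let S : Finset (Pl N) := T.filter P ∪ {w}
  have hSm : ∀ v, v ∈ S → (v ∈ T ∧ P v) ∨ v = w := by
    intro v hv
    rcases Finset.mem_union.1 hv with h1 | h1
    · exact Or.inl (Finset.mem_filter.1 h1)
    · exact Or.inr (Finset.mem_singleton.1 h1)
  have hS : ∀ v ∈ S, ∀ V : ValuationSubring Ω, Abv N V v → ∀ s, DecN N V s → ∀ T ∈ Tor act (l : 𝓞 F), ac (WAB A B) s T = T := by
    intro v hv V hV s hs' X hX
    rcases hSm v hv with h1 | h1
    · exact H19C.fix_conj hA (hVv v) hV (l : 𝓞 F) h1.2 s (mem_DN.2 hs') X hX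
    · rw [h1] at hV
      exact hfx V hV s hs' X hX
  have hcard : (H19C.YT act (l : 𝓞 F) N N' T Vv).relIndex (CS N.fixingSubgroup act (cj (l : 𝓞 F))) <
      (l ^ 2) ^ (Module.finrank F N + S.card) := by
    refine lt_of_le_of_lt hY.2 ?_
    have hwT : w ∉ T.filter P := fun h => hlw ((hTm w).1 (Finset.mem_filter.1 h).1)
    have hSe : S.card = (T.filter P).card + 1 := by
      show (T.filter P ∪ {w}).card = _
      rw [Finset.card_union_of_disjoint (Finset.disjoint_singleton_right.2 hwT), Finset.card_singleton]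
    rw [hSe]
    have h4 := H19C.num_bound T P (fun v => (CL (DN N (Vv v)) (DN N' (Vv v)) act (cj (l : 𝓞 F))).relIndex
      (CS (DN N (Vv v)) act (cj (l : 𝓞 F)))) (fun v => Ideal.absNorm v.asIdeal) b (l ^ 2) (fun v hv => (hidx v hv).2)
    have h5 := h4.trans (Nat.mul_le_mul_right _ hnorm)
    rw [← pow_add] at h5
    refine lt_of_le_of_lt h5 (Nat.pow_lt_pow_right (Nat.one_lt_pow two_ne_zero hl.one_lt) ?_)
    omega
  let _ := algNL hL.le
  have hTs : IsScalarTower F N L := IsScalarTower.of_algebraMap_eq fun x => Subtype.ext rfl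
  have hTs' : IsScalarTower N L Ω := IsScalarTower.of_algebraMap_eq fun x => rfl
  obtain ⟨f, hf, c, hcY, hcK, hne⟩ := sel_in D he hadj hL hT₀ h0 hmv S hS (H19C.YT act (l : 𝓞 F) N N' T Vv) inf_le_left
    (fun a c hc => yt_smul hA T Vv a hc) hY.1 hcard
  have C : H13X.Cc act (l : 𝓞 F) N c := H19C.of_cc ((mem_CS _ _ _).1 hcY.1)
  refine ⟨c, C, ?_, fun V hVt => ?_⟩
  · rintro ⟨X, hX, hcX⟩
    obtain ⟨X', hX', hcX'⟩ := H13X.YG3_red D C hX hcX
    exact hne fun a => kri_cob D he hL hT₀ hcK hX' hcX' a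
  · obtain ⟨W, hW⟩ := H13X.xg3_below (F := F) L hVt
    have hW' : Abw V W := hW
    obtain ⟨v, hvd⟩ : ∃ v : Pl N, W.under (𝓞 N) = v := ⟨_, rfl⟩
    have hV : Abv N V v := hW'.below hvd
    by_cases hlv : (l : 𝓞 N) ∈ v.asIdeal
    · have h1 : c ∈ CL (DN N (Vv v)) (DN N' (Vv v)) act (cj (l : 𝓞 F)) := by
        have h2 := AddSubgroup.mem_iInf.1 hcY.2
        exact h2 ⟨v, (hTm v).2 hlv⟩
      exact H19C.loc_conj C hNN hn (hVv v) hV ((mem_CL _ _ _ _).1 h1).2
    · have hVl : V.valuation (l : Ω) = 1 := by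
        have h1 := H13X.yg2_unit hV (l : 𝓞 N) hlv
        have h2 : (((l : 𝓞 N) : N) : Ω) = l := by
          have e1 : ((l : 𝓞 N) : N) = l := map_natCast (algebraMap (𝓞 N) N) l
          rw [e1]
          exact map_natCast (algebraMap N Ω) l
        rwa [h2] at h1
      by_cases hvw : v = w
      · rw [hvw] at hV
        exact kri_tame D he hL C hNN hT₀ hgen hn hd hr hV hVt hVl (hfx V hV)
      · refine kri_out D he hL C hNN hT₀ hgen hcK hVt hVl fun a => ?_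
        have h1 : ev f a ∈ SUs L S := mem_HS.1 hf a
        refine H19C.ord_val hW' (mem_SUs.1 h1 W ?_)
        rw [hvd]
        intro h2
        rcases hSm v h2 with h3 | h3
        · exact hlv ((hTm v).1 h3.1)
        · exact hvw h3

end SSN
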