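import Mathlib
import Pool.Agent.Lib.SSN.D
import Pool.Agent.Lib.H55P.S6

/-! # SSN, chunk C3: a point of order p gives a Selmer class -/

open NumberField IsDedekindDomain WeierstrassCurve

namespace SSN

open H55P (IQ Pt ac Dec Inert decS Nm Ram)
open H35P (WAB Ker tt)
open H55K (Tor CMA Dta GV ak cj xc yc Lft TFld Abw exists_abw)
open H55K.S
open H55R (Pl ord smulP)
open H19B (DN mem_DN Cc CS mem_CS)
open H19C (SUs mem_SUs SUs_act CL mem_CL KR dl)
open H13S (Abv)
open H13X (Dat IsTB DecN algNL JV)
open H13Y (guN)

open H13Z (SelNon)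

/-- Chunk C3 (S/M). PROOF. H55P.mw W K (Mordell-Weil): Pt W K is finitely generated. If every Q in Pt W K were in p Pt W K then (as in the proof of H55P.pts_fin, file H55P/S6.lean, with hdiv; copy it) Pt W K would be finite of order prime to p, and multiplication by p injective; but R, fixed by K.fixingSubgroup,
is the image of a point R' of Pt W K (H55P.fix_iff), p • R' = 0, R' ≠ 0. So there is Q' in Pt W K not in p Pt W K; Q its image in Pt W Ω, fixed by K.fixingSubgroup. P in Pt W Ω with p • P = Q (divisibility of the points over the algebraically closed field: see H55P/S6.lean or pts_div for the name of the lemma).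
c s = ac s P - P: Coc W K c (see how a coboundary is shown to be Coc in H55P or H19B; continuity: P has coordinates in a finite extension), p • c s = ac s Q - Q = 0 for s in K.fixingSubgroup, local conditions with the same P. If c s = ac s T - T with p • T = 0 then P - T is fixed by K.fixingSubgroup, so it is the image
of a point of Pt W K (fix_iff), and p (P - T) = Q: Q' = p (..) by injectivity of the map on points: contradiction. -/
theorem non_of_tors {F : Type} [Field F] [NumberField F] {Ω : Type} [Field Ω] [DecidableEq Ω] [Algebra F Ω] [IsAlgClosure F Ω]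
    (W : WeierstrassCurve F) [W.IsElliptic] (p : ℕ) (hp : p.Prime) (K : IntermediateField F Ω)
    [FiniteDimensional F K] {R : Pt W Ω} (hR : p • R = 0) (h0 : R ≠ 0) (hf : ∀ s ∈ K.fixingSubgroup, ac W s R = R) :
    SelNon W p K := by
  classical
  have h1 : IsAlgClosed Ω := IsAlgClosure.isAlgClosed F
  have h2 : Algebra.IsAlgebraic F Ω := IsAlgClosure.isAlgebraic
  have h3 : CharZero Ω := charZero_of_injective_algebraMap (algebraMap F Ω).injective
  have hN : NumberField K := NumberField.of_module_finite F K
  have hfg : Module.Finite ℤ (Pt W K) := H55P.mw W K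
  have hinj : Function.Injective (Affine.Point.map (W' := W.toAffine) K.val) :=
    Affine.Point.map_injective _
  obtain ⟨R', hR'⟩ := (H55P.fix_iff W K R).1 hf
  have hpR' : p • R' = 0 := hinj (by rw [map_nsmul, hR', hR, map_zero])
  have hR'0 : R' ≠ 0 := by
    rintro rfl
    exact h0 (by rw [← hR', map_zero])
  have hQ : ∃ Q' : Pt W K, ∀ Q : Pt W K, p • Q ≠ Q' := by
    by_contra hcon
    push Not at hcon
    obtain ⟨r, hr, hr'⟩ := Submodule.exists_sub_one_mem_and_smul_eq_zero_of_fg_of_le_smul
      (Ideal.span {(p : ℤ)}) (⊤ : Submodule ℤ (Pt W K)) hfg.fg_top (by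
        intro P _
        obtain ⟨Q, hQ⟩ := hcon P
        rw [← hQ, ← natCast_zsmul]
        exact Submodule.smul_mem_smul (Ideal.mem_span_singleton_self _) Submodule.mem_top)
    have hr0 : r ≠ 0 := by
      rintro rfl
      rw [Ideal.mem_span_singleton, zero_sub, dvd_neg] at hr
      exact hp.one_lt.ne' (by exact_mod_cast Int.natAbs_dvd_natAbs.2 hr |> Nat.dvd_one.1)
    have hfin : Finite (Pt W K) := by
      have h4 : AddGroup.FG (Pt W K) := Module.Finite.iff_addGroup_fg.1 inferInstance
      refine AddCommGroup.finite_of_fg_isAddTorsion _ fun P => ?_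
      rw [isOfFinAddOrder_iff_zsmul_eq_zero]
      exact ⟨r, hr0, hr' P Submodule.mem_top⟩
    have hsurj : Function.Surjective fun Q : Pt W K => p • Q := hcon
    have hinj' := Finite.injective_iff_surjective.2 hsurj
    exact hR'0 (hinj' (by
      show p • R' = p • 0
      rw [hpR', smul_zero]))
  obtain ⟨Q', hQ'⟩ := hQ
  have hQf : ∀ s ∈ K.fixingSubgroup, ac W s (Affine.Point.map (W' := W.toAffine) K.val Q') =
      Affine.Point.map (W' := W.toAffine) K.val Q' := (H55P.fix_iff W K _).2 ⟨Q', rfl⟩
  obtain ⟨P, hP⟩ := H55P.div_pt W p hp.pos (Affine.Point.map (W' := W.toAffine) K.val Q')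
  refine ⟨fun s => ac W s P - P, H55P.ps6_cob W K P, fun s hs => ?_, fun V _ => ⟨P, fun s _ _ => rfl⟩, ?_⟩
  · rw [smul_sub, ← map_nsmul, hP, hQf s hs, sub_self]
  · rintro ⟨T, hT, hT'⟩
    have hfix : ∀ s ∈ K.fixingSubgroup, ac W s (P - T) = P - T := fun s hs => by
      rw [map_sub]
      have h4 : ac W s P - P = ac W s T - T := hT' s hs
      rw [sub_eq_sub_iff_sub_eq_sub] at h4
      exact h4
    obtain ⟨S, hS⟩ := (H55P.fix_iff W K _).1 hfix
    exact hQ' S (hinj (by rw [map_nsmul, hS, smul_sub, hP, hT, sub_zero]))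

end SSN
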