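import Mathlib
import Pool.Agent.Lib.SSN.C2
import Pool.Agent.Lib.SSN.C3
import Pool.Agent.Lib.H13R.G4
import Pool.Agent.Lib.H13X.XS

/-! # SSN, chunk C4: one step and the chain -/

open NumberField IsDedekindDomain WeierstrassCurve

namespace SSN

open H55P (IQ Pt ac Dec Inert decS Nm Ram)
open H35P (WAB Ker tt)
open H55K (Tor CMA Dta GV ak cj xc yc Lft TFld Abw exists_abw)
open H55K.S
open H55R (Pl ord smulP)
open H19B (DN mem_DN Cc CS mem_CS)
open H19C (SUs mem_SUs SUs_act CL mem_CL KR dl)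
open H13S (Abv)
open H13X (Dat IsTB DecN algNL JV)
open H13Y (guN)

variable {F : Type} [Field F] [NumberField F] [IQ F] {A B : F} {Om : ℂ} {Ω : Type} [Field Ω] [DecidableEq Ω]
  [Algebra F Ω] [IsAlgClosure F Ω] {j : Ω →+* ℂ} {act : 𝓞 F →+* AddMonoid.End (Pt (WAB A B) Ω)} {mo : Ideal (𝓞 F)}
  {ψ : Ideal (𝓞 F) →*₀ 𝓞 F}

variable {π : 𝓞 F} {l : ℕ} {e : Pt (WAB A B) Ω → Pt (WAB A B) Ω → Ω} {N N' L : IntermediateField F Ω}
  {c c' : (Ω ≃ₐ[F] Ω) → Pt (WAB A B) Ω} {V V₀ : ValuationSubring Ω} {T₀ : Pt (WAB A B) Ω}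

open H13Z (SelNon)
open H55P (PExt)

/-- Chunk C4 (M), two theorems. PROOF of step_in (model: H13R.sel_stepR, file H13R/G4.lean). If some R ≠ 0 with l • R = 0 is fixed by N'.fixingSubgroup: non_of_tors (WAB A B is elliptic: hell). Otherwise no such R exists (hno); then hmv holds for N: some T ≠ 0 in Tor act l (H55K.S.gi_gen or D; l • T = act l T = 0: act_nat),
not fixed by N'.fixingSubgroup ≤ N.fixingSubgroup. glob_in gives c; the same c over N' (restriction), as in sel_stepR: H13Y.cob_down with hno for the last condition. -/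
theorem step_in (D : Dat A B Om j act mo ψ (l : 𝓞 F) l) (hell : (WAB A B).IsElliptic) {N N' : IntermediateField F Ω} [NumberField N] [NumberField N'] (hNN : N ≤ N')
    (hn : ∀ s ∈ N.fixingSubgroup, ∀ x ∈ N', s x ∈ N') (hd : Module.finrank F N' = Module.finrank F N * l)
    {w : HeightOneSpectrum (𝓞 N)} (hr : Ram N N' w.asIdeal) (hlw : (l : 𝓞 N) ∉ w.asIdeal)
    (hfx : ∀ V : ValuationSubring Ω, Abv N V w → ∀ s, DecN N V s → ∀ T ∈ Tor act (l : 𝓞 F), ac (WAB A B) s T = T) :
    SelNon (WAB A B) l N' := by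
  classical
  have hl := D.hl
  have hch : CharZero Ω := charZero_of_injective_algebraMap (algebraMap F Ω).injective
  have hNf : FiniteDimensional F N := H13X.yn1_fin N
  have hNf' : FiniteDimensional F N' := H13X.yn1_fin N'
  have hmono : ∀ s ∈ N'.fixingSubgroup, s ∈ N.fixingSubgroup := fun s hs =>
    IntermediateField.fixingSubgroup_antitone hNN hs
  have hcj : cj (l : 𝓞 F) = (l : 𝓞 F) := H55K.cj_nat l
  have hlT : ∀ T ∈ Tor act (l : 𝓞 F), l • T = 0 := fun T hT => H13X.lcb_l D (by rw [hcj]; exact hT)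
  by_cases hno : ∀ R : Pt (WAB A B) Ω, l • R = 0 → (∀ s ∈ N'.fixingSubgroup, ac (WAB A B) s R = R) → R = 0
  swap
  · push Not at hno
    obtain ⟨R, h1, h2, h3⟩ := hno
    exact non_of_tors (WAB A B) l hl N' h1 h3 h2
  obtain ⟨-, T₀, hT₀, hgen', hz⟩ := H55K.S.gi_gen D.cma (l : 𝓞 F) D.pr
  have h0 : T₀ ≠ 0 := by
    intro h
    have h1 := (hz 1).1 (by rw [h, map_zero])
    exact D.pr.not_isUnit (isUnit_of_dvd_one h1)
  have hmv : ∃ s ∈ N.fixingSubgroup, ∃ T ∈ Tor act (l : 𝓞 F), ac (WAB A B) s T ≠ T := by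
    by_contra hc
    push Not at hc
    exact h0 (hno T₀ (hlT _ hT₀) fun s hs => hc s (hmono s hs) T₀ hT₀)
  obtain ⟨c, hc, hnc, hloc⟩ := glob_in D hNN hn hd hr hlw hfx hmv
  refine ⟨c, ⟨fun s hs t ht => hc.mul s (hmono s hs) t (hmono t ht), ?_⟩, fun s hs =>
    H13X.lcb_l D (hc.val s (hmono s hs)), hloc, ?_⟩
  · obtain ⟨M, hM, h2⟩ := hc.cont
    exact ⟨M, hM, fun s hs hsM => h2 s (hmono s hs) hsM⟩
  · rintro ⟨T, hT, h⟩
    refine hnc ⟨T, hT, ?_⟩
    exact H13Y.cob_down (WAB A B) l hNN hn hno hc.mul (fun s hs => H13X.lcb_l D (hc.val s hs)) hT h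

/-- PROOF (model: H13R.x_coreR, file H13R/G4.lean, without UnrP and Nb). Induction on the degree of K. If E(K) has a point R ≠ 0 with l • R = 0 (fixed by K.fixingSubgroup): non_of_tors. Otherwise chain_step gives M ≤ N < K, normal of degree l; if v is ramified in N: the induction hypothesis and H13Y.non_up with the
absence of points of order l over K; if not, ram_upR gives w over v ramified in K, l not in w, and step_in with trans_V as in x_coreR. -/
theorem chain_in {F : Type} [Field F] [NumberField F] [IQ F] {A B : F} {Om : ℂ} [DecidableEq (AlgebraicClosure F)]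
    {j : AlgebraicClosure F →+* ℂ} {act : 𝓞 F →+* AddMonoid.End (Pt (WAB A B) (AlgebraicClosure F))} {mo : Ideal (𝓞 F)}
    {ψ : Ideal (𝓞 F) →*₀ 𝓞 F} {l : ℕ} (D : Dat A B Om j act mo ψ (l : 𝓞 F) l) (hell : (WAB A B).IsElliptic) {M L₀ : IntermediateField F (AlgebraicClosure F)}
    [NumberField M] (hL : PExt l M L₀)
    (K : IntermediateField F (AlgebraicClosure F)) [NumberField K] (hMK : M ≤ K) (hKL : K ≤ L₀)
    {v : HeightOneSpectrum (𝓞 M)} (hr : Ram M K v.asIdeal) (hl : (l : 𝓞 M) ∉ v.asIdeal)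
    {V₀ : ValuationSubring (AlgebraicClosure F)} (hV₀ : Abv M V₀ v)
    (hfx : ∀ s, DecN M V₀ s → ∀ T ∈ Tor act (l : 𝓞 F), ac (WAB A B) s T = T) : SelNon (WAB A B) l K := by
  classical
  have hlp := D.hl
  obtain ⟨n, hn⟩ : ∃ n, Module.finrank F K = n := ⟨_, rfl⟩
  have hL₀f : FiniteDimensional F L₀ := hL.fin
  induction n using Nat.strong_induction_on generalizing K with
  | _ n ih =>
    have hKf : FiniteDimensional F K := H55P.finDim_of_le hKL
    by_cases hno : ∀ R : Pt (WAB A B) (AlgebraicClosure F), l • R = 0 →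
      (∀ s ∈ K.fixingSubgroup, ac (WAB A B) s R = R) → R = 0
    swap
    · push Not at hno
      obtain ⟨R, h1, h2, h3⟩ := hno
      exact non_of_tors (WAB A B) l hlp K h1 h3 h2
    have hne : K ≠ M := by
      rintro rfl
      exact H55P.ram_self _ v hr
    obtain ⟨N, hMN, hNK, hd, hnorm⟩ := H55P.chain_step l D.hl M K L₀ hL hMK hKL hne
    have hNf : FiniteDimensional F N := H55P.finDim_of_le hNK
    have hNn : NumberField N := NumberField.of_module_finite F N
    have hlt : Module.finrank F N < n := by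
      have h0 : 0 < Module.finrank F N := Module.finrank_pos
      have h2 := D.hl.two_le
      rw [← hn, hd]
      nlinarith
    by_cases hrN : Ram M N v.asIdeal
    · exact H13Y.non_up (WAB A B) l hNK hnorm hno (ih _ hlt N hMN (hNK.trans hKL) hrN rfl)
    · obtain ⟨w, hw, hram⟩ := H13R.ram_upR hMN hNK v hr hrN
      have hlw : (l : 𝓞 N) ∉ w.asIdeal := by
        intro h
        exact hl ((hw (l : 𝓞 M) (l : 𝓞 N) (by simp)).2 h)
      refine step_in D hell hNK hnorm hd hram hlw fun V hV s hs T hT => ?_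
      have hVv : Abv M V v := H13R.abv_downR hMN hw hV
      obtain ⟨σ, hσM, hσ⟩ := H13X.trans_V M hV₀ hVv
      have hD : DecN M V₀ (σ⁻¹ * s * σ) := by
        refine ⟨mul_mem (mul_mem (inv_mem hσM) (IntermediateField.fixingSubgroup_antitone hMN hs.1)) hσM, fun x => ?_⟩
        have h1 := hσ (σ⁻¹ (s (σ x)))
        have h2 : σ (σ⁻¹ (s (σ x))) = s (σ x) := σ.apply_symm_apply _
        rw [h2] at h1
        exact h1.symm.trans ((hs.2 (σ x)).trans (hσ x))
      have h3 := hfx _ hD (ac (WAB A B) σ⁻¹ T) (ac_mem D.cma σ⁻¹ hT)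
      rw [← ac_mul, show σ⁻¹ * s * σ * σ⁻¹ = σ⁻¹ * s by group, ac_mul] at h3
      have h4 := congrArg (ac (WAB A B) σ) h3
      have h5 : ∀ P, ac (WAB A B) σ (ac (WAB A B) σ⁻¹ P) = P := fun P => by
        rw [← ac_mul, mul_inv_cancel, ac_one]
      rwa [h5, h5] at h4

end SSN
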