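import Mathlib
import Pool.Agent.Lib.H13R.H1
import Pool.Agent.Lib.H13R.D
import Pool.Agent.Lib.H55K.DM

/-! # SSN, chunk C5: no points of order p in the reduction above an inert prime -/

namespace SSN

open NumberField IsDedekindDomain WeierstrassCurve
open H55P (IQ Pt Nm)
open H55K (cj)
open H55K.TQ (BaseH PrimeH)

/-- Chunk C5 (S/M). PROOF. As in H13R/H1.lean (line 42) and H55K/DM.lean: the number of points of the reduction at v is Nm (1 - ψ (relNorm (𝓞 F) v)). v contains p, so the prime v₀ of F below v contains p, hence v₀ = span {p} (p inert), the relative norm of v is v₀ ^ f with f > 0, and ψ (v₀) is a generator of v₀ (H55K: ψ v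
generates v for v not dividing the conductor; the discriminant is not in v, so v₀ is a prime of good reduction; see H55K/G10C.lean, Y5.lean, how ψ_gen is obtained from hH.hecke and the good reduction), so p divides ψ (relNorm v) =: p x. Nm (1 - p x) = (1 - p x)(1 - cj (p x)) (mul_cj) = 1 modulo p, so p does not divide it
(p is not a unit). -/
theorem ss_pts {F : Type} [Field F] [NumberField F] [IQ F] {Ω : Type} [Field Ω] [Algebra F Ω] [IsAlgClosure F Ω] {W₀ : WeierstrassCurve (𝓞 F)} {Om : ℂ}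
    {m : Ideal (𝓞 F)} {ψ : Ideal (𝓞 F) →*₀ 𝓞 F} {p : ℕ} (hH : BaseH F W₀ Om m ψ) (hp : PrimeH F W₀ p)
    (hin : (Ideal.span {(p : 𝓞 F)}).IsPrime) (M : IntermediateField F Ω) [NumberField M]
    {v : HeightOneSpectrum (𝓞 M)} (hv : (p : 𝓞 M) ∈ v.asIdeal) (hΔ : algebraMap (𝓞 F) (𝓞 M) W₀.Δ ∉ v.asIdeal) :
    ¬ p ∣ Nat.card (W₀⁄(𝓞 M ⧸ v.asIdeal)).toAffine.Point := by
  rw [H55K.pts_w hH.data.hecke (fun v hv _ => hH.deu v hv) v hΔ fun hm => hΔ ((H13R.h1_pos hH v).2 hm)]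
  obtain ⟨v₀, hv₀, hN, hf, hmv⟩ := H55K.DD.below (m := m) v
  have hpv : (p : 𝓞 F) ∈ v₀.asIdeal := by
    rw [hv₀]
    show algebraMap (𝓞 F) (𝓞 M) (p : 𝓞 F) ∈ v.asIdeal
    rw [map_natCast]
    exact hv
  have hp0 : (p : 𝓞 F) ≠ 0 := Nat.cast_ne_zero.2 hp.prime.ne_zero
  have hmax : (Ideal.span {(p : 𝓞 F)}).IsMaximal :=
    hin.isMaximal (by rw [Ne, Ideal.span_singleton_eq_bot]; exact hp0)
  have e0 : Ideal.span {(p : 𝓞 F)} = v₀.asIdeal :=
    hmax.eq_of_le v₀.isPrime.ne_top ((Ideal.span_singleton_le_iff_mem _).2 hpv)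
  have hm' : ¬ m ≤ v₀.asIdeal := fun hm => hΔ ((H13R.h1_pos hH v).2 (hmv.2 hm))
  have hgen : Ideal.span {ψ v₀.asIdeal} = v₀.asIdeal := hH.data.hecke.gen _ (H55K.DD.d8_cop hm')
  have hd : (p : 𝓞 F) ∣ ψ v₀.asIdeal := by
    have h1 : ψ v₀.asIdeal ∈ v₀.asIdeal := by
      have h2 := Ideal.mem_span_singleton_self (ψ v₀.asIdeal)
      rw [hgen] at h2
      exact h2
    rw [← e0] at h1
    have h3 := Ideal.mem_span_singleton.1 h1
    rwa [e0] at h3
  have hd2 : (p : 𝓞 F) ∣ ψ (Ideal.relNorm (𝓞 F) v.asIdeal) := by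
    rw [hN, map_pow]
    exact hd.trans (dvd_pow_self _ hf.ne')
  obtain ⟨x, hx⟩ := hd2
  intro hdvd
  have h1 : (p : 𝓞 F) ∣ ((Nm (1 - ψ (Ideal.relNorm (𝓞 F) v.asIdeal)) : ℕ) : 𝓞 F) := by
    exact Nat.cast_dvd_cast hdvd
  rw [← H55K.mul_cj, hx, map_sub, map_mul, map_one, map_natCast] at h1
  have h2 : (p : 𝓞 F) ∣ 1 := by
    obtain ⟨y, hy⟩ := h1
    refine ⟨y + x + cj x - p * x * cj x, ?_⟩
    linear_combination hy
  exact hin.ne_top (Ideal.span_singleton_eq_top.2 (isUnit_of_dvd_one h2))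

end SSN
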