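import Mathlib
import Pool.Agent.Lib.SSN.C4
import Pool.Agent.Lib.SSN.C5
import Pool.Agent.Lib.H13R.G6

/-! # SSN, chunk C6: THE CONVERSE FOR SELMER GROUPS, p inert -/

open NumberField IsDedekindDomain WeierstrassCurve

namespace SSN

open H55P (IQ Pt ac Dec Inert decS Nm Ram)
open H35P (WAB Ker tt)
open H55K (Tor CMA Dta GV ak cj xc yc Lft TFld Abw exists_abw)
open H55K.S
open H55R (Pl ord smulP)
open H19B (DN mem_DN Cc CS mem_CS)
open H19C (SUs mem_SUs SUs_act CL mem_CL KR dl)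
open H13S (Abv)
open H13X (Dat IsTB DecN algNL JV)
open H13Y (guN)

open H55K.TQ (BaseH PrimeH)
open H55P (PExt)
open H13R (NoRel)
open H13Z (SelNon)

open Classical in
/-- Chunk C6 (M). PROOF: H13R.nonselR (file H13R/G6.lean) with: p not in v by ss_pts (in the place of g6_ram_p); lk_decR as there; the prime π of lk_piR divides p, which is prime (hin), so they are associated and Tor act π = Tor act p: or directly: Tor act p is generated by T (H55K.tor_gen) and the decomposition group commutes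
with the action of 𝓞 F (ac_act). D : Dat A B Om j act m ψ (p : 𝓞 F) p := ⟨hD, prime, dvd_rfl⟩; chain_in in the place of x_coreR. -/
theorem nonsel_in {F : Type} [Field F] [NumberField F] [IQ F] {W₀ : WeierstrassCurve (𝓞 F)} {Om : ℂ}
    {m : Ideal (𝓞 F)} {ψ : Ideal (𝓞 F) →*₀ 𝓞 F} {p : ℕ} (hH : BaseH F W₀ Om m ψ) (hp : PrimeH F W₀ p)
    (hin : (Ideal.span {(p : 𝓞 F)}).IsPrime) {M L K : IntermediateField F (AlgebraicClosure F)}
    [NumberField M] [NumberField K] (hL : PExt p M L) (hMK : M ≤ K) (hKL : K ≤ L)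
    (hN : ¬ NoRel p W₀ M K) : SelNon (W₀⁄F) p K := by
  obtain ⟨v, hr, hΔ, hpts⟩ : ∃ v : HeightOneSpectrum (𝓞 M), Ram M K v.asIdeal ∧
      algebraMap (𝓞 F) (𝓞 M) W₀.Δ ∉ v.asIdeal ∧
      p ∣ Nat.card (W₀⁄(𝓞 M ⧸ v.asIdeal)).toAffine.Point := by
    unfold NoRel at hN
    push Not at hN
    exact hN
  have hB := H55K.TQ.base_of hH hp
  obtain ⟨j, hj⟩ := H55K.exists_j F (AlgebraicClosure F)
  obtain ⟨A, hA⟩ : ∃ A : F, A = -(algebraMap (𝓞 F) F W₀.c₄) / 48 := ⟨_, rfl⟩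
  obtain ⟨B, hB'⟩ : ∃ B : F, B = -(algebraMap (𝓞 F) F W₀.c₆) / 864 := ⟨_, rfl⟩
  have hd := H55K.y3_ne W₀ hA hB' hB.data.ell
  have hper : H55P.Per F (H55P.embF F A) (H55P.embF F B) Om := by
    have e1 : H55P.embF F A = -(H55P.eF F W₀.c₄) / 48 := by
      rw [hA, map_div₀, map_neg, map_ofNat]
      rfl
    have e2 : H55P.embF F B = -(H55P.eF F W₀.c₆) / 864 := by
      rw [hB', map_div₀, map_neg, map_ofNat]
      rfl
    rw [e1, e2]
    exact hB.data.per
  obtain ⟨act, hact⟩ := H55K.exists_CMA F A B Om j hd hper hj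
  have hG : ∀ V : ValuationSubring (AlgebraicClosure F),
      ∃ (Kg : AddSubgroup (Pt (WAB A B) (AlgebraicClosure F))) (u : AlgebraicClosure F),
        H55K.GMod (WAB A B) V Kg u := fun V => H55K.exists_gmod hd (H55K.y3_j W₀ hA hB' hB.jint) V
  have hD : Dta A B Om j act m ψ p := H55K.mk_Dta hB hA hB' hact hG
  have hpv : (p : 𝓞 M) ∉ v.asIdeal := fun h => ss_pts hH hp hin M h hΔ hpts
  obtain ⟨V, hV⟩ : ∃ V : ValuationSubring (AlgebraicClosure F), Abv M V v := exists_abw (AlgebraicClosure F) v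
  obtain ⟨T, hT0, hT, hf⟩ := H13R.lk_decR hact W₀ hB.data.ell hA hB' M hΔ hV hp.prime hp.five hpv hpts
  have hp0 : (p : 𝓞 F) ≠ 0 := by exact_mod_cast hp.prime.ne_zero
  have hpp : Prime (p : 𝓞 F) := (Ideal.span_singleton_prime hp0).1 hin
  have hTm : T ∈ Tor act (p : 𝓞 F) := by
    rw [mem_Tor, act_nat (act := act)]
    exact hT
  have hfx : ∀ s, DecN M V s → ∀ R ∈ Tor act (p : 𝓞 F), ac (WAB A B) s R = R := by
    intro s hs R hR
    obtain ⟨a, rfl⟩ := H55K.tor_gen hact hpp hTm hR hT0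
    rw [ac_act hact, hf s hs]
  have D : Dat A B Om j act m ψ (p : 𝓞 F) p := ⟨hD, hpp, dvd_rfl⟩
  have hell : (WAB A B).IsElliptic := by
    refine ⟨isUnit_iff_ne_zero.2 ?_⟩
    have h1 : (WAB A B).Δ = -16 * (4 * A ^ 3 + 27 * B ^ 2) := by
      simp only [WAB, WeierstrassCurve.Δ, WeierstrassCurve.b₂, WeierstrassCurve.b₄, WeierstrassCurve.b₆, WeierstrassCurve.b₈]
      ring
    rw [h1]
    exact mul_ne_zero (by norm_num) hd
  exact H13X.xf_short W₀ hA hB' hB.data.ell p K (chain_in D hell hL K hMK hKL hr hpv hV hfx)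

end SSN
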