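import Mathlib
import Pool.Agent.Lib.SSA.A1

/-! # SSN, module W: wild ramification with break t ≥ 2 at an inert prime: abstract definitions (no sorry)

K is a field with an embedding i into an ultrametric field (the elements of Ω fixed by a decomposition group), σ an automorphism of K of order p,
trivial on the residue field, with break t ≥ 2; w a uniformizer. G is the group of points of the kernel of reduction over K, τ the coordinate. -/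

open Polynomial

namespace SSN

variable {K C G : Type} [Field K] [NormedField C] [AddCommGroup G]

/-- The valued field with an automorphism of order p and break t. -/
structure VF (p e t : ℕ) (i : K →+* C) (σ : K ≃+* K) (w : K) : Prop where
  prime : p.Prime
  five : 5 ≤ p
  two : 2 ≤ t
  w0 : w ≠ 0
  w1 : ‖i w‖ < 1
  val : ∀ x : K, x ≠ 0 → ∃ k : ℤ, ‖i x‖ = ‖i w‖ ^ k
  sp : ∀ x : K, σ^[p] x = x
  iso : ∀ x : K, ‖i (σ x)‖ = ‖i x‖
  valN : ∀ x : K, x ≠ 0 → σ x = x → ∃ k : ℤ, ‖i x‖ = ‖i w‖ ^ ((p : ℤ) * k)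
  res : ∀ x : K, ‖i x‖ ≤ 1 → ∃ z : K, σ z = z ∧ ‖i (x - z)‖ < 1
  ep : ‖i (p : K)‖ = ‖i w‖ ^ e
  br : ‖i (σ w - w)‖ = ‖i w‖ ^ (t + 1)

/-- The points with their coordinate. -/
structure PT (p : ℕ) (i : K →+* C) (σ : K ≃+* K) (τ : G → K) (S : AddMonoid.End G) : Prop where
  lt : ∀ P, ‖i (τ P)‖ < 1
  zero : ∀ P, τ P = 0 ↔ P = 0
  sub : ∀ P Q, ‖i (τ (P - Q) - (τ P - τ Q))‖ ≤ ‖i (τ P - τ Q)‖ * max ‖i (τ P)‖ ‖i (τ Q)‖ ^ 2
  mulp : ∀ P, ‖i (τ (p • P) - (p : K) * τ P + τ P ^ p ^ 2)‖ ≤ ‖i (p : K)‖ * ‖i (τ P)‖ ^ 2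
  act : ∀ P, τ (S P) = σ (τ P)
  pt : ∀ z : K, ‖i z‖ < 1 → ∃ P, τ P = z
  div : ∀ P, ‖i (τ P)‖ ≤ ‖i (p : K)‖ ^ 2 → ∃ Q, ‖i (τ Q)‖ ≤ ‖i (p : K)‖ ∧ p • Q = P ∧ (S P = P → S Q = Q)

/-- The difference operator. -/
def dl1 (σ : K ≃+* K) (x : K) : K := σ x - x

/-- The trace. -/
def trK (p : ℕ) (σ : K ≃+* K) (x : K) : K := ∑ k ∈ Finset.range p, σ^[k] x

/-- The norm (trace) operator on the points. -/
def NrG (p : ℕ) (S : AddMonoid.End G) : AddMonoid.End G := ∑ k ∈ Finset.range p, S ^ k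

end SSN
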