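import Mathlib
import Pool.Agent.Lib.SSN.WD

/-! # SSN, chunk W1: the differences -/

open Polynomial

namespace SSN

variable {K C G : Type} [Field K] [NormedField C] [IsUltrametricDist C] [AddCommGroup G] {p e t : ℕ} {i : K →+* C} {σ : K ≃+* K} {w : K}
  {τ : G → K} {S : AddMonoid.End G}

theorem w1_ale {a b : C} {c : ℝ} (ha : ‖a‖ ≤ c) (hb : ‖b‖ ≤ c) : ‖a + b‖ ≤ c :=
  (IsUltrametricDist.norm_add_le_max a b).trans (max_le ha hb)

theorem w1_aeq {a b : C} (h : ‖b‖ < ‖a‖) : ‖a + b‖ = ‖a‖ := by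
  rw [IsUltrametricDist.norm_add_eq_max_of_norm_ne_norm h.ne', max_eq_left h.le]

omit [IsUltrametricDist C] in
theorem w1_r (h : VF p e t i σ w) : 0 < ‖i w‖ :=
  norm_pos_iff.2 ((map_ne_zero i).2 h.w0)

/-- The powers of two elements of the same norm. -/
theorem w1_pow {a b : C} {r : ℝ} (hr : 0 ≤ r) {t : ℕ} (ha : ‖a‖ = r) (hb : ‖b‖ = r) (hab : ‖a - b‖ ≤ r ^ (t + 1)) (k : ℕ) :
    ‖a ^ k - b ^ k‖ ≤ r ^ (k + t) := by
  induction k with
  | zero =>
    rw [pow_zero, pow_zero, sub_self, norm_zero]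
    positivity
  | succ k ih =>
    have e1 : a ^ (k + 1) - b ^ (k + 1) = a * (a ^ k - b ^ k) + (a - b) * b ^ k := by ring
    rw [e1]
    refine w1_ale ?_ ?_
    · rw [norm_mul, ha]
      have h1 := mul_le_mul_of_nonneg_left ih hr
      have e2 : r ^ (k + 1 + t) = r * r ^ (k + t) := by ring
      rw [e2]
      exact h1
    · rw [norm_mul, norm_pow, hb]
      have h1 := mul_le_mul_of_nonneg_right hab (pow_nonneg hr k)
      have e2 : r ^ (k + 1 + t) = r ^ (t + 1) * r ^ k := by ring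
      rw [e2]
      exact h1

/-- The main term. -/
theorem w1_pow2 {a b : C} {r : ℝ} (hr : 0 ≤ r) {t : ℕ} (ha : ‖a‖ = r) (hb : ‖b‖ = r) (hab : ‖a - b‖ ≤ r ^ (t + 1)) (k : ℕ) :
    ‖b * (a ^ k - b ^ k) - (k : C) * (a - b) * b ^ k‖ ≤ r ^ (k + 1 + 2 * t) := by
  induction k with
  | zero =>
    rw [pow_zero, pow_zero, sub_self, mul_zero, Nat.cast_zero, zero_mul, zero_mul, sub_zero, norm_zero]
    positivity
  | succ k ih =>
    have e1 : b * (a ^ (k + 1) - b ^ (k + 1)) - ((k + 1 : ℕ) : C) * (a - b) * b ^ (k + 1) =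
        a * (b * (a ^ k - b ^ k) - (k : C) * (a - b) * b ^ k) + (k : C) * ((a - b) * (a - b)) * b ^ k := by
      push_cast
      ring
    rw [e1]
    refine w1_ale ?_ ?_
    · rw [norm_mul, ha]
      have h1 := mul_le_mul_of_nonneg_left ih hr
      have e2 : r ^ (k + 1 + 1 + 2 * t) = r * r ^ (k + 1 + 2 * t) := by ring
      rw [e2]
      exact h1
    · rw [norm_mul, norm_mul, norm_mul, norm_pow, hb]
      have e2 : r ^ (k + 1 + 1 + 2 * t) = 1 * (r ^ (t + 1) * r ^ (t + 1)) * r ^ k := by ring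
      rw [e2]
      have h2 := IsUltrametricDist.norm_natCast_le_one C k
      have h3 : ‖a - b‖ * ‖a - b‖ ≤ r ^ (t + 1) * r ^ (t + 1) :=
        mul_le_mul hab hab (norm_nonneg _) (pow_nonneg hr _)
      exact mul_le_mul_of_nonneg_right (mul_le_mul h2 h3 (by positivity) zero_le_one) (pow_nonneg hr k)

/-- Natural numbers prime to p. -/
theorem w1_unit {p k : ℕ} (hp : p.Prime) (hpC : ‖(p : C)‖ < 1) (hk : ¬ p ∣ k) : ‖(k : C)‖ = 1 := by
  apply le_antisymm (IsUltrametricDist.norm_natCast_le_one C k)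
  by_contra hlt
  push Not at hlt
  obtain ⟨a, b, hab⟩ := Nat.isCoprime_iff_coprime.2 ((Nat.Prime.coprime_iff_not_dvd hp).2 hk).symm
  have h1 := congrArg (fun z : ℤ => (z : C)) hab
  push_cast at h1
  have h2 : ‖(a : C) * (k : C) + (b : C) * (p : C)‖ < 1 := by
    refine lt_of_le_of_lt (IsUltrametricDist.norm_add_le_max _ _) (max_lt ?_ ?_)
    · rw [norm_mul]
      exact lt_of_le_of_lt (mul_le_of_le_one_left (norm_nonneg _) (IsUltrametricDist.norm_intCast_le_one C a)) hlt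
    · rw [norm_mul]
      exact lt_of_le_of_lt (mul_le_of_le_one_left (norm_nonneg _) (IsUltrametricDist.norm_intCast_le_one C b)) hpC
  rw [h1, norm_one] at h2
  exact lt_irrefl _ h2

/-- The decomposition of an element into a power of w and a unit. -/
theorem w1_dec (h : VF p e t i σ w) {x : K} {k : ℕ} (hx : ‖i x‖ = ‖i w‖ ^ k) :
    ∃ u : K, ‖i u‖ = 1 ∧ ‖i (σ u)‖ = 1 ∧ σ x - x = ((σ w) ^ k - w ^ k) * σ u + w ^ k * (σ u - u) := by
  have hr := w1_r h
  have hwk : w ^ k ≠ 0 := pow_ne_zero k h.w0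
  have h1 : ‖i (x / w ^ k)‖ = 1 := by
    rw [map_div₀, map_pow, norm_div, norm_pow, hx, div_self (pow_pos hr k).ne']
  refine ⟨x / w ^ k, h1, by rw [h.iso, h1], ?_⟩
  have e1 : w ^ k * (x / w ^ k) = x := mul_div_cancel₀ x hwk
  have e2 : (σ w) ^ k * σ (x / w ^ k) = σ x := by
    rw [← map_pow, ← map_mul, e1]
  linear_combination e1 - e2

/-- Chunk W1 (M), five theorems, ONLY MATHLIB. r = ‖i w‖, 0 < r < 1. PROOF of w1_low: x = 0 trivial; h.val: ‖i x‖ = r^k, r^k < r^n gives k > n (zpow_lt_zpow_iff_right_of_lt_one₀), k ≥ n + 1. -/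
theorem w1_low (h : VF p e t i σ w) {x : K} {n : ℕ} (hx : ‖i x‖ < ‖i w‖ ^ n) : ‖i x‖ ≤ ‖i w‖ ^ (n + 1) := by
  have hr := w1_r h
  by_cases hx0 : x = 0
  · rw [hx0, map_zero, norm_zero]
    positivity
  · obtain ⟨k, hk⟩ := h.val x hx0
    rw [hk, ← zpow_natCast] at hx
    rw [hk, ← zpow_natCast]
    have h1 := (zpow_lt_zpow_iff_right_of_lt_one₀ hr h.w1).1 hx
    exact (zpow_le_zpow_iff_right_of_lt_one₀ hr h.w1).2 (by push_cast; omega)

/-- If σ x = x the levels are divisible by p. PROOF as w1_low with h.valN: p k > p n - 1 gives p k ≥ p n. -/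
theorem w1_lowN (h : VF p e t i σ w) {x : K} (hσ : σ x = x) {n : ℕ} (hn : 1 ≤ n) (hx : ‖i x‖ ≤ ‖i w‖ ^ (p * n - 1)) :
    ‖i x‖ ≤ ‖i w‖ ^ (p * n) := by
  have hr := w1_r h
  have hp2 := h.prime.two_le
  by_cases hx0 : x = 0
  · rw [hx0, map_zero, norm_zero]
    positivity
  · obtain ⟨k, hk⟩ := h.valN x hx0 hσ
    rw [hk, ← zpow_natCast] at hx
    rw [hk, ← zpow_natCast]
    have h1 := (zpow_le_zpow_iff_right_of_lt_one₀ hr h.w1).1 hx
    refine (zpow_le_zpow_iff_right_of_lt_one₀ hr h.w1).2 ?_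
    have h2 : (((p * n - 1 : ℕ)) : ℤ) = (p : ℤ) * n - 1 := by
      have h3 : 1 ≤ p * n := Nat.mul_pos (by omega) hn
      push_cast [Nat.cast_sub h3]
      ring
    rw [h2] at h1
    push_cast
    have hp2' : (2 : ℤ) ≤ p := by exact_mod_cast hp2
    have h4 : (n : ℤ) ≤ k := by
      by_contra hlt
      push Not at hlt
      have h5 : k ≤ n - 1 := by omega
      have h6 : (p : ℤ) * k ≤ p * (n - 1) := mul_le_mul_of_nonneg_left h5 (by omega)
      nlinarith
    exact mul_le_mul_of_nonneg_left h4 (by omega)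

/-- PROOF. Claim for all m, for all x with ‖i x‖ ≤ 1: ‖i (σ x - x)‖ ≤ max (r^(t+1)) (r^m), by induction over m; then m = t + 1. m = 0: h.iso and the ultrametric inequality. Step: h.res gives z with σ z = z, ‖i (x - z)‖ < 1, so ≤ r (w1_low with n = 0); y = (x - z) / w, ‖i y‖ ≤ 1;
x = z + w y, σ x - x = σ w σ y - w y = (σ w - w) σ y + w (σ y - y): norms ≤ r^(t+1) (h.br, h.iso) and r * max (r^(t+1)) (r^m). -/
theorem w1_br (h : VF p e t i σ w) {x : K} (hx : ‖i x‖ ≤ 1) : ‖i (σ x - x)‖ ≤ ‖i w‖ ^ (t + 1) := by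
  have hr := w1_r h
  have key : ∀ m : ℕ, ∀ x : K, ‖i x‖ ≤ 1 → ‖i (σ x - x)‖ ≤ max (‖i w‖ ^ (t + 1)) (‖i w‖ ^ m) := by
    intro m
    induction m with
    | zero =>
      intro x hx
      rw [pow_zero, map_sub, sub_eq_add_neg]
      refine le_trans (w1_ale (c := 1) ?_ ?_) (le_max_right _ _)
      · rw [h.iso]
        exact hx
      · rw [norm_neg]
        exact hx
    | succ m ih =>
      intro x hx
      obtain ⟨z, hz, hxz⟩ := h.res x hx
      have h1 : ‖i (x - z)‖ ≤ ‖i w‖ ^ (0 + 1) := w1_low h (by rw [pow_zero]; exact hxz)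
      rw [zero_add, pow_one] at h1
      have hy : ‖i ((x - z) / w)‖ ≤ 1 := by
        rw [map_div₀, norm_div]
        exact div_le_one_of_le₀ h1 hr.le
      have e1 : w * ((x - z) / w) = x - z := mul_div_cancel₀ _ h.w0
      have e2 : σ w * σ ((x - z) / w) = σ x - z := by
        rw [← map_mul, e1, map_sub, hz]
      have e3 : σ x - x = (σ w - w) * σ ((x - z) / w) + w * (σ ((x - z) / w) - (x - z) / w) := by
        linear_combination e1 - e2
      rw [e3, map_add]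
      refine w1_ale ?_ ?_
      · rw [map_mul, norm_mul, h.br, h.iso]
        exact le_trans (mul_le_of_le_one_right (pow_nonneg hr.le _) hy) (le_max_left _ _)
      · rw [map_mul, norm_mul]
        have h2 := mul_le_mul_of_nonneg_left (ih _ hy) hr.le
        refine le_trans h2 ?_
        rw [mul_max_of_nonneg _ _ hr.le]
        refine max_le_max ?_ ?_
        · exact mul_le_of_le_one_left (pow_nonneg hr.le _) h.w1.le
        · rw [pow_succ, mul_comm]
  have h1 := key (t + 1) x hx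
  rwa [max_self] at h1

/-- PROOF. x = 0 trivial. ‖i x‖ = r^k with k a natural number (h.val; k ≥ 0 because ‖i x‖ ≤ 1), u = x / w^k, ‖i u‖ = 1. σ x - x = (σ (w^k) - w^k) σ u + w^k (σ u - u). ‖i (σ w^k - w^k)‖ ≤ r^(k + t): a^k - b^k = (a - b) (sum of a^j b^(k-1-j)) (geom_sum₂_mul or Commute.mul_geom_sum₂), a = i (σ w), b = i w, ‖a‖ = ‖b‖ = r,
‖a - b‖ = r^(t+1), the sum has norm ≤ r^(k-1). Second term: r^k r^(t+1) (w1_br). -/
theorem w1_le (h : VF p e t i σ w) {x : K} (hx : ‖i x‖ ≤ 1) : ‖i (σ x - x)‖ ≤ ‖i w‖ ^ t * ‖i x‖ := by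
  have hr := w1_r h
  by_cases hx0 : x = 0
  · rw [hx0, map_zero, sub_self, map_zero, norm_zero, mul_zero]
  · obtain ⟨k, hk⟩ := h.val x hx0
    have hk0 : 0 ≤ k := by
      rw [hk, ← zpow_zero ‖i w‖] at hx
      exact (zpow_le_zpow_iff_right_of_lt_one₀ hr h.w1).1 hx
    obtain ⟨κ, rfl⟩ := Int.eq_ofNat_of_zero_le hk0
    rw [zpow_natCast] at hk
    obtain ⟨u, hu, hσu, e⟩ := w1_dec h hk
    have hab : ‖i (σ w) - i w‖ ≤ ‖i w‖ ^ (t + 1) := by
      rw [← map_sub, h.br]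
    have h1 := w1_pow hr.le (h.iso w) rfl hab κ
    rw [e, map_add, hk]
    refine w1_ale ?_ ?_
    · rw [map_mul, norm_mul, hσu, mul_one, map_sub, map_pow, map_pow]
      have e2 : ‖i w‖ ^ t * ‖i w‖ ^ κ = ‖i w‖ ^ (κ + t) := by ring
      rw [e2]
      exact h1
    · rw [map_mul, norm_mul, map_pow, norm_pow]
      have h2 := w1_br h hu.le
      have h3 : ‖i (σ u - u)‖ ≤ ‖i w‖ ^ t := by
        refine le_trans h2 ?_
        rw [pow_succ]
        exact mul_le_of_le_one_right (pow_nonneg hr.le _) h.w1.le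
      rw [mul_comm (‖i w‖ ^ t)]
      exact mul_le_mul_of_nonneg_left h3 (pow_nonneg hr.le _)

/-- PROOF. As w1_le; the second term is smaller than r^(k+t) and the first one has norm exactly r^(k+t): the sum of a^j b^(k-1-j), j < k, is k b^(k-1) up to terms of norm ≤ r^(k-1) * r^t (a^j - b^j has norm ≤ r^(j-1) r^(t+1)), and ‖(k : C)‖ = 1 because p does not divide k (‖(p : C)‖ = r^e < 1 by h.ep and he;
Bezout: a k + b p = 1, so ‖(k : C)‖ < 1 would give ‖1‖ < 1). IsUltrametricDist.norm_add_eq_max_of_norm_ne_norm. -/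
theorem w1_eq (h : VF p e t i σ w) (he : 0 < e) {x : K} {k : ℕ} (hk : ¬ p ∣ k) (hx : ‖i x‖ = ‖i w‖ ^ k) :
    ‖i (σ x - x)‖ = ‖i w‖ ^ t * ‖i x‖ := by
  have hr := w1_r h
  have hpC : ‖(p : C)‖ < 1 := by
    rw [← map_natCast i p, h.ep]
    exact pow_lt_one₀ hr.le h.w1 he.ne'
  have hkC := w1_unit h.prime hpC hk
  obtain ⟨u, hu, hσu, e1⟩ := w1_dec h hx
  have hab : ‖i (σ w) - i w‖ ≤ ‖i w‖ ^ (t + 1) := by
    rw [← map_sub, h.br]
  have h1 := w1_pow2 hr.le (h.iso w) rfl hab k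
  have h2 : ‖(k : C) * (i (σ w) - i w) * i w ^ k‖ = ‖i w‖ ^ (k + 1 + t) := by
    rw [norm_mul, norm_mul, hkC, one_mul, ← map_sub, h.br, norm_pow]
    ring
  have h3 : ‖i w‖ ^ (k + 1 + 2 * t) < ‖i w‖ ^ (k + 1 + t) :=
    pow_lt_pow_right_of_lt_one₀ hr h.w1 (by have := h.two; omega)
  have h4 : ‖i w * (i (σ w) ^ k - i w ^ k)‖ = ‖i w‖ ^ (k + 1 + t) := by
    have e2 : i w * (i (σ w) ^ k - i w ^ k) = (k : C) * (i (σ w) - i w) * i w ^ k +
        (i w * (i (σ w) ^ k - i w ^ k) - (k : C) * (i (σ w) - i w) * i w ^ k) := by ring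
    rw [e2, w1_aeq, h2]
    rw [h2]
    exact lt_of_le_of_lt h1 h3
  have h5 : ‖i (σ w) ^ k - i w ^ k‖ = ‖i w‖ ^ (k + t) := by
    rw [norm_mul] at h4
    have e2 : ‖i w‖ ^ (k + 1 + t) = ‖i w‖ * ‖i w‖ ^ (k + t) := by ring
    rw [e2] at h4
    exact mul_left_cancel₀ hr.ne' h4
  have h6 : ‖i (((σ w) ^ k - w ^ k) * σ u)‖ = ‖i w‖ ^ (k + t) := by
    rw [map_mul, norm_mul, hσu, mul_one, map_sub, map_pow, map_pow]
    exact h5
  have h7 : ‖i (w ^ k * (σ u - u))‖ < ‖i (((σ w) ^ k - w ^ k) * σ u)‖ := by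
    rw [h6, map_mul, norm_mul, map_pow, norm_pow]
    have h8 := w1_br h hu.le
    have h9 : ‖i w‖ ^ k * ‖i (σ u - u)‖ ≤ ‖i w‖ ^ (k + t + 1) := by
      have h10 := mul_le_mul_of_nonneg_left h8 (pow_nonneg hr.le k)
      rw [← pow_add] at h10
      rw [add_assoc]
      exact h10
    exact lt_of_le_of_lt h9 (pow_lt_pow_right_of_lt_one₀ hr h.w1 (Nat.lt_succ_self _))
  rw [e1, map_add, w1_aeq h7, h6, hx]
  ring

/-- PROOF. p divides e: h.valN for x = (p : K) (σ fixes integers; (p : K) ≠ 0 because its norm is r^e ≠ 0; exponents: zpow_right_injective₀ or comparison of zpow for 0 < r < 1). e > 0 because r^0 = 1 (hp1). -/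
theorem w1_e (h : VF p e t i σ w) (hp1 : ‖i (p : K)‖ < 1) : 0 < e ∧ p ∣ e := by
  have hr := w1_r h
  have hp0 : (p : K) ≠ 0 := by
    intro h0
    have h1 := h.ep
    rw [h0, map_zero, norm_zero] at h1
    exact (pow_pos hr e).ne h1
  refine ⟨?_, ?_⟩
  · rw [Nat.pos_iff_ne_zero]
    intro h0
    have h1 := h.ep
    rw [h0, pow_zero] at h1
    exact hp1.ne h1
  · obtain ⟨k, hk⟩ := h.valN (p : K) hp0 (map_natCast σ p)
    rw [h.ep, ← zpow_natCast] at hk
    have h1 := zpow_right_injective₀ hr h.w1.ne hk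
    exact Int.natCast_dvd_natCast.1 ⟨k, h1⟩

end SSN
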