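import Mathlib
import Pool.Agent.Lib.SSN.W1

/-! # SSN, chunk W2: the trace and the break -/

open Polynomial

namespace SSN

variable {K C G : Type} [Field K] [NormedField C] [IsUltrametricDist C] [AddCommGroup G] {p e t : ℕ} {i : K →+* C} {σ : K ≃+* K} {w : K}
  {τ : G → K} {S : AddMonoid.End G}

/-- Chunk W2 (M), four theorems. PROOF of w2_it: induction over k, Function.iterate_succ_apply', dl1, w1_le (the norms stay ≤ 1). -/
theorem w2_it (h : VF p e t i σ w) {x : K} (hx : ‖i x‖ ≤ 1) (k : ℕ) : ‖i ((dl1 σ)^[k] x)‖ ≤ ‖i w‖ ^ (t * k) * ‖i x‖ := by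
  have hr := w1_r h
  induction k with
  | zero =>
    rw [Function.iterate_zero_apply, Nat.mul_zero, pow_zero, one_mul]
  | succ k ih =>
    rw [Function.iterate_succ_apply']
    have h1 : ‖i ((dl1 σ)^[k] x)‖ ≤ 1 :=
      ih.trans (mul_le_one₀ (pow_le_one₀ hr.le h.w1.le) (norm_nonneg _) hx)
    have h2 := w1_le h h1
    refine le_trans h2 ?_
    have h3 := mul_le_mul_of_nonneg_left ih (pow_nonneg hr.le t)
    have e1 : ‖i w‖ ^ (t * (k + 1)) * ‖i x‖ = ‖i w‖ ^ t * (‖i w‖ ^ (t * k) * ‖i x‖) := by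
      rw [Nat.mul_succ, pow_add]
      ring
    rw [e1]
    exact h3

/-- PROOF. Induction over k ≤ n: w1_eq for the element (dl1 σ)^[k] x of norm r^(m + t k), not divisible by p. -/
theorem w2_eq (h : VF p e t i σ w) (he : 0 < e) {x : K} {m n : ℕ} (hx : ‖i x‖ = ‖i w‖ ^ m) (hm : ∀ k < n, ¬ p ∣ m + t * k) :
    ‖i ((dl1 σ)^[n] x)‖ = ‖i w‖ ^ (m + t * n) := by
  induction n with
  | zero =>
    rw [Function.iterate_zero_apply, Nat.mul_zero, Nat.add_zero]
    exact hx
  | succ n ih =>
    rw [Function.iterate_succ_apply']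
    have h1 := ih (fun k hk => hm k (Nat.lt_succ_of_lt hk))
    have h2 := w1_eq h he (hm n (Nat.lt_succ_self n)) h1
    have h3 : ‖i (dl1 σ ((dl1 σ)^[n] x))‖ = ‖i w‖ ^ t * ‖i ((dl1 σ)^[n] x)‖ := h2
    rw [h3, h1]
    ring

/-- The trace is (σ - 1)^(p-1) plus p times an operator u which is the identity modulo elements of higher level. PROOF. U = the polynomial of SSA.a1 h.prime: sum_(k<p) X^k = (X - 1)^(p-1) + p U in ℤ[X]. Evaluate at the additive endomorphism s of K given by σ (σ.toAddMonoidHom in AddMonoid.End K, aeval):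
trK x = ((s - 1)^(p-1)) x + p (aeval s U) x ((s^k) x = σ^[k] x, ((s - 1)^k) x = (dl1 σ)^[k] x by induction). u x = (aeval s U) x. ‖i (u x)‖ ≤ ‖i x‖ by Polynomial.induction_on (coefficients are integers, norm ≤ 1; σ is an isometry), as SSA.a2_poly. U(1) = 1 (evaluate the identity at 1: p = 0 + p U(1), p ≥ 2),
U - 1 = (X - 1) W (Polynomial.sub_dvd_eval_sub or dvd_iff_isRoot), so u x - x = (aeval s W)(σ x - x) up to order of the factors (they commute): norm ≤ ‖i (σ x - x)‖ ≤ r^t ‖i x‖ (w1_le). -/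
theorem w2_tr (h : VF p e t i σ w) : ∃ u : K → K, ∀ x, trK p σ x = (dl1 σ)^[p - 1] x + (p : K) * u x ∧ ‖i (u x)‖ ≤ ‖i x‖ ∧
    (‖i x‖ ≤ 1 → ‖i (u x - x)‖ ≤ ‖i w‖ ^ t * ‖i x‖) := by
  obtain ⟨U, hU⟩ := SSA.a1 h.prime
  have h1U : U.eval 1 = 1 := by
    have h1 := congrArg (Polynomial.eval (1 : ℤ)) hU
    rw [Polynomial.eval_finsetSum] at h1
    have h2 : ∑ k ∈ Finset.range p, Polynomial.eval (1 : ℤ) ((X : ℤ[X]) ^ k) = (p : ℤ) := by
      have h3 : ∀ k ∈ Finset.range p, Polynomial.eval (1 : ℤ) ((X : ℤ[X]) ^ k) = 1 := by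
        intro k _
        rw [Polynomial.eval_pow, Polynomial.eval_X, one_pow]
      rw [Finset.sum_congr rfl h3, Finset.sum_const, Finset.card_range, nsmul_eq_mul, mul_one]
    have hp1 : p - 1 ≠ 0 := by
      have := h.five
      omega
    rw [h2, Polynomial.eval_add, Polynomial.eval_pow, Polynomial.eval_sub, Polynomial.eval_X, Polynomial.eval_one, sub_self, zero_pow hp1,
      zero_add, Polynomial.eval_mul, Polynomial.eval_natCast] at h1
    have hp0 : (p : ℤ) ≠ 0 := by exact_mod_cast h.prime.ne_zero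
    have h4 : (p : ℤ) * U.eval 1 = (p : ℤ) * 1 := by rw [← h1, mul_one]
    exact mul_left_cancel₀ hp0 h4
  obtain ⟨W, hW⟩ : ((X : ℤ[X]) - Polynomial.C (1 : ℤ)) ∣ U - Polynomial.C (U.eval 1) := Polynomial.X_sub_C_dvd_sub_C_eval
  rw [h1U, Polynomial.C_1] at hW
  set s : AddMonoid.End K := (σ : K →+* K).toAddMonoidHom with hs
  have hsap : ∀ y, s y = σ y := fun y => rfl
  have hadd : ∀ (f g : AddMonoid.End K) (y : K), (f + g) y = f y + g y := fun _ _ _ => rfl
  have hmul : ∀ (f g : AddMonoid.End K) (y : K), (f * g) y = f (g y) := fun _ _ _ => rfl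
  have hspow : ∀ (k : ℕ) (y : K), (s ^ k) y = σ^[k] y := by
    intro k
    induction k with
    | zero =>
      intro y
      rfl
    | succ k ih =>
      intro y
      rw [pow_succ', hmul, ih, Function.iterate_succ_apply', hsap]
  have hdap : ∀ y, (s - 1) y = dl1 σ y := fun y => rfl
  have hdpow : ∀ (k : ℕ) (y : K), ((s - 1) ^ k) y = (dl1 σ)^[k] y := by
    intro k
    induction k with
    | zero =>
      intro y
      rfl
    | succ k ih =>
      intro y
      rw [pow_succ', hmul, ih, Function.iterate_succ_apply', hdap]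
  have hpoly : ∀ U : ℤ[X], ∀ y, ‖i ((aeval s U) y)‖ ≤ ‖i y‖ := by
    intro U
    induction U using Polynomial.induction_on with
    | C a =>
      intro y
      rw [aeval_C, eq_intCast, AddMonoid.End.intCast_apply, zsmul_eq_mul, map_mul, map_intCast, norm_mul]
      exact mul_le_of_le_one_left (norm_nonneg _) (IsUltrametricDist.norm_intCast_le_one _ a)
    | add f g hf hg =>
      intro y
      rw [map_add, hadd, map_add]
      exact w1_ale (hf y) (hg y)
    | monomial k a ih =>
      intro y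
      rw [pow_succ, ← mul_assoc, map_mul, aeval_X]
      exact (ih (σ y)).trans (h.iso y).le
  refine ⟨fun x => (aeval s U) x, fun x => ⟨?_, hpoly U x, ?_⟩⟩
  · have h1 := congrArg (fun Q : ℤ[X] => (aeval s Q) x) hU
    simp only [map_sum, map_pow, map_add, map_sub, map_mul, aeval_X, map_one, map_natCast] at h1
    have h2 : (∑ k ∈ Finset.range p, s ^ k) x = trK p σ x := by
      unfold trK
      have h3 : ∀ n : ℕ, (∑ k ∈ Finset.range n, s ^ k) x = ∑ k ∈ Finset.range n, σ^[k] x := by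
        intro n
        induction n with
        | zero =>
          rw [Finset.sum_range_zero, Finset.sum_range_zero]
          rfl
        | succ n ih => rw [Finset.sum_range_succ, Finset.sum_range_succ, hadd, ih, hspow]
      exact h3 p
    rw [← h2, h1]
    rw [hadd, hdpow, hmul, AddMonoid.End.natCast_apply, nsmul_eq_mul]
  · intro hx
    have h1 : (aeval s U) x - x = (aeval s W) (dl1 σ x) := by
      have h2 := congrArg (fun Q : ℤ[X] => (aeval s Q) x) (show U - 1 = W * (X - 1) by rw [hW]; ring)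
      simp only [map_sub, map_mul, aeval_X, map_one] at h2
      exact h2
    show ‖i ((aeval s U) x - x)‖ ≤ _
    rw [h1]
    exact (hpoly W _).trans (w1_le h hx)

/-- The break is at most e / (p - 1), with equality if it is divisible by p. PROOF. trK w is fixed by σ (the sum over k < p is permuted: h.sp; Finset.sum_range_succ, sum_range_succ'), so if it is not 0 its level is divisible by p (valN). u w has norm r (u w - w has norm ≤ r^(t+1) < r), p u w has norm r^(e+1).
(1) If e < t (p - 1): (dl1 σ)^[p-1] w has norm ≤ r^(t(p-1)+1) < r^(e+1) (w2_it), so trK w has norm r^(e+1), p divides e + 1, but p divides e: contradiction. (2) p divides t and t (p - 1) < e: w2_eq with m = 1, n = p - 1 (1 + t k is 1 modulo p): norm of (dl1 σ)^[p-1] w is r^(1 + t(p-1)) > r^(e+1), so trK w has this norm and p divides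
1 + t (p - 1), hence 1: contradiction. (zpow exponents: r^(k : ℕ) = r^(m : ℤ) gives equality: zpow_right_injective₀ for 0 < r < 1, r ≠ 1.) -/
theorem w2_te (h : VF p e t i σ w) (hp1 : ‖i (p : K)‖ < 1) : t * (p - 1) ≤ e ∧ (p ∣ t → e = t * (p - 1)) := by
  have hr := w1_r h
  obtain ⟨he0, hpe⟩ := w1_e h hp1
  have hp5 := h.five
  have ht2 := h.two
  obtain ⟨u, hu⟩ := w2_tr h
  obtain ⟨hu1, hu2, hu3⟩ := hu w
  have hu3 := hu3 h.w1.le
  -- the trace is fixed
  have hfix : σ (trK p σ w) = trK p σ w := by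
    unfold trK
    rw [map_sum]
    have h1 : ∀ k ∈ Finset.range p, σ (σ^[k] w) = σ^[k + 1] w := by
      intro k _
      rw [Function.iterate_succ_apply']
    rw [Finset.sum_congr rfl h1]
    obtain ⟨q, hq⟩ : ∃ q, p = q + 1 := ⟨p - 1, by omega⟩
    have h2 := h.sp w
    rw [hq] at h2 ⊢
    rw [Finset.sum_range_succ, h2, Finset.sum_range_succ' (fun k => σ^[k] w), Function.iterate_zero_apply]
  -- the level of the trace
  have hlev : ∀ a : ℕ, ‖i (trK p σ w)‖ = ‖i w‖ ^ a → p ∣ a := by
    intro a ha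
    have hne : trK p σ w ≠ 0 := by
      intro h0
      rw [h0, map_zero, norm_zero] at ha
      exact (pow_pos hr a).ne ha
    obtain ⟨k, hk⟩ := h.valN _ hne hfix
    rw [ha, ← zpow_natCast] at hk
    have h1 := zpow_right_injective₀ hr h.w1.ne hk
    exact Int.natCast_dvd_natCast.1 ⟨k, h1⟩
  -- the norm of u w
  have hnu : ‖i (u w)‖ = ‖i w‖ := by
    have h1 : ‖i (u w - w)‖ < ‖i w‖ := by
      refine lt_of_le_of_lt hu3 ?_
      exact mul_lt_of_lt_one_left hr (pow_lt_one₀ hr.le h.w1 (by omega))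
    have h2 : i (u w) = i w + i (u w - w) := by
      rw [map_sub]
      ring
    rw [h2, w1_aeq h1]
  have hnpu : ‖i ((p : K) * u w)‖ = ‖i w‖ ^ (e + 1) := by
    rw [map_mul, norm_mul, h.ep, hnu, pow_succ]
  have hit := w2_it h h.w1.le (p - 1)
  refine ⟨?_, ?_⟩
  · by_contra hlt
    push Not at hlt
    have h1 : ‖i ((dl1 σ)^[p - 1] w)‖ < ‖i ((p : K) * u w)‖ := by
      rw [hnpu]
      refine lt_of_le_of_lt hit ?_
      rw [← pow_succ]
      exact pow_lt_pow_right_of_lt_one₀ hr h.w1 (by omega)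
    have h2 : ‖i (trK p σ w)‖ = ‖i w‖ ^ (e + 1) := by
      rw [hu1, map_add, add_comm, w1_aeq h1, hnpu]
    have h3 := hlev _ h2
    have h4 : p ∣ 1 := (Nat.dvd_add_right hpe).1 h3
    have h5 := Nat.le_of_dvd one_pos h4
    omega
  · intro hpt
    have hle : t * (p - 1) ≤ e := by
      by_contra hlt
      push Not at hlt
      have h1 : ‖i ((dl1 σ)^[p - 1] w)‖ < ‖i ((p : K) * u w)‖ := by
        rw [hnpu]
        refine lt_of_le_of_lt hit ?_
        rw [← pow_succ]
        exact pow_lt_pow_right_of_lt_one₀ hr h.w1 (by omega)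
      have h2 : ‖i (trK p σ w)‖ = ‖i w‖ ^ (e + 1) := by
        rw [hu1, map_add, add_comm, w1_aeq h1, hnpu]
      have h3 := hlev _ h2
      have h4 : p ∣ 1 := (Nat.dvd_add_right hpe).1 h3
      have h5 := Nat.le_of_dvd one_pos h4
      omega
    by_contra hne
    have hlt : t * (p - 1) < e := lt_of_le_of_ne hle (fun h => hne h.symm)
    have h6 : ‖i ((dl1 σ)^[p - 1] w)‖ = ‖i w‖ ^ (1 + t * (p - 1)) := by
      refine w2_eq h he0 (m := 1) (by rw [pow_one]) ?_
      intro k _ hd
      have h7 : p ∣ t * k := Dvd.dvd.mul_right hpt k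
      have h8 : p ∣ 1 := (Nat.dvd_add_left h7).1 hd
      have h9 := Nat.le_of_dvd one_pos h8
      omega
    have h7 : ‖i ((p : K) * u w)‖ < ‖i ((dl1 σ)^[p - 1] w)‖ := by
      rw [hnpu, h6]
      exact pow_lt_pow_right_of_lt_one₀ hr h.w1 (by omega)
    have h8 : ‖i (trK p σ w)‖ = ‖i w‖ ^ (1 + t * (p - 1)) := by
      rw [hu1, map_add, w1_aeq h7, h6]
    have h9 := hlev _ h8
    have h10 : p ∣ t * (p - 1) := Dvd.dvd.mul_right hpt _
    have h11 : p ∣ 1 := (Nat.dvd_add_left h10).1 h9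
    have h12 := Nat.le_of_dvd one_pos h11
    omega

end SSN
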