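import Mathlib
import Pool.Agent.Lib.SSN.W2

/-! # SSN, chunk W3: solving the trace equation -/

open Polynomial

namespace SSN

variable {K C G : Type} [Field K] [NormedField C] [IsUltrametricDist C] [AddCommGroup G] {p e t : ℕ} {i : K →+* C} {σ : K ≃+* K} {w : K}
  {τ : G → K} {S : AddMonoid.End G}

omit [IsUltrametricDist C] [NormedField C] in
private theorem w3_tr_fix (hsp : ∀ x : K, σ^[p] x = x) (x : K) : σ (trK p σ x) = trK p σ x := by
  have h1 : σ (trK p σ x) = ∑ k ∈ Finset.range p, σ^[k + 1] x := by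
    unfold trK
    rw [map_sum]
    refine Finset.sum_congr rfl (fun k _ => ?_)
    rw [Function.iterate_succ_apply']
  have h2 : ∑ k ∈ Finset.range (p + 1), σ^[k] x = ∑ k ∈ Finset.range p, σ^[k + 1] x + σ^[0] x := Finset.sum_range_succ' _ _
  have h3 : ∑ k ∈ Finset.range (p + 1), σ^[k] x = ∑ k ∈ Finset.range p, σ^[k] x + σ^[p] x := Finset.sum_range_succ _ _
  have h4 : σ^[0] x = x := rfl
  rw [h2, h4, hsp x] at h3
  rw [h1]
  exact add_right_cancel h3

omit [IsUltrametricDist C] [NormedField C] in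
private theorem w3_iter_mul {c : K} (hc : σ c = c) (y : K) (k : ℕ) : σ^[k] (c * y) = c * σ^[k] y := by
  induction k with
  | zero => rfl
  | succ k ih => rw [Function.iterate_succ_apply', ih, map_mul, hc, Function.iterate_succ_apply']

omit [IsUltrametricDist C] [NormedField C] in
private theorem w3_tr_mul {c : K} (hc : σ c = c) (y : K) : trK p σ (c * y) = c * trK p σ y := by
  unfold trK
  rw [Finset.mul_sum]
  exact Finset.sum_congr rfl (fun k _ => w3_iter_mul hc y k)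

/-- Chunk W3 (M). PROOF. n = t + p (m - t) ≥ 1, not divisible by p; n + t (p - 1) = p m. T = trK p σ (w^n) = (dl1 σ)^[p-1] (w^n) + p u(w^n) (w2_tr). Norm of the first term: r^(n + t(p-1)) = r^(p m) (w2_eq with m := n and n := p - 1: n + t k = t (k + 1) modulo p, k + 1 ≤ p - 1 and p does not divide t, so it is not divisible by p);
norm of the second ≤ r^(e + n) < r^(p m), because e > t (p - 1): w2_te gives ≥, and equality would give p | t (p - 1) (w1_e), p | t. So ‖i T‖ = r^(p m), T ≠ 0, σ T = T. c = x / T, σ c = c, ‖i c‖ = 1. z = c w^n: ‖i z‖ = r^n. trK z = c T = x (σ^[k] (c y) = c σ^[k] y), and x - (dl1 σ)^[p-1] z = p u z has norm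
≤ r^(e + n) < r^(p m). -/
theorem w3 (h : VF p e t i σ w) (hp1 : ‖i (p : K)‖ < 1) (ht : ¬ p ∣ t) {m : ℕ} (hm : t ≤ m) {x : K} (hσ : σ x = x)
    (hx : ‖i x‖ = ‖i w‖ ^ (p * m)) :
    ∃ z : K, ‖i z‖ = ‖i w‖ ^ (t + p * (m - t)) ∧ ‖i (x - (dl1 σ)^[p - 1] z)‖ < ‖i w‖ ^ (p * m) := by
  have hr0 : 0 < ‖i w‖ := norm_pos_iff.mpr ((map_ne_zero i).mpr h.w0)
  have hr1 : ‖i w‖ < 1 := h.w1
  have hpp : p.Prime := h.prime
  obtain ⟨he, hpe⟩ := w1_e h hp1
  obtain ⟨hte, -⟩ := w2_te h hp1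
  have hp2 : 2 ≤ p := hpp.two_le
  have hlt : t * (p - 1) < e := by
    rcases Nat.lt_or_ge (t * (p - 1)) e with h1 | h1
    · exact h1
    · exfalso
      have h2 : e = t * (p - 1) := le_antisymm h1 hte
      rw [h2] at hpe
      rcases hpp.dvd_mul.mp hpe with h3 | h3
      · exact ht h3
      · exact absurd (Nat.le_of_dvd (by omega) h3) (by omega)
  obtain ⟨u, hu⟩ := w2_tr h
  have hnm : t + p * (m - t) + t * (p - 1) = p * m := by
    obtain ⟨d, rfl⟩ := Nat.exists_eq_add_of_le hm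
    obtain ⟨q, rfl⟩ := Nat.exists_eq_add_of_le (show 1 ≤ p by omega)
    rw [Nat.add_sub_cancel_left, Nat.add_sub_cancel_left]
    ring
  have hwn : ‖i (w ^ (t + p * (m - t)))‖ = ‖i w‖ ^ (t + p * (m - t)) := by rw [map_pow, norm_pow]
  have hndvd : ∀ k < p - 1, ¬ p ∣ (t + p * (m - t)) + t * k := by
    intro k hk hd
    have h1 : t + p * (m - t) + t * k = t * (k + 1) + p * (m - t) := by ring
    rw [h1] at hd
    have h2 : p ∣ t * (k + 1) := (Nat.dvd_add_left (Dvd.intro _ rfl)).mp hd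
    rcases hpp.dvd_mul.mp h2 with h3 | h3
    · exact ht h3
    · exact absurd (Nat.le_of_dvd (by omega) h3) (by omega)
  have hD : ‖i ((dl1 σ)^[p - 1] (w ^ (t + p * (m - t))))‖ = ‖i w‖ ^ (p * m) := by
    rw [w2_eq h he hwn hndvd, hnm]
  have hsmall : ‖i w‖ ^ e * ‖i w‖ ^ (t + p * (m - t)) < ‖i w‖ ^ (p * m) := by
    rw [← pow_add]
    exact pow_lt_pow_right_of_lt_one₀ hr0 hr1 (by omega)
  have hpu : ∀ z : K, ‖i z‖ = ‖i w‖ ^ (t + p * (m - t)) → ‖i ((p : K) * u z)‖ < ‖i w‖ ^ (p * m) := by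
    intro z hz
    refine lt_of_le_of_lt ?_ hsmall
    rw [map_mul, norm_mul, h.ep]
    refine mul_le_mul_of_nonneg_left ?_ (pow_nonneg hr0.le _)
    rw [← hz]
    exact (hu z).2.1
  have hT : ‖i (trK p σ (w ^ (t + p * (m - t))))‖ = ‖i w‖ ^ (p * m) := by
    rw [(hu _).1, map_add]
    have h1 := hpu _ hwn
    rw [← hD] at h1
    rw [IsUltrametricDist.norm_add_eq_max_of_norm_ne_norm (ne_of_gt h1), max_eq_left h1.le, hD]
  have hT0 : trK p σ (w ^ (t + p * (m - t))) ≠ 0 := by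
    intro h0
    rw [h0, map_zero, norm_zero] at hT
    exact absurd hT (ne_of_lt (pow_pos hr0 _))
  have hTfix : σ (trK p σ (w ^ (t + p * (m - t)))) = trK p σ (w ^ (t + p * (m - t))) := w3_tr_fix h.sp _
  have hcfix : σ (x / trK p σ (w ^ (t + p * (m - t)))) = x / trK p σ (w ^ (t + p * (m - t))) := by
    rw [map_div₀, hσ, hTfix]
  have hc1 : ‖i (x / trK p σ (w ^ (t + p * (m - t))))‖ = 1 := by
    rw [map_div₀, norm_div, hx, hT]
    exact div_self (ne_of_gt (pow_pos hr0 _))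
  have hz : ‖i (x / trK p σ (w ^ (t + p * (m - t))) * w ^ (t + p * (m - t)))‖ = ‖i w‖ ^ (t + p * (m - t)) := by
    rw [map_mul, norm_mul, hc1, one_mul, hwn]
  refine ⟨x / trK p σ (w ^ (t + p * (m - t))) * w ^ (t + p * (m - t)), hz, ?_⟩
  have htr : trK p σ (x / trK p σ (w ^ (t + p * (m - t))) * w ^ (t + p * (m - t))) = x := by
    rw [w3_tr_mul hcfix, div_mul_cancel₀ _ hT0]
  have hfin : x - (dl1 σ)^[p - 1] (x / trK p σ (w ^ (t + p * (m - t))) * w ^ (t + p * (m - t)))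
      = (p : K) * u (x / trK p σ (w ^ (t + p * (m - t))) * w ^ (t + p * (m - t))) := by
    have h1 := (hu (x / trK p σ (w ^ (t + p * (m - t))) * w ^ (t + p * (m - t)))).1
    rw [htr] at h1
    rw [sub_eq_iff_eq_add, add_comm]
    exact h1
  rw [hfin]
  exact hpu _ hz

end SSN
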