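import Mathlib
import Pool.Agent.Lib.SSN.W2

/-! # SSN, chunk W4: differences of points -/

open Polynomial

namespace SSN

variable {K C G : Type} [Field K] [NormedField C] [IsUltrametricDist C] [AddCommGroup G] {p e t : ℕ} {i : K →+* C} {σ : K ≃+* K} {w : K}
  {τ : G → K} {S : AddMonoid.End G}

/-- Auxiliary. -/
theorem w4_iso {a b : C} (h : ‖a - b‖ < ‖b‖) : ‖a‖ = ‖b‖ := by
  have h1 := IsUltrametricDist.norm_add_eq_max_of_norm_ne_norm h.ne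
  rw [sub_add_cancel, max_eq_right h.le] at h1
  exact h1

/-- Auxiliary. -/
theorem w4_sub (a b : C) : ‖a - b‖ ≤ max ‖a‖ ‖b‖ := by
  have h := IsUltrametricDist.norm_add_le_max a (-b)
  rw [norm_neg, ← sub_eq_add_neg] at h
  exact h

/-- Chunk W4 (M), five theorems. PROOF of w4_n: g.sub and the ultrametric inequality: if τ P ≠ τ Q the error has norm < ‖i (τ P - τ Q)‖ because the max is < 1 (g.lt); if τ P = τ Q the right side is 0. -/
theorem w4_n (g : PT p i σ τ S) (P Q : G) : ‖i (τ (P - Q))‖ = ‖i (τ P - τ Q)‖ := by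
  have h1 := g.sub P Q
  rw [map_sub i (τ (P - Q)) (τ P - τ Q)] at h1
  have h2 : max ‖i (τ P)‖ ‖i (τ Q)‖ < 1 := max_lt (g.lt P) (g.lt Q)
  have h3 : 0 ≤ max ‖i (τ P)‖ ‖i (τ Q)‖ := le_max_of_le_left (norm_nonneg _)
  have h4 : max ‖i (τ P)‖ ‖i (τ Q)‖ ^ 2 < 1 := pow_lt_one₀ h3 h2 two_ne_zero
  rcases (norm_nonneg (i (τ P - τ Q))).eq_or_lt with h5 | h5
  · rw [← h5, zero_mul] at h1
    have h6 := norm_le_zero_iff.mp h1
    rw [sub_eq_zero.mp h6]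
  · refine w4_iso (h1.trans_lt ?_)
    exact mul_lt_of_lt_one_right h5 h4

/-- PROOF. w4_n for P and -Q; τ (-Q) has the norm of τ Q (w4_n for 0 and Q, τ 0 = 0); ultrametric. -/
theorem w4_add (g : PT p i σ τ S) (P Q : G) : ‖i (τ (P + Q))‖ ≤ max ‖i (τ P)‖ ‖i (τ Q)‖ := by
  have h0 : τ 0 = 0 := (g.zero 0).2 rfl
  have hneg : ‖i (τ (-Q))‖ = ‖i (τ Q)‖ := by
    have h := w4_n g 0 Q
    rw [zero_sub, h0, zero_sub, map_neg, norm_neg] at h
    exact h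
  have h := w4_n g P (-Q)
  rw [sub_neg_eq_add, map_sub] at h
  rw [h, ← hneg]
  exact w4_sub _ _

/-- PROOF. g.mulp and ‖i (τ P)‖ ≤ 1. -/
theorem w4_p (g : PT p i σ τ S) (P : G) : ‖i (τ (p • P))‖ ≤ max (‖i (p : K)‖ * ‖i (τ P)‖) (‖i (τ P)‖ ^ p ^ 2) := by
  have h1 := g.mulp P
  have h2 : ‖i (p : K)‖ * ‖i (τ P)‖ ^ 2 ≤ ‖i (p : K)‖ * ‖i (τ P)‖ := by
    refine mul_le_mul_of_nonneg_left ?_ (norm_nonneg _)
    have h3 := g.lt P
    nlinarith [norm_nonneg (i (τ P))]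
  have h3 : i (τ (p • P)) = i (τ (p • P) - (p : K) * τ P + τ P ^ p ^ 2) +
      (i (p : K) * i (τ P) - i (τ P) ^ p ^ 2) := by
    rw [map_add, map_sub, map_mul, map_pow]
    ring
  rw [h3]
  refine (IsUltrametricDist.norm_add_le_max _ _).trans (max_le ?_ ?_)
  · exact (h1.trans h2).trans (le_max_left _ _)
  · refine (w4_sub _ _).trans (max_le_max ?_ ?_)
    · rw [norm_mul]
    · rw [norm_pow]

/-- PROOF. Induction over k with z_k = τ (((S - 1)^k) P); (S - 1) Q = S Q - Q; τ (S Q - Q) - (σ (τ Q) - τ Q) has norm ≤ ‖i (σ (τ Q) - τ Q)‖ * ‖i (τ Q)‖^2 (g.sub, g.act, h.iso) ≤ r^t ‖i (τ Q)‖^3 (w1_le). First claim: w4_n, w1_le. Second: z_(k+1) - Δ^(k+1) τP = [z_(k+1) - Δ z_k] + Δ (z_k - Δ^k τP):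
norms ≤ r^t (r^(t k) ‖i (τ P)‖)^3 ≤ r^(t (k+1)) ‖i (τ P)‖^3 and r^t * r^(t k) ‖i (τ P)‖^3 (w1_le for the difference, dl1 is additive). -/
theorem w4_it (h : VF p e t i σ w) (g : PT p i σ τ S) (P : G) (k : ℕ) :
    ‖i (τ (((S - 1) ^ k) P))‖ ≤ ‖i w‖ ^ (t * k) * ‖i (τ P)‖ ∧
      ‖i (τ (((S - 1) ^ k) P) - (dl1 σ)^[k] (τ P))‖ ≤ ‖i w‖ ^ (t * k) * ‖i (τ P)‖ ^ 3 := by
  have hr0 : 0 ≤ ‖i w‖ := norm_nonneg _
  have hr1 : ‖i w‖ ≤ 1 := h.w1.le
  have hx0 : 0 ≤ ‖i (τ P)‖ := norm_nonneg _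
  have hx1 : ‖i (τ P)‖ ≤ 1 := (g.lt P).le
  induction k with
  | zero =>
    rw [Nat.mul_zero, pow_zero, pow_zero, one_mul, one_mul, AddMonoid.End.one_apply]
    refine ⟨le_rfl, ?_⟩
    rw [Function.iterate_zero, id_eq, sub_self, map_zero, norm_zero]
    positivity
  | succ k ih =>
    obtain ⟨ih1, ih2⟩ := ih
    have e1 : ((S - 1) ^ (k + 1)) P = S (((S - 1) ^ k) P) - ((S - 1) ^ k) P := by
      rw [pow_succ']
      rfl
    rw [e1]
    set Q := ((S - 1) ^ k) P with hQ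
    have hq0 : 0 ≤ ‖i (τ Q)‖ := norm_nonneg _
    have hq1 : ‖i (τ Q)‖ ≤ 1 := (g.lt Q).le
    have ha : ‖i (τ (S Q) - τ Q)‖ ≤ ‖i w‖ ^ t * ‖i (τ Q)‖ := by
      rw [g.act]
      exact w1_le h hq1
    have hc0 : 0 ≤ ‖i w‖ ^ (t * k) := by positivity
    have hc1 : ‖i w‖ ^ (t * k) ≤ 1 := pow_le_one₀ hr0 hr1
    have hd0 : 0 ≤ ‖i w‖ ^ t := by positivity
    have e2 : ‖i w‖ ^ (t * (k + 1)) = ‖i w‖ ^ t * ‖i w‖ ^ (t * k) := by
      rw [← pow_add]
      ring_nf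
    rw [e2]
    constructor
    · rw [w4_n g]
      refine ha.trans ?_
      rw [mul_assoc]
      exact mul_le_mul_of_nonneg_left ih1 hd0
    · have e3 : τ (S Q - Q) - (dl1 σ)^[k + 1] (τ P) =
          (τ (S Q - Q) - (τ (S Q) - τ Q)) + (σ (τ Q - (dl1 σ)^[k] (τ P)) - (τ Q - (dl1 σ)^[k] (τ P))) := by
        rw [Function.iterate_succ_apply', dl1, map_sub, g.act]
        ring
      rw [e3, map_add]
      refine (IsUltrametricDist.norm_add_le_max _ _).trans (max_le ?_ ?_)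
      · refine (g.sub (S Q) Q).trans ?_
        have e4 : ‖i (τ (S Q))‖ = ‖i (τ Q)‖ := by
          rw [g.act, h.iso]
        rw [e4, max_self]
        have h5 : ‖i (τ (S Q) - τ Q)‖ * ‖i (τ Q)‖ ^ 2 ≤ ‖i w‖ ^ t * ‖i (τ Q)‖ * ‖i (τ Q)‖ ^ 2 :=
          mul_le_mul_of_nonneg_right ha (by positivity)
        refine h5.trans ?_
        have h6 : ‖i w‖ ^ t * ‖i (τ Q)‖ * ‖i (τ Q)‖ ^ 2 = ‖i w‖ ^ t * ‖i (τ Q)‖ ^ 3 := by ring
        rw [h6, mul_assoc]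
        refine mul_le_mul_of_nonneg_left ?_ hd0
        calc ‖i (τ Q)‖ ^ 3 ≤ (‖i w‖ ^ (t * k) * ‖i (τ P)‖) ^ 3 := pow_le_pow_left₀ hq0 ih1 3
          _ = (‖i w‖ ^ (t * k)) ^ 3 * ‖i (τ P)‖ ^ 3 := mul_pow _ _ _
          _ ≤ ‖i w‖ ^ (t * k) * ‖i (τ P)‖ ^ 3 := by
            refine mul_le_mul_of_nonneg_right ?_ (by positivity)
            exact pow_le_of_le_one hc0 hc1 (by norm_num)
      · have h7 : ‖i (τ Q - (dl1 σ)^[k] (τ P))‖ ≤ 1 := by
          refine ih2.trans ?_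
          exact mul_le_one₀ hc1 (by positivity) (pow_le_one₀ hx0 hx1)
        refine (w1_le h h7).trans ?_
        rw [mul_assoc]
        exact mul_le_mul_of_nonneg_left ih2 hd0

/-- PROOF. SSA.a1 evaluated at S in the ring AddMonoid.End G (aeval, as in SSA/A2.lean, A3.lean): NrG p S = (S - 1)^(p-1) + p • (aeval S U); the size of (aeval S U) P is ≤ the size of P: Polynomial.induction_on as SSA.a2_poly (‖i (τ (S P))‖ = ‖i (τ P)‖: g.act, h.iso; integers: w4_add). -/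
theorem w4_nr (h : VF p e t i σ w) (g : PT p i σ τ S) (P : G) :
    ∃ Q : G, NrG p S P = ((S - 1) ^ (p - 1)) P + p • Q ∧ ‖i (τ Q)‖ ≤ ‖i (τ P)‖ := by
  have h0 : τ 0 = 0 := (g.zero 0).2 rfl
  have hS : ∀ Q : G, ‖i (τ (S Q))‖ = ‖i (τ Q)‖ := by
    intro Q
    rw [g.act, h.iso]
  have hnat : ∀ (k : ℕ) (Q : G), ‖i (τ (k • Q))‖ ≤ ‖i (τ Q)‖ := by
    intro k Q
    induction k with
    | zero =>
      rw [zero_smul, h0, map_zero, norm_zero]
      exact norm_nonneg _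
    | succ k ih =>
      rw [succ_nsmul]
      exact (w4_add g _ _).trans (max_le ih le_rfl)
  have hneg : ∀ Q : G, ‖i (τ (-Q))‖ = ‖i (τ Q)‖ := by
    intro Q
    have h := w4_n g 0 Q
    rw [zero_sub, h0, zero_sub, map_neg, norm_neg] at h
    exact h
  have hint : ∀ (a : ℤ) (Q : G), ‖i (τ (a • Q))‖ ≤ ‖i (τ Q)‖ := by
    intro a Q
    rcases Int.eq_nat_or_neg a with ⟨k, rfl | rfl⟩
    · rw [natCast_zsmul]
      exact hnat k Q
    · rw [neg_smul, hneg, natCast_zsmul]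
      exact hnat k Q
  have key : ∀ U : ℤ[X], ∀ Q : G, ‖i (τ ((aeval S U) Q))‖ ≤ ‖i (τ Q)‖ := by
    intro U
    induction U using Polynomial.induction_on with
    | C a =>
      intro Q
      rw [aeval_C, eq_intCast, AddMonoid.End.intCast_apply]
      exact hint a Q
    | add f g' hf hg =>
      intro Q
      rw [map_add]
      exact (w4_add g _ _).trans (max_le (hf Q) (hg Q))
    | monomial k a ih =>
      intro Q
      rw [pow_succ, ← mul_assoc, map_mul, aeval_X]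
      exact (ih (S Q)).trans (hS Q).le
  obtain ⟨U, hU⟩ := SSA.a1 h.prime
  have e1 : NrG p S = (S - 1) ^ (p - 1) + (p : AddMonoid.End G) * aeval S U := by
    have e2 := congrArg (aeval S) hU
    rw [map_sum, map_add, map_mul, map_pow, map_sub, map_one, aeval_X, map_natCast] at e2
    unfold NrG
    rw [← e2]
    refine Finset.sum_congr rfl fun k _ => ?_
    rw [map_pow, aeval_X]
  refine ⟨(aeval S U) P, ?_, key U P⟩
  rw [e1]
  rfl

end SSN
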