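import Mathlib
import Pool.Agent.Lib.SSN.W3
import Pool.Agent.Lib.SSN.W4

/-! # SSN, chunk W5: the norm map on the graded pieces -/

open Polynomial

namespace SSN

variable {K C G : Type} [Field K] [NormedField C] [IsUltrametricDist C] [AddCommGroup G] {p e t : ℕ} {i : K →+* C} {σ : K ≃+* K} {w : K}
  {τ : G → K} {S : AddMonoid.End G}

/-- Chunk W5 (M), two theorems. PROOF of w5_a. z from w3 for x = τ P (σ (τ P) = τ (S P) = τ P), ‖i z‖ < 1 (exponent ≥ 1), Q with τ Q = z (g.pt); ‖i z‖ ≤ r^t. w4_nr for Q: NrG Q = A + B, A = ((S-1)^(p-1)) Q, B = p • Q', ‖i (τ Q')‖ ≤ ‖i z‖. P - NrG Q = (P - A) - B. ‖i (τ (P - A))‖ = ‖i (τ P - τ A)‖ (w4_n) ≤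
max (‖i (τ P - Δ^(p-1) z)‖) (‖i (Δ^(p-1) z - τ A)‖) < r^(p m): w3 and w4_it (≤ r^(t(p-1)) ‖z‖^3 < r^(t(p-1)) ‖z‖ = r^(p m)). ‖i (τ B)‖ ≤ max (r^e ‖z‖) (‖z‖^(p^2)) (w4_p) < r^(t(p-1)) ‖z‖: e > t (p-1) (as in w3; w2_te, w1_e) and ‖z‖^(p^2 - 1) ≤ r^(t (p^2-1)) < r^(t(p-1)). w4_n and ultrametric. -/
theorem w5_a (h : VF p e t i σ w) (g : PT p i σ τ S) (hp1 : ‖i (p : K)‖ < 1) (ht : ¬ p ∣ t) {m : ℕ} (hm : t ≤ m) {P : G} (hP : S P = P)
    (hx : ‖i (τ P)‖ = ‖i w‖ ^ (p * m)) : ∃ Q : G, ‖i (τ Q)‖ ≤ ‖i w‖ ^ t ∧ ‖i (τ (P - NrG p S Q))‖ < ‖i w‖ ^ (p * m) := by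
  have hr0 : 0 < ‖i w‖ := by
    rw [norm_pos_iff]
    exact (map_ne_zero i).mpr h.w0
  have hr1 : ‖i w‖ < 1 := h.w1
  have h5 := h.five
  have ht2 := h.two
  have hσ : σ (τ P) = τ P := by
    rw [← g.act, hP]
  obtain ⟨z, hz, hzx⟩ := w3 h hp1 ht hm hσ hx
  set n := t + p * (m - t) with hn
  obtain ⟨Q, hQ⟩ := g.pt z (by rw [hz]; exact pow_lt_one₀ hr0.le hr1 (by omega))
  obtain ⟨Q', hQ1, hQ2⟩ := w4_nr h g Q
  rw [hQ, hz] at hQ2
  have hnm : n + t * (p - 1) = p * m := by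
    obtain ⟨p', rfl⟩ : ∃ p', p = p' + 1 := ⟨p - 1, by omega⟩
    obtain ⟨m', rfl⟩ : ∃ m', m = t + m' := ⟨m - t, by omega⟩
    rw [hn, Nat.add_sub_cancel_left, Nat.add_sub_cancel]
    ring
  have hte := (w2_te h hp1).1
  have hpe := (w1_e h hp1).2
  have hlt : t * (p - 1) < e := by
    refine lt_of_le_of_ne hte (fun h6 => ?_)
    rw [← h6] at hpe
    rcases (Nat.Prime.dvd_mul h.prime).mp hpe with h7 | h7
    · exact ht h7
    · have h8 := Nat.le_of_dvd (by omega) h7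
      omega
  refine ⟨Q, ?_, ?_⟩
  · rw [hQ, hz]
    exact pow_le_pow_of_le_one hr0.le hr1.le (by omega)
  · have e1 : P - NrG p S Q = (P - ((S - 1) ^ (p - 1)) Q) - p • Q' := by
      rw [hQ1]
      abel
    rw [e1, w4_n g, map_sub]
    refine (w4_sub _ _).trans_lt (max_lt ?_ ?_)
    · rw [w4_n g]
      have e2 : τ P - τ (((S - 1) ^ (p - 1)) Q) =
          (τ P - (dl1 σ)^[p - 1] z) - (τ (((S - 1) ^ (p - 1)) Q) - (dl1 σ)^[p - 1] z) := by ring
      rw [e2, map_sub i (τ P - (dl1 σ)^[p - 1] z)]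
      refine (w4_sub _ _).trans_lt (max_lt hzx ?_)
      have h6 := (w4_it h g Q (p - 1)).2
      rw [hQ, hz] at h6
      refine h6.trans_lt ?_
      rw [← pow_mul, ← pow_add]
      refine pow_lt_pow_right_of_lt_one₀ hr0 hr1 ?_
      omega
    · refine (w4_p g Q').trans_lt (max_lt ?_ ?_)
      · rw [h.ep]
        refine (mul_le_mul_of_nonneg_left hQ2 (by positivity)).trans_lt ?_
        rw [← pow_add]
        refine pow_lt_pow_right_of_lt_one₀ hr0 hr1 ?_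
        omega
      · refine (pow_le_pow_left₀ (norm_nonneg _) hQ2 _).trans_lt ?_
        rw [← pow_mul]
        refine pow_lt_pow_right_of_lt_one₀ hr0 hr1 ?_
        have h6 : m < n * p := by
          obtain ⟨m', rfl⟩ : ∃ m', m = t + m' := ⟨m - t, by omega⟩
          rw [hn, Nat.add_sub_cancel_left]
          nlinarith [Nat.zero_le (p * m'), Nat.mul_le_mul_right m' h5, Nat.mul_le_mul_right t h5,
            Nat.mul_le_mul_right (p * m') h5]
        calc p * m < p * (n * p) := Nat.mul_lt_mul_of_pos_left h6 (by omega)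
          _ = n * p ^ 2 := by ring

/-- PROOF of w5_b. e = t (p - 1) (w2_te). z = τ P / p: norm r^(p m - e), p m - e ≥ p t - e = t. Q with τ Q = z; σ z = z, so τ (S Q) = τ Q and S Q = Q (w4_n, g.zero: S Q - Q has coordinate 0). NrG p S Q = p • Q ((S^k) Q = Q). τ (p • Q) - p z has norm ≤ max (‖z‖^(p^2)) (r^e ‖z‖^2) < r^e ‖z‖ = r^(p m)
(g.mulp; ‖z‖^(p^2-1) ≤ r^(t (p^2 - 1)) < r^(t (p-1)) = r^e). So ‖i (τ P - τ (p • Q))‖ < r^(p m); w4_n. -/
theorem w5_b (h : VF p e t i σ w) (g : PT p i σ τ S) (hp1 : ‖i (p : K)‖ < 1) (ht : p ∣ t) {m : ℕ} (hm : t ≤ m) {P : G} (hP : S P = P)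
    (hx : ‖i (τ P)‖ = ‖i w‖ ^ (p * m)) : ∃ Q : G, ‖i (τ Q)‖ ≤ ‖i w‖ ^ t ∧ ‖i (τ (P - NrG p S Q))‖ < ‖i w‖ ^ (p * m) := by
  have hr0 : 0 < ‖i w‖ := by
    rw [norm_pos_iff]
    exact (map_ne_zero i).mpr h.w0
  have hr1 : ‖i w‖ < 1 := h.w1
  have h5 := h.five
  have ht2 := h.two
  have he : e = t * (p - 1) := (w2_te h hp1).2 ht
  have hp0 : (p : K) ≠ 0 := by
    intro h6
    have h7 := h.ep
    rw [h6, map_zero, norm_zero] at h7
    exact (pow_pos hr0 e).ne h7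
  have hσ : σ (τ P) = τ P := by
    rw [← g.act, hP]
  obtain ⟨a, ha, hat⟩ : ∃ a, p * m = e + a ∧ t ≤ a := by
    refine ⟨p * m - e, ?_, ?_⟩
    · have h6 : e ≤ p * m := by
        rw [he, Nat.mul_comm]
        exact Nat.mul_le_mul (Nat.sub_le _ _) hm
      omega
    · obtain ⟨p', rfl⟩ : ∃ p', p = p' + 1 := ⟨p - 1, by omega⟩
      obtain ⟨m', rfl⟩ : ∃ m', m = t + m' := ⟨m - t, by omega⟩
      rw [he, Nat.add_sub_cancel]
      have h7 : (p' + 1) * (t + m') = t * p' + (t + (p' + 1) * m') := by ring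
      rw [h7, Nat.add_sub_cancel_left]
      exact Nat.le_add_right _ _
  set z : K := τ P / p with hz
  have hzp : (p : K) * z = τ P := mul_div_cancel₀ _ hp0
  have hnz : ‖i z‖ = ‖i w‖ ^ a := by
    have h6 : ‖i (p : K)‖ * ‖i z‖ = ‖i w‖ ^ (p * m) := by
      rw [← norm_mul, ← map_mul, hzp, hx]
    rw [h.ep, ha, pow_add] at h6
    exact mul_left_cancel₀ (pow_pos hr0 e).ne' h6
  obtain ⟨Q, hQ⟩ := g.pt z (by rw [hnz]; exact pow_lt_one₀ hr0.le hr1 (by omega))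
  have hσz : σ z = z := by
    rw [hz, map_div₀, hσ, map_natCast]
  have hSQ : S Q = Q := by
    have h6 := w4_n g (S Q) Q
    rw [g.act, hQ, hσz, sub_self, map_zero, norm_zero, norm_eq_zero, map_eq_zero_iff i i.injective,
      g.zero, sub_eq_zero] at h6
    exact h6
  have hpow : ∀ k : ℕ, (S ^ k) Q = Q := by
    intro k
    induction k with
    | zero => rfl
    | succ k ih =>
      rw [pow_succ]
      exact (congrArg (S ^ k) hSQ).trans ih
  have hNr : NrG p S Q = p • Q := by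
    have h6 : NrG p S Q = ∑ k ∈ Finset.range p, (S ^ k) Q := by
      unfold NrG
      exact AddMonoidHom.finsetSum_apply _ _ _
    rw [h6, Finset.sum_congr rfl fun k _ => hpow k, Finset.sum_const, Finset.card_range]
  refine ⟨Q, ?_, ?_⟩
  · rw [hQ, hnz]
    exact pow_le_pow_of_le_one hr0.le hr1.le hat
  · rw [hNr, w4_n g]
    have h6 := g.mulp Q
    rw [hQ, hzp] at h6
    have e1 : τ P - τ (p • Q) = z ^ p ^ 2 - (τ (p • Q) - τ P + z ^ p ^ 2) := by ring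
    rw [e1, map_sub]
    refine (w4_sub _ _).trans_lt (max_lt ?_ (h6.trans_lt ?_))
    · rw [map_pow, norm_pow, hnz, ← pow_mul]
      refine pow_lt_pow_right_of_lt_one₀ hr0 hr1 ?_
      rw [ha, he]
      obtain ⟨p', rfl⟩ : ∃ p', p = p' + 1 := ⟨p - 1, by omega⟩
      rw [Nat.add_sub_cancel]
      have hp'0 : 1 ≤ p' := by omega
      have h7 : t * p' ≤ a * p' := Nat.mul_le_mul_right _ hat
      have h8 : a * (p' + 1) ^ 2 = a * p' + a + (a * p' + a * (p' * p')) := by ring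
      have h9 : 0 < a * p' := Nat.mul_pos (by omega) (by omega)
      rw [h8]
      omega
    · rw [h.ep, hnz, ← pow_mul, ← pow_add]
      refine pow_lt_pow_right_of_lt_one₀ hr0 hr1 ?_
      omega

end SSN
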