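import Mathlib
import Pool.Agent.Lib.SSN.W5

/-! # SSN, chunk W6: THE ABSTRACT THEOREM -/

open Polynomial

namespace SSN

variable {K C G : Type} [Field K] [NormedField C] [IsUltrametricDist C] [AddCommGroup G] {p e t : ℕ} {i : K →+* C} {σ : K ≃+* K} {w : K}
  {τ : G → K} {S : AddMonoid.End G}

omit [IsUltrametricDist C] [AddCommGroup G] in
theorem w6_r0 (h : VF p e t i σ w) : 0 < ‖i w‖ := by
  rw [norm_pos_iff]
  intro h1
  exact h.w0 ((map_eq_zero i).1 h1)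

theorem w6_inj (g : PT p i σ τ S) {P Q : G} (hPQ : τ P = τ Q) : P = Q := by
  have h1 := w4_n g P Q
  rw [hPQ, sub_self, map_zero, norm_zero] at h1
  have h2 : τ (P - Q) = 0 := by
    by_contra h3
    have h4 : i (τ (P - Q)) = 0 := norm_eq_zero.1 h1
    exact h3 ((map_eq_zero i).1 h4)
  exact sub_eq_zero.1 ((g.zero _).1 h2)

omit [IsUltrametricDist C] in
theorem w6_itS (g : PT p i σ τ S) (P : G) (k : ℕ) : τ ((S ^ k) P) = σ^[k] (τ P) := by
  induction k with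
  | zero => simp
  | succ k ih =>
    rw [pow_succ', Function.iterate_succ_apply', ← ih]
    exact g.act _

theorem w6_Sp (h : VF p e t i σ w) (g : PT p i σ τ S) (P : G) : (S ^ p) P = P :=
  w6_inj g (by rw [w6_itS g P p, h.sp])

omit [IsUltrametricDist C] in
theorem w6_nrApp (S : AddMonoid.End G) (P : G) : NrG p S P = ∑ k ∈ Finset.range p, (S ^ k) P := by
  unfold NrG
  exact AddMonoidHom.finsetSum_apply _ _ _

theorem w6_fix (h : VF p e t i σ w) (g : PT p i σ τ S) (Q : G) : S (NrG p S Q) = NrG p S Q := by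
  rw [w6_nrApp, map_sum]
  have h1 : ∀ k ∈ Finset.range p, S ((S ^ k) Q) = (S ^ (k + 1)) Q := by
    intro k _
    rw [pow_succ']
    rfl
  rw [Finset.sum_congr rfl h1]
  have h2 := Finset.sum_range_succ (fun k => (S ^ k) Q) p
  have h3 := Finset.sum_range_succ' (fun k => (S ^ k) Q) p
  rw [h2] at h3
  simp only [w6_Sp h g Q, pow_zero] at h3
  have h4 : (1 : AddMonoid.End G) Q = Q := rfl
  rw [h4] at h3
  exact (add_right_cancel h3).symm

omit [IsUltrametricDist C] in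
theorem w6_nrFix (S : AddMonoid.End G) {Q : G} (hQ : S Q = Q) : NrG p S Q = p • Q := by
  rw [w6_nrApp]
  have h1 : ∀ k : ℕ, (S ^ k) Q = Q := by
    intro k
    induction k with
    | zero => simp
    | succ k ih =>
      rw [pow_succ']
      change S ((S ^ k) Q) = Q
      rw [ih, hQ]
  rw [Finset.sum_congr rfl fun k _ => h1 k]
  simp

omit [IsUltrametricDist C] [AddCommGroup G] in
theorem w6_val (h : VF p e t i σ w) {x : K} (hσ : σ x = x) {m : ℕ} (hx : ‖i x‖ ≤ ‖i w‖ ^ (p * m)) :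
    ‖i x‖ = ‖i w‖ ^ (p * m) ∨ ‖i x‖ ≤ ‖i w‖ ^ (p * (m + 1)) := by
  have hr0 := w6_r0 h
  have hr1 := h.w1
  by_cases hx0 : x = 0
  · right
    rw [hx0, map_zero, norm_zero]
    positivity
  obtain ⟨k, hk⟩ := h.valN x hx0 hσ
  rw [hk] at hx ⊢
  have hp0 : 0 < (p : ℤ) := by exact_mod_cast h.prime.pos
  have e1 : ‖i w‖ ^ (p * m) = ‖i w‖ ^ ((p : ℤ) * (m : ℤ)) := by
    rw [← zpow_natCast]; push_cast; rfl
  have e2 : ‖i w‖ ^ (p * (m + 1)) = ‖i w‖ ^ ((p : ℤ) * ((m : ℤ) + 1)) := by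
    rw [← zpow_natCast]; push_cast; rfl
  rw [e1] at hx
  have h1 := (zpow_le_zpow_iff_right_of_lt_one₀ hr0 hr1).1 hx
  have h2 : (m : ℤ) ≤ k := le_of_mul_le_mul_left h1 hp0
  rcases h2.eq_or_lt with h3 | h3
  · left
    rw [e1, h3]
  · right
    rw [e2]
    apply (zpow_le_zpow_iff_right_of_lt_one₀ hr0 hr1).2
    exact mul_le_mul_of_nonneg_left (by omega) hp0.le

/-- Chunk W6 (M), three theorems. PROOF of w6_surj. NrG Q is fixed by S (S^p = 1: g.act, h.sp, coordinates are injective; telescoping). Claim for all n: there is Q with ‖i (τ Q)‖ ≤ r^t and ‖i (τ (P - NrG Q))‖ ≤ r^(p (t + n)): induction; n = 0: Q = 0. Step: R = P - NrG Q, S R = R, σ (τ R) = τ R. If τ R = 0 or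
‖i (τ R)‖ ≤ r^(p(t+n+1)) take Q. Otherwise ‖i (τ R)‖ = r^(p m) with m = t + n exactly (h.valN, w1_lowN), w5_a or w5_b give Q' with ‖i (τ (R - NrG Q'))‖ < r^(p m), so ≤ r^(p (m+1)) (valN again: w1_low, w1_lowN); take Q + Q' (w4_add). Now n with p (t + n) ≥ 2 e: R = P - NrG Q has ‖i (τ R)‖ ≤ r^(2e) = ‖i p‖^2:
g.div gives Q' with p • Q' = R, S Q' = Q', ‖i (τ Q')‖ ≤ r^e ≤ r^t (t ≤ t (p-1) ≤ e: w2_te); NrG Q' = p • Q'. Take Q + Q'. -/
theorem w6_surj (h : VF p e t i σ w) (g : PT p i σ τ S) (hp1 : ‖i (p : K)‖ < 1) {P : G} (hP : S P = P)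
    (hl : ‖i (τ P)‖ ≤ ‖i w‖ ^ (p * t)) : ∃ Q : G, ‖i (τ Q)‖ ≤ ‖i w‖ ^ t ∧ NrG p S Q = P := by
  have hr0 := w6_r0 h
  have hr1 := h.w1
  have hτ0 : τ 0 = 0 := (g.zero 0).2 rfl
  have key : ∀ n : ℕ, ∃ Q : G, ‖i (τ Q)‖ ≤ ‖i w‖ ^ t ∧ ‖i (τ (P - NrG p S Q))‖ ≤ ‖i w‖ ^ (p * (t + n)) := by
    intro n
    induction n with
    | zero =>
      refine ⟨0, ?_, ?_⟩
      · rw [hτ0, map_zero, norm_zero]; positivity
      · rw [map_zero, sub_zero, add_zero]; exact hl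
    | succ n ih =>
      obtain ⟨Q, hQ1, hQ2⟩ := ih
      have hSR : S (P - NrG p S Q) = P - NrG p S Q := by rw [map_sub, hP, w6_fix h g]
      have hσR : σ (τ (P - NrG p S Q)) = τ (P - NrG p S Q) := by rw [← g.act, hSR]
      rcases w6_val h hσR hQ2 with h1 | h1
      · have h2 : ∃ Q' : G, ‖i (τ Q')‖ ≤ ‖i w‖ ^ t ∧
            ‖i (τ (P - NrG p S Q - NrG p S Q'))‖ < ‖i w‖ ^ (p * (t + n)) := by
          by_cases hpt : p ∣ t
          · exact w5_b h g hp1 hpt (Nat.le_add_right t n) hSR h1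
          · exact w5_a h g hp1 hpt (Nat.le_add_right t n) hSR h1
        obtain ⟨Q', hQ'1, hQ'2⟩ := h2
        have h3 : P - NrG p S (Q + Q') = P - NrG p S Q - NrG p S Q' := by rw [map_add]; abel
        refine ⟨Q + Q', (w4_add g Q Q').trans (max_le hQ1 hQ'1), ?_⟩
        rw [h3]
        have hSR' : S (P - NrG p S Q - NrG p S Q') = P - NrG p S Q - NrG p S Q' := by rw [map_sub, hSR, w6_fix h g]
        have hσR' : σ (τ (P - NrG p S Q - NrG p S Q')) = τ (P - NrG p S Q - NrG p S Q') := by rw [← g.act, hSR']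
        rcases w6_val h hσR' hQ'2.le with h4 | h4
        · exact absurd h4 hQ'2.ne
        · exact h4
      · exact ⟨Q, hQ1, h1⟩
  obtain ⟨Q, hQ1, hQ2⟩ := key e
  have hte := (w2_te h hp1).1
  have hp5 := h.five
  have het : t ≤ e := le_trans (Nat.le_mul_of_pos_right t (by omega)) hte
  have hR : ‖i (τ (P - NrG p S Q))‖ ≤ ‖i (p : K)‖ ^ 2 := by
    rw [h.ep, ← pow_mul]
    refine hQ2.trans (pow_le_pow_of_le_one hr0.le hr1.le ?_)
    calc e * 2 ≤ p * e := by nlinarith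
      _ ≤ p * (t + e) := Nat.mul_le_mul_left _ (Nat.le_add_left e t)
  obtain ⟨Q', hQ'1, hQ'2, hQ'3⟩ := g.div _ hR
  have hSR : S (P - NrG p S Q) = P - NrG p S Q := by rw [map_sub, hP, w6_fix h g]
  have hN := w6_nrFix (p := p) S (hQ'3 hSR)
  refine ⟨Q + Q', (w4_add g Q Q').trans (max_le hQ1 (hQ'1.trans ?_)), ?_⟩
  · rw [h.ep]
    exact pow_le_pow_of_le_one hr0.le hr1.le het
  · rw [map_add, hN, hQ'2]
    abel

/-- PROOF. y with τ y = w^(t-1) (g.pt; t ≥ 2). w4_nr: NrG y = (S-1)^(p-1) y + p • Q. Norm of the first ≤ r^(t (p-1) + t - 1) = r^(p t - 1) (w4_it), of the second ≤ max (r^(e + t - 1)) (r^(p^2 (t-1))) (w4_p) ≤ r^(p t - 1), because e ≥ t (p - 1) (w2_te) and p^2 (t - 1) ≥ p t - 1 (t ≥ 2).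
NrG y is fixed by S, so ‖i (τ (NrG y))‖ ≤ r^(p t) (w1_lowN). w6_surj: NrG Q = NrG y with ‖i (τ Q)‖ ≤ r^t. x = y - Q; ‖i (τ x)‖ = ‖i (τ y - τ Q)‖ = r^(t-1). -/
theorem w6_main (h : VF p e t i σ w) (g : PT p i σ τ S) (hp1 : ‖i (p : K)‖ < 1) :
    ∃ x : G, NrG p S x = 0 ∧ ‖i (τ x)‖ = ‖i w‖ ^ (t - 1) := by
  have hr0 := w6_r0 h
  have hr1 := h.w1
  have ht2 := h.two
  have hp5 := h.five
  have hte := (w2_te h hp1).1
  have hw1 : ‖i (w ^ (t - 1))‖ = ‖i w‖ ^ (t - 1) := by rw [map_pow, norm_pow]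
  have hlt : ‖i (w ^ (t - 1))‖ < 1 := by
    rw [hw1]
    exact pow_lt_one₀ hr0.le hr1 (by omega)
  obtain ⟨y, hy⟩ := g.pt _ hlt
  obtain ⟨Q, hQ1, hQ2⟩ := w4_nr h g y
  have hyn : ‖i (τ y)‖ = ‖i w‖ ^ (t - 1) := by rw [hy, hw1]
  rw [hyn] at hQ2
  have eN : t * (p - 1) + (t - 1) = p * t - 1 := by
    obtain ⟨q, rfl⟩ : ∃ q, p = q + 1 := ⟨p - 1, by omega⟩
    have h1 : (q + 1) * t = t * q + t := by ring
    rw [h1]
    simp only [Nat.add_sub_cancel]
    omega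
  have hA : ‖i (τ (((S - 1) ^ (p - 1)) y))‖ ≤ ‖i w‖ ^ (p * t - 1) := by
    refine (w4_it h g y (p - 1)).1.trans ?_
    rw [hyn, ← pow_add, eN]
  have hB : ‖i (τ (p • Q))‖ ≤ ‖i w‖ ^ (p * t - 1) := by
    refine (w4_p g Q).trans (max_le ?_ ?_)
    · rw [h.ep]
      refine (mul_le_mul_of_nonneg_left hQ2 (by positivity)).trans ?_
      rw [← pow_add]
      refine pow_le_pow_of_le_one hr0.le hr1.le ?_
      omega
    · refine (pow_le_pow_left₀ (norm_nonneg _) hQ2 _).trans ?_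
      rw [← pow_mul]
      refine pow_le_pow_of_le_one hr0.le hr1.le ?_
      have h1 : p * t ≤ (t - 1) * p ^ 2 := by
        have h2 : t ≤ (t - 1) * p := by
          calc t ≤ (t - 1) * 5 := by omega
            _ ≤ (t - 1) * p := Nat.mul_le_mul_left _ hp5
        calc p * t ≤ p * ((t - 1) * p) := Nat.mul_le_mul_left _ h2
          _ = (t - 1) * p ^ 2 := by ring
      omega
  have hN1 : ‖i (τ (NrG p S y))‖ ≤ ‖i w‖ ^ (p * t - 1) := by
    rw [hQ1]
    exact (w4_add g _ _).trans (max_le hA hB)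
  have hfix := w6_fix h g y
  have hσ : σ (τ (NrG p S y)) = τ (NrG p S y) := by rw [← g.act, hfix]
  have hN2 := w1_lowN h hσ (by omega : 1 ≤ t) hN1
  obtain ⟨Q0, hQ01, hQ02⟩ := w6_surj h g hp1 hfix hN2
  refine ⟨y - Q0, by rw [map_sub, hQ02, sub_self], ?_⟩
  rw [w4_n g, map_sub]
  have hlt2 : ‖i (τ Q0)‖ < ‖i (τ y)‖ := by
    rw [hyn]
    exact lt_of_le_of_lt hQ01 (pow_lt_pow_right_of_lt_one₀ hr0 hr1 (by omega))
  have h3 := IsUltrametricDist.norm_add_eq_max_of_norm_ne_norm (x := i (τ y)) (y := -i (τ Q0)) (by rw [norm_neg]; exact hlt2.ne')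
  rw [norm_neg, max_eq_left hlt2.le, ← sub_eq_add_neg] at h3
  rw [h3, hyn]

theorem w6_smul (g : PT p i σ τ S) (P : G) (k : ℕ) : ‖i (τ (k • P))‖ ≤ ‖i (τ P)‖ := by
  have hτ0 : τ 0 = 0 := (g.zero 0).2 rfl
  induction k with
  | zero => rw [zero_smul, hτ0, map_zero, norm_zero]; exact norm_nonneg _
  | succ k ih =>
    rw [succ_nsmul]
    exact (w4_add g _ _).trans (max_le ih le_rfl)

/-- PROOF. w4_it with k = 1 and ‖i (τ Q)‖ ≤ r (w1_low, g.lt); and for m prime to p the multiplication by m preserves the size: ‖i (τ (m • P))‖ ≤ ‖i (τ P)‖ (w4_add), a m + b p = 1, p • P has smaller size (w4_p) unless τ P = 0. So if m • x = S Q - Q then r^(t-1) = ‖i (τ (m • x))‖ ≤ r^(t+1): contradiction. -/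
theorem w6_not (h : VF p e t i σ w) (g : PT p i σ τ S) (hp1 : ‖i (p : K)‖ < 1) {x : G} (hx : ‖i (τ x)‖ = ‖i w‖ ^ (t - 1)) {m : ℕ} (hm : ¬ p ∣ m)
    (Q : G) : m • x ≠ S Q - Q := by
  intro hmx
  have hr0 := w6_r0 h
  have hr1 := h.w1
  have ht2 := h.two
  have hp5 := h.five
  have he0 := (w1_e h hp1).1
  have hQ1 : ‖i (τ Q)‖ ≤ ‖i w‖ := by
    have h1 := w1_low h (x := τ Q) (n := 0) (by rw [pow_zero]; exact g.lt Q)
    rwa [zero_add, pow_one] at h1
  have h1 := (w4_it h g Q 1).1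
  have h2 : ((S - 1 : AddMonoid.End G) ^ 1) Q = S Q - Q := by rw [pow_one]; rfl
  rw [h2, ← hmx, mul_one] at h1
  have h3 : ‖i (τ (m • x))‖ < ‖i w‖ ^ (t - 1) := by
    refine lt_of_le_of_lt (h1.trans (mul_le_mul_of_nonneg_left hQ1 (by positivity))) ?_
    rw [← pow_succ]
    exact pow_lt_pow_right_of_lt_one₀ hr0 hr1 (by omega)
  have h4 : ‖i (τ (p • x))‖ < ‖i w‖ ^ (t - 1) := by
    refine lt_of_le_of_lt (w4_p g x) (max_lt ?_ ?_)
    · rw [hx]
      exact mul_lt_of_lt_one_left (by positivity) hp1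
    · rw [hx, ← pow_mul]
      refine pow_lt_pow_right_of_lt_one₀ hr0 hr1 ?_
      have h5 : 1 < p ^ 2 := Nat.one_lt_pow (by norm_num) (by omega)
      calc t - 1 = (t - 1) * 1 := (mul_one _).symm
        _ < (t - 1) * p ^ 2 := Nat.mul_lt_mul_of_pos_left h5 (by omega)
  have hcop : Nat.Coprime m p := ((Nat.Prime.coprime_iff_not_dvd h.prime).2 hm).symm
  obtain ⟨a, -, ha⟩ := Nat.exists_mul_mod_eq_one_of_coprime hcop (by omega)
  have h6 : m * a = p * (m * a / p) + 1 := by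
    have h7 := Nat.div_add_mod (m * a) p
    rw [ha] at h7
    exact h7.symm
  have h8 : x = a • (m • x) - (m * a / p) • (p • x) := by
    have h9 : a • (m • x) = (m * a) • x := by rw [← mul_smul, mul_comm a m]
    have h10 : (m * a / p) • (p • x) = (p * (m * a / p)) • x := by rw [← mul_smul, mul_comm p]
    have h11 : (m * a) • x = (p * (m * a / p)) • x + x := by
      conv_lhs => rw [h6]
      rw [add_smul, one_smul]
    rw [h9, h10, h11]
    abel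
  have h12 : ‖i (τ x)‖ < ‖i w‖ ^ (t - 1) := by
    rw [h8, w4_n g, map_sub]
    rw [sub_eq_add_neg]
    refine lt_of_le_of_lt (IsUltrametricDist.norm_add_le_max _ _) (max_lt ?_ ?_)
    · exact lt_of_le_of_lt (w6_smul g _ _) h3
    · rw [norm_neg]
      exact lt_of_le_of_lt (w6_smul g _ _) h4
  rw [hx] at h12
  exact lt_irrefl _ h12

end SSN
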