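import Mathlib
import Pool.Agent.Lib.SSN.WD
import Pool.Agent.Lib.SSA.BD
import Pool.Agent.Lib.SSA.L2
import Pool.Agent.Lib.H16S.Q1

/-! # SSN, module W: the local situation: definitions (no sorry)

V is a valuation ring of Ω above the inert prime p, i : Ω → C an embedding into an ultrametric field inducing V. J is a subgroup of the decomposition group
(the decomposition group of a number field N') and σ an element of the inertia group which induces on the field fixed by J an automorphism of order p with break t ≥ 2. -/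

open NumberField IsDedekindDomain WeierstrassCurve

namespace SSN

open H55P (IQ Pt ac Inert Dec Nm)
open H35P (WAB Ker tt)
open H55K
open H16S
open SSA (PJ sJ mem_PJ sJ_val)

/-- σ induces on the field of the elements fixed by J an automorphism of order p with break t; w is a uniformizer of this field, e its absolute ramification index. -/
structure BrT {F Ω C : Type} [Field F] [Field Ω] [Algebra F Ω] [NormedField C] (p e t : ℕ) (V : ValuationSubring Ω) (i : Ω →+* C)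
    (J : Subgroup (Ω ≃ₐ[F] Ω)) (σ : Ω ≃ₐ[F] Ω) (w : Ω) : Prop where
  dec : ∀ s ∈ J, Dec V s
  inert : Inert V σ
  nrm : ∀ s ∈ J, σ⁻¹ * s * σ ∈ J
  nrm' : ∀ s ∈ J, σ * s * σ⁻¹ ∈ J
  sp : σ ^ p ∈ J
  fw : ∀ s ∈ J, s w = w
  two : 2 ≤ t
  w0 : w ≠ 0
  w1 : ‖i w‖ < 1
  val : ∀ x : Ω, x ≠ 0 → (∀ s ∈ J, s x = x) → ∃ k : ℤ, ‖i x‖ = ‖i w‖ ^ k
  valN : ∀ x : Ω, x ≠ 0 → (∀ s ∈ J, s x = x) → σ x = x → ∃ k : ℤ, ‖i x‖ = ‖i w‖ ^ ((p : ℤ) * k)
  res : ∀ x : Ω, (∀ s ∈ J, s x = x) → ‖i x‖ ≤ 1 → ∃ z : Ω, (∀ s ∈ J, s z = z) ∧ σ z = z ∧ ‖i (x - z)‖ < 1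
  ep : ‖i (p : Ω)‖ = ‖i w‖ ^ e
  br : ‖i (σ w - w)‖ = ‖i w‖ ^ (t + 1)

variable {F : Type} [Field F] {Ω : Type} [Field Ω] [Algebra F Ω] {V : ValuationSubring Ω} {C : Type} [NormedField C]

/-- The field of the elements fixed by J. -/
abbrev KJ (J : Subgroup (Ω ≃ₐ[F] Ω)) : IntermediateField F Ω := IntermediateField.fixedField J

theorem mem_KJ {J : Subgroup (Ω ≃ₐ[F] Ω)} {x : Ω} : x ∈ KJ J ↔ ∀ s ∈ J, s x = x := IntermediateField.mem_fixedField_iff J x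

/-- The embedding of the field fixed by J. -/
noncomputable def iK (i : Ω →+* C) (J : Subgroup (Ω ≃ₐ[F] Ω)) : KJ J →+* C := i.comp (algebraMap (KJ J) Ω)

theorem iK_apply (i : Ω →+* C) (J : Subgroup (Ω ≃ₐ[F] Ω)) (x : KJ J) : iK i J x = i (x : Ω) := rfl

/-- σ on the field fixed by J. -/
noncomputable def sK {J : Subgroup (Ω ≃ₐ[F] Ω)} {σ : Ω ≃ₐ[F] Ω} (hn : ∀ s ∈ J, σ⁻¹ * s * σ ∈ J) (hn' : ∀ s ∈ J, σ * s * σ⁻¹ ∈ J) :
    KJ J ≃+* KJ J where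
  toFun x := ⟨σ (x : Ω), mem_KJ.2 fun s hs => by
    have h1 := mem_KJ.1 x.2 _ (hn s hs)
    have h2 : σ ((σ⁻¹ * s * σ) (x : Ω)) = s (σ (x : Ω)) := by
      have h3 : σ * (σ⁻¹ * s * σ) = s * σ := by group
      exact congrArg (fun f : Ω ≃ₐ[F] Ω => f (x : Ω)) h3
    rw [h1] at h2
    exact h2.symm⟩
  invFun x := ⟨σ⁻¹ (x : Ω), mem_KJ.2 fun s hs => by
    have h1 := mem_KJ.1 x.2 _ (hn' s hs)
    have h2 : σ⁻¹ ((σ * s * σ⁻¹) (x : Ω)) = s (σ⁻¹ (x : Ω)) := by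
      have h3 : σ⁻¹ * (σ * s * σ⁻¹) = s * σ⁻¹ := by group
      exact congrArg (fun f : Ω ≃ₐ[F] Ω => f (x : Ω)) h3
    rw [h1] at h2
    exact h2.symm⟩
  left_inv x := Subtype.ext (σ.symm_apply_apply (x : Ω))
  right_inv x := Subtype.ext (σ.apply_symm_apply (x : Ω))
  map_mul' x y := Subtype.ext (map_mul σ _ _)
  map_add' x y := Subtype.ext (map_add σ _ _)

theorem sK_apply {J : Subgroup (Ω ≃ₐ[F] Ω)} {σ : Ω ≃ₐ[F] Ω} (hn : ∀ s ∈ J, σ⁻¹ * s * σ ∈ J) (hn' : ∀ s ∈ J, σ * s * σ⁻¹ ∈ J) (x : KJ J) :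
    ((sK hn hn' x : KJ J) : Ω) = σ (x : Ω) := rfl

variable [NumberField F] [IQ F] {A B : F} [DecidableEq Ω]

/-- The coordinate, in the field fixed by J. -/
noncomputable def tK (hG : GV A B V) (J : Subgroup (Ω ≃ₐ[F] Ω)) (P : PJ hG J) : KJ J :=
  ⟨tt P.1.1, mem_KJ.2 fun s hs => by rw [← H55K.tt_ac, P.2 s hs]⟩

theorem tK_val (hG : GV A B V) (J : Subgroup (Ω ≃ₐ[F] Ω)) (P : PJ hG J) : ((tK hG J P : KJ J) : Ω) = tt P.1.1 := rfl

end SSN
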