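import Mathlib
import Pool.Agent.Lib.SSN.D
import Pool.Agent.Lib.SSN.WE
import Pool.Agent.Lib.SSA.B3
import Pool.Agent.Lib.SSA.B2
import Pool.Agent.Lib.SSA.B5

/-! # SSN, chunk W7: the axioms for the points over the field fixed by J -/

open NumberField IsDedekindDomain WeierstrassCurve

namespace SSN

attribute [local instance] H16S.nfOC H16S.ultOC

open H55P (IQ Pt ac Dec Inert decS Nm Ram)
open H35P (WAB Ker tt)
open H55K (Tor CMA Dta GV ak cj xc yc Lft TFld Abw exists_abw)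
open H55K.S
open H55R (Pl ord smulP)
open H19B (DN mem_DN Cc CS mem_CS)
open H19C (SUs mem_SUs SUs_act CL mem_CL KR dl)
open H13S (Abv)
open H13X (Dat IsTB DecN algNL JV)
open H13Y (guN)

open H16S (Ctx Sup tG gG)
open SSA (PJ sJ mem_PJ sJ_val)

variable {F : Type} [Field F] [NumberField F] [IQ F] {A B : F} {Om : ℂ} {Ω : Type} [Field Ω] [DecidableEq Ω]
  [Algebra F Ω] [IsAlgClosure F Ω] {j : Ω →+* ℂ} {act : 𝓞 F →+* AddMonoid.End (Pt (WAB A B) Ω)} {V : ValuationSubring Ω}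
  {C : Type} [NormedField C] [IsUltrametricDist C] {i : Ω →+* C} {p e t : ℕ} {J : Subgroup (Ω ≃ₐ[F] Ω)} {σ : Ω ≃ₐ[F] Ω} {w : Ω}

theorem w7_it {J : Subgroup (Ω ≃ₐ[F] Ω)} {σ : Ω ≃ₐ[F] Ω} (hn : ∀ s ∈ J, σ⁻¹ * s * σ ∈ J) (hn' : ∀ s ∈ J, σ * s * σ⁻¹ ∈ J) (k : ℕ)
    (x : KJ J) : (((sK hn hn')^[k] x : KJ J) : Ω) = (σ ^ k) (x : Ω) := by
  induction k with
  | zero => rfl
  | succ k ih =>
    rw [Function.iterate_succ_apply', sK_apply, ih, pow_succ']
    rfl

theorem w7_nat (i : Ω →+* C) (J : Subgroup (Ω ≃ₐ[F] Ω)) (n : ℕ) : iK i J (n : KJ J) = i (n : Ω) := by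
  rw [map_natCast, map_natCast]

/-- Chunk W7 (M), two theorems. PROOF of w7_vf. The fields of VF are those of b for the elements of KJ J (mem_KJ, iK_apply, sK_apply); prime, five: h.pr, h.five; sp: (sK ..)^[k] x has the value (σ^k) x (induction), σ^p in J; iso: H16S.n1_dec h (H55P.inert_dec V σ b.inert) (or SSA.b1_iso); ep: ((p : KJ J) : Ω) = (p : Ω) (map_natCast or rfl). -/
theorem w7_vf (h : Ctx F p V i) (b : BrT p e t V i J σ w) : VF p e t (iK i J) (sK b.nrm b.nrm') (⟨w, mem_KJ.2 b.fw⟩ : KJ J) := by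
  classical
  exact
  { prime := h.pr
    five := h.five
    two := b.two
    w0 := fun h0 => b.w0 (congrArg Subtype.val h0)
    w1 := b.w1
    val := fun x hx => b.val x.1 (fun h0 => hx (Subtype.ext h0)) (mem_KJ.1 x.2)
    sp := fun x => Subtype.ext ((w7_it b.nrm b.nrm' p x).trans (mem_KJ.1 x.2 _ b.sp))
    iso := fun x => H16S.n1_dec h (H55P.inert_dec V σ b.inert) x.1
    valN := fun x hx hs => b.valN x.1 (fun h0 => hx (Subtype.ext h0)) (mem_KJ.1 x.2) (congrArg Subtype.val hs)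
    res := fun x hx => by
      obtain ⟨z, hz, hzs, hz1⟩ := b.res x.1 (mem_KJ.1 x.2) hx
      exact ⟨⟨z, mem_KJ.2 hz⟩, Subtype.ext hzs, hz1⟩
    ep := by
      rw [w7_nat]
      exact b.ep
    br := b.br }

/-- PROOF (model: SSA.b3, file SSA/B3.lean; tG i hG P = toC i (tt P.1), H16S.toC_norm, toC_add, toC_sub, toC_mul, toC_pow, toC_nat translate norms in OC i to norms of images under i). lt: H16S.q1_lt. zero: q1_zero (a point of PJ is determined by its point). sub: q1_sub. mulp: q3 (h, hA, hS, hG). act: q1_act or H55K.tt_ac.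
pt: SSA.b2_pt for z in KJ J: the point is fixed by s in J (b.dec, mem_KJ). div: SSA.b2_div (‖(p : OC i)‖ = ‖i p‖: q6_pn); the point Q found there is fixed by every s in J (P is) so it is in PJ, and by σ if S P = P. -/
theorem w7_pt [CompleteSpace C] (h : Ctx F p V i) (hA : CMA F A B Om j act) (hS : Sup act p) (hG : GV A B V) (b : BrT p e t V i J σ w) :
    PT p (iK i J) (sK b.nrm b.nrm') (tK hG J) (sJ hG (H55P.inert_dec V σ b.inert) b.nrm) := by
  have hpn : ‖(p : H16S.OC i)‖ = ‖iK i J (p : KJ J)‖ := by rw [w7_nat, H16S.q6_pn]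
  exact
  { lt := fun P => H16S.q1_lt h hG P.1
    zero := fun P => by
      have h1 := H16S.q1_zero (i := i) hG P.1
      constructor
      · intro h0
        have h2 : tt P.1.1 = 0 := congrArg Subtype.val h0
        have h3 : tG i hG P.1 = 0 := by
          show H16S.toC i (tt P.1.1) = 0
          rw [h2, H16S.toC_zero]
        exact Subtype.ext (h1.1 h3)
      · intro h0
        have h2 : tG i hG P.1 = 0 := h1.2 (by rw [h0]; rfl)
        exact Subtype.ext ((H16S.toC_inj (i := i)).1 (h2.trans (H16S.toC_zero i).symm))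
    sub := fun P Q => H16S.q1_sub h hG P.1 Q.1
    mulp := fun P => by
      have h1 := H16S.q3 h hA hS hG P.1
      rw [hpn] at h1
      have h2 : tG i hG (p • P.1) - p * tG i hG P.1 + tG i hG P.1 ^ p ^ 2 =
          H16S.toC i (((tK hG J (p • P) - (p : KJ J) * tK hG J P + tK hG J P ^ p ^ 2 : KJ J)) : Ω) := by
        have h3 : (((tK hG J (p • P) - (p : KJ J) * tK hG J P + tK hG J P ^ p ^ 2 : KJ J)) : Ω) =
            tt (p • P.1 : H55K.kerG hG).1 - (p : Ω) * tt P.1.1 + tt P.1.1 ^ p ^ 2 := rfl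
        rw [h3, H16S.toC_add, H16S.toC_sub, H16S.toC_mul, H16S.toC_pow, H16S.toC_nat]
        rfl
      rw [h2, H16S.toC_norm] at h1
      exact h1
    act := fun P => Subtype.ext (H55K.tt_ac (WAB A B) σ P.1.1)
    pt := fun z hz => by
      obtain ⟨P, hP, hfix⟩ := SSA.b2_pt h hA hG (z := (z : Ω)) hz
      exact ⟨⟨P, fun s hs => hfix s (b.dec s hs) (mem_KJ.1 z.2 s hs)⟩, Subtype.ext ((H16S.toC_inj (i := i)).1 hP)⟩
    div := fun P h1 => by
      have h2 : ‖tG i hG P.1‖ ≤ ‖(p : H16S.OC i)‖ ^ 2 := by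
        rw [hpn]
        exact h1
      obtain ⟨Q, hQ, hpQ, hfix⟩ := SSA.b2_div h hA hS hG h2
      have h4 : ∀ s ∈ J, ac (WAB A B) s Q.1 = Q.1 := fun s hs => by
        have h3 : gG hG (b.dec s hs) P.1 = P.1 := Subtype.ext (P.2 s hs)
        exact congrArg Subtype.val (hfix s (b.dec s hs) h3)
      refine ⟨⟨Q, h4⟩, ?_, Subtype.ext hpQ, fun h5 => ?_⟩
      · rw [← hpn]
        exact hQ
      · exact Subtype.ext (hfix σ (H55P.inert_dec V σ b.inert) (congrArg Subtype.val h5)) }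

end SSN
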