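import Mathlib
import Pool.Agent.Lib.SSN.W6
import Pool.Agent.Lib.SSN.W7
import Pool.Agent.Lib.SSA.B4
import Pool.Agent.Lib.SSA.B5
import Pool.Agent.Lib.H19C.TR

/-! # SSN, chunk W8: a point of norm zero -/

open NumberField IsDedekindDomain WeierstrassCurve

namespace SSN

open H55P (IQ Pt ac Dec Inert decS Nm Ram)
open H35P (WAB Ker tt)
open H55K (Tor CMA Dta GV ak cj xc yc Lft TFld Abw exists_abw)
open H55K.S
open H55R (Pl ord smulP)
open H19B (DN mem_DN Cc CS mem_CS)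
open H19C (SUs mem_SUs SUs_act CL mem_CL KR dl)
open H13S (Abv)
open H13X (Dat IsTB DecN algNL JV)
open H13Y (guN)

open H16S (Ctx Sup tG gG)
open SSA (PJ sJ mem_PJ sJ_val)

variable {F : Type} [Field F] [NumberField F] [IQ F] {A B : F} {Om : ℂ} {Ω : Type} [Field Ω] [DecidableEq Ω]
  [Algebra F Ω] [IsAlgClosure F Ω] {j : Ω →+* ℂ} {act : 𝓞 F →+* AddMonoid.End (Pt (WAB A B) Ω)} {V : ValuationSubring Ω}
  {C : Type} [NormedField C] [IsUltrametricDist C] {i : Ω →+* C} {p e t : ℕ} {J : Subgroup (Ω ≃ₐ[F] Ω)} {σ : Ω ≃ₐ[F] Ω} {w : Ω}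

/-- Chunk W8 (M), two theorems. PROOF of w8_mul. If p • ... : let R n = (n + 1) • Q (fixed by DN N' V). If no R n is in the kernel then H19C.tr_pig (hG, h.pr, π = (p : 𝓞 F), h.inert, dvd_rfl, V(p) < 1: ak Ω (p : 𝓞 F) = (p : Ω) by simp [ak]) gives n < m with Ker V (R m - R n) = Ker V ((m - n) • Q) = Ker V (R (m - n - 1)): contradiction.
So Ker V (n • Q) for some n ≥ 1; n = p^a m with p not dividing m (Nat.exists_eq_pow_mul_and_not_dvd); SSA.b4 a times: Ker V (m • Q). -/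
theorem w8_mul (h : Ctx F p V i) (hA : CMA F A B Om j act) (hS : Sup act p) (hG : GV A B V) {N' : IntermediateField F Ω} [NumberField N']
    {v : HeightOneSpectrum (𝓞 N')} (hv : Abv N' V v) {Q : Pt (WAB A B) Ω} (hQ : ∀ s ∈ DN N' V, ac (WAB A B) s Q = Q) :
    ∃ m : ℕ, ¬ p ∣ m ∧ Ker V (m • Q) := by
  have hex : ∃ n : ℕ, n ≠ 0 ∧ Ker V (n • Q) := by
    by_contra hcon
    push Not at hcon
    have hV : V.valuation (ak Ω ((p : ℕ) : 𝓞 F)) < 1 := by
      have e : ak Ω ((p : ℕ) : 𝓞 F) = (p : Ω) := by simp [ak]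
      rw [e]
      exact h.above
    obtain ⟨n, m, hnm, hK⟩ := H19C.tr_pig hG h.pr h.inert (dvd_refl _) hV N' hv (fun n => (n + 1) • Q)
      (fun n s hs => by rw [map_nsmul, hQ s hs]) (fun n => hcon (n + 1) (Nat.succ_ne_zero n))
    have h1 : (m + 1) • Q - (n + 1) • Q = (m - n) • Q := by
      rw [sub_eq_iff_eq_add, ← add_nsmul]
      congr 1
      omega
    refine hcon (m - n) (by omega) ?_
    rw [← h1]
    exact hK
  obtain ⟨n, hn0, hK⟩ := hex
  obtain ⟨a, m, hm, rfl⟩ := Nat.exists_eq_pow_mul_and_not_dvd hn0 p h.pr.ne_one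
  have key : ∀ a : ℕ, Ker V ((p ^ a * m) • Q) → Ker V (m • Q) := by
    intro a
    induction a with
    | zero =>
      intro h1
      rwa [pow_zero, one_mul] at h1
    | succ a ih =>
      intro h1
      refine ih (SSA.b4 h hS hG _ ?_)
      rwa [pow_succ', mul_assoc, mul_smul] at h1
  exact ⟨m, hm, key a hK⟩

/-- PROOF. w7_vf, w7_pt with J = DN N' V; ‖iK i J (p : KJ J)‖ < 1 (H16S.n1_p h). w6_main: P in PJ hG J with NrG P = 0, ‖τ P‖ = r^(t-1). x = P.1.1: fixed by J; the sum of the ac (σ^k) x is (NrG P).1.1 = 0 (SSA.b5_pow, SSA.b5_sum). If x = ac σ Q - Q with Q fixed by J: w8_mul gives m, m • Q as an element Q' of PJ hG J (fixed by J), m • P = S Q' - Q'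
(coordinates: Subtype.ext twice): contradiction with w6_not. -/
theorem w8 [CompleteSpace C] (h : Ctx F p V i) (hA : CMA F A B Om j act) (hS : Sup act p) (hG : GV A B V) {N' : IntermediateField F Ω} [NumberField N']
    {v : HeightOneSpectrum (𝓞 N')} (hv : Abv N' V v) (b : BrT p e t V i (DN N' V) σ w) :
    ∃ x : Pt (WAB A B) Ω, (∀ s ∈ DN N' V, ac (WAB A B) s x = x) ∧ ∑ k ∈ Finset.range p, ac (WAB A B) (σ ^ k) x = 0 ∧
      ∀ Q : Pt (WAB A B) Ω, (∀ s ∈ DN N' V, ac (WAB A B) s Q = Q) → x ≠ ac (WAB A B) σ Q - Q := by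
  have hvf := w7_vf h b
  have hpt := w7_pt h hA hS hG b
  have hp1 : ‖iK i (DN N' V) ((p : ℕ) : KJ (DN N' V))‖ < 1 := by
    rw [iK_apply]
    exact (H16S.n1_p h).1
  obtain ⟨P, hP0, hPt⟩ := w6_main hvf hpt hp1
  refine ⟨P.1.1, P.2, ?_, ?_⟩
  · have h7 : NrG p (sJ hG (H55P.inert_dec V σ b.inert) b.nrm) P =
        ∑ k ∈ Finset.range p, (sJ hG (H55P.inert_dec V σ b.inert) b.nrm ^ k : AddMonoid.End (PJ hG (DN N' V))) P := by
      unfold NrG
      exact AddMonoidHom.finset_sum_apply _ _ _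
    rw [h7] at hP0
    have h8 := congrArg (fun R : PJ hG (DN N' V) => R.1.1) hP0
    beta_reduce at h8
    rw [SSA.b5_sum] at h8
    simp only [SSA.b5_pow] at h8
    rw [h8]
    rfl
  · intro Q hQ hne
    obtain ⟨m, hm, hmK⟩ := w8_mul h hA hS hG hv hQ
    have hfix : ∀ s ∈ DN N' V, ac (WAB A B) s (m • Q) = m • Q := fun s hs => by rw [map_nsmul, hQ s hs]
    refine w6_not hvf hpt hp1 hPt hm (⟨⟨m • Q, hmK⟩, hfix⟩ : PJ hG (DN N' V)) ?_
    apply Subtype.ext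
    apply Subtype.ext
    show m • P.1.1 = ac (WAB A B) σ (m • Q) - m • Q
    rw [hne, map_nsmul, smul_sub]

end SSN
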