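import Mathlib

/-! # SSN, chunk W9: the inflated cocycle (only Mathlib) -/

namespace SSN

/-- Chunk W9 (M), ONLY MATHLIB. PROOF. f : Γ → M, f s = ∑ l < k, ρ (σ^l) x if s = σ^k n with n in D' (k, n chosen by hg for s in D), 0 outside D. Well defined: if σ^k n = σ^k' n', k ≤ k', then σ^(k'-k) is in D', so p divides k' - k (hσ': write k' - k = p a + b, σ^b in D' gives b = 0), and the sums of ρ (σ^l) x over a block of p consecutive l is 0
(it is ρ (σ^k) of the sum hN, and ρ (σ^(k + p)) x = ρ (σ^k) x because σ^p is in D' and hx). f (s t) = f s + ρ s (f t) for s = σ^k n, t = σ^m n': s t = σ^k n σ^m n' = σ^(k+m) (σ^(-m) n σ^m) n' and σ^(-m) n σ^m is in D' (hn, induction); ρ s (ρ (σ^l) x) = ρ (σ^k) ρ (n σ^l) x = ρ (σ^(k+l)) ρ (σ^(-l) n σ^l) x = ρ (σ^(k+l)) x. f = 0 on D' (k = 0; independence of the choice).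
S = ∑ l < p, f (σ^l): for s in D the elements s σ^l (l < p) run through the cosets of D' in D, f (s σ^l n) = f (s σ^l) for n in D' (cocycle, f n = 0), so ∑ l < p, f (s σ^l) = S (permutation of l modulo p; it is enough to prove it for s = σ (shift: f (σ^p) = 0) and for s = n in D' (n σ^l = σ^l (σ^(-l) n σ^l)), or directly for s = σ^k n). Hence S = p • f s + ρ s S.
Choose R' with p • R' = S (hdiv): p • (f s + ρ s R' - R') = S - ρ s S + ρ s S - S = 0. c s = f s + ρ s R' - R', R = R'. Cocycle: f is one. On D': c s = ρ s R' - R'. If c s = ρ s P - P on D then f s = ρ s (P - R') - (P - R'); Q = P - R': for s in D' f s = 0 so Q is fixed by D'; s = σ: f σ = x. -/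
theorem w9 {Γ M : Type} [Group Γ] [AddCommGroup M] (ρ : Γ →* AddMonoid.End M) {D D' : Subgroup Γ} (hle : D' ≤ D) {p : ℕ} (hp : 1 < p)
    {σ : Γ} (hσ : σ ∈ D) (hσp : σ ^ p ∈ D') (hσ' : ∀ k, 0 < k → k < p → σ ^ k ∉ D') (hn : ∀ s ∈ D', σ⁻¹ * s * σ ∈ D')
    (hg : ∀ s ∈ D, ∃ (k : ℕ) (n : Γ), n ∈ D' ∧ s = σ ^ k * n) {x : M} (hx : ∀ s ∈ D', ρ s x = x)
    (hN : ∑ k ∈ Finset.range p, ρ (σ ^ k) x = 0) (hdiv : ∀ y : M, ∃ z, p • z = y) :
    ∃ (c : Γ → M) (R : M), (∀ s ∈ D, ∀ u ∈ D, c (s * u) = c s + ρ s (c u)) ∧ (∀ s ∈ D, p • c s = 0) ∧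
      (∀ s ∈ D', c s = ρ s R - R) ∧
      ∀ P : M, (∀ s ∈ D, c s = ρ s P - P) → ∃ Q : M, (∀ s ∈ D', ρ s Q = Q) ∧ x = ρ σ Q - Q := by
  have hmul : ∀ (s u : Γ) (y : M), ρ (s * u) y = ρ s (ρ u y) := by
    intro s u y; rw [map_mul]; rfl
  have hone : ∀ y : M, ρ 1 y = y := by
    intro y; rw [map_one]; rfl
  -- conjugation
  have hconj : ∀ (m : ℕ), ∀ n ∈ D', (σ ^ m)⁻¹ * n * σ ^ m ∈ D' := by
    intro m
    induction m with
    | zero => intro n hn'; simpa using hn'
    | succ m ih =>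
      intro n hn'
      have h := hn _ (ih n hn')
      have e : (σ ^ (m + 1))⁻¹ * n * σ ^ (m + 1) = σ⁻¹ * ((σ ^ m)⁻¹ * n * σ ^ m) * σ := by
        rw [pow_succ]; group
      rw [e]; exact h
  have hfix : ∀ (l : ℕ), ∀ n ∈ D', ρ n (ρ (σ ^ l) x) = ρ (σ ^ l) x := by
    intro l n hn'
    have e : n * σ ^ l = σ ^ l * ((σ ^ l)⁻¹ * n * σ ^ l) := by group
    rw [← hmul, e, hmul, hx _ (hconj l n hn')]
  set g : ℕ → M := fun k => ∑ l ∈ Finset.range k, ρ (σ ^ l) x with hg'
  have gfix : ∀ (k : ℕ), ∀ n ∈ D', ρ n (g k) = g k := by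
    intro k n hn'
    simp only [hg', map_sum]
    exact Finset.sum_congr rfl fun l _ => hfix l n hn'
  have gadd : ∀ k m, g (k + m) = g k + ρ (σ ^ k) (g m) := by
    intro k m
    simp only [hg', map_sum]
    rw [Finset.sum_range_add]
    congr 1
    exact Finset.sum_congr rfl fun l _ => by rw [pow_add, hmul]
  have gp : g p = 0 := hN
  have gper : ∀ k, g (k + p) = g k := by
    intro k; rw [gadd, gp, map_zero, add_zero]
  have gperm : ∀ a k, g (k + p * a) = g k := by
    intro a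
    induction a with
    | zero => intro k; simp
    | succ a ih => intro k; rw [Nat.mul_succ, ← add_assoc, gper, ih]
  have hdvd : ∀ j : ℕ, σ ^ j ∈ D' → p ∣ j := by
    intro j hj
    have h1 : σ ^ (j % p) ∈ D' := by
      have e : σ ^ (j % p) = ((σ ^ p) ^ (j / p))⁻¹ * σ ^ j := by
        conv_rhs => rw [← Nat.div_add_mod j p, pow_add, pow_mul]
        rw [Nat.div_add_mod j p]
        group
      rw [e]
      exact D'.mul_mem (D'.inv_mem (D'.pow_mem hσp _)) hj
    rcases Nat.eq_zero_or_pos (j % p) with h0 | h0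
    · exact Nat.dvd_of_mod_eq_zero h0
    · exact absurd h1 (hσ' _ h0 (Nat.mod_lt _ (by omega)))
  have gle : ∀ (k k' : ℕ) (n n' : Γ), k ≤ k' → n ∈ D' → n' ∈ D' → σ ^ k * n = σ ^ k' * n' → g k' = g k := by
    intro k k' n n' hk hn1 hn2 he
    have h1 : σ ^ (k' - k) = n * n'⁻¹ := by
      have h2 : σ ^ k' = σ ^ k * σ ^ (k' - k) := by rw [← pow_add]; congr 1; omega
      rw [h2, mul_assoc] at he
      have h3 := mul_left_cancel he
      rw [h3]; group
    obtain ⟨a, ha⟩ := hdvd (k' - k) (by rw [h1]; exact D'.mul_mem hn1 (D'.inv_mem hn2))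
    have h4 : k' = k + p * a := by omega
    rw [h4, gperm]
  have geq : ∀ (k k' : ℕ) (n n' : Γ), n ∈ D' → n' ∈ D' → σ ^ k * n = σ ^ k' * n' → g k' = g k := by
    intro k k' n n' hn1 hn2 he
    rcases le_total k k' with h | h
    · exact gle k k' n n' h hn1 hn2 he
    · exact (gle k' k n' n h hn2 hn1 he.symm).symm
  obtain ⟨f, hf⟩ : ∃ f : Γ → M, ∀ (k : ℕ), ∀ n ∈ D', f (σ ^ k * n) = g k := by
    classical
    refine ⟨fun s => if h : s ∈ D then g (hg s h).choose else 0, ?_⟩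
    intro k n hn'
    have hD : σ ^ k * n ∈ D := D.mul_mem (D.pow_mem hσ _) (hle hn')
    simp only [hD, dif_pos]
    obtain ⟨n', hn2, he⟩ := (hg _ hD).choose_spec
    exact geq _ _ n n' hn' hn2 he
  have hfD' : ∀ s ∈ D', f s = 0 := by
    intro s hs
    have h := hf 0 s hs
    rw [pow_zero, one_mul] at h
    rw [h]; simp [hg']
  have hfσ : f σ = x := by
    have h := hf 1 1 D'.one_mem
    rw [pow_one, mul_one] at h
    rw [h]
    simp only [hg', Finset.sum_range_one, pow_zero, hone]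
  have hcoc : ∀ s ∈ D, ∀ u ∈ D, f (s * u) = f s + ρ s (f u) := by
    intro s hs u hu
    obtain ⟨k, n, hn1, rfl⟩ := hg s hs
    obtain ⟨m, n', hn2, rfl⟩ := hg u hu
    have e : σ ^ k * n * (σ ^ m * n') = σ ^ (k + m) * (((σ ^ m)⁻¹ * n * σ ^ m) * n') := by
      rw [pow_add]; group
    rw [e, hf _ _ (D'.mul_mem (hconj m n hn1) hn2), hf _ _ hn1, hf _ _ hn2, gadd, hmul, gfix m n hn1]
  set S : M := ∑ l ∈ Finset.range p, g l with hS
  have hshift : ∀ k, ∑ l ∈ Finset.range p, g (k + l) = S := by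
    intro k
    induction k with
    | zero => simp [hS]
    | succ k ih =>
      have h1 : ∑ l ∈ Finset.range (p + 1), g (k + l) = ∑ l ∈ Finset.range p, g (k + l) + g (k + p) := Finset.sum_range_succ _ _
      have h2 : ∑ l ∈ Finset.range (p + 1), g (k + l) = ∑ l ∈ Finset.range p, g (k + (l + 1)) + g (k + 0) := Finset.sum_range_succ' _ _
      rw [h1, gper, add_zero] at h2
      have h3 := add_right_cancel h2
      rw [← ih, h3]
      exact Finset.sum_congr rfl fun l _ => by congr 1; omega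
  have hSs : ∀ s ∈ D, p • f s = S - ρ s S := by
    intro s hs
    obtain ⟨k, n, hn1, rfl⟩ := hg s hs
    have h1 : ρ n S = S := by
      simp only [hS, map_sum]
      exact Finset.sum_congr rfl fun l _ => gfix l n hn1
    have h2 : ρ (σ ^ k) S = S - p • g k := by
      have h3 : S = ∑ l ∈ Finset.range p, (g k + ρ (σ ^ k) (g l)) := by
        rw [← hshift k]
        exact Finset.sum_congr rfl fun l _ => gadd k l
      rw [Finset.sum_add_distrib, Finset.sum_const, Finset.card_range, ← map_sum, ← hS] at h3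
      rw [eq_sub_iff_add_eq, add_comm]
      exact h3.symm
    rw [hf _ _ hn1, hmul, h1, h2]
    abel
  obtain ⟨R, hR⟩ := hdiv S
  refine ⟨fun s => f s + ρ s R - R, R, ?_, ?_, ?_, ?_⟩
  · intro s hs u hu
    simp only [hcoc s hs u hu, hmul, map_add, map_sub]
    abel
  · intro s hs
    simp only [smul_sub, smul_add, hSs s hs, ← map_nsmul, hR]
    abel
  · intro s hs
    simp only [hfD' s hs, zero_add]
  · intro P hP
    refine ⟨P - R, ?_, ?_⟩
    · intro s hs
      have h := hP s (hle hs)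
      simp only [hfD' s hs, zero_add] at h
      rw [map_sub]
      have h5 : ρ s P - ρ s R = (ρ s P - P) - (ρ s R - R) + (P - R) := by abel
      rw [h5, ← h]; abel
    · have h := hP σ hσ
      simp only [hfσ] at h
      rw [map_sub]
      have h5 : x = (x + ρ σ R - R) - ρ σ R + R := by abel
      rw [h5, h]; abel

end SSN
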