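import Mathlib
import Pool.Agent.Lib.SSN.W8
import Pool.Agent.Lib.SSN.W9
import Pool.Agent.Lib.SSN.LI
import Pool.Agent.Lib.SSA.D2

/-! # SSN, chunk W10: the local index drops -/

open NumberField IsDedekindDomain WeierstrassCurve

namespace SSN

open H55P (IQ Pt ac Dec Inert decS Nm Ram)
open H35P (WAB Ker tt)
open H55K (Tor CMA Dta GV ak cj xc yc Lft TFld Abw exists_abw)
open H55K.S
open H55R (Pl ord smulP)
open H19B (DN mem_DN Cc CS mem_CS)
open H19C (SUs mem_SUs SUs_act CL mem_CL KR dl)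
open H13S (Abv)
open H13X (Dat IsTB DecN algNL JV)
open H13Y (guN)

open H16S (Ctx Sup tG gG)
open SSA (PJ sJ mem_PJ sJ_val)

variable {F : Type} [Field F] [NumberField F] [IQ F] {A B : F} {Om : ℂ} {Ω : Type} [Field Ω] [DecidableEq Ω]
  [Algebra F Ω] [IsAlgClosure F Ω] {j : Ω →+* ℂ} {act : 𝓞 F →+* AddMonoid.End (Pt (WAB A B) Ω)} {V : ValuationSubring Ω}
  {C : Type} [NormedField C] [IsUltrametricDist C] {i : Ω →+* C} {p e t : ℕ} {J : Subgroup (Ω ≃ₐ[F] Ω)} {σ : Ω ≃ₐ[F] Ω} {w : Ω}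

variable {mo : Ideal (𝓞 F)} {ψ : Ideal (𝓞 F) →*₀ 𝓞 F} {l : ℕ}

/-- The step N < N' is wildly ramified with break at least 2 at V: σ in the decomposition group over N, not fixing N'. -/
structure WildAt (p : ℕ) (V : ValuationSubring Ω) (i : Ω →+* C) (N N' : IntermediateField F Ω) (σ : Ω ≃ₐ[F] Ω) : Prop where
  mem : σ ∈ N.fixingSubgroup
  inert : Inert V σ
  nmem : σ ∉ N'.fixingSubgroup
  br : ∀ ϖ, SSA.Uf V i N' ϖ → ‖i (σ ϖ - ϖ)‖ ≤ ‖i ϖ‖ ^ 3

/-- Chunk W10 (M), two theorems. PROOF of w10_cl. w8 gives x. w9 for Γ = Ω ≃ₐ[F] Ω, M = Pt, ρ = H55P.acR (WAB A B) (acR_apply), D = DN N V, D' = DN N' V (hle from hNN: mem_DN), σ in D (hσN, inert_dec), σ^p in D' and hg, hσ' from SSA.d2_cyc (Cyc p N.fixingSubgroup N'.fixingSubgroup: every element outside N'.fixingSubgroup has p-th power in it and generates;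
σ^k for 0 < k < p is not in it, otherwise σ would be, because k is prime to p and σ^p is; if s = σ^k n is in DN N V then n = σ^(-k) s has Dec V), hn = b.nrm, hdiv: the points are divisible (hA.surj (p : 𝓞 F), act_nat). c modified to be 0 outside D if necessary is not needed: c is in CS: mul; tor: act p (c s) = p • c s = 0; cont: L₁ = N' ⊔ F(coordinates of R) (or a finite extension
over which R is defined: see H19C/TR.lean tr_sel, H55P.S6), s in DN N V and in L₁.fixingSubgroup is in DN N' V (mem_DN) and fixes R: c s = 0. So c is in CL (DN N V) (DN N' V). If it were in CL (DN N V) (DN N V): P, hence Q fixed by DN N' V with x = ac σ Q - Q: contradiction with w8. -/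
theorem w10_cl [CompleteSpace C] (h : Ctx F p V i) (hA : CMA F A B Om j act) (hS : Sup act p) (hG : GV A B V) {N N' : IntermediateField F Ω}
    [NumberField N] [NumberField N'] (hNN : N ≤ N') (hn : ∀ s ∈ N.fixingSubgroup, ∀ x ∈ N', s x ∈ N')
    (hd : Module.finrank F N' = Module.finrank F N * p) {v : HeightOneSpectrum (𝓞 N')} (hv : Abv N' V v)
    (hσN : σ ∈ N.fixingSubgroup) (hσ' : σ ∉ N'.fixingSubgroup) (b : BrT p e t V i (DN N' V) σ w) :
    ∃ c ∈ CL (DN N V) (DN N' V) act (p : 𝓞 F), c ∉ CL (DN N V) (DN N V) act (p : 𝓞 F) := by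
  classical
  have hN'f : FiniteDimensional F N' := H13X.yn1_fin N'
  have hac : IsAlgClosed Ω := IsAlgClosure.isAlgClosed F
  have hch : CharZero Ω := charZero_of_injective_algebraMap (algebraMap F Ω).injective
  obtain ⟨x, hx, hN, hno⟩ := w8 h hA hS hG hv b
  obtain ⟨hsp, hgen⟩ := SSA.d2_cyc p h.pr N N' hNN hn hd σ hσN hσ'
  have hdec : Dec V σ := H55P.inert_dec V σ b.inert
  have hle : DN N' V ≤ DN N V := fun s hs =>
    mem_DN.2 ⟨IntermediateField.fixingSubgroup_antitone hNN (mem_DN.1 hs).1, (mem_DN.1 hs).2⟩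
  have hσD : σ ∈ DN N V := mem_DN.2 ⟨hσN, hdec⟩
  have hpow : ∀ k, 0 < k → k < p → σ ^ k ∉ DN N' V := by
    intro k hk0 hkp hk
    apply hσ'
    have hk' : σ ^ k ∈ N'.fixingSubgroup := (mem_DN.1 hk).1
    have hco : Nat.Coprime k p := (Nat.coprime_of_lt_prime hk0.ne' hkp h.pr).symm
    have hbz : (k : ℤ) * Nat.gcdA k p + (p : ℤ) * Nat.gcdB k p = 1 := by
      have h1 := Nat.gcd_eq_gcd_ab k p
      rw [hco] at h1
      exact_mod_cast h1.symm
    have h2 : σ = (σ ^ k) ^ Nat.gcdA k p * (σ ^ p) ^ Nat.gcdB k p := by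
      rw [← zpow_natCast, ← zpow_natCast, ← zpow_mul, ← zpow_mul, ← zpow_add, hbz, zpow_one]
    rw [h2]
    exact mul_mem (zpow_mem hk' _) (zpow_mem hsp _)
  have hg : ∀ s ∈ DN N V, ∃ (k : ℕ) (n : Ω ≃ₐ[F] Ω), n ∈ DN N' V ∧ s = σ ^ k * n := by
    intro s hs
    obtain ⟨k, n, hn', hsn⟩ := hgen s (mem_DN.1 hs).1
    refine ⟨k, n, mem_DN.2 ⟨hn', ?_⟩, hsn⟩
    have h1 : n = (σ ^ k)⁻¹ * s := by rw [hsn, inv_mul_cancel_left]
    have h2 : n ∈ DN N V := by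
      rw [h1]
      exact mul_mem (inv_mem (pow_mem hσD k)) hs
    exact (mem_DN.1 h2).2
  have hdiv : ∀ y : Pt (WAB A B) Ω, ∃ z, p • z = y := by
    intro y
    obtain ⟨z, hz⟩ := hA.surj (p : 𝓞 F) h.inert.ne_zero y
    exact ⟨z, by rw [← act_nat (act := act) p z]; exact hz⟩
  obtain ⟨c, R, hmul, htor, hcob, hcl⟩ := w9 (H55P.acR (WAB A B)) hle h.pr.one_lt hσD b.sp hpow b.nrm hg hx hN hdiv
  have hcc : Cc (DN N V) act (p : 𝓞 F) c := by
    refine ⟨hmul, fun s hs => ?_, ?_⟩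
    · rw [act_nat (act := act) p (c s)]
      exact htor s hs
    · obtain ⟨L, hL, hfix⟩ := H55P.pt_open (WAB A B) R
      refine ⟨N' ⊔ L, IntermediateField.finiteDimensional_sup N' L, fun s hs hs' => ?_⟩
      have h1 : s ∈ N'.fixingSubgroup := IntermediateField.fixingSubgroup_antitone le_sup_left hs'
      have h2 : s ∈ L.fixingSubgroup := IntermediateField.fixingSubgroup_antitone le_sup_right hs'
      rw [hcob s (mem_DN.2 ⟨h1, (mem_DN.1 hs).2⟩), H55P.acR_apply, hfix s h2, sub_self]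
  refine ⟨c, (mem_CL _ _ _ _).2 ⟨hcc, R, hcob⟩, fun hc => ?_⟩
  obtain ⟨-, P, hP⟩ := (mem_CL _ _ _ _).1 hc
  obtain ⟨Q, hQ, hxQ⟩ := hcl P hP
  exact hno Q hQ hxQ

/-- PROOF. n₁ = (CL (DN N V) (DN N V)).relIndex (CS ..) ≤ bound and ≠ 0 (loc_in with N' = N). CL (DN N V) (DN N V) ≤ CL (DN N V) (DN N' V) ≤ CS: AddSubgroup.relIndex_mul_relIndex; the first factor is ≠ 0 (as n₁ ≠ 0) and ≠ 1 (relIndex_eq_one and hc), so ≥ 2. -/
theorem w10_idx (D : Dat A B Om j act mo ψ (l : 𝓞 F) l) {N N' : IntermediateField F Ω} [NumberField N] [NumberField N'] (hNN : N ≤ N')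
    (hc : ∃ c ∈ CL (DN N V) (DN N' V) act (l : 𝓞 F), c ∉ CL (DN N V) (DN N V) act (l : 𝓞 F))
    {v : HeightOneSpectrum (𝓞 N)} (hlv : (l : 𝓞 N) ∈ v.asIdeal) (hv : Abv N V v) {b : ℕ} (hb0 : 0 < b)
    (hb : v.valuation N (algebraMap F N (((l : 𝓞 F) : F))) = WithZero.exp (-(b : ℤ))) :
    2 * (CL (DN N V) (DN N' V) act (l : 𝓞 F)).relIndex (CS (DN N V) act (l : 𝓞 F)) ≤
        Ideal.absNorm v.asIdeal ^ b * (dl l (DN N V) act (l : 𝓞 F)) ^ 2 := by
  obtain ⟨h1, h2⟩ := loc_in D (le_refl N) hlv hv hb0 hb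
  have hle : DN N' V ≤ DN N V := fun s hs =>
    mem_DN.2 ⟨IntermediateField.fixingSubgroup_antitone hNN (mem_DN.1 hs).1, (mem_DN.1 hs).2⟩
  have hle1 : CL (DN N V) (DN N V) act (l : 𝓞 F) ≤ CL (DN N V) (DN N' V) act (l : 𝓞 F) := by
    intro c hc
    obtain ⟨hc1, P, hP⟩ := (mem_CL _ _ _ _).1 hc
    exact (mem_CL _ _ _ _).2 ⟨hc1, P, fun s hs => hP s (hle hs)⟩
  have hle2 : CL (DN N V) (DN N' V) act (l : 𝓞 F) ≤ CS (DN N V) act (l : 𝓞 F) := fun c hc =>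
    (mem_CS _ _ _).2 ((mem_CL _ _ _ _).1 hc).1
  have h3 := AddSubgroup.relIndex_mul_relIndex _ _ _ hle1 hle2
  rw [← h3] at h1 h2
  have h4 : (CL (DN N V) (DN N V) act (l : 𝓞 F)).relIndex (CL (DN N V) (DN N' V) act (l : 𝓞 F)) ≠ 1 := by
    intro h5
    obtain ⟨c, hc1, hc2⟩ := hc
    exact hc2 (AddSubgroup.relIndex_eq_one.1 h5 hc1)
  have h5 := left_ne_zero_of_mul h1
  have h6 : 2 ≤ (CL (DN N V) (DN N V) act (l : 𝓞 F)).relIndex (CL (DN N V) (DN N' V) act (l : 𝓞 F)) := by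
    omega
  exact (Nat.mul_le_mul_right _ h6).trans h2

end SSN
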