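import Mathlib
import Pool.Agent.Lib.SSN.W10
import Pool.Agent.Lib.SSA.D2
import Pool.Agent.Lib.H19C.FU

/-! # SSN, chunk W12: the arithmetic of a wildly ramified step -/

open NumberField IsDedekindDomain WeierstrassCurve

namespace SSN

open H55P (IQ Pt ac Dec Inert decS Nm Ram)
open H35P (WAB Ker tt)
open H55K (Tor CMA Dta GV ak cj xc yc Lft TFld Abw exists_abw)
open H55K.S
open H55R (Pl ord smulP)
open H19B (DN mem_DN Cc CS mem_CS)
open H19C (SUs mem_SUs SUs_act CL mem_CL KR dl)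
open H13S (Abv)
open H13X (Dat IsTB DecN algNL JV)
open H13Y (guN)

open H16S (Ctx Sup tG gG)
open SSA (PJ sJ mem_PJ sJ_val)

variable {F : Type} [Field F] [NumberField F] [IQ F] {A B : F} {Om : ℂ} {Ω : Type} [Field Ω] [DecidableEq Ω]
  [Algebra F Ω] [IsAlgClosure F Ω] {j : Ω →+* ℂ} {act : 𝓞 F →+* AddMonoid.End (Pt (WAB A B) Ω)} {V : ValuationSubring Ω}
  {C : Type} [NormedField C] [IsUltrametricDist C] {i : Ω →+* C} {p e t : ℕ} {J : Subgroup (Ω ≃ₐ[F] Ω)} {σ : Ω ≃ₐ[F] Ω} {w : Ω}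

theorem w12_sub (u v : C) : ‖u - v‖ ≤ max ‖u‖ ‖v‖ := by
  have h := IsUltrametricDist.norm_add_le_max u (-v)
  rwa [norm_neg, ← sub_eq_add_neg] at h

theorem w12_prod {x : Ω} (hx : ‖i x‖ ≤ 1) (f : ℕ → Ω) (hf : ∀ k, ‖i (f k)‖ ≤ 1 ∧ ‖i (f k - x)‖ < 1) (m : ℕ) :
    ‖i ((∏ k ∈ Finset.range m, f k) - x ^ m)‖ < 1 := by
  induction m with
  | zero =>
    rw [Finset.range_zero, Finset.prod_empty, pow_zero, sub_self, map_zero, norm_zero]
    exact zero_lt_one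
  | succ m ih =>
    have e : (∏ k ∈ Finset.range (m + 1), f k) - x ^ (m + 1) = ((∏ k ∈ Finset.range m, f k) - x ^ m) * f m + x ^ m * (f m - x) := by
      rw [Finset.prod_range_succ, pow_succ]
      ring
    rw [e, map_add]
    refine lt_of_le_of_lt (IsUltrametricDist.norm_add_le_max _ _) (max_lt ?_ ?_)
    · rw [map_mul, norm_mul]
      exact lt_of_le_of_lt (mul_le_of_le_one_right (norm_nonneg _) (hf m).1) ih
    · rw [map_mul, norm_mul, map_pow, norm_pow]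
      exact lt_of_le_of_lt (mul_le_of_le_one_left (norm_nonneg _) (pow_le_one₀ (norm_nonneg _) hx)) (hf m).2

/-- The p-th power is injective modulo the maximal ideal. -/
theorem w12_frob (h : Ctx F p V i) {x y : Ω} (hx : ‖i x‖ ≤ 1) (hy : ‖i y‖ ≤ 1) (hxy : ‖i (x ^ p - y ^ p)‖ < 1) : ‖i (x - y)‖ < 1 := by
  obtain ⟨r, hr⟩ := exists_add_pow_prime_eq h.pr (⟨x, (h.mem x).2 hx⟩ : V) (-⟨y, (h.mem y).2 hy⟩ : V)
  have hodd : Odd p := h.pr.odd_of_ne_two (by
    have := h.five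
    omega)
  have h2 : (x + -y) ^ p = x ^ p + (-y) ^ p + (p : Ω) * x * (-y) * (r : Ω) := congrArg (fun z : V => (z : Ω)) hr
  have h1 : (x - y) ^ p = (x ^ p - y ^ p) + (p : Ω) * (-(x * y * (r : Ω))) := by
    rw [sub_eq_add_neg, h2, hodd.neg_pow]
    ring
  have h4 : ‖i ((x - y) ^ p)‖ < 1 := by
    rw [h1, map_add]
    refine lt_of_le_of_lt (IsUltrametricDist.norm_add_le_max _ _) (max_lt hxy ?_)
    rw [map_mul, norm_mul]
    refine lt_of_le_of_lt (mul_le_of_le_one_right (norm_nonneg _) ?_) (H16S.n1_p h).1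
    rw [map_neg, norm_neg, map_mul, map_mul, norm_mul, norm_mul]
    exact mul_le_one₀ (mul_le_one₀ hx (norm_nonneg _) hy) (norm_nonneg _) ((h.mem _).1 r.2)
  rw [map_pow, norm_pow] at h4
  by_contra hcon
  rw [not_lt] at hcon
  exact absurd h4 (not_lt.2 (one_le_pow₀ hcon))

theorem w12_cyc (h : Ctx F p V i) {N N' : IntermediateField F Ω} [NumberField N] [NumberField N'] (hNN : N ≤ N')
    (hn : ∀ s ∈ N.fixingSubgroup, ∀ x ∈ N', s x ∈ N') (hd : Module.finrank F N' = Module.finrank F N * p) :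
    SSA.Cyc p N.fixingSubgroup N'.fixingSubgroup := by
  have hac : IsAlgClosed Ω := IsAlgClosure.isAlgClosed F
  have halg : Algebra.IsAlgebraic F Ω := IsAlgClosure.isAlgebraic
  have hch : CharZero Ω := charZero_of_injective_algebraMap (algebraMap F Ω).injective
  have hfN : FiniteDimensional F N' := FiniteDimensional.right ℚ F N'
  exact SSA.d2_cyc p h.pr N N' hNN hn hd

/-- σ fixes N' if it fixes a uniformizer. -/
theorem w12_fix (h : Ctx F p V i) {N' : IntermediateField F Ω} (hσi : Inert V σ) {c : Ω} (hc0 : c ≠ 0) (hcN : c ∈ N') (hc1 : ‖i c‖ < 1)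
    (hσc : σ c = c) (hle : ∀ x ∈ N', ‖i x‖ < 1 → ‖i x‖ ≤ ‖i c‖) (hres : ∀ x ∈ N', ‖i x‖ ≤ 1 → ∃ z ∈ N', σ z = z ∧ ‖i (x - z)‖ < 1) :
    σ ∈ N'.fixingSubgroup := by
  have halg : Algebra.IsAlgebraic F Ω := IsAlgClosure.isAlgebraic
  have hσd := H55P.inert_dec V σ hσi
  have hcp : 0 < ‖i c‖ := norm_pos_iff.2 ((map_ne_zero i).2 hc0)
  have key : ∀ n : ℕ, ∀ x ∈ N', ‖i x‖ ≤ 1 → ‖i (σ x - x)‖ ≤ ‖i c‖ ^ n := by
    intro n
    induction n with
    | zero =>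
      intro x _ hx
      rw [pow_zero, map_sub]
      refine (w12_sub _ _).trans (max_le ?_ hx)
      rw [H16S.n1_dec h hσd]
      exact hx
    | succ n ih =>
      intro x hxN hx
      obtain ⟨z, hz, hσz, hxz⟩ := hres x hxN hx
      have h1 : (x - z) / c ∈ N' := N'.div_mem (N'.sub_mem hxN hz) hcN
      have h2 : ‖i ((x - z) / c)‖ ≤ 1 := by
        rw [map_div₀, norm_div, div_le_one₀ hcp]
        exact hle _ (N'.sub_mem hxN hz) hxz
      have h3 := ih _ h1 h2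
      have h4 : σ x - x = c * (σ ((x - z) / c) - (x - z) / c) := by
        rw [map_div₀, map_sub, hσc, hσz]
        field_simp
        ring
      rw [h4, map_mul, norm_mul, pow_succ', ]
      exact mul_le_mul_of_nonneg_left h3 hcp.le
  have key2 : ∀ x ∈ N', ‖i x‖ ≤ 1 → σ x = x := by
    intro x hxN hx
    have h1 : ‖i (σ x - x)‖ = 0 := by
      refine le_antisymm ?_ (norm_nonneg _)
      refine ge_of_tendsto' (tendsto_pow_atTop_nhds_zero_of_lt_one hcp.le hc1) fun n => key n x hxN hx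
    rw [norm_eq_zero, map_eq_zero, sub_eq_zero] at h1
    exact h1
  rw [IntermediateField.mem_fixingSubgroup_iff]
  intro x hxN
  obtain ⟨n, hn⟩ : ∃ n : ℕ, ‖i x‖ * ‖i c‖ ^ n ≤ 1 := by
    have h1 : Filter.Tendsto (fun n : ℕ => ‖i x‖ * ‖i c‖ ^ n) Filter.atTop (nhds (‖i x‖ * 0)) :=
      (tendsto_pow_atTop_nhds_zero_of_lt_one hcp.le hc1).const_mul _
    rw [mul_zero] at h1
    obtain ⟨n, hn⟩ := (h1.eventually (gt_mem_nhds (zero_lt_one' ℝ))).exists
    exact ⟨n, hn.le⟩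
  have h1 := key2 (x * c ^ n) (N'.mul_mem hxN (pow_mem hcN n)) (by
    rw [map_mul, norm_mul, map_pow, norm_pow]
    exact hn)
  rw [map_mul, map_pow, hσc] at h1
  exact mul_right_cancel₀ (pow_ne_zero n hc0) h1

/-- Chunk W12 (M/L), four theorems. PROOF of w12_n. b = product over k < p of (σ^k) x. It is fixed by N.fixingSubgroup: by SSA.d2_cyc every element of N.fixingSubgroup is σ^m n with n in N'.fixingSubgroup, n (σ^k x) = σ^k x (σ^k x is in N'), and σ permutes the factors (σ^p x = x, because σ^p is in N'.fixingSubgroup). So b is in N (fixed field: H13X.ku2_mem or H55K.S.ku2_mem).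
‖i b‖ = ‖i x‖^p (H16S.n1_dec h, σ^k in Dec V). If ‖i x‖ ≤ 1: (σ^k) x - x has norm < 1 (Inert V (σ^k), inS), so ‖i (b - x^p)‖ < 1. -/
theorem w12_n (h : Ctx F p V i) {N N' : IntermediateField F Ω} [NumberField N] [NumberField N'] (hNN : N ≤ N')
    (hn : ∀ s ∈ N.fixingSubgroup, ∀ x ∈ N', s x ∈ N') (hd : Module.finrank F N' = Module.finrank F N * p)
    (hσN : σ ∈ N.fixingSubgroup) (hσi : Inert V σ) (hσ' : σ ∉ N'.fixingSubgroup) {x : Ω} (hx : x ∈ N') :
    ∃ b ∈ N, ‖i b‖ = ‖i x‖ ^ p ∧ (‖i x‖ ≤ 1 → ‖i (b - x ^ p)‖ < 1) := by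
  have halg : Algebra.IsAlgebraic F Ω := IsAlgClosure.isAlgebraic
  obtain ⟨hsp, hgen⟩ := w12_cyc h hNN hn hd σ hσN hσ'
  have hin : ∀ k : ℕ, Inert V (σ ^ k) := fun k => Subgroup.pow_mem (H55P.inS F V) hσi k
  have hdec : ∀ k : ℕ, Dec V (σ ^ k) := fun k => H55P.inert_dec V _ (hin k)
  have hσx : ∀ k : ℕ, (σ ^ k) x ∈ N' := fun k => hn _ (N.fixingSubgroup.pow_mem hσN k) x hx
  refine ⟨∏ k ∈ Finset.range p, (σ ^ k) x, ?_, ?_, ?_⟩
  · have hfix1 : ∀ g ∈ N'.fixingSubgroup, g (∏ k ∈ Finset.range p, (σ ^ k) x) = ∏ k ∈ Finset.range p, (σ ^ k) x := by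
      intro g hg
      rw [map_prod]
      exact Finset.prod_congr rfl fun k _ => (IntermediateField.mem_fixingSubgroup_iff N' g).1 hg _ (hσx k)
    have hfix2 : σ (∏ k ∈ Finset.range p, (σ ^ k) x) = ∏ k ∈ Finset.range p, (σ ^ k) x := by
      by_cases hx0 : x = 0
      · have h1 : ∏ k ∈ Finset.range p, (σ ^ k) x = 0 := by
          apply Finset.prod_eq_zero (Finset.mem_range.2 h.pr.pos)
          rw [hx0, map_zero]
        rw [h1, map_zero]
      · rw [map_prod]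
        have h1 : ∀ k, σ ((σ ^ k) x) = (σ ^ (k + 1)) x := fun k => by
          rw [pow_succ', AlgEquiv.mul_apply]
        simp only [h1]
        have h2 := Finset.prod_range_succ (fun k => (σ ^ k) x) p
        have h3 := Finset.prod_range_succ' (fun k => (σ ^ k) x) p
        have h4 : (σ ^ p) x = x := (IntermediateField.mem_fixingSubgroup_iff N' _).1 hsp x hx
        have h5 : (σ ^ 0) x = x := by rw [pow_zero]; rfl
        rw [h4] at h2
        rw [h5] at h3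
        exact mul_right_cancel₀ hx0 (h3.symm.trans h2)
    have hfix3 : ∀ m : ℕ, (σ ^ m) (∏ k ∈ Finset.range p, (σ ^ k) x) = ∏ k ∈ Finset.range p, (σ ^ k) x := by
      intro m
      induction m with
      | zero => rw [pow_zero]; rfl
      | succ m ih => rw [pow_succ, AlgEquiv.mul_apply, hfix2, ih]
    refine ku2_mem N fun s hs => ?_
    obtain ⟨m, g, hg, rfl⟩ := hgen s hs
    rw [AlgEquiv.mul_apply, hfix1 g hg, hfix3]
  · rw [map_prod, norm_prod]
    have h1 : ∀ k ∈ Finset.range p, ‖i ((σ ^ k) x)‖ = ‖i x‖ := fun k _ => H16S.n1_dec h (hdec k) x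
    rw [Finset.prod_congr rfl h1, Finset.prod_const, Finset.card_range]
  · intro hx1
    refine w12_prod hx1 (fun k => (σ ^ k) x) (fun k => ⟨?_, ?_⟩) p
    · rw [H16S.n1_dec h (hdec k)]
      exact hx1
    · exact (H16S.n1_lt1 h _).1 (hin k x ((h.mem x).2 hx1))

/-- The residue fields of N' and N are equal. PROOF. H19C.exists_res2 for N' (π = (p : 𝓞 F), h.inert, dvd_rfl, V(p) < 1; the place v' of N' below V: H13X.xg3_below or H13S.exists_below): x' in N' with ‖i (x - x')‖ < 1, ‖i x'‖ ≤ 1. w12_n: b in N with ‖i (b - x'^p)‖ < 1. H19C.exists_res2 for N: q = absNorm v, p divides q, q = p^f (a power of p: Ideal.absNorm of a prime above p; or use: p divides q and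
the map a ↦ a^p is injective on the residue field), and φ in DN N V with ‖φ y - y^q‖ < 1, so ‖y - y^q‖ < 1 for y in N, ‖i y‖ ≤ 1. q = p m: z = b^m (in N): z^p = b^q ≡ b ≡ x'^p, and (z - x')^p ≡ z^p - x'^p modulo the maximal ideal (binomial coefficients divisible by p: add_pow_char style, or sub_pow_char_of_commute in the residue field of the valuation ring), so ‖i (z - x')‖ < 1. -/
theorem w12_res (h : Ctx F p V i) {N N' : IntermediateField F Ω} [NumberField N] [NumberField N'] (hNN : N ≤ N')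
    (hn : ∀ s ∈ N.fixingSubgroup, ∀ x ∈ N', s x ∈ N') (hd : Module.finrank F N' = Module.finrank F N * p)
    (hσN : σ ∈ N.fixingSubgroup) (hσi : Inert V σ) (hσ' : σ ∉ N'.fixingSubgroup) {x : Ω} (hx : ∀ s ∈ DN N' V, s x = x)
    (hx1 : ‖i x‖ ≤ 1) : ∃ z ∈ N, ‖i (x - z)‖ < 1 := by
  have hac : IsAlgClosed Ω := IsAlgClosure.isAlgClosed F
  have halg : Algebra.IsAlgebraic F Ω := IsAlgClosure.isAlgebraic
  have hch : CharZero Ω := charZero_of_injective_algebraMap (algebraMap F Ω).injective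
  have hpV : V.valuation (ak Ω (p : 𝓞 F)) < 1 := by
    have h1 : ak Ω (p : 𝓞 F) = (p : Ω) := by
      unfold ak
      simp
    rw [h1]
    exact h.above
  have hpi : ∀ K : IntermediateField F Ω, ∃ y : K, (y : Ω) ∉ V := by
    intro K
    refine ⟨(p : K)⁻¹, ?_⟩
    have e : (((p : K)⁻¹ : K) : Ω) = (p : Ω)⁻¹ := by
      push_cast
      rfl
    rw [e, h.mem, map_inv₀, norm_inv]
    intro h1
    have h2 := (H16S.n1_p h).1
    have h3 := (H16S.n1_p h).2
    exact absurd h1 (not_le.2 ((one_lt_inv₀ h3).2 h2))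
  obtain ⟨v', hv'⟩ := H13S.exists_below N' V (hpi N')
  obtain ⟨v, hv⟩ := H13S.exists_below N V (hpi N)
  obtain ⟨-, -, -, -, -, r, hr, -, hr2⟩ := H19C.exists_res2 h.pr h.inert dvd_rfl hpV N' hv'
  obtain ⟨φ, hq1, hpq, hφ, hφ2, -⟩ := H19C.exists_res2 h.pr h.inert dvd_rfl hpV N hv
  have hle1 : ∀ y : Ω, V.valuation y ≤ 1 ↔ ‖i y‖ ≤ 1 := fun y => (V.valuation_le_one_iff y).trans (h.mem y)
  obtain ⟨k, hk⟩ := hr2 x hx ((hle1 x).2 hx1)
  have hk1 : ‖i (x - r k)‖ < 1 := (H16S.n1_lt1 h _).1 hk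
  have hk2 : ‖i (r k)‖ ≤ 1 := (hle1 _).1 (hr k).2
  obtain ⟨b, hbN, hb1, hb2⟩ := w12_n h hNN hn hd hσN hσi hσ' (hr k).1
  have hb3 := hb2 hk2
  have hb4 : ‖i b‖ ≤ 1 := by
    rw [hb1]
    exact pow_le_one₀ (norm_nonneg _) hk2
  obtain ⟨m, hm⟩ := hpq
  refine ⟨b ^ m, pow_mem hbN m, ?_⟩
  have hz1 : ‖i (b ^ m)‖ ≤ 1 := by
    rw [map_pow, norm_pow]
    exact pow_le_one₀ (norm_nonneg _) hb4
  have h5 : ‖i (b - (b ^ m) ^ p)‖ < 1 := by
    have h6 := (H16S.n1_lt1 h _).1 (hφ2 b ((hle1 b).2 hb4))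
    have h7 : φ b = b := (IntermediateField.mem_fixingSubgroup_iff N φ).1 (mem_DN.1 hφ).1 b hbN
    rw [h7, hm, mul_comm p m, pow_mul] at h6
    exact h6
  have h8 : ‖i ((r k) ^ p - (b ^ m) ^ p)‖ < 1 := by
    have e : (r k) ^ p - (b ^ m) ^ p = (b - (b ^ m) ^ p) - (b - (r k) ^ p) := by ring
    rw [e, map_sub]
    exact lt_of_le_of_lt (w12_sub _ _) (max_lt h5 hb3)
  have h9 := w12_frob h hk2 hz1 h8
  have e : x - b ^ m = (x - r k) + (r k - b ^ m) := by ring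
  rw [e, map_add]
  exact lt_of_le_of_lt (IsUltrametricDist.norm_add_le_max _ _) (max_lt hk1 h9)

/-- The ramification index is p. PROOF. ϖ a uniformizer of N' (Uf), a a uniformizer of N. ‖i a‖ = ‖i ϖ‖^r, r ≥ 1 (a in N'); w12_n for ϖ: b in N with ‖i b‖ = ‖i ϖ‖^p = ‖i a‖^m. So r m = p, r = 1 or r = p. If r = 1: every x in N' with ‖i x‖ ≤ 1 satisfies ‖i (σ x - x)‖ ≤ ‖i a‖^n for all n (induction: w12_res, x = z + a y with z in N, y in N',
σ x - x = a (σ y - y)), so σ x = x; every x in N' is a quotient of such elements (multiply by a power of a), so σ is in N'.fixingSubgroup: contradiction. -/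
theorem w12_e (h : Ctx F p V i) {N N' : IntermediateField F Ω} [NumberField N] [NumberField N'] (hNN : N ≤ N')
    (hn : ∀ s ∈ N.fixingSubgroup, ∀ x ∈ N', s x ∈ N') (hd : Module.finrank F N' = Module.finrank F N * p)
    (hσN : σ ∈ N.fixingSubgroup) (hσi : Inert V σ) (hσ' : σ ∉ N'.fixingSubgroup) {ϖ a : Ω} (hϖ : SSA.Uf V i N' ϖ) (ha : SSA.Uf V i N a) :
    ‖i a‖ = ‖i ϖ‖ ^ p := by
  have hπ0 : 0 < ‖i ϖ‖ := norm_pos_iff.2 ((map_ne_zero i).2 hϖ.ne)
  have hα0 : 0 < ‖i a‖ := norm_pos_iff.2 ((map_ne_zero i).2 ha.ne)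
  obtain ⟨r, hr⟩ := hϖ.val a ha.ne (hNN ha.mem)
  obtain ⟨b, hbN, hb1, -⟩ := w12_n h hNN hn hd hσN hσi hσ' hϖ.mem
  have hb0 : b ≠ 0 := by
    intro h0
    rw [h0, map_zero, norm_zero] at hb1
    exact absurd hb1.symm (pow_pos hπ0 p).ne'
  obtain ⟨m, hm⟩ := ha.val b hb0 hbN
  have hrm : (p : ℤ) = r * m := by
    have h1 : ‖i ϖ‖ ^ (p : ℤ) = ‖i ϖ‖ ^ (r * m) := by
      rw [zpow_natCast, ← hb1, hm, hr, zpow_mul]
    exact zpow_right_injective₀ hπ0 hϖ.lt.ne h1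
  have hr0 : 0 < r := by
    by_contra hcon
    rw [not_lt] at hcon
    have h1 : 1 ≤ ‖i ϖ‖ ^ r := by
      obtain ⟨n, hn⟩ := Int.eq_ofNat_of_zero_le (neg_nonneg.2 hcon)
      have h2 : r = -(n : ℤ) := by omega
      rw [h2, zpow_neg, zpow_natCast]
      exact (one_le_inv₀ (pow_pos hπ0 n)).2 (pow_le_one₀ hπ0.le hϖ.lt.le)
    rw [← hr] at h1
    exact absurd ha.lt (not_lt.2 h1)
  obtain ⟨n, rfl⟩ := Int.eq_ofNat_of_zero_le hr0.le
  have hnd : n ∣ p := by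
    have h1 : ((n : ℕ) : ℤ) ∣ (p : ℤ) := ⟨m, hrm⟩
    exact_mod_cast h1
  rcases (Nat.dvd_prime h.pr).1 hnd with h1 | h1
  · exfalso
    rw [h1] at hr
    have hr' : ‖i a‖ = ‖i ϖ‖ := by
      rw [hr]
      simp
    apply hσ'
    have hdecJ : ∀ x ∈ N', ∀ s ∈ DN N' V, s x = x := fun x hx s hs =>
      (IntermediateField.mem_fixingSubgroup_iff N' s).1 (mem_DN.1 hs).1 x hx
    have hσf : ∀ z ∈ N, σ z = z := (IntermediateField.mem_fixingSubgroup_iff N σ).1 hσN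
    refine w12_fix h hσi ha.ne (hNN ha.mem) ha.lt (hσf a ha.mem) ?_ ?_
    · intro x hxN hx1
      by_cases hx0 : x = 0
      · rw [hx0, map_zero, norm_zero]
        exact norm_nonneg _
      · obtain ⟨k, hk⟩ := hϖ.val x hx0 hxN
        rw [hr', hk]
        rw [hk] at hx1
        have hk1 : 1 ≤ k := by
          by_contra hcon
          rw [not_le] at hcon
          obtain ⟨n', hn'⟩ := Int.eq_ofNat_of_zero_le (show 0 ≤ -k by omega)
          have h2 : k = -(n' : ℤ) := by omega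
          rw [h2, zpow_neg, zpow_natCast] at hx1
          exact absurd hx1 (not_lt.2 ((one_le_inv₀ (pow_pos hπ0 n')).2 (pow_le_one₀ hπ0.le hϖ.lt.le)))
        obtain ⟨n', hn'⟩ := Int.eq_ofNat_of_zero_le (show 0 ≤ k - 1 by omega)
        have h2 : k = ((n' + 1 : ℕ) : ℤ) := by
          push_cast
          omega
        rw [h2, zpow_natCast, pow_succ]
        exact mul_le_of_le_one_left hπ0.le (pow_le_one₀ hπ0.le hϖ.lt.le)
    · intro x hxN hx1
      obtain ⟨z, hz, hxz⟩ := w12_res h hNN hn hd hσN hσi hσ' (hdecJ x hxN) hx1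
      exact ⟨z, hNN hz, hσf z hz, hxz⟩
  · rw [h1] at hr
    rw [hr, zpow_natCast]

/-- PROOF. w = ϖ a uniformizer of N' (SSA.l2_uf). J = DN N' V. dec, fw: mem_DN. nrm, nrm': σ maps N' onto N' (hn for σ and σ⁻¹), Dec V is a group. sp: SSA.d2_cyc. val: H13S.value_fixed (SSA.l2_val; the inertia elements of N'.fixingSubgroup are in DN N' V) gives an element of N' with the same norm, hϖ.val. valN: x is fixed by DN N V (every element of DN N V is
σ^k n with n in DN N' V: d2_cyc, σ^k in Dec V), so ‖i x‖ is the norm of an element of N (value_fixed), ‖i a‖^k = ‖i ϖ‖^(p k) (w12_e). res: w12_res (z in N is fixed by J and σ). ep: hϖ.val for p in N', the exponent is ≥ 0. br: σ ϖ ≠ ϖ (otherwise σ would fix N': expansions z + ϖ y as in w12_e, with w12_res), σ ϖ - ϖ is in N', norm = ‖i ϖ‖^k,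
k ≥ 3 by hw.br; t = k - 1. -/
theorem w12 (h : Ctx F p V i) {N N' : IntermediateField F Ω} [NumberField N] [NumberField N'] (hNN : N ≤ N')
    (hn : ∀ s ∈ N.fixingSubgroup, ∀ x ∈ N', s x ∈ N') (hd : Module.finrank F N' = Module.finrank F N * p)
    (hw : WildAt p V i N N' σ) : ∃ (e t : ℕ) (w : Ω), BrT p e t V i (DN N' V) σ w := by
  have halg : Algebra.IsAlgebraic F Ω := IsAlgClosure.isAlgebraic
  have hσN := hw.mem
  have hσi := hw.inert
  have hσ' := hw.nmem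
  have hσd : Dec V σ := H55P.inert_dec V σ hσi
  obtain ⟨hsp, hgen⟩ := w12_cyc h hNN hn hd σ hσN hσ'
  obtain ⟨ϖ, hϖ⟩ := SSA.l2_uf h N'
  obtain ⟨a, ha⟩ := SSA.l2_uf h N
  have hae := w12_e h hNN hn hd hσN hσi hσ' hϖ ha
  have hπ0 : 0 < ‖i ϖ‖ := norm_pos_iff.2 ((map_ne_zero i).2 hϖ.ne)
  have hdecJ : ∀ x ∈ N', ∀ s ∈ DN N' V, s x = x := fun x hx s hs =>
    (IntermediateField.mem_fixingSubgroup_iff N' s).1 (mem_DN.1 hs).1 x hx
  have hσf : ∀ z ∈ N, σ z = z := (IntermediateField.mem_fixingSubgroup_iff N σ).1 hσN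
  have hpos : ∀ k : ℤ, ‖i ϖ‖ ^ k < 1 → 1 ≤ k := by
    intro k hk
    by_contra hcon
    rw [not_le] at hcon
    obtain ⟨n', hn'⟩ := Int.eq_ofNat_of_zero_le (show 0 ≤ -k by omega)
    have h2 : k = -(n' : ℤ) := by omega
    rw [h2, zpow_neg, zpow_natCast] at hk
    exact absurd hk (not_lt.2 ((one_le_inv₀ (pow_pos hπ0 n')).2 (pow_le_one₀ hπ0.le hϖ.lt.le)))
  have hle : ∀ x ∈ N', ‖i x‖ < 1 → ‖i x‖ ≤ ‖i ϖ‖ := by
    intro x hxN hx1
    by_cases hx0 : x = 0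
    · rw [hx0, map_zero, norm_zero]
      exact norm_nonneg _
    · obtain ⟨k, hk⟩ := hϖ.val x hx0 hxN
      rw [hk] at hx1 ⊢
      have hk1 := hpos k hx1
      obtain ⟨n', hn'⟩ := Int.eq_ofNat_of_zero_le (show 0 ≤ k - 1 by omega)
      have h2 : k = ((n' + 1 : ℕ) : ℤ) := by
        push_cast
        omega
      rw [h2, zpow_natCast, pow_succ]
      exact mul_le_of_le_one_left hπ0.le (pow_le_one₀ hπ0.le hϖ.lt.le)
  have hσϖ : σ ϖ ≠ ϖ := by
    intro h1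
    apply hσ'
    refine w12_fix h hσi hϖ.ne hϖ.mem hϖ.lt h1 hle ?_
    intro x hxN hx1
    obtain ⟨z, hz, hxz⟩ := w12_res h hNN hn hd hσN hσi hσ' (hdecJ x hxN) hx1
    exact ⟨z, hNN hz, hσf z hz, hxz⟩
  -- the exponent e
  have hp0 := H16S.n1_p h
  obtain ⟨e, he⟩ : ∃ e : ℕ, ‖i (p : Ω)‖ = ‖i ϖ‖ ^ e := by
    have hpN : (p : Ω) ∈ N' := natCast_mem N' p
    have hp1 : (p : Ω) ≠ 0 := fun h0 => by
      rw [h0, map_zero, norm_zero] at hp0
      exact lt_irrefl _ hp0.2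
    obtain ⟨k, hk⟩ := hϖ.val _ hp1 hpN
    have hk1 := hpos k (hk ▸ hp0.1)
    obtain ⟨n', hn'⟩ := Int.eq_ofNat_of_zero_le (show 0 ≤ k by omega)
    refine ⟨n', ?_⟩
    rw [hk, hn', zpow_natCast]
  -- the break
  obtain ⟨t, ht2, ht⟩ : ∃ t : ℕ, 2 ≤ t ∧ ‖i (σ ϖ - ϖ)‖ = ‖i ϖ‖ ^ (t + 1) := by
    have h1 : σ ϖ - ϖ ∈ N' := N'.sub_mem (hn σ hσN ϖ hϖ.mem) hϖ.mem
    obtain ⟨k, hk⟩ := hϖ.val _ (sub_ne_zero.2 hσϖ) h1
    have h2 := hw.br ϖ hϖ
    rw [hk] at h2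
    have h3 : (3 : ℤ) ≤ k := by
      by_contra hcon
      rw [not_le] at hcon
      have h4 : ‖i ϖ‖ ^ (k - 3) ≤ 1 := by
        rw [zpow_sub₀ hπ0.ne']
        rw [div_le_one₀ (zpow_pos hπ0 3)]
        exact_mod_cast h2
      have h5 : 1 < ‖i ϖ‖ ^ (k - 3) := by
        obtain ⟨n', hn'⟩ := Int.eq_ofNat_of_zero_le (show 0 ≤ 3 - k by omega)
        have h6 : k - 3 = -(n' : ℤ) := by omega
        have h7 : n' ≠ 0 := by omega
        rw [h6, zpow_neg, zpow_natCast]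
        exact (one_lt_inv₀ (pow_pos hπ0 n')).2 (pow_lt_one₀ hπ0.le hϖ.lt h7)
      exact absurd h4 (not_le.2 h5)
    obtain ⟨n', hn'⟩ := Int.eq_ofNat_of_zero_le (show 0 ≤ k - 3 by omega)
    refine ⟨n' + 2, by omega, ?_⟩
    have h4 : k = ((n' + 2 + 1 : ℕ) : ℤ) := by
      push_cast
      omega
    rw [hk, h4, zpow_natCast]
  refine ⟨e, t, ϖ, ⟨fun s hs => (mem_DN.1 hs).2, hσi, ?_, ?_, ?_, hdecJ ϖ hϖ.mem, ht2, hϖ.ne, hϖ.lt, ?_, ?_, ?_, he, ht⟩⟩
  · intro s hs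
    rw [mem_DN] at hs ⊢
    refine ⟨?_, ?_⟩
    · rw [IntermediateField.mem_fixingSubgroup_iff]
      intro x hx
      rw [AlgEquiv.mul_apply, AlgEquiv.mul_apply, (IntermediateField.mem_fixingSubgroup_iff N' s).1 hs.1 _ (hn σ hσN x hx)]
      exact σ.symm_apply_apply x
    · exact (decS F V).mul_mem ((decS F V).mul_mem ((decS F V).inv_mem hσd) hs.2) hσd
  · intro s hs
    rw [mem_DN] at hs ⊢
    refine ⟨?_, ?_⟩
    · rw [IntermediateField.mem_fixingSubgroup_iff]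
      intro x hx
      rw [AlgEquiv.mul_apply, AlgEquiv.mul_apply, (IntermediateField.mem_fixingSubgroup_iff N' s).1 hs.1 _ (hn σ⁻¹ (N.fixingSubgroup.inv_mem hσN) x hx)]
      exact σ.apply_symm_apply x
    · exact (decS F V).mul_mem ((decS F V).mul_mem hσd hs.2) ((decS F V).inv_mem hσd)
  · exact mem_DN.2 ⟨hsp, (decS F V).pow_mem hσd p⟩
  · intro x hx0 hx
    exact SSA.l2_val h hϖ hx0 fun s hs => hx s (mem_DN.2 ⟨hs.1, H55P.inert_dec V s hs.2⟩)
  · intro x hx0 hx hσx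
    obtain ⟨k, hk⟩ := SSA.l2_val h ha hx0 (fun s hs => by
      obtain ⟨m, g, hg, rfl⟩ := hgen s hs.1
      have hσm : ∀ m : ℕ, (σ ^ m) x = x := by
        intro m
        induction m with
        | zero => rw [pow_zero]; rfl
        | succ m ih => rw [pow_succ, AlgEquiv.mul_apply, hσx, ih]
      have hgd : Dec V g := by
        have h1 : Dec V (σ ^ m * g) := H55P.inert_dec V _ hs.2
        have h2 : g = (σ ^ m)⁻¹ * (σ ^ m * g) := by rw [inv_mul_cancel_left]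
        rw [h2]
        exact (decS F V).mul_mem ((decS F V).inv_mem ((decS F V).pow_mem hσd m)) h1
      rw [AlgEquiv.mul_apply, hx g (mem_DN.2 ⟨hg, hgd⟩), hσm])
    refine ⟨k, ?_⟩
    rw [hk, hae, zpow_mul, zpow_natCast]
  · intro x hx hx1
    obtain ⟨z, hz, hxz⟩ := w12_res h hNN hn hd hσN hσi hσ' hx hx1
    exact ⟨z, fun s hs => hdecJ z (hNN hz) s hs, hσf z hz, hxz⟩

end SSN
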