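import Mathlib
import Pool.Agent.Lib.SSN.C2
import Pool.Agent.Lib.SSN.C4

/-! # SSN, chunk W13: the global class and the step, wild case -/

open NumberField IsDedekindDomain WeierstrassCurve

namespace SSN

open H55P (IQ Pt ac Dec Inert decS Nm Ram)
open H35P (WAB Ker tt)
open H55K (Tor CMA Dta GV ak cj xc yc Lft TFld Abw exists_abw)
open H55K.S
open H55R (Pl ord smulP)
open H19B (DN mem_DN Cc CS mem_CS)
open H19C (SUs mem_SUs SUs_act CL mem_CL KR dl)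
open H13S (Abv)
open H13X (Dat IsTB DecN algNL JV)
open H13Y (guN)

variable {F : Type} [Field F] [NumberField F] [IQ F] {A B : F} {Om : ℂ} {Ω : Type} [Field Ω] [DecidableEq Ω]
  [Algebra F Ω] [IsAlgClosure F Ω] {j : Ω →+* ℂ} {act : 𝓞 F →+* AddMonoid.End (Pt (WAB A B) Ω)} {mo : Ideal (𝓞 F)}
  {ψ : Ideal (𝓞 F) →*₀ 𝓞 F}

variable {π : 𝓞 F} {l : ℕ} {e : Pt (WAB A B) Ω → Pt (WAB A B) Ω → Ω} {N N' L : IntermediateField F Ω}
  {c c' : (Ω ≃ₐ[F] Ω) → Pt (WAB A B) Ω} {V V₀ : ValuationSubring Ω} {T₀ : Pt (WAB A B) Ω}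

theorem w13_num {ι : Type} [DecidableEq ι] (T : Finset ι) (P : ι → Prop) [DecidablePred P] (i n b : ι → ℕ) (q : ℕ)
    (h : ∀ v ∈ T, i v ≤ n v ^ b v * (if P v then q else 1)) {w : ι} (hw : w ∈ T)
    (hl : 2 * i w ≤ n w ^ b w * (if P w then q else 1)) :
    2 * ∏ v ∈ T, i v ≤ (∏ v ∈ T, n v ^ b v) * q ^ (T.filter P).card := by
  have h1 : ∏ v ∈ T, (if P v then q else 1) = q ^ (T.filter P).card := by
    rw [Finset.prod_ite, Finset.prod_const, Finset.prod_const_one, mul_one]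
  rw [← h1, ← Finset.prod_mul_distrib, ← Finset.mul_prod_erase T i hw, ← Finset.mul_prod_erase T _ hw, ← mul_assoc]
  exact Nat.mul_le_mul hl (Finset.prod_le_prod' fun v hv => h v (Finset.mem_of_mem_erase hv))

/-- Chunk W13 (M), two theorems. PROOF of glob_wild: word for word glob_in (file SSN/C2.lean) with: no tame prime; Vv chosen with Vv w₀ = V₀ (Vv v = if v = w₀ then V₀ else a chosen place above v; or Function.update); S = T.filter P; the bound: H19C.num_bound' (file H19C/GT2.lean) with the factor 2 in the place of l (prove the variant w13_num: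
2 * ∏ i v ≤ (∏ n v ^ b v) * q ^ card, from 2 * i w₀ ≤ n w₀ ^ b w₀ * (if P w₀ then q else 1), q = l ^ 2), so 2 * relIndex ≤ (l^2)^(finrank F N + S.card) and relIndex > 0: strict inequality. Local conditions: primes of T by c in YT and H19C.loc_conj; elsewhere kri_out. -/
theorem glob_wild (D : Dat A B Om j act mo ψ (l : 𝓞 F) l) [NumberField N] [NumberField N'] (hNN : N ≤ N')
    (hn : ∀ s ∈ N.fixingSubgroup, ∀ x ∈ N', s x ∈ N') {w₀ : HeightOneSpectrum (𝓞 N)} (hlw : (l : 𝓞 N) ∈ w₀.asIdeal) (hV₀ : Abv N V₀ w₀)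
    (hidx : ∀ b : ℕ, 0 < b → w₀.valuation N (algebraMap F N (((l : 𝓞 F) : F))) = WithZero.exp (-(b : ℤ)) →
      2 * (CL (DN N V₀) (DN N' V₀) act (l : 𝓞 F)).relIndex (CS (DN N V₀) act (l : 𝓞 F)) ≤
        Ideal.absNorm w₀.asIdeal ^ b * (dl l (DN N V₀) act (l : 𝓞 F)) ^ 2)
    (hmv : ∃ s ∈ N.fixingSubgroup, ∃ T ∈ Tor act (l : 𝓞 F), ac (WAB A B) s T ≠ T) :
    ∃ c, H13X.Cc act (l : 𝓞 F) N c ∧ (¬ ∃ T : Pt (WAB A B) Ω, l • T = 0 ∧ ∀ s ∈ N.fixingSubgroup, c s = ac (WAB A B) s T - T) ∧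
      ∀ V : ValuationSubring Ω, V ≠ ⊤ →
        ∃ P : Pt (WAB A B) Ω, ∀ s ∈ N'.fixingSubgroup, Dec V s → c s = ac (WAB A B) s P - P := by
  classical
  have hidx₀ := hidx
  clear hidx
  have hA := D.cma
  have hp := D.pr
  have hl := D.hl
  have hlf : Fact l.Prime := ⟨hl⟩
  have hch : CharZero Ω := charZero_of_injective_algebraMap (algebraMap F Ω).injective
  have hNf : FiniteDimensional F N := H13X.yn1_fin N
  obtain ⟨L, hL⟩ := H13X.exists_TB hA (l : 𝓞 F) hp N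
  have hLf : FiniteDimensional F L := hL.fin
  have hLn : NumberField L := NumberField.of_module_finite F L
  obtain ⟨e, he, hadj⟩ := exists_pairing2 (l : 𝓞 F) l D.dta hp D.dvd
  have hcj : cj (l : 𝓞 F) = (l : 𝓞 F) := H55K.cj_nat l
  obtain ⟨-, T₀, hT₀, hgen', hz⟩ := H55K.S.gi_gen hA (l : 𝓞 F) hp
  have hgen : ∀ T ∈ Tor act (l : 𝓞 F), ∃ a : 𝓞 F, act a T₀ = T := fun T hT => by
    obtain ⟨a, ha⟩ := hgen' T hT
    exact ⟨a, ha.symm⟩
  have h0 : T₀ ≠ 0 := by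
    intro h
    have h1 := (hz 1).1 (by rw [h, map_zero])
    exact hp.not_isUnit (isUnit_of_dvd_one h1)
  -- the primes above l
  let T : Finset (Pl N) := (H19C.fin_above N hl.ne_zero).toFinset
  have hTm : ∀ v : Pl N, v ∈ T ↔ (l : 𝓞 N) ∈ v.asIdeal := fun v => by
    rw [Set.Finite.mem_toFinset]
    exact Iff.rfl
  have hexV : ∀ v : Pl N, ∃ V : ValuationSubring Ω, Abv N V v := fun v => by
    obtain ⟨V, hV⟩ := exists_abw Ω v
    exact ⟨V, hV⟩
  obtain ⟨Vv, hVv, hVw⟩ : ∃ Vv : Pl N → ValuationSubring Ω, (∀ v, Abv N (Vv v) v) ∧ Vv w₀ = V₀ := by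
    choose Vv hVv using hexV
    refine ⟨fun v => if v = w₀ then V₀ else Vv v, fun v => ?_, if_pos rfl⟩
    by_cases hv : v = w₀
    · simp only [if_pos hv]
      rw [hv]
      exact hV₀
    · simp only [if_neg hv]
      exact hVv v
  obtain ⟨b, hb⟩ := H19C.exists_b (Ω := Ω) hp.ne_zero N
  let P : Pl N → Prop := fun v => ∀ s ∈ DN N (Vv v), ∀ X : Pt (WAB A B) Ω, act (l : 𝓞 F) X = 0 → ac (WAB A B) s X = X
  have hdl : ∀ v, (dl l (DN N (Vv v)) act (l : 𝓞 F)) ^ 2 = if P v then l ^ 2 else 1 := fun v => by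
    have h1 : dl l (DN N (Vv v)) act (l : 𝓞 F) = if P v then l else 1 := rfl
    rw [h1]
    split_ifs
    · rfl
    · exact one_pow 2
  have hlO : algebraMap (𝓞 F) (𝓞 N) (l : 𝓞 F) = (l : 𝓞 N) := map_natCast _ _
  have hidx : ∀ v ∈ T, (CL (DN N (Vv v)) (DN N' (Vv v)) act (cj (l : 𝓞 F))).relIndex (CS (DN N (Vv v)) act (cj (l : 𝓞 F))) ≠ 0 ∧
      (CL (DN N (Vv v)) (DN N' (Vv v)) act (cj (l : 𝓞 F))).relIndex (CS (DN N (Vv v)) act (cj (l : 𝓞 F))) ≤
        Ideal.absNorm v.asIdeal ^ b v * if P v then l ^ 2 else 1 := by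
    intro v hv
    rw [hcj, ← hdl]
    have hb0 : 0 < b v := by
      rcases (hb v).2 with h1 | h1
      · exact h1.2
      · exact absurd ((hTm v).1 hv) (by rw [← hlO]; exact h1.1)
    exact loc_in D hNN ((hTm v).1 hv) (hVv v) hb0 (hb v).1
  have hnorm : ∏ v ∈ T, Ideal.absNorm v.asIdeal ^ b v ≤ (l ^ 2) ^ Module.finrank F N := by
    have h1 := H19C.prod_norm_pow hp.ne_zero T b fun v _ => (hb v).1
    rw [H55K.Nm_nat] at h1
    exact h1
  have hY := H19C.yt_index (act := act) (π := (l : 𝓞 F)) (N' := N') T Vv fun v hv => (hidx v hv).1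
  -- the set S
  let S : Finset (Pl N) := T.filter P
  have hSm : ∀ v, v ∈ S → v ∈ T ∧ P v := fun v hv => Finset.mem_filter.1 hv
  have hS : ∀ v ∈ S, ∀ V : ValuationSubring Ω, Abv N V v → ∀ s, DecN N V s → ∀ T ∈ Tor act (l : 𝓞 F), ac (WAB A B) s T = T := by
    intro v hv V hV s hs' X hX
    exact H19C.fix_conj hA (hVv v) hV (l : 𝓞 F) (hSm v hv).2 s (mem_DN.2 hs') X hX
  have hcard : (H19C.YT act (l : 𝓞 F) N N' T Vv).relIndex (CS N.fixingSubgroup act (cj (l : 𝓞 F))) <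
      (l ^ 2) ^ (Module.finrank F N + S.card) := by
    have hwT : w₀ ∈ T := (hTm w₀).2 hlw
    have hw2 : 2 * (CL (DN N (Vv w₀)) (DN N' (Vv w₀)) act (cj (l : 𝓞 F))).relIndex (CS (DN N (Vv w₀)) act (cj (l : 𝓞 F))) ≤
        Ideal.absNorm w₀.asIdeal ^ b w₀ * if P w₀ then l ^ 2 else 1 := by
      rw [hcj, ← hdl, hVw]
      have hb0 : 0 < b w₀ := by
        rcases (hb w₀).2 with h1 | h1
        · exact h1.2
        · exact absurd hlw (by rw [← hlO]; exact h1.1)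
      exact hidx₀ (b w₀) hb0 (hb w₀).1
    have h4 := w13_num T P (fun v => (CL (DN N (Vv v)) (DN N' (Vv v)) act (cj (l : 𝓞 F))).relIndex
      (CS (DN N (Vv v)) act (cj (l : 𝓞 F)))) (fun v => Ideal.absNorm v.asIdeal) b (l ^ 2) (fun v hv => (hidx v hv).2) hwT hw2
    have h5 := (Nat.mul_le_mul_left 2 hY.2).trans (h4.trans (Nat.mul_le_mul_right _ hnorm))
    rw [← pow_add] at h5
    have h6 := Nat.pos_of_ne_zero hY.1
    show _ < (l ^ 2) ^ (Module.finrank F N + (T.filter P).card)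
    omega
  let _ := algNL hL.le
  have hTs : IsScalarTower F N L := IsScalarTower.of_algebraMap_eq fun x => Subtype.ext rfl
  have hTs' : IsScalarTower N L Ω := IsScalarTower.of_algebraMap_eq fun x => rfl
  obtain ⟨f, hf, c, hcY, hcK, hne⟩ := sel_in D he hadj hL hT₀ h0 hmv S hS (H19C.YT act (l : 𝓞 F) N N' T Vv) inf_le_left
    (fun a c hc => yt_smul hA T Vv a hc) hY.1 hcard
  have C : H13X.Cc act (l : 𝓞 F) N c := H19C.of_cc ((mem_CS _ _ _).1 hcY.1)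
  refine ⟨c, C, ?_, fun V hVt => ?_⟩
  · rintro ⟨X, hX, hcX⟩
    obtain ⟨X', hX', hcX'⟩ := H13X.YG3_red D C hX hcX
    exact hne fun a => kri_cob D he hL hT₀ hcK hX' hcX' a
  · obtain ⟨W, hW⟩ := H13X.xg3_below (F := F) L hVt
    have hW' : Abw V W := hW
    obtain ⟨v, hvd⟩ : ∃ v : Pl N, W.under (𝓞 N) = v := ⟨_, rfl⟩
    have hV : Abv N V v := hW'.below hvd
    by_cases hlv : (l : 𝓞 N) ∈ v.asIdeal
    · have h1 : c ∈ CL (DN N (Vv v)) (DN N' (Vv v)) act (cj (l : 𝓞 F)) := by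
        have h2 := AddSubgroup.mem_iInf.1 hcY.2
        exact h2 ⟨v, (hTm v).2 hlv⟩
      exact H19C.loc_conj C hNN hn (hVv v) hV ((mem_CL _ _ _ _).1 h1).2
    · have hVl : V.valuation (l : Ω) = 1 := by
        have h1 := H13X.yg2_unit hV (l : 𝓞 N) hlv
        have h2 : (((l : 𝓞 N) : N) : Ω) = l := by
          have e1 : ((l : 𝓞 N) : N) = l := map_natCast (algebraMap (𝓞 N) N) l
          rw [e1]
          exact map_natCast (algebraMap N Ω) l
        rwa [h2] at h1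
      refine kri_out D he hL C hNN hT₀ hgen hcK hVt hVl fun a => ?_
      have h1 : ev f a ∈ SUs L S := mem_HS.1 hf a
      refine H19C.ord_val hW' (mem_SUs.1 h1 W ?_)
      rw [hvd]
      intro h2
      exact hlv ((hTm v).1 (hSm v h2).1)

/-- PROOF: word for word step_in (file SSN/C4.lean) with glob_wild in the place of glob_in. -/
theorem step_wild (D : Dat A B Om j act mo ψ (l : 𝓞 F) l) (hell : (WAB A B).IsElliptic) {N N' : IntermediateField F Ω} [NumberField N] [NumberField N'] (hNN : N ≤ N')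
    (hn : ∀ s ∈ N.fixingSubgroup, ∀ x ∈ N', s x ∈ N') {w₀ : HeightOneSpectrum (𝓞 N)} (hlw : (l : 𝓞 N) ∈ w₀.asIdeal) (hV₀ : Abv N V₀ w₀)
    (hidx : ∀ b : ℕ, 0 < b → w₀.valuation N (algebraMap F N (((l : 𝓞 F) : F))) = WithZero.exp (-(b : ℤ)) →
      2 * (CL (DN N V₀) (DN N' V₀) act (l : 𝓞 F)).relIndex (CS (DN N V₀) act (l : 𝓞 F)) ≤
        Ideal.absNorm w₀.asIdeal ^ b * (dl l (DN N V₀) act (l : 𝓞 F)) ^ 2) :
    H13Z.SelNon (WAB A B) l N' := by
  classical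
  have hl := D.hl
  have hch : CharZero Ω := charZero_of_injective_algebraMap (algebraMap F Ω).injective
  have hNf : FiniteDimensional F N := H13X.yn1_fin N
  have hNf' : FiniteDimensional F N' := H13X.yn1_fin N'
  have hmono : ∀ s ∈ N'.fixingSubgroup, s ∈ N.fixingSubgroup := fun s hs =>
    IntermediateField.fixingSubgroup_antitone hNN hs
  have hcj : cj (l : 𝓞 F) = (l : 𝓞 F) := H55K.cj_nat l
  have hlT : ∀ T ∈ Tor act (l : 𝓞 F), l • T = 0 := fun T hT => H13X.lcb_l D (by rw [hcj]; exact hT)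
  by_cases hno : ∀ R : Pt (WAB A B) Ω, l • R = 0 → (∀ s ∈ N'.fixingSubgroup, ac (WAB A B) s R = R) → R = 0
  swap
  · push Not at hno
    obtain ⟨R, h1, h2, h3⟩ := hno
    exact non_of_tors (WAB A B) l hl N' h1 h3 h2
  obtain ⟨-, T₀, hT₀, hgen', hz⟩ := H55K.S.gi_gen D.cma (l : 𝓞 F) D.pr
  have h0 : T₀ ≠ 0 := by
    intro h
    have h1 := (hz 1).1 (by rw [h, map_zero])
    exact D.pr.not_isUnit (isUnit_of_dvd_one h1)
  have hmv : ∃ s ∈ N.fixingSubgroup, ∃ T ∈ Tor act (l : 𝓞 F), ac (WAB A B) s T ≠ T := by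
    by_contra hc
    push Not at hc
    exact h0 (hno T₀ (hlT _ hT₀) fun s hs => hc s (hmono s hs) T₀ hT₀)
  obtain ⟨c, hc, hnc, hloc⟩ := glob_wild D hNN hn hlw hV₀ hidx hmv
  refine ⟨c, ⟨fun s hs t ht => hc.mul s (hmono s hs) t (hmono t ht), ?_⟩, fun s hs =>
    H13X.lcb_l D (hc.val s (hmono s hs)), hloc, ?_⟩
  · obtain ⟨M, hM, h2⟩ := hc.cont
    exact ⟨M, hM, fun s hs hsM => h2 s (hmono s hs) hsM⟩
  · rintro ⟨T, hT, h⟩
    refine hnc ⟨T, hT, ?_⟩
    exact H13Y.cob_down (WAB A B) l hNN hn hno hc.mul (fun s hs => H13X.lcb_l D (hc.val s hs)) hT h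

end SSN
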