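import Mathlib
import Pool.Agent.Lib.SSN.W12
import Pool.Agent.Lib.SSN.W13
import Pool.Agent.Lib.SSN.C6
import Pool.Agent.Lib.SSA.D3

/-! # SSN, chunk W14: a wildly ramified step gives a Selmer class -/

open NumberField IsDedekindDomain WeierstrassCurve

namespace SSN

open H55P (IQ Pt ac Dec Inert decS Nm Ram)
open H35P (WAB Ker tt)
open H55K (Tor CMA Dta GV ak cj xc yc Lft TFld Abw exists_abw)
open H55K.S
open H55R (Pl ord smulP)
open H19B (DN mem_DN Cc CS mem_CS)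
open H19C (SUs mem_SUs SUs_act CL mem_CL KR dl)
open H13S (Abv)
open H13X (Dat IsTB DecN algNL JV)
open H13Y (guN)

open H55K.TQ (BaseH PrimeH)
open H16S (Ctx)

open Classical in
/-- Chunk W14 (M). PROOF. The beginning of SSA.alt_w0A (file SSA/D3.lean): exists_dtaAB gives A, B, j, act, dta; GV at V; hS from H16S.s1 (with W over ℤ). D : Dat A B Om j act m ψ (p : 𝓞 F) p := ⟨dta, prime, dvd_rfl⟩ (h.inert). w12: BrT p e t V i (DN N' V) σ w. v' the place of N' and w₀ the place of N below V (H13X.xg3_below or H13S.exists_below; V ≠ ⊤ as V(p) < 1),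
w10_cl, w10_idx (for every b), step_wild for WAB A B (elliptic: from hH.data.ell as in SSN/C6.lean or H13R/G6.lean), transfer to W₀⁄F: xf_short as at the end of nonsel_in. -/
theorem nonsel_wild {F : Type} [Field F] [NumberField F] [IQ F] {W : WeierstrassCurve ℤ} {Om : ℂ} {m : Ideal (𝓞 F)} {ψ : Ideal (𝓞 F) →*₀ 𝓞 F}
    {p : ℕ} {C : Type} [NormedField C] [IsUltrametricDist C] [CompleteSpace C] (hH : BaseH F (W⁄(𝓞 F)) Om m ψ) (hp : PrimeH F (W⁄(𝓞 F)) p)
    {V : ValuationSubring (AlgebraicClosure F)} {i : AlgebraicClosure F →+* C} (h : Ctx F p V i)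
    {N N' : IntermediateField F (AlgebraicClosure F)} [NumberField N] [NumberField N'] (hNN : N ≤ N')
    (hn : ∀ s ∈ N.fixingSubgroup, ∀ x ∈ N', s x ∈ N') (hd : Module.finrank F N' = Module.finrank F N * p)
    {σ : AlgebraicClosure F ≃ₐ[F] AlgebraicClosure F} (hw : WildAt p V i N N' σ) : H13Z.SelNon ((W⁄(𝓞 F))⁄F) p N' := by
  obtain ⟨A, B, j, act, hA, hB, dta⟩ := SSG.exists_dtaAB hH hp
  have hGV : H55K.GV A B V := dta.good V h.above
  have hS : H16S.Sup act p := H16S.s1 hH hp h.inert hA hB dta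
  have D : Dat A B Om j act m ψ (p : 𝓞 F) p := ⟨dta, h.inert, dvd_rfl⟩
  obtain ⟨e, t, w, b⟩ := w12 h hNN hn hd hw
  have hpi : ∀ K : IntermediateField F (AlgebraicClosure F), (((p : K)⁻¹ : K) : AlgebraicClosure F) ∉ V := by
    intro K
    have e : (((p : K)⁻¹ : K) : AlgebraicClosure F) = (p : AlgebraicClosure F)⁻¹ := by
      push_cast
      rfl
    rw [e, h.mem, map_inv₀, norm_inv]
    intro h1
    have h2 := (H16S.n1_p h).1
    have h3 := (H16S.n1_p h).2
    exact absurd h1 (not_le.2 ((one_lt_inv₀ h3).2 h2))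
  obtain ⟨v', hv'⟩ := H13S.exists_below N' V ⟨_, hpi N'⟩
  obtain ⟨w₀, hw₀⟩ := H13S.exists_below N V ⟨_, hpi N⟩
  have hc := w10_cl h dta.cma hS hGV hNN hn hd hv' hw.mem hw.nmem b
  have hlw : (p : 𝓞 N) ∈ w₀.asIdeal := by
    by_contra hcon
    have h1 := (w₀.valuation_eq_one_iff_notMem (K := N)).2 hcon
    rw [map_natCast] at h1
    refine hpi N ((hw₀ _).2 ?_)
    rw [map_inv₀, h1, inv_one]
  have hd0 := H55K.y3_ne (W⁄(𝓞 F)) hA hB hH.data.ell
  have hell : (WAB A B).IsElliptic := by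
    refine ⟨isUnit_iff_ne_zero.2 ?_⟩
    have h1 : (WAB A B).Δ = -16 * (4 * A ^ 3 + 27 * B ^ 2) := by
      simp only [WAB, WeierstrassCurve.Δ, WeierstrassCurve.b₂, WeierstrassCurve.b₄, WeierstrassCurve.b₆, WeierstrassCurve.b₈]
      ring
    rw [h1]
    exact mul_ne_zero (by norm_num) hd0
  exact H13X.xf_short (W⁄(𝓞 F)) hA hB hH.data.ell p N'
    (step_wild D hell hNN hn hlw hw₀ (fun b hb0 hb => w10_idx D hNN hc hlw hw₀ hb0 hb))

end SSN
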