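import Mathlib
import Pool.Agent.Lib.SSN.D
import Pool.Agent.Lib.SSU.G2D
import Pool.Agent.Lib.H55K.K3
import Pool.Agent.Lib.H13X.XG3
import Pool.Agent.Lib.H55P.I3

/-! # SSN, chunk W15: a nontrivial second ramification group contains a wild step of degree p -/

open NumberField IsDedekindDomain WeierstrassCurve

namespace SSN

open H55P (IQ Pt ac Dec Inert decS Nm Ram)
open H35P (WAB Ker tt)
open H55K (Tor CMA Dta GV ak cj xc yc Lft TFld Abw exists_abw)
open H55K.S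
open H55R (Pl ord smulP)
open H19B (DN mem_DN Cc CS mem_CS)
open H19C (SUs mem_SUs SUs_act CL mem_CL KR dl)
open H13S (Abv)
open H13X (Dat IsTB DecN algNL JV)
open H13Y (guN)

open H55P (PExt)

theorem w15_val {K N : Type} [Field K] [Field N] [NumberField N] [Algebra K N]
    (W : HeightOneSpectrum (𝓞 N)) (s : N ≃ₐ[K] N) (hs : ∀ x : 𝓞 N, s • x - x ∈ W.asIdeal ^ 3) (x : N)
    (hx : W.valuation N x ≤ 1) : W.valuation N (s x - x) ≤ WithZero.exp (-((3 : ℕ) : ℤ)) := by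
  obtain ⟨n, d, hnd⟩ := W.exists_primeCompl_mul_eq_of_integer x hx
  have hd : (d : 𝓞 N) ∉ W.asIdeal := d.2
  have hP := W.isPrime
  have hsd : s • (d : 𝓞 N) ∉ W.asIdeal := by
    intro h1
    have h2 := W.asIdeal.sub_mem h1 (Ideal.pow_le_self (by norm_num) (hs d))
    rw [sub_sub_cancel] at h2
    exact hd h2
  have hcoe : ∀ z : 𝓞 N, algebraMap (𝓞 N) N (s • z) = s (algebraMap (𝓞 N) N z) := fun z => rfl
  have hv1 : W.valuation N (algebraMap (𝓞 N) N (d : 𝓞 N)) = 1 :=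
    le_antisymm (W.valuation_le_one _) (not_lt.1 fun h3 => hd ((W.valuation_lt_one_iff_mem _).1 h3))
  have hv2 : W.valuation N (algebraMap (𝓞 N) N (s • (d : 𝓞 N))) = 1 :=
    le_antisymm (W.valuation_le_one _) (not_lt.1 fun h3 => hsd ((W.valuation_lt_one_iff_mem _).1 h3))
  have hx2 : s x * algebraMap (𝓞 N) N (s • (d : 𝓞 N)) = algebraMap (𝓞 N) N (s • (n : 𝓞 N)) := by
    rw [hcoe, hcoe, ← map_mul, hnd]
  have hnum : (s x - x) * (algebraMap (𝓞 N) N (s • (d : 𝓞 N)) * algebraMap (𝓞 N) N (d : 𝓞 N)) =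
      algebraMap (𝓞 N) N ((s • n - n) * d - n * (s • (d : 𝓞 N) - d) : 𝓞 N) := by
    rw [map_sub, map_mul, map_mul, map_sub, map_sub, ← hnd, ← hx2]
    ring
  have hmem : ((s • n - n) * d - n * (s • (d : 𝓞 N) - d) : 𝓞 N) ∈ W.asIdeal ^ 3 :=
    (W.asIdeal ^ 3).sub_mem ((W.asIdeal ^ 3).mul_mem_right _ (hs n))
      ((W.asIdeal ^ 3).mul_mem_left _ (hs d))
  have h3 := congrArg (W.valuation N) hnum
  rw [map_mul, map_mul, hv1, hv2, mul_one, mul_one] at h3
  rw [h3, HeightOneSpectrum.valuation_of_algebraMap]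
  exact (W.intValuation_le_pow_iff_mem _ 3).2 hmem

theorem w15_br {Ω : Type} [Field Ω] {K N : Type} [Field K] [Field N] [NumberField N] [Algebra K N] [Algebra N Ω]
    {V : ValuationSubring Ω} {W : HeightOneSpectrum (𝓞 N)} (hV : Abw V W) (s : N ≃ₐ[K] N)
    (hs : ∀ x : 𝓞 N, s • x - x ∈ W.asIdeal ^ 3) (π : N) (h1 : V.valuation (algebraMap N Ω π) < 1)
    (hmax : ∀ z : N, V.valuation (algebraMap N Ω z) < 1 →
      V.valuation (algebraMap N Ω z) ≤ V.valuation (algebraMap N Ω π)) :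
    V.valuation (algebraMap N Ω (s π - π)) ≤ V.valuation (algebraMap N Ω π) ^ 3 := by
  obtain ⟨u, hu⟩ := W.valuation_exists_uniformizer N
  have hu1 : V.valuation (algebraMap N Ω u) < 1 := by
    rw [hV.lt, hu, ← WithZero.exp_zero, WithZero.exp_lt_exp]
    norm_num
  have h2 := (hV.le _ _).1 (hmax u hu1)
  rw [hu] at h2
  have hπ : W.valuation N π ≤ 1 := ((hV.lt _).1 h1).le
  rw [← map_pow, ← map_pow, hV.le, map_pow]
  refine (w15_val W s hs π hπ).trans ?_
  have h3 : (WithZero.exp (-((3 : ℕ) : ℤ))) = WithZero.exp (-1 : ℤ) ^ 3 := by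
    rw [← WithZero.exp_nsmul]
    norm_num
  rw [h3]
  exact pow_le_pow_left₀ zero_le h2 3

theorem w15_int {F : Type} [Field F] {Ω : Type} [Field Ω] [Algebra F Ω] {K : IntermediateField F Ω}
    (g : Ω ≃ₐ[F] Ω) (hg : ∀ x ∈ K, g x ∈ K) (x : 𝓞 K) :
    ∃ z : 𝓞 K, g ((x : K) : Ω) = ((z : K) : Ω) := by
  have h1 : IsIntegral ℤ ((x : K) : Ω) := map_isIntegral_int (algebraMap K Ω) x.2
  have h2 : IsIntegral ℤ (g ((x : K) : Ω)) := map_isIntegral_int (g : Ω →+* Ω) h1
  have h3 : IsIntegral ℤ (⟨g ((x : K) : Ω), hg _ (x : K).2⟩ : K) := by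
    rw [← isIntegral_algebraMap_iff (B := Ω) (algebraMap K Ω).injective]
    exact h2
  exact ⟨⟨_, h3⟩, rfl⟩

theorem w15_pow {F : Type} [Field F] {Ω : Type} [Field Ω] [Algebra F Ω] {M K : IntermediateField F Ω}
    (hn : ∀ s ∈ M.fixingSubgroup, ∀ x ∈ K, s x ∈ K) (I : Ideal (𝓞 K)) {s : Ω ≃ₐ[F] Ω} (hs : s ∈ M.fixingSubgroup)
    (h : ∀ x y : 𝓞 K, s ((x : K) : Ω) = ((y : K) : Ω) → y - x ∈ I) (n : ℕ) :
    ∀ x y : 𝓞 K, (s ^ n) ((x : K) : Ω) = ((y : K) : Ω) → y - x ∈ I := by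
  induction n with
  | zero =>
    intro x y hxy
    have h1 : x = y := RingOfIntegers.coe_injective (Subtype.ext hxy)
    rw [h1, sub_self]
    exact I.zero_mem
  | succ n ih =>
    intro x y hxy
    rw [pow_succ', AlgEquiv.mul_apply] at hxy
    obtain ⟨z, hz⟩ := w15_int (s ^ n) (hn _ (pow_mem hs n)) x
    rw [hz] at hxy
    have h3 := I.add_mem (h z y hxy) (ih x z hz)
    rwa [sub_add_sub_cancel] at h3

theorem w15_exp {G : Type} [Group G] (H : Subgroup G) {p : ℕ} {s : G} (hs : s ∉ H) {k : ℕ}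
    (hk : s ^ p ^ k ∈ H) : ∃ n : ℕ, s ^ n ∉ H ∧ (s ^ n) ^ p ∈ H := by
  induction k with
  | zero =>
    rw [pow_zero, pow_one] at hk
    exact absurd hk hs
  | succ k ih =>
    by_cases h : s ^ p ^ k ∈ H
    · exact ih h
    · exact ⟨p ^ k, h, by rwa [← pow_mul, ← pow_succ]⟩

theorem w15_restr {F : Type} [Field F] {Ω : Type} [Field Ω] [Algebra F Ω] {K : IntermediateField F Ω}
    (g : Ω ≃ₐ[F] Ω) (h : ∀ x ∈ K, g x ∈ K) (h' : ∀ x ∈ K, g⁻¹ x ∈ K) :
    ∃ τ : K ≃ₐ[F] K, ∀ x : K, ((τ x : K) : Ω) = g (x : Ω) :=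
  ⟨{ toFun := fun x => ⟨g x, h x x.2⟩
     invFun := fun x => ⟨g⁻¹ x, h' x x.2⟩
     left_inv := fun _ => Subtype.ext (g.symm_apply_apply _)
     right_inv := fun _ => Subtype.ext (g.apply_symm_apply _)
     map_mul' := fun _ _ => Subtype.ext (map_mul g _ _)
     map_add' := fun _ _ => Subtype.ext (map_add g _ _)
     commutes' := fun _ => Subtype.ext (g.commutes _) }, fun _ => rfl⟩

theorem w15_powr {F : Type} [Field F] {Ω : Type} [Field Ω] [Algebra F Ω] {K : IntermediateField F Ω}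
    {g : Ω ≃ₐ[F] Ω} {τ : K ≃ₐ[F] K} (hτ : ∀ x : K, ((τ x : K) : Ω) = g (x : Ω)) (n : ℕ) (x : K) :
    (((τ ^ n) x : K) : Ω) = (g ^ n) (x : Ω) := by
  induction n with
  | zero => rfl
  | succ n ih => rw [pow_succ', pow_succ', AlgEquiv.mul_apply, AlgEquiv.mul_apply, hτ, ih]

/-- Chunk W15 (M/L). PROOF. ¬ G2F: a prime Q of 𝓞 K with p in Q, s in M.fixingSubgroup with (x, y in 𝓞 K, s x = y → y - x in Q^3) and x₀ in K, s x₀ ≠ x₀. Q ≠ ⊥: a HeightOneSpectrum; V above Q (H55K.exists_abw). K over M is Galois (hK.norm; H55P.s3_galois, s13_galois), Gal(K/M) is a p-group (hK.deg). s restricts to s' in Gal(K/M) (H55P.s3_restr or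
restrictNormal), s' ≠ 1, s' acts trivially modulo Q^3. Its order is p^(k+1); σ' = s'^(p^k) has order p and acts trivially modulo Q^3: s' Q = Q (s' x = x modulo Q), s'^n x - x = sum over l < n of s'^l (s' x - x) in Q^3 (or: the automorphisms acting trivially modulo Q^3 form a subgroup). H55K.exists_inert hV σ' (trivial modulo Q): σ in Gal(Ω/F), Inert V σ,
σ = σ' on K (so it fixes M). N = {x in K | σ x = x}, an intermediate field of Ω/F (K ⊓ fixedField (zpowers σ)). M ≤ N ≤ K; N.fixingSubgroup ≤ M.fixingSubgroup preserves K. Degree: the subgroup of Gal(K/M) generated by σ' has order p and fixed field N, so [K : N] = p (IntermediateField.finrank_fixedField_eq_card in K/M and multiplicativity of degrees over F).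
σ not in K.fixingSubgroup (σ' ≠ 1). Last clause: ϖ in K with V ϖ < 1 and every z in K with V z < 1 has V z ≤ V ϖ. For x in 𝓞 K: σ x - x in Q^3. Write ϖ = a / b with a, b in 𝓞 K, b not in Q (V b = 1; ϖ is integral at Q: the localization at Q, H13S.in4_val or IsLocalization.AtPrime / IsDedekindDomain.HeightOneSpectrum.. ; Abw.le compares V with the Q-adic valuation):
σ ϖ - ϖ = (b σ a - a σ b) / (b σ b) = (b (σ a - a) - a (σ b - b)) / (b σ b), numerator in Q^3, denominators V-units; elements of Q^3 have V ≤ (V ϖ)^3 (the Q-adic valuation of an element of Q^3 is ≤ exp (-3), that of ϖ is exp (-1) by maximality; Abw.le). -/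
theorem exists_wild {F : Type} [Field F] [NumberField F] {Ω : Type} [Field Ω] [Algebra F Ω] [IsAlgClosure F Ω] {p : ℕ} (hp : p.Prime)
    {M K : IntermediateField F Ω} [NumberField M] [NumberField K] (hK : PExt p M K) (hG : ¬ SSU.G2F p M K) :
    ∃ (N : IntermediateField F Ω) (V : ValuationSubring Ω) (σ : Ω ≃ₐ[F] Ω), FiniteDimensional F N ∧ M ≤ N ∧ N ≤ K ∧
      (∀ s ∈ N.fixingSubgroup, ∀ x ∈ K, s x ∈ K) ∧ Module.finrank F K = Module.finrank F N * p ∧ V.valuation (p : Ω) < 1 ∧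
      σ ∈ N.fixingSubgroup ∧ Inert V σ ∧ σ ∉ K.fixingSubgroup ∧
      ∀ ϖ ∈ K, V.valuation ϖ < 1 → (∀ z ∈ K, V.valuation z < 1 → V.valuation z ≤ V.valuation ϖ) →
        V.valuation (σ ϖ - ϖ) ≤ V.valuation ϖ ^ 3 := by
  classical
  have hac : IsAlgClosed Ω := IsAlgClosure.isAlgClosed F
  have halg : Algebra.IsAlgebraic F Ω := IsAlgClosure.isAlgebraic
  have hchar : CharZero Ω := charZero_of_injective_algebraMap (algebraMap F Ω).injective
  have hfin : FiniteDimensional F K := hK.fin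
  unfold SSU.G2F at hG
  push Not at hG
  obtain ⟨Q, hQ, hpQ, s, hs, hsQ, x₀, hx₀, hsx₀⟩ := hG
  obtain ⟨k, hk⟩ := H55P.PExt.pow p hp M K hK
  have hsK : s ∉ K.fixingSubgroup := by
    rw [IntermediateField.mem_fixingSubgroup_iff]
    intro h
    exact hsx₀ (h x₀ hx₀)
  obtain ⟨n, hn1, hn2⟩ := w15_exp K.fixingSubgroup hsK (hk s hs)
  have hgM : s ^ n ∈ M.fixingSubgroup := pow_mem hs n
  have hgQ := w15_pow hK.norm (Q ^ 3) hs hsQ n
  obtain ⟨g, hg⟩ : ∃ g, g = s ^ n := ⟨_, rfl⟩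
  rw [← hg] at hn1 hn2 hgM hgQ
  obtain ⟨τ, hτ⟩ := w15_restr g (hK.norm g hgM) (hK.norm g⁻¹ (inv_mem hgM))
  have hτ1 : τ ≠ 1 := by
    intro h
    apply hn1
    rw [IntermediateField.mem_fixingSubgroup_iff]
    intro x hx
    have h1 := hτ ⟨x, hx⟩
    rw [h] at h1
    exact h1.symm
  have hτp : τ ^ p = 1 := by
    apply AlgEquiv.ext
    intro x
    apply Subtype.ext
    rw [w15_powr hτ]
    exact (IntermediateField.mem_fixingSubgroup_iff K _).1 hn2 x x.2
  have hfp : Fact p.Prime := ⟨hp⟩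
  have hord : orderOf τ = p := orderOf_eq_prime hτp hτ1
  have hQ0 : Q ≠ ⊥ := by
    rintro rfl
    rw [Ideal.mem_bot] at hpQ
    exact hp.ne_zero (by exact_mod_cast hpQ)
  obtain ⟨W, hW⟩ : ∃ W : HeightOneSpectrum (𝓞 K), W.asIdeal = Q := ⟨⟨Q, hQ, hQ0⟩, rfl⟩
  obtain ⟨V, hV⟩ := exists_abw Ω W
  have hτQ : ∀ x : 𝓞 K, τ • x - x ∈ W.asIdeal ^ 3 := by
    intro x
    rw [hW]
    exact hgQ x (τ • x) (hτ x).symm
  obtain ⟨σ, hσi, hσ⟩ := H55K.exists_inert (F := F) (K := F) (N := K) hV τ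
    (fun x => Ideal.pow_le_self (by norm_num) (hτQ x))
  have hσ' : ∀ x : K, σ (x : Ω) = ((τ x : K) : Ω) := hσ
  have hdeg : Module.finrank (IntermediateField.fixedField (Subgroup.zpowers τ)) K = p := by
    rw [IntermediateField.finrank_fixedField_eq_card, Nat.card_zpowers, hord]
  have hτgen : ∀ y : K, τ y = y ↔ y ∈ IntermediateField.fixedField (Subgroup.zpowers τ) := by
    intro y
    rw [IntermediateField.mem_fixedField_iff]
    constructor
    · intro h f hf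
      obtain ⟨k, rfl⟩ := Subgroup.mem_zpowers_iff.1 hf
      have h1 : τ ∈ MulAction.stabilizer (K ≃ₐ[F] K) y := h
      exact zpow_mem h1 k
    · intro h
      exact h τ (Subgroup.mem_zpowers τ)
  obtain ⟨N₀, hN₀⟩ : ∃ N₀ : IntermediateField F K,
    N₀ = IntermediateField.fixedField (Subgroup.zpowers τ) := ⟨_, rfl⟩
  rw [← hN₀] at hdeg hτgen
  have hNdeg : Module.finrank F (IntermediateField.lift N₀) = Module.finrank F N₀ :=
    (IntermediateField.liftAlgEquiv N₀).toLinearEquiv.finrank_eq.symm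
  have hle : IntermediateField.lift N₀ ≤ K := IntermediateField.lift_le N₀
  have hMN : M ≤ IntermediateField.lift N₀ := by
    intro x hx
    refine (IntermediateField.mem_lift (⟨x, hK.le hx⟩ : K)).2 ((hτgen _).1 (Subtype.ext ?_))
    rw [hτ]
    exact (IntermediateField.mem_fixingSubgroup_iff M _).1 hgM x hx
  refine ⟨IntermediateField.lift N₀, V, σ, ?_, hMN, hle, ?_, ?_, ?_, ?_, hσi, ?_, ?_⟩
  · exact Module.Finite.of_injective (IntermediateField.inclusion hle).toLinearMap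
      (IntermediateField.inclusion hle).injective
  · intro s hs x hx
    refine hK.norm s ?_ x hx
    rw [IntermediateField.mem_fixingSubgroup_iff] at hs ⊢
    exact fun z hz => hs z (hMN hz)
  · rw [hNdeg, ← hdeg, Module.finrank_mul_finrank]
  · have h1 : V.valuation (algebraMap K Ω ((p : 𝓞 K) : K)) < 1 := by
      rw [hV.lt]
      exact (W.valuation_lt_one_iff_mem _).2 (by rw [hW]; exact hpQ)
    have h2 : algebraMap K Ω ((p : 𝓞 K) : K) = (p : Ω) := by
      have h3 : ((p : 𝓞 K) : K) = (p : K) := map_natCast (algebraMap (𝓞 K) K) p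
      rw [h3, map_natCast]
    rwa [h2] at h1
  · rw [IntermediateField.mem_fixingSubgroup_iff]
    intro x hx
    have h1 := (hτgen ⟨x, hle hx⟩).2 ((IntermediateField.mem_lift (⟨x, hle hx⟩ : K)).1 hx)
    have h2 := hσ' ⟨x, hle hx⟩
    rw [h1] at h2
    exact h2
  · intro h
    apply hτ1
    apply AlgEquiv.ext
    intro x
    apply Subtype.ext
    rw [← hσ' x]
    exact (IntermediateField.mem_fixingSubgroup_iff K _).1 h x x.2
  · intro ϖ hϖ hϖ1 hmax
    have h1 := w15_br hV τ hτQ ⟨ϖ, hϖ⟩ hϖ1 (fun z hz => hmax z z.2 hz)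
    have h2 : algebraMap K Ω (τ ⟨ϖ, hϖ⟩ - ⟨ϖ, hϖ⟩) = σ ϖ - ϖ := by
      rw [map_sub]
      exact congrArg (fun z => z - ϖ) (hσ' ⟨ϖ, hϖ⟩).symm
    rw [h2] at h1
    exact h1

end SSN
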