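import Mathlib
import Pool.Agent.Lib.SSN.W14
import Pool.Agent.Lib.SSN.W15
import Pool.Agent.Lib.SSA.D3
import Pool.Agent.Lib.H19B.SB

/-! # SSN, chunk W16: THE THEOREM FOR GALOIS p-EXTENSIONS, p inert -/

open NumberField IsDedekindDomain WeierstrassCurve

namespace SSN

open H55P (IQ Pt ac Dec Inert decS Nm Ram)
open H35P (WAB Ker tt)
open H55K (Tor CMA Dta GV ak cj xc yc Lft TFld Abw exists_abw)
open H55K.S
open H55R (Pl ord smulP)
open H19B (DN mem_DN Cc CS mem_CS)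
open H19C (SUs mem_SUs SUs_act CL mem_CL KR dl)
open H13S (Abv)
open H13X (Dat IsTB DecN algNL JV)
open H13Y (guN)

open H55K.TQ (BaseH PrimeH)
open H13R (BadM NoRel)
open H55P (PExt SelG ShaG PtsG)

open Classical in
/-- A nonzero class excludes the vanishing of the Selmer group. -/
theorem w16_non {F : Type} [Field F] {Ω : Type} [Field Ω] [Algebra F Ω] (W : WeierstrassCurve F) (p : ℕ) (K : IntermediateField F Ω)
    (h : H13Z.SelNon W p K) (hS : H55P.SelZero W p K) : False := by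
  obtain ⟨c, hc, hpc, hV, hT⟩ := h
  apply hT
  refine hS c hc hpc fun V => ?_
  by_cases hVt : V = ⊤
  · refine ⟨0, fun s hs hi => ?_⟩
    have h1 : s = 1 := by
      refine AlgEquiv.ext fun x => ?_
      have h2 := hi x (hVt ▸ ValuationSubring.mem_top x)
      rw [H55P.lt1_iff, hVt] at h2
      rcases h2 with h2 | h2
      · exact sub_eq_zero.1 h2
      · exact absurd (ValuationSubring.mem_top _) h2
    obtain ⟨L, hL, hLc⟩ := hc.cont
    rw [h1, hLc 1 (one_mem _) (one_mem _), map_zero, sub_zero]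
  · obtain ⟨P, hP⟩ := hV V hVt
    exact ⟨P, fun s hs hi => hP s hs (H55P.inert_dec V s hi)⟩

open Classical in
/-- Chunk W16 (S/M), two theorems. PROOF of nonsel_g2. exists_wild; i from SSG.LP.exists_embC (C = ℂ_[p], Fact p.Prime), h : Ctx F p V i as in SSA.alt_w0A; WildAt: for ϖ with Uf V i K ϖ the maximality is Uf.val and H16S.n1_lt, n1_le (‖i z‖ = ‖i ϖ‖^k, k ≥ 1); translate V.valuation (σ ϖ - ϖ) ≤ V.valuation (ϖ ^ 3) by n1_le. nonsel_wild. -/
theorem nonsel_g2 {F : Type} [Field F] [NumberField F] [IQ F] {W : WeierstrassCurve ℤ} {Om : ℂ} {m : Ideal (𝓞 F)} {ψ : Ideal (𝓞 F) →*₀ 𝓞 F}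
    {p : ℕ} (hH : BaseH F (W⁄(𝓞 F)) Om m ψ) (hp : PrimeH F (W⁄(𝓞 F)) p) (hin : (Ideal.span {(p : 𝓞 F)}).IsPrime)
    {M K : IntermediateField F (AlgebraicClosure F)} [NumberField M] [NumberField K] (hK : PExt p M K) (hG : ¬ SSU.G2F p M K) :
    H13Z.SelNon ((W⁄(𝓞 F))⁄F) p K := by
  classical
  have hfact : Fact p.Prime := ⟨hp.prime⟩
  obtain ⟨N, V, σ, hNf, hMN, hNK, hnorm, hdeg, hVp, hσN, hσi, hσK, hbr⟩ := exists_wild hp.prime hK hG
  have hNn : NumberField N := NumberField.of_module_finite F N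
  have hinP : Prime (p : 𝓞 F) := (Ideal.span_singleton_prime (Nat.cast_ne_zero.2 hp.prime.ne_zero)).1 hin
  obtain ⟨i, hi⟩ := SSG.LP.exists_embC (F := F) V hVp
  have h : H16S.Ctx F p V i := ⟨hp.prime, hp.five, hinP, hVp, hi⟩
  have hw : WildAt p V i N K σ := by
    refine ⟨hσN, hσi, hσK, fun ϖ hϖ => ?_⟩
    have h1 : V.valuation ϖ < 1 := (H16S.n1_lt1 h ϖ).2 hϖ.lt
    have h2 : ∀ z ∈ K, V.valuation z < 1 → V.valuation z ≤ V.valuation ϖ := by
      intro z hz hz1
      rcases eq_or_ne z 0 with rfl | hz0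
      · rw [map_zero]
        exact zero_le
      · obtain ⟨k, hk⟩ := hϖ.val z hz0 hz
        have h3 : ‖i z‖ < 1 := (H16S.n1_lt1 h z).1 hz1
        rw [H16S.n1_le h, hk]
        rw [hk] at h3
        have hpos : 0 < ‖i ϖ‖ := norm_pos_iff.2 ((map_ne_zero i).2 hϖ.ne)
        have hk1 : 1 ≤ k := by
          by_contra hc
          have hk0 : k ≤ 0 := by omega
          exact absurd (one_le_zpow_of_nonpos₀ hpos hϖ.lt.le hk0) (not_le.2 h3)
        calc ‖i ϖ‖ ^ k ≤ ‖i ϖ‖ ^ (1 : ℤ) := zpow_le_zpow_right_of_le_one₀ hpos hϖ.lt.le hk1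
          _ = ‖i ϖ‖ := zpow_one _
    have h3 := hbr ϖ hϖ.mem h1 h2
    rw [← map_pow, H16S.n1_le h, map_pow, norm_pow] at h3
    exact h3
  exact nonsel_wild hH hp h hNK hnorm hdeg hw

open Classical in
/-- PROOF. (⇐) SSA.selA with L = K. (⇒) SelG K: H19B.sel_downB gives SelG M (see its hypotheses; H35U/MainB.lean, selB_iffK shows how); NoRel: otherwise nonsel_in gives SelNon, which contradicts SelG (see non_abs and selB_iffK in H35U/MainB.lean for this contradiction: a class with local conditions on the decomposition groups satisfies them on the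
inertia groups; V = ⊤: Inert ⊤ s only for s = 1). G2F: nonsel_g2, the same contradiction. -/
theorem sel_iff_g2 {F : Type} [Field F] [NumberField F] [IQ F] {W : WeierstrassCurve ℤ} {Om : ℂ} {m : Ideal (𝓞 F)} {ψ : Ideal (𝓞 F) →*₀ 𝓞 F}
    {p : ℕ} (hH : BaseH F (W⁄(𝓞 F)) Om m ψ) (hp : PrimeH F (W⁄(𝓞 F)) p) (hin : (Ideal.span {(p : 𝓞 F)}).IsPrime)
    {M K : IntermediateField F (AlgebraicClosure F)} [NumberField M] [NumberField K] (hB : BadM (W⁄(𝓞 F)) M) (hK : PExt p M K) :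
    SelG p (W⁄(𝓞 F)) K ↔ SelG p (W⁄(𝓞 F)) M ∧ NoRel p (W⁄(𝓞 F)) M K ∧ SSU.G2F p M K := by
  classical
  constructor
  · intro hS
    refine ⟨H19B.sel_downB hH hp hK hK.le le_rfl hS, ?_, ?_⟩
    · by_contra hN
      exact w16_non _ p K (nonsel_in hH hp hin hK hK.le le_rfl hN) hS
    · by_contra hG
      exact w16_non _ p K (nonsel_g2 hH hp hin hK hG) hS
  · rintro ⟨hS, hN, hG⟩
    exact (SSA.selA hH hp hin ⟨W, rfl⟩ hB hK hG hK.le le_rfl hN hS).1

end SSN
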